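import Mathlib

set_option autoImplicit false
open MeasureTheory ProbabilityTheory
open scoped ENNReal

namespace Pool.Agent.VPK.M39

theorem aux_corner : volume {x : Fin 2 → ℝ | 0 < x 0 ∧ 0 < x 1 ∧ x 0 + x 1 < 1} =
    ENNReal.ofReal (1 / 2) := by
  have h1 : {x : Fin 2 → ℝ | 0 < x 0 ∧ 0 < x 1 ∧ x 0 + x 1 < 1} =
      (MeasurableEquiv.finTwoArrow (α := ℝ)) ⁻¹'
        (regionBetween (fun _ => (0 : ℝ)) (fun t => 1 - t) (Set.Ioo 0 1)) := by
    ext x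
    simp only [Set.mem_ofPred_eq, Set.mem_preimage, regionBetween, Set.mem_Ioo,
      MeasurableEquiv.finTwoArrow_apply]
    constructor
    · rintro ⟨h1, h2, h3⟩
      exact ⟨⟨h1, by linarith⟩, h2, by linarith⟩
    · rintro ⟨⟨h1, _⟩, h2, h3⟩
      exact ⟨h1, h2, by linarith⟩
  rw [h1, (volume_preserving_finTwoArrow ℝ).measure_preimage_equiv, Measure.volume_eq_prod]
  rw [volume_regionBetween_eq_integral]
  · congr 1
    rw [← integral_Ioc_eq_integral_Ioo, ← intervalIntegral.integral_of_le zero_le_one]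
    simp only [Pi.sub_apply, sub_zero]
    rw [intervalIntegral.integral_sub (by simp) (by simp)]
    simp
    norm_num
  · exact (continuous_const.integrableOn_Icc).mono_set Set.Ioo_subset_Icc_self
  · exact ((continuous_const.sub continuous_id).integrableOn_Icc).mono_set Set.Ioo_subset_Icc_self
  · exact measurableSet_Ioo
  · intro t ht
    simp only [Set.mem_Ioo] at ht
    linarith

theorem aux_tri (p q : Fin 2 → ℝ) :
    volume ((fun x : Fin 2 → ℝ => x 0 • p + x 1 • q) ''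
      {x : Fin 2 → ℝ | 0 < x 0 ∧ 0 < x 1 ∧ x 0 + x 1 < 1}) =
    ENNReal.ofReal (|p 0 * q 1 - q 0 * p 1| / 2) := by
  have h1 : (fun x : Fin 2 → ℝ => x 0 • p + x 1 • q) =
      (Matrix.toLin' (!![p 0, q 0; p 1, q 1] : Matrix (Fin 2) (Fin 2) ℝ)) := by
    funext x
    ext i
    fin_cases i <;> simp [Matrix.mulVec, dotProduct, Fin.sum_univ_two] <;> ring
  rw [h1, Measure.addHaar_image_linearMap, aux_corner, LinearMap.det_toLin', Matrix.det_fin_two_of,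
    ← ENNReal.ofReal_mul (abs_nonneg _)]
  congr 1
  ring

/-- the open triangle is in the convex set -/
theorem aux_sub (C : Set (Fin 2 → ℝ)) (hc : Convex ℝ C) (h0 : (0 : Fin 2 → ℝ) ∈ C)
    (p q : Fin 2 → ℝ) (hp : p ∈ C) (hq : q ∈ C) :
    ((fun x : Fin 2 → ℝ => x 0 • p + x 1 • q) ''
      {x : Fin 2 → ℝ | 0 < x 0 ∧ 0 < x 1 ∧ x 0 + x 1 < 1}) ⊆ C := by
  rintro _ ⟨x, ⟨hx0, hx1, hx⟩, rfl⟩
  have hs : 0 < x 0 + x 1 := by linarith
  have h1 : (x 0 / (x 0 + x 1)) • p + (x 1 / (x 0 + x 1)) • q ∈ C := by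
    refine hc hp hq (by positivity) (by positivity) ?_
    field_simp
  have h2 := hc h0 h1 (a := 1 - (x 0 + x 1)) (b := x 0 + x 1) (by linarith) hs.le (by ring)
  have h3 : (1 - (x 0 + x 1)) • (0 : Fin 2 → ℝ) + (x 0 + x 1) • ((x 0 / (x 0 + x 1)) • p +
      (x 1 / (x 0 + x 1)) • q) = x 0 • p + x 1 • q := by
    rw [smul_zero, zero_add, smul_add, smul_smul, smul_smul]
    congr 2 <;> field_simp
  rw [h3] at h2
  exact h2

theorem aux_quad (C : Set (Fin 2 → ℝ)) (hc : Convex ℝ C) (h0 : (0 : Fin 2 → ℝ) ∈ C)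
    (h1 : ![1, 0] ∈ C) (h2 : ![0, 1] ∈ C) (x : Fin 2 → ℝ) (hx : x ∈ C) (hx0 : 0 ≤ x 0)
    (hx1 : 0 ≤ x 1) :
    ENNReal.ofReal ((x 0 + x 1) / 2) ≤ volume (C ∩ {y | 0 < y 0 ∧ 0 < y 1}) := by
  have hH : MeasurableSet {y : Fin 2 → ℝ | y 0 * x 1 > y 1 * x 0} :=
    measurableSet_lt (by fun_prop) (by fun_prop)
  rw [← measure_inter_add_sdiff (C ∩ {y | 0 < y 0 ∧ 0 < y 1}) hH]
  have hA : ENNReal.ofReal (x 1 / 2) ≤
      volume ((C ∩ {y | 0 < y 0 ∧ 0 < y 1}) ∩ {y : Fin 2 → ℝ | y 0 * x 1 > y 1 * x 0}) := by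
    rcases hx1.eq_or_lt with h | h
    · rw [← h]; simp
    · have ht := aux_tri ![1, 0] x
      have : |(![1, 0] : Fin 2 → ℝ) 0 * x 1 - x 0 * (![1, 0] : Fin 2 → ℝ) 1| = x 1 := by
        simp [abs_of_pos h]
      rw [this] at ht
      rw [← ht]
      refine measure_mono (fun y hy => ⟨⟨aux_sub C hc h0 _ _ h1 hx hy, ?_⟩, ?_⟩)
      · obtain ⟨z, ⟨hz0, hz1, _⟩, rfl⟩ := hy
        simp only [Set.mem_ofPred_eq, Pi.add_apply, Pi.smul_apply, smul_eq_mul,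
          Matrix.cons_val_zero, Matrix.cons_val_one, mul_one, mul_zero, zero_add]
        exact ⟨by positivity, by positivity⟩
      · obtain ⟨z, ⟨hz0, hz1, _⟩, rfl⟩ := hy
        simp only [Set.mem_ofPred_eq, Pi.add_apply, Pi.smul_apply, smul_eq_mul,
          Matrix.cons_val_zero, Matrix.cons_val_one, mul_one, mul_zero, zero_add]
        nlinarith [mul_pos hz0 h]
  have hB : ENNReal.ofReal (x 0 / 2) ≤
      volume ((C ∩ {y | 0 < y 0 ∧ 0 < y 1}) \ {y : Fin 2 → ℝ | y 0 * x 1 > y 1 * x 0}) := by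
    rcases hx0.eq_or_lt with h | h
    · rw [← h]; simp
    · have ht := aux_tri ![0, 1] x
      have : |(![0, 1] : Fin 2 → ℝ) 0 * x 1 - x 0 * (![0, 1] : Fin 2 → ℝ) 1| = x 0 := by
        simp [abs_of_pos h]
      rw [this] at ht
      rw [← ht]
      refine measure_mono (fun y hy => ⟨⟨aux_sub C hc h0 _ _ h2 hx hy, ?_⟩, ?_⟩)
      · obtain ⟨z, ⟨hz0, hz1, _⟩, rfl⟩ := hy
        simp only [Set.mem_ofPred_eq, Pi.add_apply, Pi.smul_apply, smul_eq_mul,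
          Matrix.cons_val_zero, Matrix.cons_val_one, mul_one, mul_zero, zero_add]
        exact ⟨by positivity, by positivity⟩
      · obtain ⟨z, ⟨hz0, hz1, _⟩, rfl⟩ := hy
        simp only [Set.mem_ofPred_eq, Pi.add_apply, Pi.smul_apply, smul_eq_mul,
          Matrix.cons_val_zero, Matrix.cons_val_one, mul_one, mul_zero, zero_add, not_lt, gt_iff_lt]
        nlinarith [mul_pos hz0 h]
  calc ENNReal.ofReal ((x 0 + x 1) / 2) = ENNReal.ofReal (x 1 / 2) + ENNReal.ofReal (x 0 / 2) := by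
        rw [← ENNReal.ofReal_add (by positivity) (by positivity)]
        congr 1
        ring
    _ ≤ _ := add_le_add hA hB

/-- product of the areas in the first quadrant -/
theorem aux_prod (K D : Set (Fin 2 → ℝ)) (hK : Convex ℝ K) (hD : Convex ℝ D)
    (hK0 : (0 : Fin 2 → ℝ) ∈ K) (hD0 : (0 : Fin 2 → ℝ) ∈ D)
    (hK1 : ![1, 0] ∈ K) (hK2 : ![0, 1] ∈ K) (hD1 : ![1, 0] ∈ D) (hD2 : ![0, 1] ∈ D)
    (hb : ∀ x ∈ K, x 0 ≤ 1 ∧ x 1 ≤ 1)
    (hpol : ∀ y : Fin 2 → ℝ, (∀ x ∈ K, ∑ j, x j * y j ≤ 1) → y ∈ D)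
    (hKf : volume (K ∩ {y | 0 < y 0 ∧ 0 < y 1}) ≠ ∞)
    (hDf : volume (D ∩ {y | 0 < y 0 ∧ 0 < y 1}) ≠ ∞) :
    1 / 2 ≤ (volume (K ∩ {y | 0 < y 0 ∧ 0 < y 1})).toReal *
      (volume (D ∩ {y | 0 < y 0 ∧ 0 < y 1})).toReal := by
  obtain ⟨a, ha⟩ : ∃ a, a = (volume (K ∩ {y | 0 < y 0 ∧ 0 < y 1})).toReal := ⟨_, rfl⟩
  obtain ⟨b, hb'⟩ : ∃ b, b = (volume (D ∩ {y | 0 < y 0 ∧ 0 < y 1})).toReal := ⟨_, rfl⟩
  rw [← ha, ← hb']
  have hA : ∀ x ∈ K, 0 ≤ x 0 → 0 ≤ x 1 → x 0 + x 1 ≤ 2 * a := by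
    intro x hx h0 h1
    have h := aux_quad K hK hK0 hK1 hK2 x hx h0 h1
    have h' := (ENNReal.ofReal_le_iff_le_toReal hKf).mp h
    rw [← ha] at h'
    linarith
  have hB : ∀ x ∈ D, 0 ≤ x 0 → 0 ≤ x 1 → x 0 + x 1 ≤ 2 * b := by
    intro x hx h0 h1
    have h := aux_quad D hD hD0 hD1 hD2 x hx h0 h1
    have h' := (ENNReal.ofReal_le_iff_le_toReal hDf).mp h
    rw [← hb'] at h'
    linarith
  have ha1 : 1 ≤ 2 * a := by
    have := hA _ hK1 (by simp) (by simp)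
    simpa using this
  have hapos : 0 < a := by linarith
  have hs : (![1 / (2 * a), 1 / (2 * a)] : Fin 2 → ℝ) ∈ D := by
    refine hpol _ (fun x hx => ?_)
    rw [Fin.sum_univ_two]
    simp only [Matrix.cons_val_zero, Matrix.cons_val_one]
    have h3 : x 0 + x 1 ≤ 2 * a := by
      rcases le_or_gt 0 (x 0) with h0 | h0
      · rcases le_or_gt 0 (x 1) with h1 | h1
        · exact hA x hx h0 h1
        · have := (hb x hx).1
          linarith
      · have := (hb x hx).2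
        linarith
    rw [← add_mul, mul_one_div, div_le_one (by linarith)]
    exact h3
  have h4 := hB _ hs (by simp; positivity) (by simp; positivity)
  simp only [Matrix.cons_val_zero, Matrix.cons_val_one] at h4
  have h5 : 1 / (2 * a) + 1 / (2 * a) = 1 / a := by
    field_simp
    norm_num
  rw [h5, div_le_iff₀ hapos] at h4
  linarith

theorem aux_four (S : Set (Fin 2 → ℝ)) :
    (volume (S ∩ {y | 0 < y 0 ∧ 0 < y 1}) + volume (S ∩ {y | y 0 < 0 ∧ 0 < y 1})) +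
      (volume (S ∩ {y | y 0 < 0 ∧ y 1 < 0}) + volume (S ∩ {y | 0 < y 0 ∧ y 1 < 0})) ≤
      volume S := by
  have hH1 : MeasurableSet {y : Fin 2 → ℝ | 0 < y 1} :=
    measurableSet_lt (by fun_prop) (by fun_prop)
  have hH0 : MeasurableSet {y : Fin 2 → ℝ | 0 < y 0} :=
    measurableSet_lt (by fun_prop) (by fun_prop)
  rw [← measure_inter_add_sdiff S hH1, ← measure_inter_add_sdiff (S ∩ {y | 0 < y 1}) hH0,
    ← measure_inter_add_sdiff (S \ {y | 0 < y 1}) hH0]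
  refine add_le_add (add_le_add ?_ ?_) ?_
  · exact measure_mono (fun y hy => ⟨⟨hy.1, hy.2.2⟩, hy.2.1⟩)
  · refine measure_mono (fun y hy => ⟨⟨hy.1, hy.2.2⟩, ?_⟩)
    have := hy.2.1
    simp only [Set.mem_ofPred_eq, not_lt]
    exact this.le
  · rw [add_comm]
    refine add_le_add ?_ ?_
    · refine measure_mono (fun y hy => ⟨⟨hy.1, ?_⟩, hy.2.1⟩)
      have := hy.2.2
      simp only [Set.mem_ofPred_eq, not_lt]
      exact this.le
    · refine measure_mono (fun y hy => ⟨⟨hy.1, ?_⟩, ?_⟩)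
      · have := hy.2.2
        simp only [Set.mem_ofPred_eq, not_lt]
        exact this.le
      · have := hy.2.1
        simp only [Set.mem_ofPred_eq, not_lt]
        exact this.le

/-- symmetric sets: two quadrants suffice -/
theorem aux_two (S : Set (Fin 2 → ℝ)) (hs : ∀ x ∈ S, -x ∈ S) :
    2 * (volume (S ∩ {y | 0 < y 0 ∧ 0 < y 1}) + volume (S ∩ {y | y 0 < 0 ∧ 0 < y 1})) ≤
      volume S := by
  refine le_trans ?_ (aux_four S)
  have h1 : volume (S ∩ {y | 0 < y 0 ∧ 0 < y 1}) = volume (S ∩ {y | y 0 < 0 ∧ y 1 < 0}) := by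
    rw [← Measure.measure_preimage_neg volume (S ∩ {y | y 0 < 0 ∧ y 1 < 0})]
    congr 1
    ext y
    simp only [Set.mem_inter_iff, Set.mem_ofPred_eq, Set.mem_preimage, Pi.neg_apply, neg_lt_zero]
    constructor
    · rintro ⟨h, h'⟩
      exact ⟨hs y h, h'⟩
    · rintro ⟨h, h'⟩
      exact ⟨by simpa using hs _ h, h'⟩
  have h2 : volume (S ∩ {y | y 0 < 0 ∧ 0 < y 1}) = volume (S ∩ {y | 0 < y 0 ∧ y 1 < 0}) := by
    rw [← Measure.measure_preimage_neg volume (S ∩ {y | 0 < y 0 ∧ y 1 < 0})]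
    congr 1
    ext y
    simp only [Set.mem_inter_iff, Set.mem_ofPred_eq, Set.mem_preimage, Pi.neg_apply, neg_lt_zero,
      Left.neg_pos_iff]
    constructor
    · rintro ⟨h, h'⟩
      exact ⟨hs y h, h'⟩
    · rintro ⟨h, h'⟩
      exact ⟨by simpa using hs _ h, h'⟩
  rw [← h1, ← h2, two_mul]

theorem aux_refl (S : Set (Fin 2 → ℝ)) :
    volume (((fun x : Fin 2 → ℝ => (![-x 0, x 1] : Fin 2 → ℝ)) ⁻¹' S) ∩ {y | 0 < y 0 ∧ 0 < y 1}) =
      volume (S ∩ {y | y 0 < 0 ∧ 0 < y 1}) := by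
  have h1 : (fun x : Fin 2 → ℝ => (![-x 0, x 1] : Fin 2 → ℝ)) =
      (Matrix.toLin' (!![-1, 0; 0, 1] : Matrix (Fin 2) (Fin 2) ℝ)) := by
    funext x
    ext i
    fin_cases i <;> simp [Matrix.mulVec, dotProduct, Fin.sum_univ_two]
  have h2 : ((fun x : Fin 2 → ℝ => (![-x 0, x 1] : Fin 2 → ℝ)) ⁻¹' S) ∩ {y | 0 < y 0 ∧ 0 < y 1} =
      (fun x : Fin 2 → ℝ => (![-x 0, x 1] : Fin 2 → ℝ)) ⁻¹' (S ∩ {y | y 0 < 0 ∧ 0 < y 1}) := by
    ext y
    simp
  rw [h2, h1, Measure.addHaar_preimage_linearMap]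
  · rw [LinearMap.det_toLin', Matrix.det_fin_two_of]
    simp
  · rw [LinearMap.det_toLin', Matrix.det_fin_two_of]
    simp

theorem mahler_norm (K : Set (Fin 2 → ℝ)) (hc : Convex ℝ K) (hcl : IsCompact K)
    (hs : ∀ x ∈ K, -x ∈ K) (h1 : ![1, 0] ∈ K) (h2 : ![0, 1] ∈ K)
    (hb : ∀ x ∈ K, |x 0| ≤ 1 ∧ |x 1| ≤ 1) :
    (8 : ℝ≥0∞) ≤ volume K * volume {y : Fin 2 → ℝ | ∀ x ∈ K, ∑ j, x j * y j ≤ 1} := by
  obtain ⟨D, hD⟩ : ∃ D : Set (Fin 2 → ℝ), D = {y : Fin 2 → ℝ | ∀ x ∈ K, ∑ j, x j * y j ≤ 1} :=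
    ⟨_, rfl⟩
  rw [← hD]
  have hmem : ∀ y, y ∈ D ↔ ∀ x ∈ K, ∑ j, x j * y j ≤ 1 := fun y => by rw [hD]; rfl
  have hDc : Convex ℝ D := by
    intro y hy z hz s t hs0 ht0 hst
    rw [hmem] at hy hz ⊢
    intro x hx
    have e1 := hy x hx
    have e2 := hz x hx
    rw [Fin.sum_univ_two] at e1 e2 ⊢
    simp only [Pi.add_apply, Pi.smul_apply, smul_eq_mul]
    nlinarith [mul_le_mul_of_nonneg_left e1 hs0, mul_le_mul_of_nonneg_left e2 ht0]
  have hDs : ∀ y ∈ D, -y ∈ D := by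
    intro y hy
    rw [hmem] at hy ⊢
    intro x hx
    have := hy (-x) (hs x hx)
    simpa using this
  have hD1 : ![1, 0] ∈ D := by
    rw [hmem]
    intro x hx
    rw [Fin.sum_univ_two]
    simpa using (abs_le.mp (hb x hx).1).2
  have hD2 : ![0, 1] ∈ D := by
    rw [hmem]
    intro x hx
    rw [Fin.sum_univ_two]
    simpa using (abs_le.mp (hb x hx).2).2
  have hDb : ∀ y ∈ D, |y 0| ≤ 1 ∧ |y 1| ≤ 1 := by
    intro y hy
    rw [hmem] at hy
    have e1 := hy _ h1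
    have e2 := hy _ h2
    have e3 := hy _ (hs _ h1)
    have e4 := hy _ (hs _ h2)
    rw [Fin.sum_univ_two] at e1 e2 e3 e4
    simp at e1 e2 e3 e4
    exact ⟨abs_le.mpr ⟨by linarith, by linarith⟩, abs_le.mpr ⟨by linarith, by linarith⟩⟩
  have h0K : (0 : Fin 2 → ℝ) ∈ K := by
    have := hc h1 (hs _ h1) (a := 1 / 2) (b := 1 / 2) (by norm_num) (by norm_num) (by norm_num)
    rwa [smul_neg, add_neg_cancel] at this
  have h0D : (0 : Fin 2 → ℝ) ∈ D := by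
    rw [hmem]
    intro x hx
    simp
  have hfin : ∀ S : Set (Fin 2 → ℝ), (∀ x ∈ S, |x 0| ≤ 1 ∧ |x 1| ≤ 1) → volume S ≠ ∞ := by
    intro S hS
    have hsub : S ⊆ Set.Icc (fun _ => -1) (fun _ => 1) := by
      intro x hx
      have e1 := abs_le.mp (hS x hx).1
      have e2 := abs_le.mp (hS x hx).2
      constructor
      · intro i
        fin_cases i
        · exact e1.1
        · exact e2.1
      · intro i
        fin_cases i
        · exact e1.2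
        · exact e2.2
    exact ne_top_of_le_ne_top (isCompact_Icc.measure_lt_top.ne) (measure_mono hsub)
  have hKf : ∀ T : Set (Fin 2 → ℝ), volume (K ∩ T) ≠ ∞ := fun T => hfin _ fun x hx => hb x hx.1
  have hDf : ∀ T : Set (Fin 2 → ℝ), volume (D ∩ T) ≠ ∞ := fun T => hfin _ fun x hx => hDb x hx.1
  -- first quadrant
  have hp1 := aux_prod K D hc hDc h0K h0D h1 h2 hD1 hD2
    (fun x hx => ⟨(abs_le.mp (hb x hx).1).2, (abs_le.mp (hb x hx).2).2⟩)
    (fun y hy => (hmem y).mpr hy) (hKf _) (hDf _)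
  -- second quadrant
  have hconvp : ∀ S : Set (Fin 2 → ℝ), Convex ℝ S →
      Convex ℝ ((fun x : Fin 2 → ℝ => (![-x 0, x 1] : Fin 2 → ℝ)) ⁻¹' S) := by
    intro S hS y hy z hz s t hs0 ht0 hst
    have := hS hy hz hs0 ht0 hst
    simp only [Set.mem_preimage]
    convert this using 1
    ext i
    fin_cases i
    · simp; ring
    · simp
  have hneg1 : ∀ S : Set (Fin 2 → ℝ), (∀ x ∈ S, -x ∈ S) → ![1, 0] ∈ S →
      ![1, 0] ∈ ((fun x : Fin 2 → ℝ => (![-x 0, x 1] : Fin 2 → ℝ)) ⁻¹' S) := by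
    intro S hS h
    have := hS _ h
    simp only [Set.mem_preimage]
    convert this using 1
    ext i
    fin_cases i <;> simp
  have hneg2 : ∀ S : Set (Fin 2 → ℝ), ![0, 1] ∈ S →
      ![0, 1] ∈ ((fun x : Fin 2 → ℝ => (![-x 0, x 1] : Fin 2 → ℝ)) ⁻¹' S) := by
    intro S h
    simp only [Set.mem_preimage]
    convert h using 1
    ext i
    fin_cases i <;> simp
  have hneg0 : ∀ S : Set (Fin 2 → ℝ), (0 : Fin 2 → ℝ) ∈ S →
      (0 : Fin 2 → ℝ) ∈ ((fun x : Fin 2 → ℝ => (![-x 0, x 1] : Fin 2 → ℝ)) ⁻¹' S) := by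
    intro S h
    simp only [Set.mem_preimage]
    convert h using 1
    ext i
    fin_cases i <;> simp
  have hp2 := aux_prod ((fun x : Fin 2 → ℝ => (![-x 0, x 1] : Fin 2 → ℝ)) ⁻¹' K)
    ((fun x : Fin 2 → ℝ => (![-x 0, x 1] : Fin 2 → ℝ)) ⁻¹' D) (hconvp K hc) (hconvp D hDc)
    (hneg0 K h0K) (hneg0 D h0D) (hneg1 K hs h1) (hneg2 K h2) (hneg1 D hDs hD1) (hneg2 D hD2)
    (by
      intro x hx
      have e := hb _ hx
      simp only [Matrix.cons_val_zero, Matrix.cons_val_one, abs_neg] at e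
      exact ⟨(abs_le.mp e.1).2, (abs_le.mp e.2).2⟩)
    (by
      intro y hy
      simp only [Set.mem_preimage]
      rw [hmem]
      intro x hx
      have := hy (![-x 0, x 1]) (by
        simp only [Set.mem_preimage]
        convert hx using 1
        ext i
        fin_cases i <;> simp)
      rw [Fin.sum_univ_two] at this ⊢
      simp only [Matrix.cons_val_zero, Matrix.cons_val_one] at this ⊢
      linarith)
    (by rw [aux_refl]; exact hKf _) (by rw [aux_refl]; exact hDf _)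
  rw [aux_refl, aux_refl] at hp2
  have hK2 := aux_two K hs
  have hD2' := aux_two D hDs
  rw [← ENNReal.ofReal_toReal (hKf {y | 0 < y 0 ∧ 0 < y 1}),
    ← ENNReal.ofReal_toReal (hKf {y | y 0 < 0 ∧ 0 < y 1})] at hK2
  rw [← ENNReal.ofReal_toReal (hDf {y | 0 < y 0 ∧ 0 < y 1}),
    ← ENNReal.ofReal_toReal (hDf {y | y 0 < 0 ∧ 0 < y 1})] at hD2'
  obtain ⟨a1, ha1⟩ : ∃ a, a = (volume (K ∩ {y | 0 < y 0 ∧ 0 < y 1})).toReal := ⟨_, rfl⟩
  obtain ⟨a2, ha2⟩ : ∃ a, a = (volume (K ∩ {y | y 0 < 0 ∧ 0 < y 1})).toReal := ⟨_, rfl⟩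
  obtain ⟨b1, hb1⟩ : ∃ a, a = (volume (D ∩ {y | 0 < y 0 ∧ 0 < y 1})).toReal := ⟨_, rfl⟩
  obtain ⟨b2, hb2⟩ : ∃ a, a = (volume (D ∩ {y | y 0 < 0 ∧ 0 < y 1})).toReal := ⟨_, rfl⟩
  have ha1n : 0 ≤ a1 := ha1 ▸ ENNReal.toReal_nonneg
  have ha2n : 0 ≤ a2 := ha2 ▸ ENNReal.toReal_nonneg
  have hb1n : 0 ≤ b1 := hb1 ▸ ENNReal.toReal_nonneg
  have hb2n : 0 ≤ b2 := hb2 ▸ ENNReal.toReal_nonneg
  rw [← ha1, ← ha2] at hK2
  rw [← hb1, ← hb2] at hD2'
  rw [← ha1, ← hb1] at hp1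
  rw [← ha2, ← hb2] at hp2
  have hcross : 1 ≤ a1 * b2 + a2 * b1 := by
    have e1 : (1 / 4 : ℝ) ≤ (a1 * b2) * (a2 * b1) := by
      have : (1 / 2 : ℝ) * (1 / 2) ≤ (a1 * b1) * (a2 * b2) :=
        mul_le_mul hp1 hp2 (by norm_num) (by positivity)
      nlinarith
    have e2 : 0 ≤ a1 * b2 + a2 * b1 := by positivity
    by_contra hcon
    push Not at hcon
    nlinarith [sq_nonneg (a1 * b2 - a2 * b1)]
  have hreal : (8 : ℝ) ≤ (2 * (a1 + a2)) * (2 * (b1 + b2)) := by nlinarith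
  have hK3 : ENNReal.ofReal (2 * (a1 + a2)) ≤ volume K := by
    refine le_trans (le_of_eq ?_) hK2
    rw [ENNReal.ofReal_mul (by norm_num), ENNReal.ofReal_add ha1n ha2n]
    simp
  have hD3 : ENNReal.ofReal (2 * (b1 + b2)) ≤ volume D := by
    refine le_trans (le_of_eq ?_) hD2'
    rw [ENNReal.ofReal_mul (by norm_num), ENNReal.ofReal_add hb1n hb2n]
    simp
  calc (8 : ℝ≥0∞) = ENNReal.ofReal 8 := by norm_num
    _ ≤ ENNReal.ofReal ((2 * (a1 + a2)) * (2 * (b1 + b2))) := ENNReal.ofReal_le_ofReal hreal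
    _ = ENNReal.ofReal (2 * (a1 + a2)) * ENNReal.ofReal (2 * (b1 + b2)) :=
        ENNReal.ofReal_mul (by positivity)
    _ ≤ _ := mul_le_mul' hK3 hD3

end Pool.Agent.VPK.M39
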