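import Mathlib

set_option autoImplicit false
open MeasureTheory ProbabilityTheory
open scoped ENNReal

namespace Pool.Agent.VPK.M40

theorem mahler_planar
    (mahler_norm : ∀ K : Set (Fin 2 → ℝ), Convex ℝ K → IsCompact K → (∀ x ∈ K, -x ∈ K) →
      ![1, 0] ∈ K → ![0, 1] ∈ K → (∀ x ∈ K, |x 0| ≤ 1 ∧ |x 1| ≤ 1) →
      (8 : ℝ≥0∞) ≤ volume K * volume {y : Fin 2 → ℝ | ∀ x ∈ K, ∑ j, x j * y j ≤ 1})
    (K : Set (Fin 2 → ℝ)) (hc : Convex ℝ K) (hcl : IsCompact K)
    (hs : ∀ x ∈ K, -x ∈ K)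
    (hd : ∃ u ∈ K, ∃ v ∈ K, u 0 * v 1 - u 1 * v 0 ≠ 0) :
    (8 : ℝ≥0∞) ≤ volume K * volume {y : Fin 2 → ℝ | ∀ x ∈ K, ∑ j, x j * y j ≤ 1} := by
  obtain ⟨u', hu', v', hv', hne⟩ := hd
  -- maximise the determinant
  have hcont : Continuous (fun p : (Fin 2 → ℝ) × (Fin 2 → ℝ) => p.1 0 * p.2 1 - p.1 1 * p.2 0) := by
    fun_prop
  obtain ⟨⟨u, v⟩, ⟨hu, hv⟩, hmax⟩ := (hcl.prod hcl).exists_isMaxOn ⟨(u', v'), hu', hv'⟩
    hcont.continuousOn
  simp only at hu hv
  have hm : ∀ x ∈ K, ∀ y ∈ K, x 0 * y 1 - x 1 * y 0 ≤ u 0 * v 1 - u 1 * v 0 := by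
    intro x hx y hy
    exact hmax (show (x, y) ∈ K ×ˢ K from ⟨hx, hy⟩)
  set d := u 0 * v 1 - u 1 * v 0 with hdd
  have hdpos : 0 < d := by
    rcases lt_or_gt_of_ne hne with h | h
    · have := hm (-u') (hs _ hu') v' hv'
      simp only [Pi.neg_apply] at this
      linarith
    · have := hm u' hu' v' hv'
      linarith
  -- the linear map
  let M : Matrix (Fin 2) (Fin 2) ℝ := !![u 0, v 0; u 1, v 1]
  let A : (Fin 2 → ℝ) →ₗ[ℝ] (Fin 2 → ℝ) := Matrix.toLin' M
  let At : (Fin 2 → ℝ) →ₗ[ℝ] (Fin 2 → ℝ) := Matrix.toLin' M.transpose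
  have hA0 : ∀ y, A y 0 = y 0 * u 0 + y 1 * v 0 := by
    intro y
    simp [A, M, Matrix.mulVec, dotProduct, Fin.sum_univ_two]
    ring
  have hA1 : ∀ y, A y 1 = y 0 * u 1 + y 1 * v 1 := by
    intro y
    simp [A, M, Matrix.mulVec, dotProduct, Fin.sum_univ_two]
    ring
  have hAt0 : ∀ y, At y 0 = y 0 * u 0 + y 1 * u 1 := by
    intro y
    simp [At, M, Matrix.mulVec, dotProduct, Fin.sum_univ_two]
    ring
  have hAt1 : ∀ y, At y 1 = y 0 * v 0 + y 1 * v 1 := by
    intro y
    simp [At, M, Matrix.mulVec, dotProduct, Fin.sum_univ_two]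
    ring
  have hdetM : M.det = d := by
    rw [Matrix.det_fin_two_of]
    rw [hdd]; ring
  have hdetA : LinearMap.det A = d := by
    rw [LinearMap.det_toLin', hdetM]
  have hdetAt : LinearMap.det At = d := by
    rw [LinearMap.det_toLin', Matrix.det_transpose, hdetM]
  -- the inverse map, as a function
  let B : (Fin 2 → ℝ) → (Fin 2 → ℝ) := fun x =>
    ![(x 0 * v 1 - x 1 * v 0) / d, (u 0 * x 1 - u 1 * x 0) / d]
  have hBc : Continuous B := by
    refine continuous_pi fun i => ?_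
    fin_cases i
    · show Continuous fun x : Fin 2 → ℝ => (x 0 * v 1 - x 1 * v 0) / d
      fun_prop
    · show Continuous fun x : Fin 2 → ℝ => (u 0 * x 1 - u 1 * x 0) / d
      fun_prop
  have hAB : ∀ x, A (B x) = x := by
    intro x
    funext i
    fin_cases i
    · show A (B x) 0 = x 0
      rw [hA0]
      show (x 0 * v 1 - x 1 * v 0) / d * u 0 + (u 0 * x 1 - u 1 * x 0) / d * v 0 = x 0
      field_simp
      rw [hdd]; ring
    · show A (B x) 1 = x 1
      rw [hA1]
      show (x 0 * v 1 - x 1 * v 0) / d * u 1 + (u 0 * x 1 - u 1 * x 0) / d * v 1 = x 1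
      field_simp
      rw [hdd]; ring
  have hBA : ∀ y, B (A y) = y := by
    intro y
    funext i
    fin_cases i
    · show (A y 0 * v 1 - A y 1 * v 0) / d = y 0
      rw [hA0, hA1]
      field_simp
      rw [hdd]; ring
    · show (u 0 * A y 1 - u 1 * A y 0) / d = y 1
      rw [hA0, hA1]
      field_simp
      rw [hdd]; ring
  have hK1 : A ⁻¹' K = B '' K := by
    ext y
    constructor
    · intro hy
      exact ⟨A y, hy, hBA y⟩
    · rintro ⟨x, hx, rfl⟩
      show A (B x) ∈ K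
      rw [hAB]; exact hx
  have hmain := mahler_norm (A ⁻¹' K) (hc.linear_preimage A)
    (by rw [hK1]; exact hcl.image hBc)
    (by
      intro x hx
      show A (-x) ∈ K
      rw [map_neg]
      exact hs _ hx)
    (by
      show A ![1, 0] ∈ K
      have : A ![1, 0] = u := by
        funext i
        fin_cases i
        · show A ![1, 0] 0 = u 0
          rw [hA0]; simp
        · show A ![1, 0] 1 = u 1
          rw [hA1]; simp
      rw [this]; exact hu)
    (by
      show A ![0, 1] ∈ K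
      have : A ![0, 1] = v := by
        funext i
        fin_cases i
        · show A ![0, 1] 0 = v 0
          rw [hA0]; simp
        · show A ![0, 1] 1 = v 1
          rw [hA1]; simp
      rw [this]; exact hv)
    (by
      intro y hy
      have hy' : A y ∈ K := hy
      have h1 := hm (A y) hy' v hv
      have h2 := hm (-(A y)) (hs _ hy') v hv
      have h3 := hm u hu (A y) hy'
      have h4 := hm u hu (-(A y)) (hs _ hy')
      simp only [Pi.neg_apply] at h2 h4
      rw [hA0, hA1] at h1 h2 h3 h4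
      have e1 : (y 0 * u 0 + y 1 * v 0) * v 1 - (y 0 * u 1 + y 1 * v 1) * v 0 = y 0 * d := by
        rw [hdd]; ring
      have e2 : -(y 0 * u 0 + y 1 * v 0) * v 1 - -(y 0 * u 1 + y 1 * v 1) * v 0
          = (-y 0) * d := by
        rw [hdd]; ring
      have e3 : u 0 * (y 0 * u 1 + y 1 * v 1) - u 1 * (y 0 * u 0 + y 1 * v 0) = y 1 * d := by
        rw [hdd]; ring
      have e4 : u 0 * -(y 0 * u 1 + y 1 * v 1) - u 1 * -(y 0 * u 0 + y 1 * v 0)
          = (-y 1) * d := by
        rw [hdd]; ring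
      rw [e1] at h1
      rw [e2] at h2
      rw [e3] at h3
      rw [e4] at h4
      have k1 : y 0 ≤ 1 := by
        by_contra hcon
        push Not at hcon
        have := mul_lt_mul_of_pos_right hcon hdpos
        linarith
      have k2 : -y 0 ≤ 1 := by
        by_contra hcon
        push Not at hcon
        have := mul_lt_mul_of_pos_right hcon hdpos
        linarith
      have k3 : y 1 ≤ 1 := by
        by_contra hcon
        push Not at hcon
        have := mul_lt_mul_of_pos_right hcon hdpos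
        linarith
      have k4 : -y 1 ≤ 1 := by
        by_contra hcon
        push Not at hcon
        have := mul_lt_mul_of_pos_right hcon hdpos
        linarith
      exact ⟨abs_le.2 ⟨by linarith, k1⟩, abs_le.2 ⟨by linarith, k3⟩⟩)
  have hP : {y : Fin 2 → ℝ | ∀ x ∈ K, ∑ j, x j * y j ≤ 1}
      = At ⁻¹' {y : Fin 2 → ℝ | ∀ x ∈ A ⁻¹' K, ∑ j, x j * y j ≤ 1} := by
    ext y
    have key : ∀ z, ∑ j, (A z) j * y j = ∑ j, z j * (At y) j := by
      intro z
      rw [Fin.sum_univ_two, Fin.sum_univ_two, hA0, hA1, hAt0, hAt1]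
      ring
    constructor
    · intro h z hz
      rw [← key]
      exact h _ hz
    · intro h x hx
      have := h (B x) (by show A (B x) ∈ K; rw [hAB]; exact hx)
      rw [← key, hAB] at this
      exact this
  have hv1 : volume (A ⁻¹' K) = ENNReal.ofReal |d⁻¹| * volume K := by
    rw [Measure.addHaar_preimage_linearMap _ (by rw [hdetA]; exact hdpos.ne'), hdetA]
  have hv2 : volume {y : Fin 2 → ℝ | ∀ x ∈ K, ∑ j, x j * y j ≤ 1}
      = ENNReal.ofReal |d⁻¹| * volume {y : Fin 2 → ℝ | ∀ x ∈ A ⁻¹' K, ∑ j, x j * y j ≤ 1} := by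
    rw [hP, Measure.addHaar_preimage_linearMap _ (by rw [hdetAt]; exact hdpos.ne'), hdetAt]
  rw [hv1] at hmain
  rw [hv2]
  refine hmain.trans (le_of_eq ?_)
  ring

end Pool.Agent.VPK.M40
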