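import Mathlib

set_option autoImplicit false
open MeasureTheory ProbabilityTheory
open scoped ENNReal

namespace Pool.Agent.VPK.M41

theorem line_null7541 (a : Fin 2 → ℝ) (ha : a 0 ≠ 0) :
    (Measure.pi (fun _ : Fin 2 => gaussianReal 0 1)) {b : Fin 2 → ℝ | a 0 * b 1 - a 1 * b 0 = 0} = 0 := by
  have hna : NullSingletonClass (gaussianReal 0 1) := nullSingletonClass_gaussianReal one_ne_zero
  have hmp := measurePreserving_finTwoArrow (gaussianReal 0 1)
  have hS : MeasurableSet {p : ℝ × ℝ | a 0 * p.2 - a 1 * p.1 = 0} :=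
    measurableSet_eq_fun (by fun_prop) measurable_const
  have h1 : {b : Fin 2 → ℝ | a 0 * b 1 - a 1 * b 0 = 0} =
      MeasurableEquiv.finTwoArrow ⁻¹' {p : ℝ × ℝ | a 0 * p.2 - a 1 * p.1 = 0} := rfl
  rw [h1, hmp.measure_preimage hS.nullMeasurableSet, Measure.measure_prod_null hS]
  refine Filter.Eventually.of_forall (fun x => ?_)
  show (gaussianReal 0 1) (Prod.mk x ⁻¹' {p : ℝ × ℝ | a 0 * p.2 - a 1 * p.1 = 0}) = 0
  have h2 : Prod.mk x ⁻¹' {p : ℝ × ℝ | a 0 * p.2 - a 1 * p.1 = 0} ⊆ {a 1 * x / a 0} := by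
    intro y hy
    have hy' : a 0 * y - a 1 * x = 0 := hy
    rw [Set.mem_singleton_iff, eq_div_iff ha]
    linarith
  exact measure_mono_null h2 (measure_singleton _)

theorem det_ne7541 (N : ℕ) (i0 i1 : Fin N) (hne : i0 ≠ i1) :
    ∀ᵐ ω ∂(Measure.pi (fun _ : Fin N => Measure.pi (fun _ : Fin 2 => gaussianReal 0 1))),
      (ω i0) 0 * (ω i1) 1 - (ω i0) 1 * (ω i1) 0 ≠ 0 := by
  have hna : NullSingletonClass (gaussianReal 0 1) := nullSingletonClass_gaussianReal one_ne_zero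
  obtain ⟨μ2, hμ2⟩ : ∃ μ2, μ2 = Measure.pi (fun _ : Fin 2 => gaussianReal 0 1) := ⟨_, rfl⟩
  have hprob : IsProbabilityMeasure μ2 := by rw [hμ2]; infer_instance
  rw [← hμ2]
  have hind := (iIndepFun_pi (μ := fun _ : Fin N => μ2) (X := fun _ => (id : (Fin 2 → ℝ) → (Fin 2 → ℝ)))
    (fun _ => aemeasurable_id)).indepFun hne
  have hmap : Measure.map (fun ω : Fin N → (Fin 2 → ℝ) => (ω i0, ω i1)) (Measure.pi (fun _ : Fin N => μ2)) =
      (Measure.map (fun ω : Fin N → (Fin 2 → ℝ) => ω i0) (Measure.pi (fun _ : Fin N => μ2))).prod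
      (Measure.map (fun ω : Fin N → (Fin 2 → ℝ) => ω i1) (Measure.pi (fun _ : Fin N => μ2))) := (indepFun_iff_map_prod_eq_prod_map_map (measurable_id.comp (measurable_pi_apply i0)).aemeasurable
    (measurable_id.comp (measurable_pi_apply i1)).aemeasurable).1 hind
  have e0 : Measure.map (fun ω : Fin N → (Fin 2 → ℝ) => ω i0) (Measure.pi (fun _ : Fin N => μ2)) = μ2 :=
    (measurePreserving_eval (fun _ : Fin N => μ2) i0).map_eq
  have e1 : Measure.map (fun ω : Fin N → (Fin 2 → ℝ) => ω i1) (Measure.pi (fun _ : Fin N => μ2)) = μ2 :=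
    (measurePreserving_eval (fun _ : Fin N => μ2) i1).map_eq
  rw [e0, e1] at hmap
  obtain ⟨S, hS⟩ : ∃ S : Set ((Fin 2 → ℝ) × (Fin 2 → ℝ)), S = {p | p.1 0 * p.2 1 - p.1 1 * p.2 0 = 0} :=
    ⟨_, rfl⟩
  have hSm : MeasurableSet S := by
    rw [hS]; exact measurableSet_eq_fun (by fun_prop) measurable_const
  have hnull : (μ2.prod μ2) S = 0 := by
    rw [Measure.measure_prod_null hSm]
    have h0 : ∀ᵐ a ∂μ2, a 0 ≠ 0 := by
      have : μ2 {a | a 0 = 0} = 0 := by
        rw [hμ2]; exact Measure.pi_hyperplane _ 0 0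
      exact measure_eq_zero_iff_ae_notMem.1 this
    filter_upwards [h0] with a ha
    have h1 : Prod.mk a ⁻¹' S = {b : Fin 2 → ℝ | a 0 * b 1 - a 1 * b 0 = 0} := by rw [hS]; rfl
    rw [h1, hμ2]
    exact line_null7541 a ha
  rw [← hmap, Measure.map_apply (by fun_prop) hSm] at hnull
  have := measure_eq_zero_iff_ae_notMem.1 hnull
  filter_upwards [this] with ω hω h
  apply hω
  rw [hS]
  exact h

theorem case_two
    (mahler_planar : ∀ K : Set (Fin 2 → ℝ), Convex ℝ K → IsCompact K → (∀ x ∈ K, -x ∈ K) →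
      (∃ u ∈ K, ∃ v ∈ K, u 0 * v 1 - u 1 * v 0 ≠ 0) →
      (8 : ℝ≥0∞) ≤ volume K * volume {y : Fin 2 → ℝ | ∀ x ∈ K, ∑ j, x j * y j ≤ 1})
    (N : ℕ) (hN : 2 ≤ N) :
      (4 : ENNReal) ^ 2 / ((2 : ℕ).factorial : ENNReal) ≤
        ∫⁻ ω : Fin N → (Fin 2 → ℝ),
          volume (convexHull ℝ (Set.range ω ∪ Set.range (fun i => -ω i))) *
          volume {y : Fin 2 → ℝ | ∀ x ∈ convexHull ℝ (Set.range ω ∪ Set.range (fun i => -ω i)),
                    ∑ j, x j * y j ≤ 1}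
        ∂(Measure.pi (fun _ : Fin N => Measure.pi (fun _ : Fin 2 => gaussianReal 0 1))) := by
  have h8 : (4 : ENNReal) ^ 2 / ((2 : ℕ).factorial : ENNReal) = 8 := by
    rw [Nat.factorial_two]
    symm
    rw [ENNReal.eq_div_iff (by norm_num) (by norm_num)]
    norm_num
  rw [h8]
  obtain ⟨i0, hi0⟩ : ∃ i0 : Fin N, i0 = ⟨0, by omega⟩ := ⟨_, rfl⟩
  obtain ⟨i1, hi1⟩ : ∃ i1 : Fin N, i1 = ⟨1, by omega⟩ := ⟨_, rfl⟩
  have hne : i0 ≠ i1 := by
    rw [hi0, hi1]
    intro h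
    have := congrArg Fin.val h
    simp at this
  have hdet := det_ne7541 N i0 i1 hne
  have hconst : (8 : ENNReal) = ∫⁻ _ : Fin N → (Fin 2 → ℝ), 8
      ∂(Measure.pi (fun _ : Fin N => Measure.pi (fun _ : Fin 2 => gaussianReal 0 1))) := by
    rw [lintegral_const, measure_univ, mul_one]
  rw [hconst]
  apply lintegral_mono_ae
  filter_upwards [hdet] with ω hω
  apply mahler_planar
  · exact convex_convexHull ℝ _
  · apply Set.Finite.isCompact_convexHull
    exact (Set.finite_range _).union (Set.finite_range _)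
  · intro x hx
    have h1 : -(Set.range ω ∪ Set.range (fun i => -ω i)) = Set.range ω ∪ Set.range (fun i => -ω i) := by
      ext y
      simp only [Set.mem_neg, Set.mem_union, Set.mem_range]
      constructor
      · rintro (⟨i, hi⟩ | ⟨i, hi⟩)
        · right; exact ⟨i, by rw [hi, neg_neg]⟩
        · left; exact ⟨i, neg_injective hi⟩
      · rintro (⟨i, hi⟩ | ⟨i, hi⟩)
        · right; exact ⟨i, by rw [hi]⟩
        · left; exact ⟨i, by rw [← hi, neg_neg]⟩
    rw [← h1, convexHull_neg, Set.mem_neg, neg_neg]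
    exact hx
  · exact ⟨ω i0, subset_convexHull ℝ _ (Or.inl ⟨i0, rfl⟩), ω i1,
      subset_convexHull ℝ _ (Or.inl ⟨i1, rfl⟩), hω⟩

end Pool.Agent.VPK.M41
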