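import Mathlib

set_option autoImplicit false
open MeasureTheory ProbabilityTheory
open scoped ENNReal

namespace Pool.Agent.VPK.M42

theorem case_one_aux {N : ℕ} (ω : Fin N → (Fin 1 → ℝ)) (i₀ : Fin N) (h0 : ω i₀ 0 ≠ 0) :
    (4 : ENNReal) ≤ volume (convexHull ℝ (Set.range ω ∪ Set.range (fun i => -ω i))) *
          volume {y : Fin 1 → ℝ | ∀ x ∈ convexHull ℝ (Set.range ω ∪ Set.range (fun i => -ω i)),
                    ∑ j, x j * y j ≤ 1} := by
  haveI : Nonempty (Fin N) := ⟨i₀⟩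
  obtain ⟨k, hk⟩ := Finite.exists_max (fun i => |ω i 0|)
  set t := |ω k 0| with ht
  have ht0 : 0 < t := lt_of_lt_of_le (abs_pos.2 h0) (hk i₀)
  have hwk : ω k 0 ≠ 0 := by rw [← abs_pos]; exact ht0
  have hA : Set.Icc (fun _ : Fin 1 => -t) (fun _ => t) ⊆
      convexHull ℝ (Set.range ω ∪ Set.range (fun i => -ω i)) := by
    intro x hx
    have hx1 : -t ≤ x 0 := hx.1 0
    have hx2 : x 0 ≤ t := hx.2 0
    have m1 : ω k ∈ convexHull ℝ (Set.range ω ∪ Set.range (fun i => -ω i)) :=
      subset_convexHull ℝ _ (Or.inl ⟨k, rfl⟩)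
    have m2 : -ω k ∈ convexHull ℝ (Set.range ω ∪ Set.range (fun i => -ω i)) :=
      subset_convexHull ℝ _ (Or.inr ⟨k, rfl⟩)
    have hs : |x 0 / ω k 0| ≤ 1 := by
      rw [abs_div, ← ht, div_le_one ht0]
      exact abs_le.2 ⟨hx1, hx2⟩
    rw [abs_le] at hs
    have hconv := (convex_convexHull ℝ (Set.range ω ∪ Set.range (fun i => -ω i))) m1 m2
      (a := (1 + x 0 / ω k 0) / 2) (b := (1 - x 0 / ω k 0) / 2) (by linarith [hs.1])
      (by linarith [hs.2]) (by ring)
    have e : x = ((1 + x 0 / ω k 0) / 2) • ω k + ((1 - x 0 / ω k 0) / 2) • (-ω k) := by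
      ext j
      have hj : j = 0 := Subsingleton.elim _ _
      subst hj
      simp only [Pi.add_apply, Pi.smul_apply, Pi.neg_apply, smul_eq_mul]
      field_simp
      ring
    rw [e]
    exact hconv
  have hB : Set.Icc (fun _ : Fin 1 => -(1 / t)) (fun _ => 1 / t) ⊆
      {y : Fin 1 → ℝ | ∀ x ∈ convexHull ℝ (Set.range ω ∪ Set.range (fun i => -ω i)),
                    ∑ j, x j * y j ≤ 1} := by
    intro y hy
    have hy1 : -(1 / t) ≤ y 0 := hy.1 0
    have hy2 : y 0 ≤ 1 / t := hy.2 0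
    have hya : |y 0| ≤ 1 / t := abs_le.2 ⟨hy1, hy2⟩
    have hconv : Convex ℝ {x : Fin 1 → ℝ | ∑ j, x j * y j ≤ 1} := by
      apply convex_halfSpace_le
      constructor
      · intro a b
        simp [add_mul]
      · intro c a
        simp [mul_assoc]
    have hsub : convexHull ℝ (Set.range ω ∪ Set.range (fun i => -ω i)) ⊆
        {x : Fin 1 → ℝ | ∑ j, x j * y j ≤ 1} := by
      apply convexHull_min _ hconv
      have key : ∀ i, |ω i 0 * y 0| ≤ 1 := by
        intro i
        rw [abs_mul]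
        calc |ω i 0| * |y 0| ≤ t * (1 / t) := mul_le_mul (hk i) hya (abs_nonneg _) ht0.le
          _ = 1 := by field_simp
      rintro x (⟨i, rfl⟩ | ⟨i, rfl⟩)
      · show ∑ j, ω i j * y j ≤ 1
        rw [Fin.sum_univ_one]
        exact (abs_le.1 (key i)).2
      · show ∑ j, (-ω i) j * y j ≤ 1
        rw [Fin.sum_univ_one, Pi.neg_apply]
        have := (abs_le.1 (key i)).1
        linarith
    intro x hx
    exact hsub hx
  have vA : ENNReal.ofReal (2 * t) ≤
      volume (convexHull ℝ (Set.range ω ∪ Set.range (fun i => -ω i))) := by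
    refine le_trans (le_of_eq ?_) (measure_mono hA)
    rw [Real.volume_Icc_pi]
    simp only [Finset.univ_unique, Finset.prod_singleton]
    congr 1
    ring
  have vB : ENNReal.ofReal (2 / t) ≤
      volume {y : Fin 1 → ℝ | ∀ x ∈ convexHull ℝ (Set.range ω ∪ Set.range (fun i => -ω i)),
                    ∑ j, x j * y j ≤ 1} := by
    refine le_trans (le_of_eq ?_) (measure_mono hB)
    rw [Real.volume_Icc_pi]
    simp only [Finset.univ_unique, Finset.prod_singleton]
    congr 1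
    ring
  calc (4 : ENNReal) = ENNReal.ofReal (2 * t) * ENNReal.ofReal (2 / t) := by
        rw [← ENNReal.ofReal_mul (by positivity)]
        have : 2 * t * (2 / t) = 4 := by field_simp; norm_num
        rw [this]
        norm_num
    _ ≤ _ := mul_le_mul' vA vB

theorem case_one (N : ℕ) (hN : 1 ≤ N) :
      (4 : ENNReal) ^ 1 / ((1 : ℕ).factorial : ENNReal) ≤
        ∫⁻ ω : Fin N → (Fin 1 → ℝ),
          volume (convexHull ℝ (Set.range ω ∪ Set.range (fun i => -ω i))) *
          volume {y : Fin 1 → ℝ | ∀ x ∈ convexHull ℝ (Set.range ω ∪ Set.range (fun i => -ω i)),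
                    ∑ j, x j * y j ≤ 1}
        ∂(Measure.pi (fun _ : Fin N => Measure.pi (fun _ : Fin 1 => gaussianReal 0 1))) := by
  let i₀ : Fin N := ⟨0, hN⟩
  haveI : NullSingletonClass (gaussianReal 0 1) := nullSingletonClass_gaussianReal one_ne_zero
  have h1 : ∀ᵐ x ∂(gaussianReal 0 1), x ≠ 0 := by
    rw [ae_iff]
    simp only [ne_eq, not_not, Set.setOf_eq_eq_singleton]
    exact measure_singleton 0
  have h2 : ∀ᵐ v ∂(Measure.pi (fun _ : Fin 1 => gaussianReal 0 1)), v 0 ≠ 0 :=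
    (Measure.tendsto_eval_ae_ae (μ := fun _ : Fin 1 => gaussianReal 0 1) (i := 0)).eventually h1
  have h3 : ∀ᵐ ω ∂(Measure.pi (fun _ : Fin N => Measure.pi (fun _ : Fin 1 => gaussianReal 0 1))),
      ω i₀ 0 ≠ 0 :=
    (Measure.tendsto_eval_ae_ae
      (μ := fun _ : Fin N => Measure.pi (fun _ : Fin 1 => gaussianReal 0 1))
      (i := i₀)).eventually h2
  calc (4 : ENNReal) ^ 1 / ((1 : ℕ).factorial : ENNReal) = 4 := by simp
    _ = ∫⁻ ω : Fin N → (Fin 1 → ℝ), (4 : ENNReal)
        ∂(Measure.pi (fun _ : Fin N => Measure.pi (fun _ : Fin 1 => gaussianReal 0 1))) := by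
        rw [lintegral_const, measure_univ, mul_one]
    _ ≤ _ := lintegral_mono_ae (h3.mono fun ω hω => case_one_aux ω i₀ hω)

end Pool.Agent.VPK.M42
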