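import Pool.Agent.VPK.Mid
import Pool.Agent.VPK.M39
import Pool.Agent.VPK.M40
import Pool.Agent.VPK.M41
import Pool.Agent.VPK.M42
import Pool.Agent.VP.GeomFinal

set_option autoImplicit false
open MeasureTheory ProbabilityTheory
open scoped ENNReal Matrix

namespace Pool.Agent.VPK

/-- `N = n` : equality -/
theorem main_zero (n : ℕ) (hn : 1 ≤ n) :
      (4 : ENNReal) ^ n / (n.factorial : ENNReal) ≤
        ∫⁻ ω : Fin (n + 0) → (Fin n → ℝ),
          volume (convexHull ℝ (Set.range ω ∪ Set.range (fun i => -ω i))) *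
          volume {y : Fin n → ℝ | ∀ x ∈ convexHull ℝ (Set.range ω ∪ Set.range (fun i => -ω i)),
                    ∑ j, x j * y j ≤ 1}
        ∂(Measure.pi (fun _ : Fin (n + 0) => Measure.pi (fun _ : Fin n => gaussianReal 0 1))) := by
  have hT1 := VP.T1_of VP.A1.vol_simplex (VP.A5.facet_integral VP.A4.det_ne_zero_ae) n 0 (by omega)
  refine le_trans ?_ hT1
  rw [mul_assoc]
  conv_lhs => rw [← mul_one ((4 : ENNReal) ^ n / (n.factorial : ENNReal))]
  gcongr
  simp only [pow_zero, lintegral_one, measure_univ, add_zero, Nat.choose_self, Nat.cast_one, one_mul,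
      MeasureTheory.lintegral_const, Measure.restrict_apply, MeasurableSet.univ, Set.univ_inter]
  rw [volume_pi_pi]
  simp only [Real.volume_Icc, Finset.prod_const, Finset.card_univ, Fintype.card_fin]
  rw [show (1 - -1 : ℝ) = 2 by norm_num, ENNReal.ofReal_ofNat]
  rw [ENNReal.inv_mul_cancel (by positivity) (by simp)]

/-- reduction of the theorem to the scalar inequality -/
theorem main_of_scalar (n m : ℕ) (hn : 2 ≤ n)
    (h : 1 ≤ ((n + m).choose n : ℝ≥0∞) *
      ∫⁻ x, (∫⁻ b in Set.Ioi (0 : ℝ), ∫⁻ a : ℝ, QQ (|x| / √(n : ℝ)) a b ^ m * KK n a b)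
        ∂(gaussianReal 0 1)) :
      (4 : ENNReal) ^ n / (n.factorial : ENNReal) ≤
        ∫⁻ ω : Fin (n + m) → (Fin n → ℝ),
          volume (convexHull ℝ (Set.range ω ∪ Set.range (fun i => -ω i))) *
          volume {y : Fin n → ℝ | ∀ x ∈ convexHull ℝ (Set.range ω ∪ Set.range (fun i => -ω i)),
                    ∑ j, x j * y j ≤ 1}
        ∂(Measure.pi (fun _ : Fin (n + m) => Measure.pi (fun _ : Fin n => gaussianReal 0 1))) := by
  refine le_trans ?_ (VP.geom_out n m hn)
  rw [mul_assoc]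
  conv_lhs => rw [← mul_one ((4 : ENNReal) ^ n / (n.factorial : ENNReal))]
  gcongr
  exact h

/-- The inequality for `n ≤ 2` and for `n ≥ 30`, all `N ≥ n`. -/
theorem main_mid (n N : ℕ) (hn1 : 1 ≤ n) (hn : n ≤ 2 ∨ 30 ≤ n) (hN : n ≤ N) :
      (4 : ENNReal) ^ n / (n.factorial : ENNReal) ≤
        ∫⁻ ω : Fin N → (Fin n → ℝ),
          volume (convexHull ℝ (Set.range ω ∪ Set.range (fun i => -ω i))) *
          volume {y : Fin n → ℝ | ∀ x ∈ convexHull ℝ (Set.range ω ∪ Set.range (fun i => -ω i)),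
                    ∑ j, x j * y j ≤ 1}
        ∂(Measure.pi (fun _ : Fin N => Measure.pi (fun _ : Fin n => gaussianReal 0 1))) := by
  rcases hn with hn | hn
  · obtain rfl | rfl : n = 1 ∨ n = 2 := by omega
    · exact M42.case_one N hN
    · exact M41.case_two (M40.mahler_planar M39.mahler_norm) N hN
  · obtain ⟨m, rfl⟩ : ∃ m, N = n + m := ⟨N - n, by omega⟩
    rcases Nat.eq_zero_or_pos m with rfl | hm
    · exact main_zero n hn1
    · exact main_of_scalar n m (by omega) (P5_scalar n m hn hm)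

end Pool.Agent.VPK
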