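import Mathlib

set_option autoImplicit false
open MeasureTheory ProbabilityTheory
open scoped ENNReal Matrix

namespace Pool.Agent.VPK


/-- `P(|X| < x)` for a standard Gaussian variable `X` -/
noncomputable def SS (x : ℝ) : ℝ≥0∞ := gaussianReal 0 1 {t | |t| < x}

/-- `P(|X - a| ≤ b)` for a standard Gaussian variable `X` -/
noncomputable def om (a b : ℝ) : ℝ≥0∞ := gaussianReal 0 1 {t | |t - a| ≤ b}

/-- Gaussian measure of the parallelogram with slope parameter `a`, half edge `b`, height `H` -/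
noncomputable def QQ (H a b : ℝ) : ℝ≥0∞ := ∫⁻ x in {x : ℝ | |x| < H}, om (a * x / H) b ∂(gaussianReal 0 1)

/-- mean of the coordinates of `z` -/
noncomputable def zb {n : ℕ} (z : Fin n → ℝ) : ℝ := (∑ i, z i) / n

/-- `∑ (z_i - mean)^2` -/
noncomputable def s2 {n : ℕ} (z : Fin n → ℝ) : ℝ := ∑ i, (z i - zb z) ^ 2

/-- `E[S(|X|/√n)^m]` -/
noncomputable def J1 (n m : ℕ) : ℝ≥0∞ :=
  ∫⁻ x, SS (|x| / √(n : ℝ)) ^ m ∂(gaussianReal 0 1)

/-- standard normal density -/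
noncomputable def ph (y : ℝ) : ℝ := Real.exp (-y ^ 2 / 2) / √(2 * Real.pi)

/-- `P(|X| < y)` as a real number (odd in `y`) -/
noncomputable def PP (y : ℝ) : ℝ := 2 * ∫ t in (0 : ℝ)..y, ph t

/-- antiderivative of `PP` (even) -/
noncomputable def II (y : ℝ) : ℝ := y * PP y + 2 * ph y

/-- moments of the Gaussian weight on the edge `[a-b, a+b]` -/
noncomputable def mu (k : ℕ) (a b : ℝ) : ℝ :=
  (1 / 2) * ∫ z in (-1 : ℝ)..1, z ^ k * Real.exp (-(a + z * b) ^ 2 / 2)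

/-- mean of `PP` over the edge -/
noncomputable def rr (a b : ℝ) : ℝ := (1 / 2) * ∫ z in (-1 : ℝ)..1, PP (a + z * b)

/-- average over the slices -/
noncomputable def GG (a b : ℝ) : ℝ := ∫ s in (0 : ℝ)..1, (PP (s * a + b) - PP (s * a - b)) / 2

/-- the density of `(a, b)` -/
noncomputable def KK (n : ℕ) (a b : ℝ) : ℝ≥0∞ :=
  (2⁻¹ : ℝ≥0∞) ^ n * ∫⁻ z in Set.Icc (fun _ : Fin n => (-1 : ℝ)) (fun _ => 1),
    ENNReal.ofReal (√(n : ℝ) / √(2 * Real.pi) * s2 z * b *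
      Real.exp (-(∑ i, (a + z i * b) ^ 2) / 2))

/-- closed form of the density of `(a, b)` -/
noncomputable def dn (n : ℕ) (a b : ℝ) : ℝ :=
  √(n : ℝ) / √(2 * Real.pi) * b * (n - 1) * mu 0 a b ^ (n - 2) *
    (mu 0 a b * mu 2 a b - mu 1 a b ^ 2)

/-- `E[X^2 ; |X| < y]` -/
noncomputable def S3 (y : ℝ) : ℝ := PP y - 2 * y * ph y

/-- moments of `exp (-y u^2 / 2)` on `[0,1]` -/
noncomputable def mm (k : ℕ) (y : ℝ) : ℝ := ∫ u in (0 : ℝ)..1, u ^ k * Real.exp (-(y * u ^ 2) / 2)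

/-- logarithm of the closed form lower bound -/
noncomputable def Phi (C1 α1 C α C3 α3 : ℝ) (n m : ℕ) : ℝ :=
  Real.log ((n + m).factorial : ℝ) - Real.log (n.factorial : ℝ) - (m : ℝ) / 2 * Real.log (2 * n) + m * α1
    - ((m : ℝ) + 1) / 2 * Real.log (1 + 2 * C1 * m / n) + Real.log ((n : ℝ) - 1)
    + Real.log (n / ((n : ℝ) + m / 3)) / 2 + n / 2 * Real.log (Real.pi / 2) + ((n : ℝ) + m - 1) * α + α3
    - Real.log 2 - ((m : ℝ) / 2 + 1) * Real.log (((n : ℝ) + m - 1) * C + C3)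

/-- rate function -/
noncomputable def fr (C1 α1 C α l : ℝ) : ℝ :=
  Real.log (Real.pi / 2) / 2 + α + (1 + l / 2) * Real.log (1 + l) - l / 2 * Real.log (1 + 2 * C1 * l)
    + l * (α1 + α - 1 - Real.log 2 / 2 - Real.log C / 2)

/-- lower order term -/
noncomputable def gr (C1 C α C3 α3 l : ℝ) : ℝ :=
  -Real.log (1 + l) / 2 - Real.log (1 + 2 * C1 * l) / 2 - Real.log (1 + l / 3) / 2
    + (α3 - α - Real.log (2 * C)) - (C3 / C - 1) * l / (2 * (1 + l))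

/-- derivative of `gr` -/
noncomputable def dgr (C1 C C3 l : ℝ) : ℝ :=
  -1 / (2 * (1 + l)) - 2 * C1 / (2 * (1 + 2 * C1 * l)) - (1 / 3) / (2 * (1 + l / 3))
    - (C3 / C - 1) / (2 * (1 + l) ^ 2)

/-- error term -/
noncomputable def er (C C3 N l : ℝ) : ℝ :=
  Real.log (1 - 1 / N) - 1 / (8 * N) - (C3 / C - 1) / (N * (1 + l))

end Pool.Agent.VPK
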