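import Pool.Agent.VPK.Defs

set_option autoImplicit false
open MeasureTheory ProbabilityTheory
open scoped ENNReal Matrix

namespace Pool.Agent.VPK.K1

open Pool.Agent.VPK

































theorem ph_cont9157 : Continuous ph := by
  unfold ph
  fun_prop

theorem ph_pos9157 (y : ℝ) : 0 < ph y := by
  unfold ph
  positivity

theorem ph_even9157 (y : ℝ) : ph (-y) = ph y := by
  unfold ph
  rw [neg_sq]

theorem half_diff9157 (c b : ℝ) :
    (PP (c + b) - PP (c - b)) / 2 = ∫ t in (c - b)..(c + b), ph t := by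
  have h := intervalIntegral.integral_interval_sub_left (μ := volume) (f := ph) (a := 0) (b := c + b)
    (c := c - b) (ph_cont9157.intervalIntegrable _ _) (ph_cont9157.intervalIntegrable _ _)
  unfold PP
  rw [← h]
  ring

theorem PP_odd9157 (y : ℝ) : PP (-y) = - PP y := by
  unfold PP
  have h := intervalIntegral.integral_comp_neg (a := 0) (b := y) (f := ph)
  simp only [ph_even9157, neg_zero] at h
  rw [h, intervalIntegral.integral_symm (-y) 0]
  ring

theorem PP_eq9157 (y : ℝ) : PP y = ∫ t in (-y)..y, ph t := by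
  have h := half_diff9157 0 y
  rw [zero_add, zero_sub, PP_odd9157] at h
  rw [← h]
  ring

theorem PP_mono9157 : Monotone PP := by
  intro x y hxy
  have h := intervalIntegral.integral_interval_sub_left (μ := volume) (f := ph) (a := 0) (b := y)
    (c := x) (ph_cont9157.intervalIntegrable _ _) (ph_cont9157.intervalIntegrable _ _)
  have h2 : 0 ≤ ∫ t in x..y, ph t :=
    intervalIntegral.integral_nonneg hxy (fun t _ => (ph_pos9157 t).le)
  unfold PP
  linarith

theorem PP_cont9157 : Continuous PP := by
  unfold PP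
  exact continuous_const.mul
    (intervalIntegral.continuous_primitive (fun a b => ph_cont9157.intervalIntegrable a b) 0)

theorem slice9157 (c b : ℝ) (hb : 0 ≤ b) :
    Real.exp (-(c ^ 2) / 2) * PP b ≤ (PP (c + b) - PP (c - b)) / 2 := by
  rw [half_diff9157, PP_eq9157]
  have h1 : ∫ t in (c - b)..(c + b), ph t = ∫ u in (-b)..b, ph (c + u) := by
    rw [intervalIntegral.integral_comp_add_left (fun t => ph t) c]
    rw [← sub_eq_add_neg]
  have h2 : ∫ u in (-b)..b, ph (c + u) = ∫ u in (-b)..b, ph (c - u) := by
    have h := intervalIntegral.integral_comp_neg (a := -b) (b := b) (f := fun u => ph (c + u))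
    rw [neg_neg] at h
    rw [← h]
    simp only [← sub_eq_add_neg]
  have hc1 : Continuous (fun u => ph (c + u)) := ph_cont9157.comp (by fun_prop)
  have hc2 : Continuous (fun u => ph (c - u)) := ph_cont9157.comp (by fun_prop)
  have h3 : ∫ u in (-b)..b, ph (c + u) = ∫ u in (-b)..b, (ph (c + u) + ph (c - u)) / 2 := by
    rw [intervalIntegral.integral_div, intervalIntegral.integral_add (hc1.intervalIntegrable _ _)
      (hc2.intervalIntegrable _ _), ← h2]
    ring
  rw [h1, h3, ← intervalIntegral.integral_const_mul]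
  apply intervalIntegral.integral_mono_on (by linarith)
  · exact (continuous_const.mul ph_cont9157).intervalIntegrable _ _
  · exact ((hc1.add hc2).div_const 2).intervalIntegrable _ _
  · intro u _
    have e1 : ph (c + u) = Real.exp (-(c ^ 2) / 2) * ph u * Real.exp (-(c * u)) := by
      unfold ph
      rw [mul_div_assoc', div_mul_eq_mul_div, ← Real.exp_add, ← Real.exp_add]
      congr 2
      ring
    have e2 : ph (c - u) = Real.exp (-(c ^ 2) / 2) * ph u * Real.exp (c * u) := by
      unfold ph
      rw [mul_div_assoc', div_mul_eq_mul_div, ← Real.exp_add, ← Real.exp_add]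
      congr 2
      ring
    rw [e1, e2]
    have h4 : 2 ≤ Real.exp (-(c * u)) + Real.exp (c * u) := by
      have a1 := Real.add_one_le_exp (-(c * u))
      have a2 := Real.add_one_le_exp (c * u)
      linarith
    have h5 : 0 ≤ Real.exp (-(c ^ 2) / 2) * ph u := by
      have := ph_pos9157 u
      positivity
    nlinarith

theorem GG_lower (a b : ℝ) (hb : 0 ≤ b) : PP b * Real.exp (-(a ^ 2) / 6) ≤ GG a b := by
  unfold GG
  have hPb : 0 ≤ PP b := by
    rw [PP_eq9157]
    exact intervalIntegral.integral_nonneg (by linarith) (fun t _ => (ph_pos9157 t).le)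
  have hcont : Continuous (fun s : ℝ => (PP (s * a + b) - PP (s * a - b)) / 2) := by
    have h1 : Continuous (fun s : ℝ => PP (s * a + b)) := PP_cont9157.comp (by fun_prop)
    have h2 : Continuous (fun s : ℝ => PP (s * a - b)) := PP_cont9157.comp (by fun_prop)
    exact (h1.sub h2).div_const 2
  have h1 : ∫ s in (0:ℝ)..1, PP b * (Real.exp (-(a ^ 2) / 6) * (1 + a ^ 2 / 6 - s ^ 2 * a ^ 2 / 2)) ≤
      ∫ s in (0:ℝ)..1, (PP (s * a + b) - PP (s * a - b)) / 2 := by
    apply intervalIntegral.integral_mono_on zero_le_one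
    · apply Continuous.intervalIntegrable
      fun_prop
    · exact hcont.intervalIntegrable _ _
    · intro s _
      refine le_trans ?_ (slice9157 (s * a) b hb)
      rw [mul_comm (Real.exp (-((s * a) ^ 2) / 2))]
      apply mul_le_mul_of_nonneg_left _ hPb
      have e1 : Real.exp (-((s * a) ^ 2) / 2) =
          Real.exp (-(a ^ 2) / 6) * Real.exp (a ^ 2 / 6 - s ^ 2 * a ^ 2 / 2) := by
        rw [← Real.exp_add]
        congr 1
        ring
      rw [e1]
      apply mul_le_mul_of_nonneg_left _ (Real.exp_pos _).le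
      have := Real.add_one_le_exp (a ^ 2 / 6 - s ^ 2 * a ^ 2 / 2)
      linarith
  refine le_trans (le_of_eq ?_) h1
  rw [intervalIntegral.integral_const_mul, intervalIntegral.integral_const_mul]
  have h2 : ∫ s in (0:ℝ)..1, (1 + a ^ 2 / 6 - s ^ 2 * a ^ 2 / 2) = 1 := by
    have h3 : ∀ s : ℝ, HasDerivAt (fun s : ℝ => (1 + a ^ 2 / 6) * s - s ^ 3 * a ^ 2 / 6)
        (1 + a ^ 2 / 6 - s ^ 2 * a ^ 2 / 2) s := by
      intro s
      have h4 := ((hasDerivAt_id s).const_mul (1 + a ^ 2 / 6)).sub
        (((hasDerivAt_pow 3 s).mul_const (a ^ 2)).div_const 6)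
      refine h4.congr_deriv ?_
      push_cast
      ring
    rw [intervalIntegral.integral_eq_sub_of_hasDerivAt (fun s _ => h3 s)
      (Continuous.intervalIntegrable (by fun_prop) _ _)]
    ring
  rw [h2]
  ring

theorem GG_lower' (a b t : ℝ) (ht : 0 ≤ t) (hab : |a| ≤ b - t) : PP t ≤ GG a b := by
  unfold GG
  have hcont : Continuous (fun s : ℝ => (PP (s * a + b) - PP (s * a - b)) / 2) := by
    have h1 : Continuous (fun s : ℝ => PP (s * a + b)) := PP_cont9157.comp (by fun_prop)
    have h2 : Continuous (fun s : ℝ => PP (s * a - b)) := PP_cont9157.comp (by fun_prop)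
    exact (h1.sub h2).div_const 2
  have h1 : ∫ _s in (0:ℝ)..1, PP t ≤
      ∫ s in (0:ℝ)..1, (PP (s * a + b) - PP (s * a - b)) / 2 := by
    apply intervalIntegral.integral_mono_on zero_le_one
    · exact continuous_const.intervalIntegrable _ _
    · exact hcont.intervalIntegrable _ _
    · intro s hs
      have h2 : |s * a| ≤ b - t := by
        rw [abs_mul, abs_of_nonneg hs.1]
        have := abs_nonneg a
        nlinarith [hs.2]
      have h3 := abs_le.mp h2
      have h4 : PP t ≤ PP (s * a + b) := PP_mono9157 (by linarith [h3.1])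
      have h5 : PP (s * a - b) ≤ PP (-t) := PP_mono9157 (by linarith [h3.2])
      rw [PP_odd9157] at h5
      linarith
  simpa using h1


end Pool.Agent.VPK.K1
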