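import Pool.Agent.VPK.Defs

set_option autoImplicit false
open MeasureTheory ProbabilityTheory
open scoped ENNReal Matrix

namespace Pool.Agent.VPK.K10a

open Pool.Agent.VPK











































private theorem aux_lo (x : ℝ) (hx : 0 < x) :
    (x + 1 / 2) * Real.log x + 1 / 2 ≤ (x + 1 / 2) * Real.log (x + 1 / 2) := by
  have h1 : x + 1 / 2 = x * (1 + 1 / (2 * x)) := by field_simp
  have h2 : Real.log (x + 1 / 2) = Real.log x + Real.log (1 + 1 / (2 * x)) := by
    rw [h1, Real.log_mul hx.ne' (by positivity)]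
  have h3 := Real.le_log_one_add_of_nonneg (x := 1 / (2 * x)) (by positivity)
  have h4 : 2 * (1 / (2 * x)) / (1 / (2 * x) + 2) = 2 / (4 * x + 1) := by
    field_simp
    ring
  rw [h4] at h3
  have h5 : 1 / 2 ≤ (x + 1 / 2) * (2 / (4 * x + 1)) := by
    rw [mul_div_assoc', div_le_div_iff₀ (by norm_num) (by positivity)]
    nlinarith
  rw [h2]
  have h6 := mul_le_mul_of_nonneg_left h3 (show (0:ℝ) ≤ x + 1 / 2 by positivity)
  nlinarith

private theorem aux_hi (x : ℝ) (hx : 0 < x) :
    (x + 1 / 2) * Real.log (x + 1 / 2) ≤ (x + 1 / 2) * Real.log x + 1 / 2 + 1 / (8 * x) := by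
  have h1 : x + 1 / 2 = x * (1 + 1 / (2 * x)) := by field_simp
  have h2 : Real.log (x + 1 / 2) = Real.log x + Real.log (1 + 1 / (2 * x)) := by
    rw [h1, Real.log_mul hx.ne' (by positivity)]
  have h0 : 0 < 1 / (2 * x) := by positivity
  have h3 : Real.log (1 + 1 / (2 * x)) ≤ ((1 + 1 / (2 * x)) - (1 + 1 / (2 * x))⁻¹) / 2 := by
    rw [← Real.sinh_log (by positivity)]
    exact Real.self_le_sinh_iff.mpr (Real.log_nonneg (by linarith))
  have h4 : (x + 1 / 2) * (((1 + 1 / (2 * x)) - (1 + 1 / (2 * x))⁻¹) / 2) = 1 / 2 + 1 / (8 * x) := by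
    have : 2 * x + 1 ≠ 0 := by positivity
    field_simp
    ring
  rw [h2]
  have h6 := mul_le_mul_of_nonneg_left h3 (show (0:ℝ) ≤ x + 1 / 2 by positivity)
  rw [h4] at h6
  nlinarith

theorem Phi_ge
    (c5_fact : ∀ (n m : ℕ), ((n:ℝ) + m + 1 / 2) * Real.log ((n:ℝ) + m + 1 / 2)
      - ((n:ℝ) + 1 / 2) * Real.log ((n:ℝ) + 1 / 2) - m ≤
      Real.log ((n + m).factorial : ℝ) - Real.log (n.factorial : ℝ))
    (C1 α1 C α C3 α3 : ℝ) (hC1 : 0 < C1) (hC : 0 < C) (hC3 : C ≤ C3) (n m : ℕ) (hn : 2 ≤ n)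
    (hm : 1 ≤ m) :
    n * fr C1 α1 C α (m / n) + gr C1 C α C3 α3 (m / n) + er C C3 n (m / n) ≤
      Phi C1 α1 C α C3 α3 n m := by
  have hN : (0:ℝ) < n := by positivity
  have hN2 : (2:ℝ) ≤ n := by exact_mod_cast hn
  have hM : (0:ℝ) < m := by positivity
  have hfact := c5_fact n m
  have hlo := aux_lo ((n:ℝ) + m) (by positivity)
  have hhi := aux_hi (n:ℝ) hN
  unfold Phi fr gr er
  generalize hA : Real.log ((n + m).factorial : ℝ) - Real.log (n.factorial : ℝ) = A at *
  set N : ℝ := (n:ℝ) with hNdef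
  set M : ℝ := (m:ℝ) with hMdef
  obtain ⟨l, hl⟩ : ∃ l : ℝ, l = M / N := ⟨_, rfl⟩
  have hl0 : 0 < l := by rw [hl]; positivity
  have hMl : M = N * l := by rw [hl]; field_simp
  rw [← hl]
  -- logs
  have e1 : Real.log (N + M) = Real.log N + Real.log (1 + l) := by
    rw [← Real.log_mul hN.ne' (by positivity)]
    congr 1
    rw [hMl]; ring
  have e2 : Real.log (2 * N) = Real.log 2 + Real.log N :=
    Real.log_mul (by norm_num) hN.ne'
  have e3 : 2 * C1 * M / N = 2 * C1 * l := by rw [hl]; ring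
  have hN1 : (0:ℝ) < 1 - 1 / N := by
    rw [sub_pos, div_lt_one hN]
    linarith
  have e4 : Real.log (N - 1) = Real.log N + Real.log (1 - 1 / N) := by
    rw [← Real.log_mul hN.ne' hN1.ne']
    congr 1
    field_simp
  have e5 : Real.log (N / (N + M / 3)) = - Real.log (1 + l / 3) := by
    rw [← Real.log_inv]
    congr 1
    rw [hMl]
    field_simp
  have hρ : 0 ≤ C3 / C - 1 := by
    rw [sub_nonneg, le_div_iff₀ hC]
    linarith
  have hN1l : 0 < N * (1 + l) := by positivity
  have e6 : Real.log ((N + M - 1) * C + C3) ≤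
      Real.log C + Real.log N + Real.log (1 + l) + (C3 / C - 1) / (N * (1 + l)) := by
    have h1 : (N + M - 1) * C + C3 = C * (N * ((1 + l) * (1 + (C3 / C - 1) / (N * (1 + l))))) := by
      rw [hMl]
      field_simp
      ring
    have h2 : 0 < 1 + (C3 / C - 1) / (N * (1 + l)) := by positivity
    rw [h1, Real.log_mul hC.ne' (by positivity), Real.log_mul hN.ne' (by positivity),
      Real.log_mul (by positivity) h2.ne']
    have h3 := Real.log_le_sub_one_of_pos h2
    linarith
  have e7 : Real.log (2 * C) = Real.log 2 + Real.log C :=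
    Real.log_mul (by norm_num) hC.ne'
  rw [e2, e3, e4, e5, e7]
  rw [e1] at hlo
  have h8 := mul_le_mul_of_nonneg_left e6 (show (0:ℝ) ≤ M / 2 + 1 by positivity)
  have e9 : (M / 2 + 1) * ((C3 / C - 1) / (N * (1 + l))) =
      (C3 / C - 1) * l / (2 * (1 + l)) + (C3 / C - 1) / (N * (1 + l)) := by
    rw [hMl]
    field_simp
  generalize (C3 / C - 1) / (N * (1 + l)) = R1 at *
  generalize (C3 / C - 1) * l / (2 * (1 + l)) = R2 at *
  generalize Real.log ((N + M - 1) * C + C3) = LL at *
  generalize Real.log (N + M + 1 / 2) = LA at *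
  generalize Real.log (N + 1 / 2) = LB at *
  generalize Real.log (1 + l) = L1 at *
  generalize Real.log (1 + 2 * C1 * l) = Lc at *
  generalize Real.log (1 + l / 3) = L3 at *
  generalize Real.log (1 - 1 / N) = Lm at *
  generalize 1 / (8 * N) = E8 at *
  generalize Real.log N = LN at *
  generalize Real.log C = LC at *
  generalize Real.log 2 = L2 at *
  generalize Real.log (Real.pi / 2) = Lp at *
  clear_value N M
  subst hMl
  nlinarith [hfact, hlo, hhi, h8, e9]

end Pool.Agent.VPK.K10a
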