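import Pool.Agent.VPK.Defs

set_option autoImplicit false
open MeasureTheory ProbabilityTheory
open scoped ENNReal Matrix

namespace Pool.Agent.VPK.K10b

open Pool.Agent.VPK










































theorem cell_log_aux {x y : ℝ} (hx : 0 < x) (hy : 0 < y) :
    Real.log x ≤ Real.log y + (x - y) / y := by
  have h1 := Real.log_le_sub_one_of_pos (div_pos hx hy)
  rw [Real.log_div hx.ne' hy.ne'] at h1
  have h2 : (x - y) / y = x / y - 1 := by rw [sub_div, div_self hy.ne']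
  rw [h2]
  linarith

theorem cell_frac_aux {l u : ℝ} (hl : 0 ≤ l) (hu : 0 ≤ u) :
    l / (1 + l) ≤ u / (1 + u) + (l - u) / (1 + u) ^ 2 := by
  have h1 : 0 < 1 + l := by linarith
  have h2 : 0 < 1 + u := by linarith
  have h3 : u / (1 + u) + (l - u) / (1 + u) ^ 2 - l / (1 + l)
      = (l - u) ^ 2 / ((1 + u) ^ 2 * (1 + l)) := by
    field_simp
    ring
  have h4 : 0 ≤ (l - u) ^ 2 / ((1 + u) ^ 2 * (1 + l)) := by positivity
  linarith

theorem cell_gr_aux {C1 C α C3 α3 l u : ℝ} (hC1 : 0 < C1) (hC : 0 < C) (hC3 : C ≤ C3)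
    (hl : 0 ≤ l) (hu : 0 ≤ u) :
    gr C1 C α C3 α3 u + dgr C1 C C3 u * (l - u) ≤ gr C1 C α C3 α3 l := by
  unfold gr dgr
  have hD : 0 ≤ C3 / C - 1 := by
    rw [sub_nonneg, le_div_iff₀ hC]; linarith
  set D := C3 / C - 1
  have k1 := cell_log_aux (x := 1 + l) (y := 1 + u) (by linarith) (by linarith)
  have k2 := cell_log_aux (x := 1 + 2 * C1 * l) (y := 1 + 2 * C1 * u) (by positivity)
    (by positivity)
  have k3 := cell_log_aux (x := 1 + l / 3) (y := 1 + u / 3) (by positivity) (by positivity)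
  have k4 := mul_le_mul_of_nonneg_left (cell_frac_aux hl hu) hD
  have p1 : 0 < 1 + u := by linarith
  have p2 : 0 < 1 + 2 * C1 * u := by positivity
  have p3 : 0 < 1 + u / 3 := by positivity
  have e : (-1 / (2 * (1 + u)) - 2 * C1 / (2 * (1 + 2 * C1 * u)) - (1 / 3) / (2 * (1 + u / 3))
      - D / (2 * (1 + u) ^ 2)) * (l - u)
      = -(((1 + l) - (1 + u)) / (1 + u)) / 2
        - (((1 + 2 * C1 * l) - (1 + 2 * C1 * u)) / (1 + 2 * C1 * u)) / 2
        - (((1 + l / 3) - (1 + u / 3)) / (1 + u / 3)) / 2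
        - D * ((l - u) / (1 + u) ^ 2) / 2 := by
    have e1 : -1 / (2 * (1 + u)) * (l - u) = -(((1 + l) - (1 + u)) / (1 + u)) / 2 := by
      field_simp; ring
    have e2 : 2 * C1 / (2 * (1 + 2 * C1 * u)) * (l - u)
        = (((1 + 2 * C1 * l) - (1 + 2 * C1 * u)) / (1 + 2 * C1 * u)) / 2 := by
      field_simp; ring
    have e3 : (1 / 3) / (2 * (1 + u / 3)) * (l - u)
        = (((1 + l / 3) - (1 + u / 3)) / (1 + u / 3)) / 2 := by
      field_simp; ring
    have e4 : D / (2 * (1 + u) ^ 2) * (l - u) = D * ((l - u) / (1 + u) ^ 2) / 2 := by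
      field_simp
    rw [sub_mul, sub_mul, sub_mul, e1, e2, e3, e4]
  rw [e]
  have f1 : D * l / (2 * (1 + l)) = D * (l / (1 + l)) / 2 := by
    field_simp
  have f2 : D * u / (2 * (1 + u)) = D * (u / (1 + u)) / 2 := by
    field_simp
  rw [f1, f2]
  rw [mul_add] at k4
  linarith

theorem cell_er_aux {C C3 N N0 l l1 : ℝ} (hC : 0 < C) (hC3 : C ≤ C3) (hN0 : 2 ≤ N0)
    (hN : N0 ≤ N) (hl1 : 0 < l1) (hl : l1 ≤ l) : er C C3 N0 l1 ≤ er C C3 N l := by
  unfold er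
  have hD : 0 ≤ C3 / C - 1 := by
    rw [sub_nonneg, le_div_iff₀ hC]; linarith
  set D := C3 / C - 1
  have h0 : 0 < N0 := by linarith
  have h1 : 1 / N ≤ 1 / N0 := one_div_le_one_div_of_le h0 hN
  have h2 : 1 / N0 ≤ 1 / 2 := one_div_le_one_div_of_le (by norm_num) hN0
  have h3 : Real.log (1 - 1 / N0) ≤ Real.log (1 - 1 / N) :=
    Real.log_le_log (by linarith) (by linarith)
  have h4 : 1 / (8 * N) ≤ 1 / (8 * N0) := one_div_le_one_div_of_le (by linarith) (by linarith)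
  have h5 : D / (N * (1 + l)) ≤ D / (N0 * (1 + l1)) := by
    apply div_le_div_of_nonneg_left hD (by positivity)
    exact mul_le_mul hN (by linarith) (by linarith) (by linarith)
  linarith

theorem cell_conc_aux {C1 α1 C α l1 l2 : ℝ} (hC1 : 0 < C1) (hl1 : 0 < l1)
    (hconc : ∀ l ∈ Set.Icc l1 l2, l * (1 - 8 * C1 - 4 * C1 ^ 2) ≤ 4 * C1 + 8 * C1 ^ 2 * l ^ 2) :
    ConcaveOn ℝ (Set.Icc l1 l2) (fr C1 α1 C α) := by
  have hd1 : ∀ x : ℝ, 0 < x → HasDerivAt (fr C1 α1 C α)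
      (Real.log (1 + x) / 2 + (1 + x / 2) / (1 + x) - Real.log (1 + 2 * C1 * x) / 2
        - x / 2 * (2 * C1) / (1 + 2 * C1 * x)
        + (α1 + α - 1 - Real.log 2 / 2 - Real.log C / 2)) x := by
    intro x hx
    have p1 : 1 + x ≠ 0 := by positivity
    have p2 : 1 + 2 * C1 * x ≠ 0 := by positivity
    have a1 : HasDerivAt (fun x : ℝ => Real.log (1 + x)) (1 / (1 + x)) x :=
      ((hasDerivAt_id x).const_add 1).log p1
    have a2 : HasDerivAt (fun x : ℝ => Real.log (1 + 2 * C1 * x)) ((2 * C1) / (1 + 2 * C1 * x)) x := by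
      have := (((hasDerivAt_id x).const_mul (2 * C1)).const_add 1).log p2
      simpa using this
    have a3 : HasDerivAt (fun x : ℝ => 1 + x / 2) (1 / 2) x :=
      ((hasDerivAt_id x).div_const 2).const_add 1
    have a4 : HasDerivAt (fun x : ℝ => x / 2) (1 / 2) x := (hasDerivAt_id x).div_const 2
    have a5 : HasDerivAt (fun x : ℝ => x * (α1 + α - 1 - Real.log 2 / 2 - Real.log C / 2))
        (1 * (α1 + α - 1 - Real.log 2 / 2 - Real.log C / 2)) x :=
      (hasDerivAt_id x).mul_const _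
    have := ((((a3.mul a1).const_add (Real.log (Real.pi / 2) / 2 + α)).sub (a4.mul a2)).add a5)
    refine (this.congr_deriv ?_)
    ring
  have hd2 : ∀ x : ℝ, 0 < x → HasDerivAt (fun x : ℝ =>
      Real.log (1 + x) / 2 + (1 + x / 2) / (1 + x) - Real.log (1 + 2 * C1 * x) / 2
        - x / 2 * (2 * C1) / (1 + 2 * C1 * x)
        + (α1 + α - 1 - Real.log 2 / 2 - Real.log C / 2))
      (x / (2 * (1 + x) ^ 2) - 2 * C1 * (2 + 2 * C1 * x) / (2 * (1 + 2 * C1 * x) ^ 2)) x := by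
    intro x hx
    have p1 : 1 + x ≠ 0 := by positivity
    have p2 : 1 + 2 * C1 * x ≠ 0 := by positivity
    have b1 : HasDerivAt (fun x : ℝ => 1 + x) 1 x := (hasDerivAt_id x).const_add 1
    have b2 : HasDerivAt (fun x : ℝ => 1 + 2 * C1 * x) (2 * C1) x := by
      have := ((hasDerivAt_id x).const_mul (2 * C1)).const_add 1
      simpa using this
    have a1 : HasDerivAt (fun x : ℝ => Real.log (1 + x) / 2) (1 / (1 + x) / 2) x :=
      (b1.log p1).div_const 2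
    have a2 : HasDerivAt (fun x : ℝ => Real.log (1 + 2 * C1 * x) / 2)
        ((2 * C1) / (1 + 2 * C1 * x) / 2) x := (b2.log p2).div_const 2
    have a3 : HasDerivAt (fun x : ℝ => 1 + x / 2) (1 / 2) x :=
      ((hasDerivAt_id x).div_const 2).const_add 1
    have a4 : HasDerivAt (fun x : ℝ => x / 2 * (2 * C1)) (1 / 2 * (2 * C1)) x :=
      ((hasDerivAt_id x).div_const 2).mul_const (2 * C1)
    have := (((a1.add (a3.div b1 p1)).sub a2).sub (a4.div b2 p2)).add_const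
      (α1 + α - 1 - Real.log 2 / 2 - Real.log C / 2)
    refine this.congr_deriv ?_
    field_simp
    ring
  refine concaveOn_of_hasDerivWithinAt2_nonpos (convex_Icc l1 l2)
    (f' := fun x => Real.log (1 + x) / 2 + (1 + x / 2) / (1 + x) - Real.log (1 + 2 * C1 * x) / 2
        - x / 2 * (2 * C1) / (1 + 2 * C1 * x)
        + (α1 + α - 1 - Real.log 2 / 2 - Real.log C / 2))
    (f'' := fun x => x / (2 * (1 + x) ^ 2)
      - 2 * C1 * (2 + 2 * C1 * x) / (2 * (1 + 2 * C1 * x) ^ 2)) ?_ ?_ ?_ ?_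
  · intro x hx
    exact (hd1 x (by linarith [hx.1])).continuousAt.continuousWithinAt
  · intro x hx
    rw [interior_Icc] at hx
    exact (hd1 x (by linarith [hx.1])).hasDerivWithinAt
  · intro x hx
    rw [interior_Icc] at hx
    exact (hd2 x (by linarith [hx.1])).hasDerivWithinAt
  · intro x hx
    rw [interior_Icc] at hx
    have hx0 : 0 < x := by linarith [hx.1]
    have h1 := hconc x ⟨hx.1.le, hx.2.le⟩
    have q1 : 0 < 2 * (1 + x) ^ 2 := by positivity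
    have q2 : 0 < 2 * (1 + 2 * C1 * x) ^ 2 := by positivity
    show x / (2 * (1 + x) ^ 2) - 2 * C1 * (2 + 2 * C1 * x) / (2 * (1 + 2 * C1 * x) ^ 2) ≤ 0
    rw [sub_nonpos, div_le_div_iff₀ q1 q2]
    have e : 2 * C1 * (2 + 2 * C1 * x) * (2 * (1 + x) ^ 2) - x * (2 * (1 + 2 * C1 * x) ^ 2)
        = 2 * (4 * C1 + 8 * C1 ^ 2 * x ^ 2 - x * (1 - 8 * C1 - 4 * C1 ^ 2)) := by ring
    linarith

theorem cell
    (C1 α1 C α C3 α3 l1 l2 mu' N0 : ℝ) (hC1 : 0 < C1) (hC1' : C1 ≤ 1 / 6) (hC : 0 < C) (hC3 : C ≤ C3)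
    (hl1 : 0 < l1) (hl : l1 ≤ l2) (hmu : 0 ≤ mu') (hN0 : 2 ≤ N0)
    (Phi_ge : ∀ (n m : ℕ), 2 ≤ n → 1 ≤ m →
      n * fr C1 α1 C α (m / n) + gr C1 C α C3 α3 (m / n) + er C C3 n (m / n) ≤
      Phi C1 α1 C α C3 α3 n m)
    (hconc : ∀ l ∈ Set.Icc l1 l2, l * (1 - 8 * C1 - 4 * C1 ^ 2) ≤ 4 * C1 + 8 * C1 ^ 2 * l ^ 2)
    (hf1 : 0 ≤ fr C1 α1 C α l1) (hf2 : 0 ≤ fr C1 α1 C α l2)
    (h1 : 0 ≤ N0 * fr C1 α1 C α l1 + (gr C1 C α C3 α3 mu' + dgr C1 C C3 mu' * (l1 - mu')) + er C C3 N0 l1)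
    (h2 : 0 ≤ N0 * fr C1 α1 C α l2 + (gr C1 C α C3 α3 mu' + dgr C1 C C3 mu' * (l2 - mu')) + er C C3 N0 l1)
    (n m : ℕ) (hn : N0 ≤ n) (hm1 : l1 ≤ m / n) (hm2 : m / n ≤ l2) :
    0 ≤ Phi C1 α1 C α C3 α3 n m := by
  have hn2 : (2 : ℝ) ≤ n := hN0.trans hn
  have hn2' : 2 ≤ n := by exact_mod_cast hn2
  have hm0 : 1 ≤ m := by
    by_contra hcon
    have : m = 0 := by omega
    rw [this] at hm1
    simp at hm1
    linarith
  set l : ℝ := (m : ℝ) / n with hldef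
  have hl0 : 0 < l := lt_of_lt_of_le hl1 hm1
  have hP := Phi_ge n m hn2' hm0
  rw [← hldef] at hP
  have hg := cell_gr_aux (α := α) (α3 := α3) hC1 hC hC3 hl0.le hmu
  have he := cell_er_aux hC hC3 hN0 hn hl1 hm1
  have hconcave := cell_conc_aux (α1 := α1) (C := C) (α := α) hC1 hl1 hconc
  have hmem : l ∈ segment ℝ l1 l2 := by
    rw [segment_eq_Icc hl]
    exact ⟨hm1, hm2⟩
  obtain ⟨a, b, ha, hb, hab, hlab⟩ := hmem
  have hf := hconcave.2 (Set.left_mem_Icc.2 hl) (Set.right_mem_Icc.2 hl) ha hb hab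
  rw [hlab] at hf
  simp only [smul_eq_mul] at hf hlab
  have hf0 : 0 ≤ fr C1 α1 C α l := by
    have := mul_nonneg ha hf1
    have := mul_nonneg hb hf2
    linarith
  have hnf : N0 * fr C1 α1 C α l ≤ n * fr C1 α1 C α l := mul_le_mul_of_nonneg_right hn hf0
  have hN0f := mul_le_mul_of_nonneg_left hf (show (0 : ℝ) ≤ N0 by linarith)
  have k1 := mul_nonneg ha h1
  have k2 := mul_nonneg hb h2
  have hb' : b = 1 - a := by linarith
  have key : a * (N0 * fr C1 α1 C α l1 + (gr C1 C α C3 α3 mu' + dgr C1 C C3 mu' * (l1 - mu'))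
        + er C C3 N0 l1)
      + b * (N0 * fr C1 α1 C α l2 + (gr C1 C α C3 α3 mu' + dgr C1 C C3 mu' * (l2 - mu'))
        + er C C3 N0 l1)
      = N0 * (a * fr C1 α1 C α l1 + b * fr C1 α1 C α l2)
        + (gr C1 C α C3 α3 mu' + dgr C1 C C3 mu' * (l - mu')) + er C C3 N0 l1 := by
    rw [← hlab, hb']
    ring
  linarith


end Pool.Agent.VPK.K10b
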