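import Pool.Agent.VPK.Defs

set_option autoImplicit false
open MeasureTheory ProbabilityTheory
open scoped ENNReal Matrix

namespace Pool.Agent.VPK.K10z

open Pool.Agent.VPK










































theorem cell_zero
    (c5_c0 : 95 / 1000 ≤ Real.log 2 + 1 / 2 * Real.log 3 - Real.log Real.pi)
    (Phi_ge : ∀ (C1 α1 C α C3 α3 : ℝ), 0 < C1 → 0 < C → C ≤ C3 → ∀ (n m : ℕ), 2 ≤ n → 1 ≤ m →
      n * fr C1 α1 C α (m / n) + gr C1 C α C3 α3 (m / n) + er C C3 n (m / n) ≤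
      Phi C1 α1 C α C3 α3 n m)
    (n m : ℕ) (hm : 1 ≤ m) (hmn : 36 * m ≤ n) :
    0 ≤ Phi (1 / 6) (-Real.log (Real.pi / 2) / 2) (1 / 6) (-Real.log (Real.pi / 2) / 2) (3 / 10)
      (-Real.log (Real.pi / 2) / 2 - Real.log 3) n m := by
  have hM : (1 : ℝ) ≤ (m : ℝ) := by exact_mod_cast hm
  have hMN : 36 * (m : ℝ) ≤ (n : ℝ) := by exact_mod_cast hmn
  have hN : (36 : ℝ) ≤ (n : ℝ) := by linarith
  have hN0 : (0 : ℝ) < (n : ℝ) := by linarith
  have hn2 : 2 ≤ n := by omega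
  refine le_trans ?_ (Phi_ge (1 / 6) (-Real.log (Real.pi / 2) / 2) (1 / 6)
    (-Real.log (Real.pi / 2) / 2) (3 / 10) (-Real.log (Real.pi / 2) / 2 - Real.log 3)
    (by norm_num) (by norm_num) (by norm_num) n m hn2 hm)
  set l : ℝ := (m : ℝ) / (n : ℝ) with hl
  have hl0 : 0 < l := by positivity
  have hl1 : l ≤ 1 / 36 := by
    rw [hl, div_le_iff₀ hN0]; linarith
  have hNl : (n : ℝ) * l = m := by
    rw [hl]; field_simp
  have hlogpi : Real.log (Real.pi / 2) = Real.log Real.pi - Real.log 2 :=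
    Real.log_div Real.pi_ne_zero two_ne_zero
  have hlog6 : Real.log (1 / 6 : ℝ) = -(Real.log 2 + Real.log 3) := by
    rw [one_div, Real.log_inv, ← Real.log_mul two_ne_zero three_ne_zero]; norm_num
  have hlog13 : Real.log (2 * (1 / 6) : ℝ) = -Real.log 3 := by
    rw [show (2 * (1 / 6) : ℝ) = 3⁻¹ by norm_num, Real.log_inv]
  have hA : l ≤ (1 + l / 2) * Real.log (1 + l) := by
    have h := Real.le_log_one_add_of_nonneg hl0.le
    have h2 : l = (1 + l / 2) * (2 * l / (l + 2)) := by field_simp; ring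
    calc l = (1 + l / 2) * (2 * l / (l + 2)) := h2
      _ ≤ _ := mul_le_mul_of_nonneg_left h (by linarith)
  have hB : Real.log (1 + 2 * (1 / 6) * l) ≤ l / 3 := by
    have := Real.log_le_sub_one_of_pos (show (0 : ℝ) < 1 + 2 * (1 / 6) * l by linarith)
    linarith
  have hB' : Real.log (1 + l / 3) ≤ l / 3 := by
    have := Real.log_le_sub_one_of_pos (show (0 : ℝ) < 1 + l / 3 by linarith)
    linarith
  have hC : Real.log (1 + l) ≤ l := by
    have := Real.log_le_sub_one_of_pos (show (0 : ℝ) < 1 + l by linarith)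
    linarith
  -- the rate function
  have hfr : l * (95 / 1000 - l / 6) ≤
      fr (1 / 6) (-Real.log (Real.pi / 2) / 2) (1 / 6) (-Real.log (Real.pi / 2) / 2) l := by
    unfold fr
    rw [hlog6, hlogpi]
    have h1 : l / 2 * Real.log (1 + 2 * (1 / 6) * l) ≤ l / 2 * (l / 3) :=
      mul_le_mul_of_nonneg_left hB (by linarith)
    have h2 : l * (95 / 1000) ≤ l * (Real.log 2 + 1 / 2 * Real.log 3 - Real.log Real.pi) :=
      mul_le_mul_of_nonneg_left c5_c0 hl0.le
    nlinarith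
  have hgr : -(37 / 30) * l ≤
      gr (1 / 6) (1 / 6) (-Real.log (Real.pi / 2) / 2) (3 / 10)
        (-Real.log (Real.pi / 2) / 2 - Real.log 3) l := by
    unfold gr
    rw [hlog13]
    have h3 : (3 / 10 / (1 / 6) - 1 : ℝ) * l / (2 * (1 + l)) ≤ 2 / 5 * l := by
      rw [div_le_iff₀ (by linarith)]
      nlinarith [mul_pos hl0 hl0]
    linarith
  have hinvN : 1 / (n : ℝ) ≤ 1 / 36 := one_div_le_one_div_of_le (by norm_num) hN
  have hinvN0 : 0 < 1 / (n : ℝ) := by positivity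
  have her : -(1 / 36 * (72 / 70 + 1 / 8 + 4 / 5)) ≤ er (1 / 6) (3 / 10) n l := by
    unfold er
    have h1 : -(1 / 35) ≤ Real.log (1 - 1 / (n : ℝ)) := by
      have hpos : (0 : ℝ) < 1 - 1 / (n : ℝ) := by linarith
      have h := Real.one_sub_inv_le_log_of_pos hpos
      have h35 : (35 / 36 : ℝ) ≤ 1 - 1 / (n : ℝ) := by linarith
      have h4 : (1 - 1 / (n : ℝ))⁻¹ ≤ (35 / 36 : ℝ)⁻¹ := inv_anti₀ (by norm_num) h35
      norm_num at h4
      norm_num at h ⊢
      linarith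
    have h2 : 1 / (8 * (n : ℝ)) ≤ 1 / 36 * (1 / 8) := by
      rw [div_le_iff₀ (by linarith)]; linarith
    have h3 : (3 / 10 / (1 / 6) - 1 : ℝ) / ((n : ℝ) * (1 + l)) ≤ 1 / 36 * (4 / 5) := by
      rw [div_le_iff₀ (by positivity)]
      have : (36 : ℝ) ≤ (n : ℝ) * (1 + l) := by nlinarith
      linarith
    linarith
  have hnfr : (m : ℝ) * (95 / 1000 - l / 6) ≤
      (n : ℝ) * fr (1 / 6) (-Real.log (Real.pi / 2) / 2) (1 / 6) (-Real.log (Real.pi / 2) / 2) l := by
    calc (m : ℝ) * (95 / 1000 - l / 6) = (n : ℝ) * (l * (95 / 1000 - l / 6)) := by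
          rw [← hNl]; ring
      _ ≤ _ := mul_le_mul_of_nonneg_left hfr hN0.le
  have hmk : (95 / 1000 - 1 / 216 : ℝ) ≤ (m : ℝ) * (95 / 1000 - l / 6) := by
    have h1 : (95 / 1000 - 1 / 216 : ℝ) ≤ 95 / 1000 - l / 6 := by linarith
    nlinarith
  have hl37 : -(37 / 30) * (1 / 36) ≤ -(37 / 30) * l := by linarith
  norm_num at hnfr hmk hgr her hl37 ⊢
  linarith


end Pool.Agent.VPK.K10z
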