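import Pool.Agent.VPK.Defs

set_option autoImplicit false
open MeasureTheory ProbabilityTheory
open scoped ENNReal Matrix

namespace Pool.Agent.VPK.K11A

open Pool.Agent.VPK










































theorem nl_sub (x : ℝ) (h0 : 0 ≤ x) (h1 : x < 1) (n : ℕ) :
    -(∑ i ∈ Finset.range n, x ^ (i + 1) / (i + 1)) - x ^ (n + 1) / (1 - x) ≤ Real.log (1 - x) ∧
    Real.log (1 - x) ≤ -(∑ i ∈ Finset.range n, x ^ (i + 1) / (i + 1)) + x ^ (n + 1) / (1 - x) := by
  have h := Real.abs_log_sub_add_sum_range_le (x := x) (by rw [abs_of_nonneg h0]; exact h1) n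
  rw [abs_of_nonneg h0, abs_le] at h
  constructor <;> linarith [h.1, h.2]

theorem nl_add (x : ℝ) (h0 : 0 ≤ x) (h1 : x < 1) (n : ℕ) :
    -(∑ i ∈ Finset.range n, (-x) ^ (i + 1) / (i + 1)) - x ^ (n + 1) / (1 - x) ≤ Real.log (1 + x) ∧
    Real.log (1 + x) ≤ -(∑ i ∈ Finset.range n, (-x) ^ (i + 1) / (i + 1)) + x ^ (n + 1) / (1 - x) := by
  have h := Real.abs_log_sub_add_sum_range_le (x := -x)
    (by rw [abs_neg, abs_of_nonneg h0]; exact h1) n
  rw [abs_neg, abs_of_nonneg h0, abs_le, sub_neg_eq_add] at h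
  constructor <;> linarith [h.1, h.2]

theorem nl_36 : 0.0273988 ≤ Real.log (1 + 1 / 36) ∧ Real.log (1 + 1 / 36) ≤ 0.0273991 := by
  have h := nl_add (1 / 36) (by norm_num) (by norm_num) 4
  norm_num [Finset.sum_range_succ] at h ⊢
  constructor <;> linarith [h.1, h.2]

theorem nl_c36 : 0.009141 ≤ Real.log (1 + 2 * 0.1653 * (1 / 36)) ∧
    Real.log (1 + 2 * 0.1653 * (1 / 36)) ≤ 0.009142 := by
  have h := nl_add (2 * 0.1653 * (1 / 36)) (by norm_num) (by norm_num) 3
  norm_num [Finset.sum_range_succ] at h ⊢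
  constructor <;> linarith [h.1, h.2]

theorem nl_23 : -0.405467 ≤ Real.log (1 - 1 / 3) ∧ Real.log (1 - 1 / 3) ≤ -0.405463 := by
  have h := nl_sub (1 / 3) (by norm_num) (by norm_num) 12
  norm_num [Finset.sum_range_succ] at h ⊢
  constructor <;> linarith [h.1, h.2]

theorem nl_32 : 0.405463 ≤ Real.log (1 + 1 / 2) ∧ Real.log (1 + 1 / 2) ≤ 0.405467 := by
  have h : Real.log (1 + 1 / 2) = -Real.log (1 - 1 / 3) := by
    rw [← Real.log_inv]
    norm_num
  rw [h]
  constructor <;> linarith [nl_23.1, nl_23.2]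

theorem nl_c2 : 0.152975 ≤ Real.log (1 + 2 * 0.1653 * (1 / 2)) ∧
    Real.log (1 + 2 * 0.1653 * (1 / 2)) ≤ 0.152982 := by
  have h := nl_add (2 * 0.1653 * (1 / 2)) (by norm_num) (by norm_num) 7
  norm_num [Finset.sum_range_succ] at h ⊢
  constructor <;> linarith [h.1, h.2]

theorem nl_08 : -0.223145 ≤ Real.log (1 - 0.2) ∧ Real.log (1 - 0.2) ≤ -0.223142 := by
  have h := nl_sub 0.2 (by norm_num) (by norm_num) 9
  norm_num [Finset.sum_range_succ] at h ⊢
  constructor <;> linarith [h.1, h.2]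

theorem nl_C : -1.832212 ≤ Real.log 0.16006 ∧ Real.log 0.16006 ≤ -1.832201 := by
  have h := nl_add 0.000375 (by norm_num) (by norm_num) 2
  norm_num [Finset.sum_range_succ] at h
  have h2 : Real.log 0.16006 = Real.log (1 + 0.000375) + 2 * Real.log (1 - 0.2) - 2 * Real.log 2 := by
    rw [show (0.16006 : ℝ) = (1 + 0.000375) * (1 - 0.2) ^ 2 / 2 ^ 2 by norm_num,
      Real.log_div (by norm_num) (by norm_num), Real.log_mul (by norm_num) (by norm_num),
      Real.log_pow, Real.log_pow]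
    push_cast
    ring
  have h3 : Real.log (1 + 0.000375) = Real.log (8003 / 8000) := by norm_num
  rw [h2, h3]
  have k1 := Real.log_two_gt_d9
  have k2 := Real.log_two_lt_d9
  constructor <;> linarith [h.1, h.2, nl_08.1, nl_08.2]

theorem nl_108 : 0.009216 ≤ Real.log (1 + 1 / 36 / 3) ∧ Real.log (1 + 1 / 36 / 3) ≤ 0.009217 := by
  have h := nl_add (1 / 36 / 3) (by norm_num) (by norm_num) 3
  norm_num [Finset.sum_range_succ] at h ⊢
  constructor <;> linarith [h.1, h.2]

theorem nl_30 : -0.033902 ≤ Real.log (1 - 1 / 30) ∧ Real.log (1 - 1 / 30) ≤ -0.033901 := by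
  have h := nl_sub (1 / 30) (by norm_num) (by norm_num) 4
  norm_num [Finset.sum_range_succ] at h ⊢
  constructor <;> linarith [h.1, h.2]

theorem nl_pi : 0.45157 ≤ Real.log (Real.pi / 2) ∧ Real.log (Real.pi / 2) ≤ 0.4516 := by
  have hp1 := Real.pi_gt_d6
  have hp2 := Real.pi_lt_d6
  have h1 : Real.log (1 + 0.047197) ≤ Real.log (Real.pi / 3) :=
    Real.log_le_log (by norm_num) (by linarith)
  have h2 : Real.log (Real.pi / 3) ≤ Real.log (1 + 0.047198) :=
    Real.log_le_log (by positivity) (by linarith)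
  have h3 : Real.log (Real.pi / 2) = Real.log (1 + 1 / 2) + Real.log (Real.pi / 3) := by
    rw [← Real.log_mul (by norm_num) (by positivity)]
    congr 1
    ring
  have h4 := nl_add 0.047197 (by norm_num) (by norm_num) 4
  have h5 := nl_add 0.047198 (by norm_num) (by norm_num) 4
  rw [h3]
  have h6 := h4.1
  have h7 := h5.2
  have h8 := nl_32
  generalize Real.log (1 + 0.047197) = A at *
  generalize Real.log (1 + 0.047198) = B at *
  generalize Real.log (Real.pi / 3) = P at *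
  generalize Real.log (1 + 1 / 2) = Q at *
  norm_num [Finset.sum_range_succ] at h6 h7
  constructor <;> linarith [h8.1, h8.2]

theorem cell_num_A :
    (∀ l ∈ Set.Icc ((1 / 36 : ℝ)) (1 / 2), l * (1 - 8 * 0.1653 - 4 * 0.1653 ^ 2) ≤ 4 * 0.1653 + 8 * 0.1653 ^ 2 * l ^ 2) ∧
    0 ≤ fr (0.1653) (-0.22585) (0.16006) (-0.2268) (1 / 36) ∧
    0 ≤ fr (0.1653) (-0.22585) (0.16006) (-0.2268) (1 / 2) ∧
    0 ≤ 30 * fr (0.1653) (-0.22585) (0.16006) (-0.2268) (1 / 36) + (gr (0.1653) (0.16006) (-0.2268) (0.2948) (-1.32521) (1 / 36) + dgr (0.1653) (0.16006) (0.2948) (1 / 36) * ((1 / 36) - (1 / 36))) + er (0.16006) (0.2948) 30 (1 / 36) ∧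
    0 ≤ 30 * fr (0.1653) (-0.22585) (0.16006) (-0.2268) (1 / 2) + (gr (0.1653) (0.16006) (-0.2268) (0.2948) (-1.32521) (1 / 36) + dgr (0.1653) (0.16006) (0.2948) (1 / 36) * ((1 / 2) - (1 / 36))) + er (0.16006) (0.2948) 30 (1 / 36) := by
  obtain ⟨a1, a2⟩ := nl_pi
  obtain ⟨b1, b2⟩ := nl_36
  obtain ⟨c1, c2⟩ := nl_c36
  obtain ⟨d1, d2⟩ := nl_32
  obtain ⟨e1, e2⟩ := nl_c2
  obtain ⟨f1, f2⟩ := nl_C
  obtain ⟨g1, g2⟩ := nl_108
  obtain ⟨h1, h2⟩ := nl_30
  have k1 := Real.log_two_gt_d9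
  have k2 := Real.log_two_lt_d9
  have m1 : Real.log (2 * 0.16006) = Real.log 2 + Real.log 0.16006 :=
    Real.log_mul (by norm_num) (by norm_num)
  refine ⟨?_, ?_, ?_, ?_, ?_⟩
  · intro l hl
    obtain ⟨hl1, hl2⟩ := hl
    have hl0 : 0 ≤ l ^ 2 := sq_nonneg l
    norm_num at hl1 ⊢
    nlinarith
  · unfold fr
    generalize Real.log (Real.pi / 2) = A at *
    generalize Real.log (1 + 1 / 36) = B at *
    generalize Real.log (1 + 2 * 0.1653 * (1 / 36)) = C at *
    generalize Real.log 2 = D at *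
    generalize Real.log 0.16006 = E at *
    linarith
  · unfold fr
    generalize Real.log (Real.pi / 2) = A at *
    generalize Real.log (1 + 1 / 2) = B at *
    generalize Real.log (1 + 2 * 0.1653 * (1 / 2)) = C at *
    generalize Real.log 2 = D at *
    generalize Real.log 0.16006 = E at *
    linarith
  · unfold fr gr dgr er
    rw [m1]
    generalize Real.log (Real.pi / 2) = A at *
    generalize Real.log (1 + 1 / 36) = B at *
    generalize Real.log (1 + 2 * 0.1653 * (1 / 36)) = C at *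
    generalize Real.log 2 = D at *
    generalize Real.log 0.16006 = E at *
    generalize Real.log (1 + 1 / 36 / 3) = F at *
    generalize Real.log (1 - 1 / 30) = G at *
    norm_num
    linarith
  · unfold fr gr dgr er
    rw [m1]
    generalize Real.log (Real.pi / 2) = A at *
    generalize Real.log (1 + 1 / 2) = B' at *
    generalize Real.log (1 + 2 * 0.1653 * (1 / 2)) = C' at *
    generalize Real.log (1 + 1 / 36) = B at *
    generalize Real.log (1 + 2 * 0.1653 * (1 / 36)) = C at *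
    generalize Real.log 2 = D at *
    generalize Real.log 0.16006 = E at *
    generalize Real.log (1 + 1 / 36 / 3) = F at *
    generalize Real.log (1 - 1 / 30) = G at *
    norm_num
    linarith


end Pool.Agent.VPK.K11A
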