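import Pool.Agent.VPK.Defs

set_option autoImplicit false
open MeasureTheory ProbabilityTheory
open scoped ENNReal Matrix

namespace Pool.Agent.VPK.K11B

open Pool.Agent.VPK










































lemma k11_lb (x : ℝ) (n : ℕ) (hx : |x| < 1) {lo hi : ℝ}
    (h1 : lo ≤ -(∑ i ∈ Finset.range n, x ^ (i + 1) / (i + 1)) - |x| ^ (n + 1) / (1 - |x|))
    (h2 : -(∑ i ∈ Finset.range n, x ^ (i + 1) / (i + 1)) + |x| ^ (n + 1) / (1 - |x|) ≤ hi) :
    lo ≤ Real.log (1 - x) ∧ Real.log (1 - x) ≤ hi := by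
  have := abs_le.1 (Real.abs_log_sub_add_sum_range_le hx n)
  constructor <;> linarith [this.1, this.2]

lemma k11_scale (r : ℝ) (k : ℕ) (hr : 0 < r) : Real.log (2 ^ k * r) = k * Real.log 2 + Real.log r := by
  rw [Real.log_mul (by positivity) hr.ne', Real.log_pow]

lemma k11_15_base : (-2876822 / 10 ^ 7 : ℝ) ≤ Real.log (3 / 4) ∧ Real.log (3 / 4) ≤ (-2876819 / 10 ^ 7 : ℝ) := by
  have hx : |(1 / 4 : ℝ)| = 1 / 4 := by norm_num [abs_of_pos, abs_of_neg]
  have h := k11_lb (1 / 4 : ℝ) 12 (by rw [hx]; norm_num) (lo := (-2876822 / 10 ^ 7 : ℝ)) (hi := (-2876819 / 10 ^ 7 : ℝ))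
    (by rw [hx]; norm_num [Finset.sum_range_succ]) (by rw [hx]; norm_num [Finset.sum_range_succ])
  have e : (1:ℝ) - 1 / 4 = 3 / 4 := by norm_num
  rw [e] at h
  exact h

lemma k11_15 : (4054649 / 10 ^ 7 : ℝ) ≤ Real.log (3 / 2) ∧ Real.log (3 / 2) ≤ (4054653 / 10 ^ 7 : ℝ) := by
  have e : (3 / 2 : ℝ) = 2 ^ 1 * (3 / 4) := by norm_num
  rw [e, k11_scale _ _ (by norm_num)]
  have h := k11_15_base
  have h2 := Real.log_two_gt_d9
  have h3 := Real.log_two_lt_d9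
  push_cast
  constructor <;> linarith [h.1, h.2]

lemma k11_113_base : (1303963 / 10 ^ 7 : ℝ) ≤ Real.log (14241 / 12500) ∧ Real.log (14241 / 12500) ≤ (1303966 / 10 ^ 7 : ℝ) := by
  have hx : |(-1741 / 12500 : ℝ)| = 1741 / 12500 := by norm_num [abs_of_pos, abs_of_neg]
  have h := k11_lb (-1741 / 12500 : ℝ) 12 (by rw [hx]; norm_num) (lo := (1303963 / 10 ^ 7 : ℝ)) (hi := (1303966 / 10 ^ 7 : ℝ))
    (by rw [hx]; norm_num [Finset.sum_range_succ]) (by rw [hx]; norm_num [Finset.sum_range_succ])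
  have e : (1:ℝ) - -1741 / 12500 = 14241 / 12500 := by norm_num
  rw [e] at h
  exact h

lemma k11_113 : (1303963 / 10 ^ 7 : ℝ) ≤ Real.log (14241 / 12500) ∧ Real.log (14241 / 12500) ≤ (1303966 / 10 ^ 7 : ℝ) := by
  have e : (14241 / 12500 : ℝ) = 2 ^ 0 * (14241 / 12500) := by norm_num
  rw [e, k11_scale _ _ (by norm_num)]
  have h := k11_113_base
  have h2 := Real.log_two_gt_d9
  have h3 := Real.log_two_lt_d9
  push_cast
  constructor <;> linarith [h.1, h.2]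

lemma k11_183_base : (-857323 / 10 ^ 7 : ℝ) ≤ Real.log (11473 / 12500) ∧ Real.log (11473 / 12500) ≤ (-857320 / 10 ^ 7 : ℝ) := by
  have hx : |(1027 / 12500 : ℝ)| = 1027 / 12500 := by norm_num [abs_of_pos, abs_of_neg]
  have h := k11_lb (1027 / 12500 : ℝ) 12 (by rw [hx]; norm_num) (lo := (-857323 / 10 ^ 7 : ℝ)) (hi := (-857320 / 10 ^ 7 : ℝ))
    (by rw [hx]; norm_num [Finset.sum_range_succ]) (by rw [hx]; norm_num [Finset.sum_range_succ])
  have e : (1:ℝ) - 1027 / 12500 = 11473 / 12500 := by norm_num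
  rw [e] at h
  exact h

lemma k11_183 : (6074148 / 10 ^ 7 : ℝ) ≤ Real.log (11473 / 6250) ∧ Real.log (11473 / 6250) ≤ (6074152 / 10 ^ 7 : ℝ) := by
  have e : (11473 / 6250 : ℝ) = 2 ^ 1 * (11473 / 12500) := by norm_num
  rw [e, k11_scale _ _ (by norm_num)]
  have h := k11_183_base
  have h2 := Real.log_two_gt_d9
  have h3 := Real.log_two_lt_d9
  push_cast
  constructor <;> linarith [h.1, h.2]

lemma k11_C_base : (-194684 / 10 ^ 7 : ℝ) ≤ Real.log (12259 / 12500) ∧ Real.log (12259 / 12500) ≤ (-194681 / 10 ^ 7 : ℝ) := by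
  have hx : |(241 / 12500 : ℝ)| = 241 / 12500 := by norm_num [abs_of_pos, abs_of_neg]
  have h := k11_lb (241 / 12500 : ℝ) 12 (by rw [hx]; norm_num) (lo := (-194684 / 10 ^ 7 : ℝ)) (hi := (-194681 / 10 ^ 7 : ℝ))
    (by rw [hx]; norm_num [Finset.sum_range_succ]) (by rw [hx]; norm_num [Finset.sum_range_succ])
  have e : (1:ℝ) - 241 / 12500 = 12259 / 12500 := by norm_num
  rw [e] at h
  exact h

lemma k11_C : (-20989100 / 10 ^ 7 : ℝ) ≤ Real.log (12259 / 100000) ∧ Real.log (12259 / 100000) ≤ (-20989094 / 10 ^ 7 : ℝ) := by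
  have e : (12259 / 12500 : ℝ) = 2 ^ 3 * (12259 / 100000) := by norm_num
  have h := k11_C_base
  rw [e, k11_scale _ _ (by norm_num)] at h
  have h2 := Real.log_two_gt_d9
  have h3 := Real.log_two_lt_d9
  push_cast at h
  constructor <;> linarith [h.1, h.2]

lemma k11_2C_base : (-194684 / 10 ^ 7 : ℝ) ≤ Real.log (12259 / 12500) ∧ Real.log (12259 / 12500) ≤ (-194681 / 10 ^ 7 : ℝ) := by
  have hx : |(241 / 12500 : ℝ)| = 241 / 12500 := by norm_num [abs_of_pos, abs_of_neg]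
  have h := k11_lb (241 / 12500 : ℝ) 12 (by rw [hx]; norm_num) (lo := (-194684 / 10 ^ 7 : ℝ)) (hi := (-194681 / 10 ^ 7 : ℝ))
    (by rw [hx]; norm_num [Finset.sum_range_succ]) (by rw [hx]; norm_num [Finset.sum_range_succ])
  have e : (1:ℝ) - 241 / 12500 = 12259 / 12500 := by norm_num
  rw [e] at h
  exact h

lemma k11_2C : (-14057628 / 10 ^ 7 : ℝ) ≤ Real.log (12259 / 50000) ∧ Real.log (12259 / 50000) ≤ (-14057623 / 10 ^ 7 : ℝ) := by
  have e : (12259 / 12500 : ℝ) = 2 ^ 2 * (12259 / 50000) := by norm_num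
  have h := k11_2C_base
  rw [e, k11_scale _ _ (by norm_num)] at h
  have h2 := Real.log_two_gt_d9
  have h3 := Real.log_two_lt_d9
  push_cast at h
  constructor <;> linarith [h.1, h.2]

lemma k11_227_base : (1288327 / 10 ^ 7 : ℝ) ≤ Real.log (91 / 80) ∧ Real.log (91 / 80) ≤ (1288330 / 10 ^ 7 : ℝ) := by
  have hx : |(-11 / 80 : ℝ)| = 11 / 80 := by norm_num [abs_of_pos, abs_of_neg]
  have h := k11_lb (-11 / 80 : ℝ) 12 (by rw [hx]; norm_num) (lo := (1288327 / 10 ^ 7 : ℝ)) (hi := (1288330 / 10 ^ 7 : ℝ))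
    (by rw [hx]; norm_num [Finset.sum_range_succ]) (by rw [hx]; norm_num [Finset.sum_range_succ])
  have e : (1:ℝ) - -11 / 80 = 91 / 80 := by norm_num
  rw [e] at h
  exact h

lemma k11_227 : (8219798 / 10 ^ 7 : ℝ) ≤ Real.log (91 / 40) ∧ Real.log (91 / 40) ≤ (8219802 / 10 ^ 7 : ℝ) := by
  have e : (91 / 40 : ℝ) = 2 ^ 1 * (91 / 80) := by norm_num
  rw [e, k11_scale _ _ (by norm_num)]
  have h := k11_227_base
  have h2 := Real.log_two_gt_d9
  have h3 := Real.log_two_lt_d9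
  push_cast
  constructor <;> linarith [h.1, h.2]

lemma k11_135_base : (3039200 / 10 ^ 7 : ℝ) ≤ Real.log (338791 / 250000) ∧ Real.log (338791 / 250000) ≤ (3039248 / 10 ^ 7 : ℝ) := by
  have hx : |(-88791 / 250000 : ℝ)| = 88791 / 250000 := by norm_num [abs_of_pos, abs_of_neg]
  have h := k11_lb (-88791 / 250000 : ℝ) 12 (by rw [hx]; norm_num) (lo := (3039200 / 10 ^ 7 : ℝ)) (hi := (3039248 / 10 ^ 7 : ℝ))
    (by rw [hx]; norm_num [Finset.sum_range_succ]) (by rw [hx]; norm_num [Finset.sum_range_succ])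
  have e : (1:ℝ) - -88791 / 250000 = 338791 / 250000 := by norm_num
  rw [e] at h
  exact h

lemma k11_135 : (3039200 / 10 ^ 7 : ℝ) ≤ Real.log (338791 / 250000) ∧ Real.log (338791 / 250000) ≤ (3039248 / 10 ^ 7 : ℝ) := by
  have e : (338791 / 250000 : ℝ) = 2 ^ 0 * (338791 / 250000) := by norm_num
  rw [e, k11_scale _ _ (by norm_num)]
  have h := k11_135_base
  have h2 := Real.log_two_gt_d9
  have h3 := Real.log_two_lt_d9
  push_cast
  constructor <;> linarith [h.1, h.2]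

lemma k11_1425_base : (3541452 / 10 ^ 7 : ℝ) ≤ Real.log (57 / 40) ∧ Real.log (57 / 40) ≤ (3541968 / 10 ^ 7 : ℝ) := by
  have hx : |(-17 / 40 : ℝ)| = 17 / 40 := by norm_num [abs_of_pos, abs_of_neg]
  have h := k11_lb (-17 / 40 : ℝ) 12 (by rw [hx]; norm_num) (lo := (3541452 / 10 ^ 7 : ℝ)) (hi := (3541968 / 10 ^ 7 : ℝ))
    (by rw [hx]; norm_num [Finset.sum_range_succ]) (by rw [hx]; norm_num [Finset.sum_range_succ])
  have e : (1:ℝ) - -17 / 40 = 57 / 40 := by norm_num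
  rw [e] at h
  exact h

lemma k11_1425 : (3541452 / 10 ^ 7 : ℝ) ≤ Real.log (57 / 40) ∧ Real.log (57 / 40) ≤ (3541968 / 10 ^ 7 : ℝ) := by
  have e : (57 / 40 : ℝ) = 2 ^ 0 * (57 / 40) := by norm_num
  rw [e, k11_scale _ _ (by norm_num)]
  have h := k11_1425_base
  have h2 := Real.log_two_gt_d9
  have h3 := Real.log_two_lt_d9
  push_cast
  constructor <;> linarith [h.1, h.2]

lemma k11_29_base : (-339017 / 10 ^ 7 : ℝ) ≤ Real.log (29 / 30) ∧ Real.log (29 / 30) ≤ (-339014 / 10 ^ 7 : ℝ) := by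
  have hx : |(1 / 30 : ℝ)| = 1 / 30 := by norm_num [abs_of_pos, abs_of_neg]
  have h := k11_lb (1 / 30 : ℝ) 12 (by rw [hx]; norm_num) (lo := (-339017 / 10 ^ 7 : ℝ)) (hi := (-339014 / 10 ^ 7 : ℝ))
    (by rw [hx]; norm_num [Finset.sum_range_succ]) (by rw [hx]; norm_num [Finset.sum_range_succ])
  have e : (1:ℝ) - 1 / 30 = 29 / 30 := by norm_num
  rw [e] at h
  exact h

lemma k11_29 : (-339017 / 10 ^ 7 : ℝ) ≤ Real.log (29 / 30) ∧ Real.log (29 / 30) ≤ (-339014 / 10 ^ 7 : ℝ) := by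
  have e : (29 / 30 : ℝ) = 2 ^ 0 * (29 / 30) := by norm_num
  rw [e, k11_scale _ _ (by norm_num)]
  have h := k11_29_base
  have h2 := Real.log_two_gt_d9
  have h3 := Real.log_two_lt_d9
  push_cast
  constructor <;> linarith [h.1, h.2]

lemma k11_pi_base : (-2415648 / 10 ^ 7 : ℝ) ≤ Real.log (392699 / 500000) ∧ Real.log (392699 / 500000) ≤ (-2415645 / 10 ^ 7 : ℝ) := by
  have hx : |(107301 / 500000 : ℝ)| = 107301 / 500000 := by norm_num [abs_of_pos, abs_of_neg]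
  have h := k11_lb (107301 / 500000 : ℝ) 12 (by rw [hx]; norm_num) (lo := (-2415648 / 10 ^ 7 : ℝ)) (hi := (-2415645 / 10 ^ 7 : ℝ))
    (by rw [hx]; norm_num [Finset.sum_range_succ]) (by rw [hx]; norm_num [Finset.sum_range_succ])
  have e : (1:ℝ) - 107301 / 500000 = 392699 / 500000 := by norm_num
  rw [e] at h
  exact h

lemma k11_pi : (4515823 / 10 ^ 7 : ℝ) ≤ Real.log (392699 / 250000) ∧ Real.log (392699 / 250000) ≤ (4515827 / 10 ^ 7 : ℝ) := by
  have e : (392699 / 250000 : ℝ) = 2 ^ 1 * (392699 / 500000) := by norm_num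
  rw [e, k11_scale _ _ (by norm_num)]
  have h := k11_pi_base
  have h2 := Real.log_two_gt_d9
  have h3 := Real.log_two_lt_d9
  push_cast
  constructor <;> linarith [h.1, h.2]

lemma k11_logpi : (4515820 / 10 ^ 7 : ℝ) ≤ Real.log (Real.pi / 2) := by
  have h := k11_pi.1
  have h2 : Real.log (392699 / 250000) ≤ Real.log (Real.pi / 2) := by
    apply Real.log_le_log (by norm_num)
    have := Real.pi_gt_d6
    linarith
  refine le_trans ?_ h2
  refine le_trans ?_ h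
  norm_num

theorem cell_num_B :
    (∀ l ∈ Set.Icc ((1 / 2 : ℝ)) (3), l * (1 - 8 * 0.13928 - 4 * 0.13928 ^ 2) ≤ 4 * 0.13928 + 8 * 0.13928 ^ 2 * l ^ 2) ∧
    0 ≤ fr (0.13928) (-0.24349) (0.12259) (-0.27315) (1 / 2) ∧
    0 ≤ fr (0.13928) (-0.24349) (0.12259) (-0.27315) (3) ∧
    0 ≤ 30 * fr (0.13928) (-0.24349) (0.12259) (-0.27315) (1 / 2) + (gr (0.13928) (0.12259) (-0.27315) (0.26011) (-1.36972) (1.275) + dgr (0.13928) (0.12259) (0.26011) (1.275) * ((1 / 2) - (1.275))) + er (0.12259) (0.26011) 30 (1 / 2) ∧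
    0 ≤ 30 * fr (0.13928) (-0.24349) (0.12259) (-0.27315) (3) + (gr (0.13928) (0.12259) (-0.27315) (0.26011) (-1.36972) (1.275) + dgr (0.13928) (0.12259) (0.26011) (1.275) * ((3) - (1.275))) + er (0.12259) (0.26011) 30 (1 / 2) := by
  have hpi := k11_logpi
  have h2a := Real.log_two_gt_d9
  have h2b := Real.log_two_lt_d9
  have h15 := k11_15
  have h113 := k11_113
  have h183 := k11_183
  have hC := k11_C
  have h2C := k11_2C
  have h227 := k11_227
  have h135 := k11_135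
  have h1425 := k11_1425
  have h29 := k11_29
  have e1 : (1:ℝ) + 1 / 2 = 3 / 2 := by norm_num
  have e2 : (1:ℝ) + 2 * 0.13928 * (1 / 2) = 14241 / 12500 := by norm_num
  have e3 : (1:ℝ) + 3 = 2 ^ 2 := by norm_num
  have e4 : (1:ℝ) + 2 * 0.13928 * 3 = 11473 / 6250 := by norm_num
  have e5 : (0.12259:ℝ) = 12259 / 100000 := by norm_num
  have e6 : (2:ℝ) * 0.12259 = 12259 / 50000 := by norm_num
  have e7 : (1:ℝ) + 1.275 = 91 / 40 := by norm_num
  have e8 : (1:ℝ) + 2 * 0.13928 * 1.275 = 338791 / 250000 := by norm_num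
  have e9 : (1:ℝ) + 1.275 / 3 = 57 / 40 := by norm_num
  have e10 : (1:ℝ) - 1 / 30 = 29 / 30 := by norm_num
  have f1 : fr 0.13928 (-0.24349) 0.12259 (-0.27315) (1 / 2) = Real.log (Real.pi / 2) / 2 + (-0.27315) + (1 + 1 / 2 / 2) * Real.log (3 / 2) - 1 / 2 / 2 * Real.log (14241 / 12500)
      + 1 / 2 * (-0.24349 + -0.27315 - 1 - Real.log 2 / 2 - Real.log (12259 / 100000) / 2) := by
    unfold fr; rw [e1, e2, e5]
  have f2 : fr 0.13928 (-0.24349) 0.12259 (-0.27315) 3 = Real.log (Real.pi / 2) / 2 + (-0.27315) + (1 + 3 / 2) * (2 * Real.log 2) - 3 / 2 * Real.log (11473 / 6250)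
      + 3 * (-0.24349 + -0.27315 - 1 - Real.log 2 / 2 - Real.log (12259 / 100000) / 2) := by
    unfold fr; rw [e3, e4, e5, Real.log_pow]; norm_num
  have f3 : gr 0.13928 0.12259 (-0.27315) 0.26011 (-1.36972) 1.275 = -Real.log (91 / 40) / 2 - Real.log (338791 / 250000) / 2 - Real.log (57 / 40) / 2
    + (-1.36972 - -0.27315 - Real.log (12259 / 50000)) - (0.26011 / 0.12259 - 1) * 1.275 / (2 * (91 / 40)) := by
    unfold gr; rw [e7, e8, e9, e6]
  have f4 : er 0.12259 0.26011 30 (1 / 2) = Real.log (29 / 30) - 1 / (8 * 30) - (0.26011 / 0.12259 - 1) / (30 * (3 / 2)) := by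
    unfold er; rw [e10, e1]
  refine ⟨?_, ?_, ?_, ?_, ?_⟩
  · intro l hl
    have := hl.1
    nlinarith [sq_nonneg l]
  · rw [f1]; linarith [hpi, h15.1, h113.2, h2b, hC.2]
  · rw [f2]; linarith [hpi, h2a, h2b, h183.2, hC.2]
  · rw [f1, f3, f4]; unfold dgr
    norm_num
    linarith [hpi, h15.1, h113.2, h2b, hC.2, h227.2, h135.2, h1425.2, h2C.2, h29.1]
  · rw [f2, f3, f4]; unfold dgr
    norm_num
    linarith [hpi, h2a, h2b, h183.2, hC.2, h227.2, h135.2, h1425.2, h2C.2, h29.1]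


end Pool.Agent.VPK.K11B
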