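import Pool.Agent.VPK.Defs

set_option autoImplicit false
open MeasureTheory ProbabilityTheory
open scoped ENNReal Matrix

namespace Pool.Agent.VPK.K11C

open Pool.Agent.VPK










































theorem logbd_C (r : ℝ) (hr : 1 ≤ r) (n : ℕ) :
    2 * (∑ i ∈ Finset.range n, ((r - 1) / (r + 1)) ^ (2 * i + 1) / (2 * i + 1)) ≤ Real.log r ∧
    Real.log r ≤ 2 * ((∑ i ∈ Finset.range n, ((r - 1) / (r + 1)) ^ (2 * i + 1) / (2 * i + 1)) +
      ((r - 1) / (r + 1)) ^ (2 * n + 1) / (1 - ((r - 1) / (r + 1)) ^ 2)) := by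
  have h0 : 0 ≤ (r - 1) / (r + 1) := div_nonneg (by linarith) (by linarith)
  have h1 : (r - 1) / (r + 1) < 1 := by rw [div_lt_one (by linarith)]; linarith
  have he : (1 + (r - 1) / (r + 1)) / (1 - (r - 1) / (r + 1)) = r := by
    have : r + 1 ≠ 0 := by linarith
    have h2 : (1 : ℝ) - (r - 1) / (r + 1) = 2 / (r + 1) := by field_simp; ring
    have h3 : (1 : ℝ) + (r - 1) / (r + 1) = 2 * r / (r + 1) := by field_simp; ring
    rw [h2, h3]; field_simp
  have a := Real.sum_range_le_log_div h0 h1 n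
  have b := Real.log_div_le_sum_range_add h0 h1 n
  rw [he] at a b
  constructor <;> linarith

theorem cell_num_C :
    (∀ l ∈ Set.Icc ((3 : ℝ)) (12), l * (1 - 8 * 0.1149 - 4 * 0.1149 ^ 2) ≤ 4 * 0.1149 + 8 * 0.1149 ^ 2 * l ^ 2) ∧
    0 ≤ fr (0.1149) (-0.29225) (0.08196) (-0.4212) (3) ∧
    0 ≤ fr (0.1149) (-0.29225) (0.08196) (-0.4212) (12) ∧
    0 ≤ 30 * fr (0.1149) (-0.29225) (0.08196) (-0.4212) (3) + (gr (0.1149) (0.08196) (-0.4212) (0.20677) (-1.56965) (7.2) + dgr (0.1149) (0.08196) (0.20677) (7.2) * ((3) - (7.2))) + er (0.08196) (0.20677) 30 (3) ∧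
    0 ≤ 30 * fr (0.1149) (-0.29225) (0.08196) (-0.4212) (12) + (gr (0.1149) (0.08196) (-0.4212) (0.20677) (-1.56965) (7.2) + dgr (0.1149) (0.08196) (0.20677) (7.2) * ((12) - (7.2))) + er (0.08196) (0.20677) 30 (3) := by
  have l2a := Real.log_two_gt_d9
  have l2b := Real.log_two_lt_d9
  have k1 : (0.45156 : ℝ) ≤ Real.log (1.57079) := by
    refine le_trans ?_ (logbd_C (1.57079) (by norm_num) 6).1
    norm_num [Finset.sum_range_succ]
  have k2 : (0.48549 : ℝ) ≤ Real.log (1.625) := by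
    refine le_trans ?_ (logbd_C (1.625) (by norm_num) 6).1
    norm_num [Finset.sum_range_succ]
  have k3 : Real.log (1.6894) ≤ (0.52439 : ℝ) := by
    refine le_trans (logbd_C (1.6894) (by norm_num) 6).2 ?_
    norm_num [Finset.sum_range_succ]
  have k4 : Real.log (1.8788) ≤ (0.63065 : ℝ) := by
    refine le_trans (logbd_C (1.8788) (by norm_num) 8).2 ?_
    norm_num [Finset.sum_range_succ]
  have k5 : Real.log (1.31136) ≤ (0.27108 : ℝ) := by
    refine le_trans (logbd_C (1.31136) (by norm_num) 6).2 ?_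
    norm_num [Finset.sum_range_succ]
  have k6 : Real.log (1.025) ≤ (0.02471 : ℝ) := by
    refine le_trans (logbd_C (1.025) (by norm_num) 6).2 ?_
    norm_num [Finset.sum_range_succ]
  have k7 : Real.log (1.32728) ≤ (0.28315 : ℝ) := by
    refine le_trans (logbd_C (1.32728) (by norm_num) 6).2 ?_
    norm_num [Finset.sum_range_succ]
  have k8 : Real.log (1.7) ≤ (0.53064 : ℝ) := by
    refine le_trans (logbd_C (1.7) (by norm_num) 6).2 ?_
    norm_num [Finset.sum_range_succ]
  have k9 : Real.log (30/29) ≤ (0.03392 : ℝ) := by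
    refine le_trans (logbd_C (30/29) (by norm_num) 6).2 ?_
    norm_num [Finset.sum_range_succ]
  have p1 : Real.log 1.57079 ≤ Real.log (Real.pi / 2) := by
    apply Real.log_le_log (by norm_num)
    have := Real.pi_gt_d6
    linarith
  have p2 : Real.log ((1 : ℝ) + 3) = 2 * Real.log 2 := by
    rw [show (1 : ℝ) + 3 = 2 ^ 2 by norm_num, Real.log_pow]; norm_num
  have p3 : Real.log ((1 : ℝ) + 12) = 3 * Real.log 2 + Real.log 1.625 := by
    rw [show (1 : ℝ) + 12 = 2 ^ 3 * 1.625 by norm_num, Real.log_mul (by norm_num) (by norm_num),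
      Real.log_pow]; norm_num
  have p4 : Real.log (1 + 2 * (0.1149 : ℝ) * 3) = Real.log 1.6894 := by norm_num
  have p5 : Real.log (1 + 2 * (0.1149 : ℝ) * 12) = Real.log 2 + Real.log 1.8788 := by
    rw [show (1 : ℝ) + 2 * 0.1149 * 12 = 2 * 1.8788 by norm_num, Real.log_mul (by norm_num) (by norm_num)]
  have p6 : Real.log (0.08196 : ℝ) = Real.log 1.31136 - 4 * Real.log 2 := by
    rw [show (0.08196 : ℝ) = 1.31136 / 2 ^ 4 by norm_num, Real.log_div (by norm_num) (by norm_num),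
      Real.log_pow]; norm_num
  have p7 : Real.log (2 * (0.08196 : ℝ)) = Real.log 1.31136 - 3 * Real.log 2 := by
    rw [Real.log_mul (by norm_num) (by norm_num), p6]; ring
  have p8 : Real.log (1 + (7.2 : ℝ)) = 3 * Real.log 2 + Real.log 1.025 := by
    rw [show (1 : ℝ) + 7.2 = 2 ^ 3 * 1.025 by norm_num, Real.log_mul (by norm_num) (by norm_num),
      Real.log_pow]; norm_num
  have p9 : Real.log (1 + 2 * (0.1149 : ℝ) * 7.2) = Real.log 2 + Real.log 1.32728 := by
    rw [show (1 : ℝ) + 2 * 0.1149 * 7.2 = 2 * 1.32728 by norm_num, Real.log_mul (by norm_num) (by norm_num)]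
  have p10 : Real.log (1 + (7.2 : ℝ) / 3) = Real.log 2 + Real.log 1.7 := by
    rw [show (1 : ℝ) + 7.2 / 3 = 2 * 1.7 by norm_num, Real.log_mul (by norm_num) (by norm_num)]
  have p11 : Real.log (1 - 1 / (30 : ℝ)) = - Real.log (30 / 29) := by
    rw [show (1 : ℝ) - 1 / 30 = (30 / 29)⁻¹ by norm_num, Real.log_inv]
  have hfr3 : (0.0558 : ℝ) ≤ fr (0.1149) (-0.29225) (0.08196) (-0.4212) (3) := by
    unfold fr
    rw [p2, p4, p6]
    linarith
  have hfr12 : (0.105 : ℝ) ≤ fr (0.1149) (-0.29225) (0.08196) (-0.4212) (12) := by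
    unfold fr
    rw [p3, p5, p6]
    linarith
  have hgr : (-2.1609 : ℝ) ≤ gr (0.1149) (0.08196) (-0.4212) (0.20677) (-1.56965) (7.2) := by
    unfold gr
    rw [p7, p8, p9, p10]
    linarith
  have her : (-0.0509 : ℝ) ≤ er (0.08196) (0.20677) 30 (3) := by
    unfold er
    rw [p11]
    linarith
  refine ⟨?_, by linarith, by linarith, ?_, ?_⟩
  · intro l hl
    obtain ⟨h1, h2⟩ := hl
    nlinarith
  · have hd : dgr (0.1149) (0.08196) (0.20677) (7.2) * ((3) - (7.2)) ≥ (0.6912 : ℝ) := by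
      unfold dgr
      norm_num
    linarith
  · have hd : dgr (0.1149) (0.08196) (0.20677) (7.2) * ((12) - (7.2)) ≥ (-0.7902 : ℝ) := by
      unfold dgr
      norm_num
    linarith


end Pool.Agent.VPK.K11C
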