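import Pool.Agent.VPK.Defs

set_option autoImplicit false
open MeasureTheory ProbabilityTheory
open scoped ENNReal Matrix

namespace Pool.Agent.VPK.K11D

open Pool.Agent.VPK










































theorem vlog_hasSum (x : ℝ) (h0 : 0 ≤ x) (h1 : x < 1) :
    HasSum (fun k : ℕ => (2 : ℝ) * (1 / (2 * k + 1)) * x ^ (2 * k + 1))
      (Real.log ((1 + x) / (1 - x))) := by
  rw [Real.log_div (by linarith) (by linarith)]
  exact Real.hasSum_log_sub_log_of_abs_lt_one (by rw [abs_of_nonneg h0]; exact h1)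

theorem vlogL (x : ℝ) (h0 : 0 ≤ x) (h1 : x < 1) :
    2 * (x + x ^ 3 / 3 + x ^ 5 / 5) ≤ Real.log ((1 + x) / (1 - x)) := by
  have h := vlog_hasSum x h0 h1
  have h2 := sum_le_hasSum (Finset.range 3) (fun k _ => by positivity) h
  refine le_trans (le_of_eq ?_) h2
  simp [Finset.sum_range_succ]
  ring

theorem vlogU (x : ℝ) (h0 : 0 ≤ x) (h1 : x < 1) :
    Real.log ((1 + x) / (1 - x)) ≤ 2 * (x + x ^ 3 / 3 + x ^ 5 / 5 + x ^ 7 / (7 * (1 - x ^ 2))) := by
  have h := vlog_hasSum x h0 h1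
  have hx2 : x ^ 2 < 1 := by nlinarith
  have hg := (hasSum_geometric_of_lt_one (sq_nonneg x) hx2).mul_left (2 * x ^ 7 / 7)
  have h3 := (hasSum_nat_add_iff' (f := fun k : ℕ => (2 : ℝ) * (1 / (2 * k + 1)) * x ^ (2 * k + 1)) 3).mpr h
  have h4 := hasSum_le (fun k => ?_) h3 hg
  · have e1 : ∑ i ∈ Finset.range 3, (2 : ℝ) * (1 / (2 * (i:ℕ) + 1)) * x ^ (2 * i + 1)
        = 2 * (x + x ^ 3 / 3 + x ^ 5 / 5) := by
      simp [Finset.sum_range_succ]
      ring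
    rw [e1] at h4
    have e2 : 2 * x ^ 7 / 7 * (1 - x ^ 2)⁻¹ = 2 * (x ^ 7 / (7 * (1 - x ^ 2))) := by
      have : (1 - x ^ 2) ≠ 0 := by linarith
      field_simp
    rw [e2] at h4
    linarith
  · show (2 : ℝ) * (1 / (2 * ((k + 3 : ℕ) : ℝ) + 1)) * x ^ (2 * (k + 3) + 1) ≤ 2 * x ^ 7 / 7 * (x ^ 2) ^ k
    have e3 : x ^ (2 * (k + 3) + 1) = x ^ 7 * (x ^ 2) ^ k := by
      rw [← pow_mul, ← pow_add]; congr 1; ring
    rw [e3]
    have e4 : (1 : ℝ) / (2 * ((k + 3 : ℕ) : ℝ) + 1) ≤ 1 / 7 := by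
      apply one_div_le_one_div_of_le (by norm_num)
      push_cast
      have : (0:ℝ) ≤ k := Nat.cast_nonneg k
      linarith
    have e5 : 0 ≤ x ^ 7 * (x ^ 2) ^ k := by positivity
    calc (2 : ℝ) * (1 / (2 * ((k + 3 : ℕ) : ℝ) + 1)) * (x ^ 7 * (x ^ 2) ^ k)
        ≤ 2 * (1 / 7) * (x ^ 7 * (x ^ 2) ^ k) := by gcongr
      _ = 2 * x ^ 7 / 7 * (x ^ 2) ^ k := by ring

theorem vl13 : (2564947 / 1000000) ≤ Real.log (13 / 1 : ℝ) ∧ Real.log (13 / 1 : ℝ) ≤ (320619 / 125000) := by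
  have h1 := vlogL (3 / 29 : ℝ) (by norm_num) (by norm_num)
  have h2 := vlogU (3 / 29 : ℝ) (by norm_num) (by norm_num)
  have h3 := Real.log_two_gt_d9
  have h4 := Real.log_two_lt_d9
  have h5 : Real.log (13 / 1 : ℝ) = (4) * Real.log 2 - Real.log ((1 + (3 / 29 : ℝ)) / (1 - (3 / 29 : ℝ))) := by
    rw [show (13 / 1 : ℝ) = ((2:ℝ) ^ (4 : ℕ)) / ((1 + (3 / 29 : ℝ)) / (1 - (3 / 29 : ℝ))) by norm_num, Real.log_div (by norm_num) (by norm_num), Real.log_pow]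
    push_cast; ring
  rw [h5]
  norm_num at h1 h2 ⊢
  constructor <;> linarith

theorem vl31 : (686797 / 200000) ≤ Real.log (31 / 1 : ℝ) ∧ Real.log (31 / 1 : ℝ) ≤ (343399 / 100000) := by
  have h1 := vlogL (1 / 63 : ℝ) (by norm_num) (by norm_num)
  have h2 := vlogU (1 / 63 : ℝ) (by norm_num) (by norm_num)
  have h3 := Real.log_two_gt_d9
  have h4 := Real.log_two_lt_d9
  have h5 : Real.log (31 / 1 : ℝ) = (5) * Real.log 2 - Real.log ((1 + (1 / 63 : ℝ)) / (1 - (1 / 63 : ℝ))) := by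
    rw [show (31 / 1 : ℝ) = ((2:ℝ) ^ (5 : ℕ)) / ((1 + (1 / 63 : ℝ)) / (1 - (1 / 63 : ℝ))) by norm_num, Real.log_div (by norm_num) (by norm_num), Real.log_pow]
    push_cast; ring
  rw [h5]
  norm_num at h1 h2 ⊢
  constructor <;> linarith

theorem vla : (118197 / 100000) ≤ Real.log (2038 / 625 : ℝ) ∧ Real.log (2038 / 625 : ℝ) ≤ (47279 / 40000) := by
  have h1 := vlogL (231 / 2269 : ℝ) (by norm_num) (by norm_num)
  have h2 := vlogU (231 / 2269 : ℝ) (by norm_num) (by norm_num)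
  have h3 := Real.log_two_gt_d9
  have h4 := Real.log_two_lt_d9
  have h5 : Real.log (2038 / 625 : ℝ) = (2) * Real.log 2 - Real.log ((1 + (231 / 2269 : ℝ)) / (1 - (231 / 2269 : ℝ))) := by
    rw [show (2038 / 625 : ℝ) = ((2:ℝ) ^ (2 : ℕ)) / ((1 + (231 / 2269 : ℝ)) / (1 - (231 / 2269 : ℝ))) by norm_num, Real.log_div (by norm_num) (by norm_num), Real.log_pow]
    push_cast; ring
  rw [h5]
  norm_num at h1 h2 ⊢
  constructor <;> linarith

theorem vlb : (378983 / 200000) ≤ Real.log (1663 / 250 : ℝ) ∧ Real.log (1663 / 250 : ℝ) ≤ (47373 / 25000) := by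
  have h1 := vlogL (337 / 3663 : ℝ) (by norm_num) (by norm_num)
  have h2 := vlogU (337 / 3663 : ℝ) (by norm_num) (by norm_num)
  have h3 := Real.log_two_gt_d9
  have h4 := Real.log_two_lt_d9
  have h5 : Real.log (1663 / 250 : ℝ) = (3) * Real.log 2 - Real.log ((1 + (337 / 3663 : ℝ)) / (1 - (337 / 3663 : ℝ))) := by
    rw [show (1663 / 250 : ℝ) = ((2:ℝ) ^ (3 : ℕ)) / ((1 + (337 / 3663 : ℝ)) / (1 - (337 / 3663 : ℝ))) by norm_num, Real.log_div (by norm_num) (by norm_num), Real.log_pow]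
    push_cast; ring
  rw [h5]
  norm_num at h1 h2 ⊢
  constructor <;> linarith

theorem vlC : (-139877 / 50000) ≤ Real.log (381 / 6250 : ℝ) ∧ Real.log (381 / 6250 : ℝ) ≤ (-559507 / 200000) := by
  have h1 := vlogL (77 / 6173 : ℝ) (by norm_num) (by norm_num)
  have h2 := vlogU (77 / 6173 : ℝ) (by norm_num) (by norm_num)
  have h3 := Real.log_two_gt_d9
  have h4 := Real.log_two_lt_d9
  have h5 : Real.log (381 / 6250 : ℝ) = (-4) * Real.log 2 - Real.log ((1 + (77 / 6173 : ℝ)) / (1 - (77 / 6173 : ℝ))) := by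
    rw [show (381 / 6250 : ℝ) = 1 / (((2:ℝ) ^ (4 : ℕ)) * ((1 + (77 / 6173 : ℝ)) / (1 - (77 / 6173 : ℝ)))) by norm_num, Real.log_div (by norm_num) (by norm_num), Real.log_mul (by norm_num) (by norm_num), Real.log_pow, Real.log_one]
    push_cast; ring
  rw [h5]
  norm_num at h1 h2 ⊢
  constructor <;> linarith

theorem vl28 : (1666101 / 500000) ≤ Real.log (28 / 1 : ℝ) ∧ Real.log (28 / 1 : ℝ) ≤ (3332207 / 1000000) := by
  have h1 := vlogL (1 / 15 : ℝ) (by norm_num) (by norm_num)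
  have h2 := vlogU (1 / 15 : ℝ) (by norm_num) (by norm_num)
  have h3 := Real.log_two_gt_d9
  have h4 := Real.log_two_lt_d9
  have h5 : Real.log (28 / 1 : ℝ) = (5) * Real.log 2 - Real.log ((1 + (1 / 15 : ℝ)) / (1 - (1 / 15 : ℝ))) := by
    rw [show (28 / 1 : ℝ) = ((2:ℝ) ^ (5 : ℕ)) / ((1 + (1 / 15 : ℝ)) / (1 - (1 / 15 : ℝ))) by norm_num, Real.log_div (by norm_num) (by norm_num), Real.log_pow]
    push_cast; ring
  rw [h5]
  norm_num at h1 h2 ⊢
  constructor <;> linarith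

theorem vlc : (45153 / 25000) ≤ Real.log (15217 / 2500 : ℝ) ∧ Real.log (15217 / 2500 : ℝ) ≤ (14449 / 8000) := by
  have h1 := vlogL (4783 / 35217 : ℝ) (by norm_num) (by norm_num)
  have h2 := vlogU (4783 / 35217 : ℝ) (by norm_num) (by norm_num)
  have h3 := Real.log_two_gt_d9
  have h4 := Real.log_two_lt_d9
  have h5 : Real.log (15217 / 2500 : ℝ) = (3) * Real.log 2 - Real.log ((1 + (4783 / 35217 : ℝ)) / (1 - (4783 / 35217 : ℝ))) := by
    rw [show (15217 / 2500 : ℝ) = ((2:ℝ) ^ (3 : ℕ)) / ((1 + (4783 / 35217 : ℝ)) / (1 - (4783 / 35217 : ℝ))) by norm_num, Real.log_div (by norm_num) (by norm_num), Real.log_pow]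
    push_cast; ring
  rw [h5]
  norm_num at h1 h2 ⊢
  constructor <;> linarith

theorem vl10 : (2302583 / 1000000) ≤ Real.log (10 / 1 : ℝ) ∧ Real.log (10 / 1 : ℝ) ≤ (575647 / 250000) := by
  have h1 := vlogL (1 / 9 : ℝ) (by norm_num) (by norm_num)
  have h2 := vlogU (1 / 9 : ℝ) (by norm_num) (by norm_num)
  have h3 := Real.log_two_gt_d9
  have h4 := Real.log_two_lt_d9
  have h5 : Real.log (10 / 1 : ℝ) = (3) * Real.log 2 + Real.log ((1 + (1 / 9 : ℝ)) / (1 - (1 / 9 : ℝ))) := by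
    rw [show (10 / 1 : ℝ) = ((2:ℝ) ^ (3 : ℕ)) * ((1 + (1 / 9 : ℝ)) / (1 - (1 / 9 : ℝ))) by norm_num, Real.log_mul (by norm_num) (by norm_num), Real.log_pow]
    norm_num
  rw [h5]
  norm_num at h1 h2 ⊢
  constructor <;> linarith

theorem vl2C : (-2104393 / 1000000) ≤ Real.log (381 / 3125 : ℝ) ∧ Real.log (381 / 3125 : ℝ) ≤ (-526097 / 250000) := by
  have h1 := vlogL (77 / 6173 : ℝ) (by norm_num) (by norm_num)
  have h2 := vlogU (77 / 6173 : ℝ) (by norm_num) (by norm_num)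
  have h3 := Real.log_two_gt_d9
  have h4 := Real.log_two_lt_d9
  have h5 : Real.log (381 / 3125 : ℝ) = (-3) * Real.log 2 - Real.log ((1 + (77 / 6173 : ℝ)) / (1 - (77 / 6173 : ℝ))) := by
    rw [show (381 / 3125 : ℝ) = 1 / (((2:ℝ) ^ (3 : ℕ)) * ((1 + (77 / 6173 : ℝ)) / (1 - (77 / 6173 : ℝ)))) by norm_num, Real.log_div (by norm_num) (by norm_num), Real.log_mul (by norm_num) (by norm_num), Real.log_pow, Real.log_one]
    push_cast; ring
  rw [h5]
  norm_num at h1 h2 ⊢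
  constructor <;> linarith

theorem vl29 : (-2119 / 62500) ≤ Real.log (29 / 30 : ℝ) ∧ Real.log (29 / 30 : ℝ) ≤ (-33899 / 1000000) := by
  have h1 := vlogL (1 / 59 : ℝ) (by norm_num) (by norm_num)
  have h2 := vlogU (1 / 59 : ℝ) (by norm_num) (by norm_num)
  have h3 := Real.log_two_gt_d9
  have h4 := Real.log_two_lt_d9
  have h5 : Real.log (29 / 30 : ℝ) = (0) * Real.log 2 - Real.log ((1 + (1 / 59 : ℝ)) / (1 - (1 / 59 : ℝ))) := by
    rw [show (29 / 30 : ℝ) = ((2:ℝ) ^ (0 : ℕ)) / ((1 + (1 / 59 : ℝ)) / (1 - (1 / 59 : ℝ))) by norm_num, Real.log_div (by norm_num) (by norm_num), Real.log_pow]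
    push_cast; ring
  rw [h5]
  norm_num at h1 h2 ⊢
  constructor <;> linarith

theorem vlpi : (22579 / 50000) ≤ Real.log (392699 / 250000 : ℝ) ∧ Real.log (392699 / 250000 : ℝ) ≤ (90317 / 200000) := by
  have h1 := vlogL (107301 / 892699 : ℝ) (by norm_num) (by norm_num)
  have h2 := vlogU (107301 / 892699 : ℝ) (by norm_num) (by norm_num)
  have h3 := Real.log_two_gt_d9
  have h4 := Real.log_two_lt_d9
  have h5 : Real.log (392699 / 250000 : ℝ) = (1) * Real.log 2 - Real.log ((1 + (107301 / 892699 : ℝ)) / (1 - (107301 / 892699 : ℝ))) := by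
    rw [show (392699 / 250000 : ℝ) = ((2:ℝ) ^ (1 : ℕ)) / ((1 + (107301 / 892699 : ℝ)) / (1 - (107301 / 892699 : ℝ))) by norm_num, Real.log_div (by norm_num) (by norm_num), Real.log_pow]
    push_cast; ring
  rw [h5]
  norm_num at h1 h2 ⊢
  constructor <;> linarith

theorem vl2 : (693147 / 1000000 : ℝ) ≤ Real.log 2 ∧ Real.log 2 ≤ (693148 / 1000000 : ℝ) := by
  have h3 := Real.log_two_gt_d9
  have h4 := Real.log_two_lt_d9
  constructor <;> norm_num at * <;> linarith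

theorem vlpi2 : (451579 / 1000000 : ℝ) ≤ Real.log (Real.pi / 2) := by
  have h1 := vlpi.1
  have h2 : Real.log (1570796 / 1000000 : ℝ) ≤ Real.log (Real.pi / 2) := by
    apply Real.log_le_log (by norm_num)
    have := Real.pi_gt_d6
    norm_num at this ⊢
    linarith
  norm_num at h1 h2 ⊢
  linarith

theorem cell_num_D :
    (∀ l ∈ Set.Icc ((12 : ℝ)) (30), l * (1 - 8 * 0.0942 - 4 * 0.0942 ^ 2) ≤ 4 * 0.0942 + 8 * 0.0942 ^ 2 * l ^ 2) ∧
    0 ≤ fr (0.0942) (-0.3633) (0.06096) (-0.55704) (12) ∧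
    0 ≤ fr (0.0942) (-0.3633) (0.06096) (-0.55704) (30) ∧
    0 ≤ 30 * fr (0.0942) (-0.3633) (0.06096) (-0.55704) (12) + (gr (0.0942) (0.06096) (-0.55704) (0.16804) (-1.82238) (27) + dgr (0.0942) (0.06096) (0.16804) (27) * ((12) - (27))) + er (0.06096) (0.16804) 30 (12) ∧
    0 ≤ 30 * fr (0.0942) (-0.3633) (0.06096) (-0.55704) (30) + (gr (0.0942) (0.06096) (-0.55704) (0.16804) (-1.82238) (27) + dgr (0.0942) (0.06096) (0.16804) (27) * ((30) - (27))) + er (0.06096) (0.16804) 30 (12) := by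
  have a1 := vl13
  have a2 := vl31
  have a3 := vla
  have a4 := vlb
  have a5 := vlC
  have a6 := vl28
  have a7 := vlc
  have a8 := vl10
  have a9 := vl2C
  have a10 := vl29
  have a11 := vlpi2
  have a12 := vl2
  norm_num at a1 a2 a3 a4 a5 a6 a7 a8 a9 a10 a11 a12
  refine ⟨?_, ?_, ?_, ?_, ?_⟩
  · intro l _
    nlinarith [sq_nonneg (l - 3 / 2)]
  · unfold fr
    norm_num
    linarith [a1.1, a1.2, a3.1, a3.2, a5.1, a5.2, a12.1, a12.2]
  · unfold fr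
    norm_num
    linarith [a2.1, a2.2, a4.1, a4.2, a5.1, a5.2, a12.1, a12.2]
  · unfold fr gr dgr er
    norm_num
    linarith [a1.1, a1.2, a3.1, a3.2, a5.1, a5.2, a12.1, a12.2, a6.1, a6.2, a7.1, a7.2, a8.1, a8.2, a9.1, a9.2, a10.1, a10.2]
  · unfold fr gr dgr er
    norm_num
    linarith [a2.1, a2.2, a4.1, a4.2, a5.1, a5.2, a12.1, a12.2, a6.1, a6.2, a7.1, a7.2, a8.1, a8.2, a9.1, a9.2, a10.1, a10.2]


end Pool.Agent.VPK.K11D
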