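import Pool.Agent.VPK.Defs

set_option autoImplicit false
open MeasureTheory ProbabilityTheory
open scoped ENNReal Matrix

namespace Pool.Agent.VPK.K12

open Pool.Agent.VPK


































theorem lg_gamma9179 (m : ℕ) :
    Real.log (Real.Gamma (((m : ℝ) + 1) / 2)) + Real.log (Real.Gamma ((m : ℝ) / 2 + 1)) =
      Real.log (m.factorial : ℝ) - m * Real.log 2 + Real.log Real.pi / 2 := by
  have hm : (0 : ℝ) ≤ m := Nat.cast_nonneg m
  have h1 : 0 < Real.Gamma (((m : ℝ) + 1) / 2) := Real.Gamma_pos_of_pos (by linarith)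
  have h2 : 0 < Real.Gamma ((m : ℝ) / 2 + 1) := Real.Gamma_pos_of_pos (by linarith)
  have h := Real.Gamma_mul_Gamma_add_half (((m : ℝ) + 1) / 2)
  rw [show ((m : ℝ) + 1) / 2 + 1 / 2 = (m : ℝ) / 2 + 1 by ring,
    show 2 * (((m : ℝ) + 1) / 2) = (m : ℝ) + 1 by ring, Real.Gamma_nat_eq_factorial,
    show (1 : ℝ) - ((m : ℝ) + 1) = -(m : ℝ) by ring] at h
  rw [← Real.log_mul h1.ne' h2.ne', h, Real.log_mul (by positivity) (by positivity),
    Real.log_mul (by positivity) (by positivity), Real.log_rpow (by norm_num), Real.log_sqrt Real.pi_pos.le]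
  ring

theorem lg_choose9179 (n m : ℕ) :
    Real.log (((n + m).choose n : ℕ) : ℝ) =
      Real.log ((n + m).factorial : ℝ) - Real.log (n.factorial : ℝ) - Real.log (m.factorial : ℝ) := by
  have h := Nat.choose_mul_factorial_mul_factorial (Nat.le_add_right n m)
  rw [Nat.add_sub_cancel_left] at h
  have hc : 0 < (n + m).choose n := Nat.choose_pos (Nat.le_add_right n m)
  have hc' : (0 : ℝ) < (((n + m).choose n : ℕ) : ℝ) := by exact_mod_cast hc
  have hn : (0 : ℝ) < (n.factorial : ℝ) := by exact_mod_cast n.factorial_pos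
  have hm : (0 : ℝ) < (m.factorial : ℝ) := by exact_mod_cast m.factorial_pos
  rw [← h]
  push_cast
  rw [Real.log_mul (mul_pos hc' hn).ne' hm.ne', Real.log_mul hc'.ne' hn.ne']
  ring

theorem closed_case
    (J1_closed : ∀ (n m : ℕ), 1 ≤ n → ∀ (C α : ℝ), 0 < C →
      (∀ x : ℝ, 0 < x → Real.exp α * x * Real.exp (-C * x ^ 2) ≤ PP x) →
      ENNReal.ofReal (Real.exp (m * α - (m : ℝ) / 2 * Real.log (n / 2)
      - ((m : ℝ) + 1) / 2 * Real.log (1 + 2 * C * m / n)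
      + Real.log (Real.Gamma (((m : ℝ) + 1) / 2)) - Real.log Real.pi / 2)) ≤ J1 n m)
    (beta_closed : ∀ (n m : ℕ), 2 ≤ n → ∀ (C α C3 α3 : ℝ), 0 < C → 0 < C3 →
      (∀ x : ℝ, 0 < x → Real.exp α * x * Real.exp (-C * x ^ 2) ≤ PP x) →
      (∀ x : ℝ, 0 < x → Real.exp α3 * x ^ 3 * Real.exp (-C3 * x ^ 2) ≤ S3 x) →
      ENNReal.ofReal (Real.exp (Real.log ((n : ℝ) - 1) + Real.log (n / ((n : ℝ) + m / 3)) / 2
      + n / 2 * Real.log (Real.pi / 2) + ((n : ℝ) + m - 1) * α + α3 - Real.log 2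
      + Real.log (Real.Gamma ((m : ℝ) / 2 + 1))
      - ((m : ℝ) / 2 + 1) * Real.log (((n : ℝ) + m - 1) * C + C3))) ≤
      ∫⁻ b in Set.Ioi (0 : ℝ), ∫⁻ a : ℝ, ENNReal.ofReal (GG a b) ^ m * KK n a b)
    (C1 α1 C α C3 α3 : ℝ) (hC1 : 0 < C1) (hC : 0 < C) (hC3 : 0 < C3)
    (hS1 : ∀ x : ℝ, 0 < x → Real.exp α1 * x * Real.exp (-C1 * x ^ 2) ≤ PP x)
    (hS : ∀ x : ℝ, 0 < x → Real.exp α * x * Real.exp (-C * x ^ 2) ≤ PP x)
    (hS3 : ∀ x : ℝ, 0 < x → Real.exp α3 * x ^ 3 * Real.exp (-C3 * x ^ 2) ≤ S3 x)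
    (n m : ℕ) (hn : 2 ≤ n) (hPhi : 0 ≤ Phi C1 α1 C α C3 α3 n m) :
    1 ≤ ((n + m).choose n : ℝ≥0∞) * (J1 n m *
      ∫⁻ b in Set.Ioi (0 : ℝ), ∫⁻ a : ℝ, ENNReal.ofReal (GG a b) ^ m * KK n a b) := by
  have hA := J1_closed n m (by omega) C1 α1 hC1 hS1
  have hB := beta_closed n m hn C α C3 α3 hC hC3 hS hS3
  set A : ℝ := (m * α1 - (m : ℝ) / 2 * Real.log (n / 2)
      - ((m : ℝ) + 1) / 2 * Real.log (1 + 2 * C1 * m / n)
      + Real.log (Real.Gamma (((m : ℝ) + 1) / 2)) - Real.log Real.pi / 2) with hAdef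
  set B : ℝ := (Real.log ((n : ℝ) - 1) + Real.log (n / ((n : ℝ) + m / 3)) / 2
      + n / 2 * Real.log (Real.pi / 2) + ((n : ℝ) + m - 1) * α + α3 - Real.log 2
      + Real.log (Real.Gamma ((m : ℝ) / 2 + 1))
      - ((m : ℝ) / 2 + 1) * Real.log (((n : ℝ) + m - 1) * C + C3)) with hBdef
  have hn0 : (0 : ℝ) < n := by exact_mod_cast (by omega : 0 < n)
  have hc : (0 : ℝ) < (((n + m).choose n : ℕ) : ℝ) := by
    exact_mod_cast Nat.choose_pos (Nat.le_add_right n m)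
  have hkey : Real.log (((n + m).choose n : ℕ) : ℝ) + (A + B) = Phi C1 α1 C α C3 α3 n m := by
    have hg := lg_gamma9179 m
    rw [lg_choose9179, hAdef, hBdef, Real.log_div hn0.ne' two_ne_zero]
    unfold Phi
    rw [Real.log_mul two_ne_zero hn0.ne']
    linear_combination hg
  have hreal : (1 : ℝ) ≤ (((n + m).choose n : ℕ) : ℝ) * (Real.exp A * Real.exp B) := by
    rw [← Real.exp_add]
    have : (((n + m).choose n : ℕ) : ℝ) * Real.exp (A + B) = Real.exp (Phi C1 α1 C α C3 α3 n m) := by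
      rw [← hkey, Real.exp_add (Real.log _), Real.exp_log hc]
    rw [this]
    exact Real.one_le_exp hPhi
  calc (1 : ℝ≥0∞) = ENNReal.ofReal 1 := ENNReal.ofReal_one.symm
    _ ≤ ENNReal.ofReal ((((n + m).choose n : ℕ) : ℝ) * (Real.exp A * Real.exp B)) :=
        ENNReal.ofReal_le_ofReal hreal
    _ = ((n + m).choose n : ℝ≥0∞) * (ENNReal.ofReal (Real.exp A) * ENNReal.ofReal (Real.exp B)) := by
        rw [ENNReal.ofReal_mul hc.le, ENNReal.ofReal_mul (Real.exp_pos _).le, ENNReal.ofReal_natCast]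
    _ ≤ _ := mul_le_mul_right (mul_le_mul' hA hB) _


end Pool.Agent.VPK.K12
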