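import Pool.Agent.VPK.Defs

set_option autoImplicit false
open MeasureTheory ProbabilityTheory
open scoped ENNReal Matrix

namespace Pool.Agent.VPK.K13

open Pool.Agent.VPK
































section largecase_aux
open Filter Topology Set

theorem lc_ph_deriv (y : ℝ) : HasDerivAt ph (-(y * ph y)) y := by
  have h4 : HasDerivAt (fun y : ℝ => -y ^ 2 / 2) (-y) y := by
    have := ((hasDerivAt_pow 2 y).neg).div_const 2
    refine this.congr_deriv ?_
    push_cast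
    ring
  have := h4.exp.div_const (√(2 * Real.pi))
  refine this.congr_deriv ?_
  unfold ph
  ring

theorem lc_ph_pos (y : ℝ) : 0 < ph y := by
  unfold ph
  positivity

theorem lc_ph_eq (y : ℝ) : √(Real.pi / 2) * (2 * ph y) = Real.exp (-y ^ 2 / 2) := by
  have hpi := Real.pi_pos
  have h1 : √(Real.pi / 2) * 2 = √(2 * Real.pi) := by
    have : (2 : ℝ) = √(2 ^ 2) := by rw [Real.sqrt_sq (by norm_num)]
    rw [this, ← Real.sqrt_mul (by positivity)]
    rw [Real.sqrt_sq (by norm_num)]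
    congr 1
    ring
  unfold ph
  have h2 : 0 < √(2 * Real.pi) := by positivity
  rw [← mul_assoc, h1]
  field_simp

theorem lc_ph_tendsto : Tendsto ph atTop (𝓝 0) := by
  have h2 : Tendsto (fun y : ℝ => -y ^ 2 / 2) atTop atBot := by
    have h3 : Tendsto (fun y : ℝ => y ^ 2 / 2) atTop atTop :=
      (tendsto_pow_atTop (by norm_num)).atTop_div_const (by norm_num)
    have h4 := tendsto_neg_atTop_atBot.comp h3
    refine h4.congr fun y => ?_
    simp only [Function.comp]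
    ring
  have h3 := (Real.tendsto_exp_atBot.comp h2).div_const (√(2 * Real.pi))
  rw [zero_div] at h3
  exact h3

/-- lower bound of the tail -/
theorem lc_lower (hd : ∀ x, HasDerivAt PP (2 * ph x) x) (hlim : Tendsto PP atTop (𝓝 1)) (y : ℝ) :
    2 * ph y * (y / (y ^ 2 + 1)) ≤ 1 - PP y := by
  have hder : ∀ y : ℝ, HasDerivAt (fun y => 1 - PP y - 2 * ph y * (y / (y ^ 2 + 1)))
      (-(4 * ph y / (y ^ 2 + 1) ^ 2)) y := by
    intro y
    have hne : y ^ 2 + 1 ≠ 0 := by positivity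
    have h1 : HasDerivAt (fun y : ℝ => y / (y ^ 2 + 1))
        ((1 * (y ^ 2 + 1) - y * (2 * y)) / (y ^ 2 + 1) ^ 2) y := by
      have h2 : HasDerivAt (fun y : ℝ => y ^ 2 + 1) (2 * y) y := by
        have := (hasDerivAt_pow 2 y).add_const (1 : ℝ)
        refine this.congr_deriv ?_
        push_cast
        ring
      exact (hasDerivAt_id y).div h2 hne
    have h3 := ((hd y).const_sub 1).sub (((lc_ph_deriv y).const_mul 2).mul h1)
    refine h3.congr_deriv ?_
    field_simp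
    ring
  have hanti : Antitone (fun y => 1 - PP y - 2 * ph y * (y / (y ^ 2 + 1))) := by
    refine antitone_of_deriv_nonpos (fun x => (hder x).differentiableAt) fun x => ?_
    rw [(hder x).deriv]
    have := lc_ph_pos x
    have : 0 ≤ 4 * ph x / (x ^ 2 + 1) ^ 2 := by positivity
    linarith
  have hl : Tendsto (fun y => 1 - PP y - 2 * ph y * (y / (y ^ 2 + 1))) atTop (𝓝 0) := by
    have h1 : Tendsto (fun y : ℝ => 2 * ph y * (y / (y ^ 2 + 1))) atTop (𝓝 0) := by
      have h2 : Tendsto (fun y : ℝ => 2 * ph y) atTop (𝓝 0) := by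
        simpa using lc_ph_tendsto.const_mul 2
      refine squeeze_zero' ?_ ?_ h2
      · filter_upwards [eventually_gt_atTop 0] with y hy
        have := lc_ph_pos y
        positivity
      · filter_upwards [eventually_gt_atTop 0] with y hy
        have h3 := lc_ph_pos y
        have h4 : y / (y ^ 2 + 1) ≤ 1 := by
          rw [div_le_one (by positivity)]
          nlinarith [sq_nonneg (y - 1)]
        calc 2 * ph y * (y / (y ^ 2 + 1)) ≤ 2 * ph y * 1 :=
              mul_le_mul_of_nonneg_left h4 (by positivity)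
          _ = 2 * ph y := by ring
    have h2 := (hlim.const_sub 1).sub h1
    simpa using h2
  have := hanti.le_of_tendsto hl y
  linarith

theorem lc_upper (mills : ∀ x : ℝ, 0 ≤ x →
      (3 * x + √(x ^ 2 + 8)) / 4 * √(Real.pi / 2) * (1 - PP x) ≤ Real.exp (-(x ^ 2) / 2))
    (hlt : ∀ x, PP x < 1) (x : ℝ) (hx : 0 ≤ x) : x * (1 - PP x) ≤ 2 * ph x := by
  have hpi := Real.pi_pos
  have h1 := mills x hx
  have h2 : x ≤ √(x ^ 2 + 8) := Real.le_sqrt_of_sq_le (by linarith)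
  have h3 : 0 < √(Real.pi / 2) := by positivity
  have h4 : 0 < 1 - PP x := by have := hlt x; linarith
  have h5 : x * √(Real.pi / 2) * (1 - PP x) ≤ Real.exp (-(x ^ 2) / 2) := by
    refine le_trans ?_ h1
    refine mul_le_mul_of_nonneg_right ?_ h4.le
    refine mul_le_mul_of_nonneg_right ?_ h3.le
    linarith
  rw [← lc_ph_eq] at h5
  have h6 : √(Real.pi / 2) * (x * (1 - PP x)) ≤ √(Real.pi / 2) * (2 * ph x) := by linarith
  exact le_of_mul_le_mul_left h6 h3

theorem lc_tail_anti (hd : ∀ x, HasDerivAt PP (2 * ph x) x)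
    (hup : ∀ x : ℝ, 0 ≤ x → x * (1 - PP x) ≤ 2 * ph x)
    (h h' : ℝ) (h0 : 0 ≤ h) (hh : h ≤ h') :
    (1 - PP h') * Real.exp (h' ^ 2 / 2) ≤ (1 - PP h) * Real.exp (h ^ 2 / 2) := by
  have hder : ∀ y : ℝ, HasDerivAt (fun y => (1 - PP y) * Real.exp (y ^ 2 / 2))
      (-(2 * ph y) * Real.exp (y ^ 2 / 2) + (1 - PP y) * (Real.exp (y ^ 2 / 2) * y)) y := by
    intro y
    have h3 : HasDerivAt (fun y : ℝ => Real.exp (y ^ 2 / 2))
        (Real.exp (y ^ 2 / 2) * y) y := by
      have h4 : HasDerivAt (fun y : ℝ => y ^ 2 / 2) y y := by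
        have := (hasDerivAt_pow 2 y).div_const 2
        refine this.congr_deriv ?_
        push_cast
        ring
      exact h4.exp
    exact ((hd y).const_sub 1).mul h3
  have hanti : AntitoneOn (fun y => (1 - PP y) * Real.exp (y ^ 2 / 2)) (Ici 0) := by
    refine antitoneOn_of_deriv_nonpos (convex_Ici 0) ?_ ?_ ?_
    · exact fun x _ => (hder x).continuousAt.continuousWithinAt
    · exact fun x _ => (hder x).differentiableAt.differentiableWithinAt
    · rw [interior_Ici]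
      intro x hx
      have hx' : 0 < x := hx
      rw [(hder x).deriv]
      have h5 := mul_le_mul_of_nonneg_right (hup x hx'.le) (Real.exp_pos (x ^ 2 / 2)).le
      linarith
  exact hanti h0 (h0.trans hh) hh

theorem lc_exp1 : Real.exp 2.205 ≤ 9.4 := by
  have h1 : Real.exp 2.205 = Real.exp 1 ^ 2 * Real.exp 0.205 := by
    rw [← Real.exp_nat_mul, ← Real.exp_add]
    norm_num
  have h2 := Real.exp_one_lt_d9
  have h3 : Real.exp 0.205 ≤ 1 / 0.795 := by
    have h4 := Real.add_one_le_exp (-0.205)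
    rw [Real.exp_neg] at h4
    have h5 := Real.exp_pos 0.205
    rw [le_div_iff₀ (by norm_num)]
    have h6 : Real.exp 0.205 * (Real.exp 0.205)⁻¹ = 1 := mul_inv_cancel₀ h5.ne'
    have h7 : Real.exp 0.205 * 0.795 ≤ Real.exp 0.205 * (Real.exp 0.205)⁻¹ := by
      refine mul_le_mul_of_nonneg_left ?_ h5.le
      linarith
    linarith
  rw [h1]
  have h5 : Real.exp 1 ^ 2 ≤ 7.39 := by
    have : Real.exp 1 ^ 2 ≤ 2.7182818286 ^ 2 := pow_le_pow_left₀ (Real.exp_pos 1).le h2.le 2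
    linarith [this, (by norm_num : (2.7182818286 : ℝ) ^ 2 ≤ 7.39)]
  calc Real.exp 1 ^ 2 * Real.exp 0.205 ≤ 7.39 * (1 / 0.795) :=
        mul_le_mul h5 h3 (Real.exp_pos _).le (by norm_num)
    _ ≤ 9.4 := by norm_num

theorem lc_x (hd : ∀ x, HasDerivAt PP (2 * ph x) x) (hlim : Tendsto PP atTop (𝓝 1)) :
    1 / 31 < 1 - PP 2.1 := by
  refine lt_of_lt_of_le ?_ (lc_lower hd hlim 2.1)
  have hpi := Real.pi_lt_d2
  have hpi0 := Real.pi_pos
  have h1 : √(2 * Real.pi) ≤ 2.51 := by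
    rw [Real.sqrt_le_left (by norm_num)]
    linarith
  have h0 : 0 < √(2 * Real.pi) := by positivity
  have h2 : (1 : ℝ) / 9.4 ≤ Real.exp (-(2.1 : ℝ) ^ 2 / 2) := by
    have e : -(2.1 : ℝ) ^ 2 / 2 = -2.205 := by norm_num
    rw [e, Real.exp_neg, ← one_div]
    exact one_div_le_one_div_of_le (Real.exp_pos _) lc_exp1
  have h3 : (1 / 9.4 : ℝ) / 2.51 ≤ ph 2.1 := by
    unfold ph
    exact div_le_div₀ (Real.exp_pos _).le h2 h0 h1
  have h4 : (2 : ℝ) * ((1 / 9.4) / 2.51) * (2.1 / (2.1 ^ 2 + 1)) ≤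
      2 * ph 2.1 * (2.1 / (2.1 ^ 2 + 1)) := by
    refine mul_le_mul_of_nonneg_right ?_ (by norm_num)
    linarith
  refine lt_of_lt_of_le ?_ h4
  norm_num

theorem lc_log10_lo : (2.3 : ℝ) ≤ Real.log 10 := by
  have h1 : 3 * Real.log 10 + Real.log 1.024 = 10 * Real.log 2 := by
    have e1 : (3 : ℝ) * Real.log 10 = Real.log (10 ^ 3) := by rw [Real.log_pow]; norm_num
    have e2 : (10 : ℝ) * Real.log 2 = Real.log (2 ^ 10) := by rw [Real.log_pow]; norm_num
    rw [e1, e2, ← Real.log_mul (by norm_num) (by norm_num)]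
    norm_num
  have h2 := Real.log_two_gt_d9
  have h3 := Real.log_le_sub_one_of_pos (show (0 : ℝ) < 1.024 by norm_num)
  linarith

theorem lc_log10_hi : Real.log 10 ≤ 2.3027 := by
  have h1 : 3 * Real.log 10 + Real.log 1.024 = 10 * Real.log 2 := by
    have e1 : (3 : ℝ) * Real.log 10 = Real.log (10 ^ 3) := by rw [Real.log_pow]; norm_num
    have e2 : (10 : ℝ) * Real.log 2 = Real.log (2 ^ 10) := by rw [Real.log_pow]; norm_num
    rw [e1, e2, ← Real.log_mul (by norm_num) (by norm_num)]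
    norm_num
  have h2 := Real.log_two_lt_d9
  have h3 := Real.one_sub_inv_le_log_of_pos (show (0 : ℝ) < 1.024 by norm_num)
  norm_num at h3 h2
  linarith

theorem lc_exp48 : Real.exp 0.48 ≤ 1.633 := by
  have h1 : Real.exp 0.48 * Real.exp (-0.04) ^ 12 = 1 := by
    rw [← Real.exp_nat_mul, ← Real.exp_add]
    norm_num
  have h2 := Real.add_one_le_exp (-0.04)
  have h3 : (0.96 : ℝ) ^ 12 ≤ Real.exp (-0.04) ^ 12 :=
    pow_le_pow_left₀ (by norm_num) (by linarith) 12
  have h4 := Real.exp_pos 0.48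
  by_contra hcon
  push Not at hcon
  have h5 : 1.633 * (0.96 : ℝ) ^ 12 ≤ Real.exp 0.48 * Real.exp (-0.04) ^ 12 :=
    mul_le_mul hcon.le h3 (by norm_num) h4.le
  rw [h1] at h5
  norm_num at h5

theorem lc_S3 (hd : ∀ x, HasDerivAt PP (2 * ph x) x)
    (hup : ∀ x : ℝ, 0 ≤ x → x * (1 - PP x) ≤ 2 * ph x) (t : ℝ) (ht : 3 ≤ t) :
    0.95 ≤ S3 t := by
  have hder : ∀ y, HasDerivAt S3 (2 * y ^ 2 * ph y) y := by
    intro y
    have h1 : HasDerivAt (fun y : ℝ => 2 * y) 2 y := by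
      simpa using (hasDerivAt_id y).const_mul 2
    have := (hd y).sub (h1.mul (lc_ph_deriv y))
    refine this.congr_deriv ?_
    ring
  have hmono : Monotone S3 := by
    refine monotone_of_deriv_nonneg (fun x => (hder x).differentiableAt) fun x => ?_
    rw [(hder x).deriv]
    have := lc_ph_pos x
    positivity
  refine le_trans ?_ (hmono ht)
  have h1 := hup 3 (by norm_num)
  have h2 : ph 3 ≤ 0.005 := by
    unfold ph
    have hpi := Real.pi_gt_d2
    have h3 : (2.5 : ℝ) ≤ √(2 * Real.pi) := Real.le_sqrt_of_sq_le (by norm_num; linarith)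
    have h4 : Real.exp (-(3 : ℝ) ^ 2 / 2) ≤ 1 / 81 := by
      have e : -(3 : ℝ) ^ 2 / 2 = -4.5 := by norm_num
      rw [e, Real.exp_neg, ← one_div]
      refine one_div_le_one_div_of_le (by norm_num) ?_
      have e2 : Real.exp 4.5 = Real.exp 1 ^ 4 * Real.exp 0.5 := by
        rw [← Real.exp_nat_mul, ← Real.exp_add]
        norm_num
      rw [e2]
      have h5 := Real.exp_one_gt_d9
      have h6 : (54 : ℝ) ≤ Real.exp 1 ^ 4 := by
        have : (2.7182818283 : ℝ) ^ 4 ≤ Real.exp 1 ^ 4 := pow_le_pow_left₀ (by norm_num) h5.le 4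
        linarith [this, (by norm_num : (54 : ℝ) ≤ 2.7182818283 ^ 4)]
      have h7 : (1.5 : ℝ) ≤ Real.exp 0.5 := by
        have := Real.add_one_le_exp (0.5 : ℝ)
        linarith
      calc (81 : ℝ) = 54 * 1.5 := by norm_num
        _ ≤ _ := mul_le_mul h6 h7 (by norm_num) (by positivity)
    calc Real.exp (-(3 : ℝ) ^ 2 / 2) / √(2 * Real.pi) ≤ (1 / 81) / 2.5 :=
          div_le_div₀ (by norm_num) h4 (by norm_num) h3
      _ ≤ 0.005 := by norm_num
  unfold S3
  linarith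

theorem lc_d (x t : ℝ) (hx : 2.1 ≤ x) (ht : 0 < t) (htx : t ^ 2 = x ^ 2 + 2 * Real.log 10) :
    Real.exp 0.24 ≤ (√(Real.pi / 2) * (3 * x + √(x ^ 2 + 8)) / 4) * (√(Real.pi / 2) / t) := by
  have hpi0 := Real.pi_pos
  have hpi := Real.pi_gt_d2
  set R := √(x ^ 2 + 8) with hR
  have hR1 : 0.596 * x + 2.27 ≤ R := by
    refine Real.le_sqrt_of_sq_le ?_
    nlinarith [sq_nonneg (x - 2.0982)]
  have h1 : (√(Real.pi / 2) * (3 * x + R) / 4) * (√(Real.pi / 2) / t) =
      (Real.pi / 8 * (3 * x + R)) / t := by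
    have h2 : √(Real.pi / 2) * √(Real.pi / 2) = Real.pi / 2 :=
      Real.mul_self_sqrt (by positivity)
    calc (√(Real.pi / 2) * (3 * x + R) / 4) * (√(Real.pi / 2) / t) =
        (√(Real.pi / 2) * √(Real.pi / 2)) * (3 * x + R) / 4 / t := by ring
      _ = _ := by rw [h2]; ring
  rw [h1, le_div_iff₀ ht]
  have hnn : 0 ≤ Real.pi / 8 * (3 * x + R) := by
    have : 0 ≤ 3 * x + R := by linarith
    positivity
  rw [← pow_le_pow_iff_left₀ (by positivity) hnn two_ne_zero, mul_pow, htx,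
    ← Real.exp_nat_mul]
  have e1 : ((2 : ℕ) : ℝ) * 0.24 = 0.48 := by norm_num
  rw [e1]
  have h3 : Real.exp 0.48 * (x ^ 2 + 2 * Real.log 10) ≤ 1.633 * (x ^ 2 + 4.6054) := by
    refine mul_le_mul lc_exp48 ?_ ?_ (by norm_num)
    · have := lc_log10_hi
      linarith
    · have := lc_log10_lo
      positivity
  have h4 : (3.14 / 8 * (3.596 * x + 2.27)) ^ 2 ≤ (Real.pi / 8 * (3 * x + R)) ^ 2 := by
    refine pow_le_pow_left₀ (by positivity) ?_ 2
    refine mul_le_mul (by linarith) (by linarith) (by positivity) (by positivity)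
  refine h3.trans (le_trans ?_ h4)
  nlinarith

end largecase_aux

theorem large_case
    (mills : ∀ x : ℝ, 0 ≤ x →
      (3 * x + √(x ^ 2 + 8)) / 4 * √(Real.pi / 2) * (1 - PP x) ≤ Real.exp (-(x ^ 2) / 2))
    (PP_props : PP 0 = 0 ∧ Continuous PP ∧ StrictMono PP ∧ (∀ x, PP x < 1) ∧
      Filter.Tendsto PP Filter.atTop (nhds 1) ∧ (∀ x, HasDerivAt PP (2 * ph x) x))
    (J1_jensen : ∀ (n m : ℕ), 1 ≤ n → ∀ (x : ℝ), 0 ≤ x → 1 - PP x = n / ((n : ℝ) + m + 1) →
      ENNReal.ofReal ((√(Real.pi / 2) * (3 * x + √(x ^ 2 + 8)) / 4) ^ (n - 1) / √(n : ℝ)) ≤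
      ((n + m).choose n : ℝ≥0∞) * J1 n m)
    (beta_t : ∀ (n m : ℕ), 2 ≤ n → ∀ (t : ℝ), 0 < t →
      ENNReal.ofReal ((√(Real.pi / 2) / t) ^ (n - 1) / √(n : ℝ) * PP t ^ (n + m - 1) * S3 t) ≤
      ∫⁻ b in Set.Ioi (0 : ℝ), ∫⁻ a : ℝ, ENNReal.ofReal (GG a b) ^ m * KK n a b)
    (n m : ℕ) (hn : 30 ≤ n) (hm : 30 * n ≤ m) :
    1 ≤ ((n + m).choose n : ℝ≥0∞) * (J1 n m *
      ∫⁻ b in Set.Ioi (0 : ℝ), ∫⁻ a : ℝ, ENNReal.ofReal (GG a b) ^ m * KK n a b) := by
  obtain ⟨hP0, hPc, hPm, hPlt, hPlim, hPd⟩ := PP_props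
  have hup := lc_upper mills hPlt
  have hn1 : (30 : ℝ) ≤ n := by exact_mod_cast hn
  have hm1 : 30 * (n : ℝ) ≤ m := by exact_mod_cast hm
  have hD0 : (0 : ℝ) < (n : ℝ) + m + 1 := by positivity
  set v : ℝ := n / ((n : ℝ) + m + 1) with hv
  have hv0 : 0 < v := by positivity
  have hv1 : v < 1 / 31 := by
    rw [hv, div_lt_div_iff₀ hD0 (by norm_num)]
    linarith
  -- choose x
  obtain ⟨x, hx0, hxv⟩ : ∃ x : ℝ, 0 < x ∧ 1 - PP x = v := by
    have h1 : ∀ᶠ x in Filter.atTop, 1 - v < PP x :=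
      hPlim.eventually (lt_mem_nhds (by linarith))
    obtain ⟨x, hx1, hx0⟩ := (h1.and (Filter.eventually_gt_atTop 0)).exists
    have h2 := intermediate_value_Icc hx0.le hPc.continuousOn
    rw [hP0] at h2
    obtain ⟨h, ⟨hh0, hhx⟩, hh⟩ := h2 (show 1 - v ∈ Set.Icc 0 (PP x) from ⟨by linarith, hx1.le⟩)
    refine ⟨h, lt_of_le_of_ne hh0 ?_, by linarith⟩
    rintro rfl
    rw [hP0] at hh
    linarith
  have hx21 : 2.1 ≤ x := by
    by_contra hcon
    push Not at hcon
    have h1 := hPm hcon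
    have h2 := lc_x hPd hPlim
    linarith
  have hlo := lc_log10_lo
  set t : ℝ := √(x ^ 2 + 2 * Real.log 10) with ht
  have ht2 : t ^ 2 = x ^ 2 + 2 * Real.log 10 := Real.sq_sqrt (by positivity)
  have ht3 : 3 ≤ t := Real.le_sqrt_of_sq_le (by nlinarith)
  have ht0 : 0 < t := by linarith
  have hxt : x ≤ t := Real.le_sqrt_of_sq_le (by linarith)
  -- (a)
  have ha : 1 - PP t ≤ v / 10 := by
    have h1 := lc_tail_anti hPd hup x t hx0.le hxt
    have h2 : Real.exp (t ^ 2 / 2) = 10 * Real.exp (x ^ 2 / 2) := by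
      have e : t ^ 2 / 2 = Real.log 10 + x ^ 2 / 2 := by rw [ht2]; ring
      rw [e, Real.exp_add, Real.exp_log (by norm_num)]
    rw [h2, hxv] at h1
    have h3 := Real.exp_pos (x ^ 2 / 2)
    have h4 : Real.exp (x ^ 2 / 2) * ((1 - PP t) * 10) ≤ Real.exp (x ^ 2 / 2) * v := by linarith
    have h5 := le_of_mul_le_mul_left h4 h3
    linarith
  -- (b)
  have hb : Real.exp (-(0.1004 * n)) ≤ PP t ^ (n + m - 1) := by
    set u : ℝ := v / 10 with hu
    have hu0 : 0 < u := by positivity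
    have hu1 : 0 < 1 - u := by linarith
    have h1 : Real.exp (-(u / (1 - u))) ≤ PP t := by
      refine le_trans ?_ (show 1 - u ≤ PP t by linarith)
      have h2 := Real.add_one_le_exp (u / (1 - u))
      have h3 : u / (1 - u) + 1 = (1 - u)⁻¹ := by
        field_simp
        ring
      rw [h3] at h2
      rw [Real.exp_neg]
      exact inv_le_of_inv_le₀ hu1 h2
    have h2 : Real.exp (-(u / (1 - u))) ^ (n + m - 1) ≤ PP t ^ (n + m - 1) :=
      pow_le_pow_left₀ (Real.exp_pos _).le h1 _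
    refine le_trans ?_ h2
    rw [← Real.exp_nat_mul]
    refine Real.exp_le_exp.2 ?_
    have h3 : ((n + m - 1 : ℕ) : ℝ) = (n : ℝ) + m - 1 := by
      rw [Nat.cast_sub (by omega)]
      push_cast
      ring
    rw [h3]
    have h4 : ((n : ℝ) + m - 1) * (u / (1 - u)) ≤ 0.1004 * n := by
      have h5 : u / (1 - u) = n / (10 * ((n : ℝ) + m + 1) - n) := by
        have h6 : (10 * ((n : ℝ) + m + 1) - n) ≠ 0 := by nlinarith
        have h7 : (n : ℝ) + m + 1 ≠ 0 := hD0.ne'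
        rw [div_eq_div_iff hu1.ne' h6, hu, hv]
        field_simp
      rw [h5, mul_div_assoc', div_le_iff₀ (by linarith)]
      nlinarith
    linarith
  -- (c)
  have hc := lc_S3 hPd hup t ht3
  -- (d)
  have hd := lc_d x t hx21 ht0 ht2
  -- (e)
  have h1 := J1_jensen n m (by omega) x hx0.le hxv
  have h2 := beta_t n m (by omega) t ht0
  have hpi := Real.pi_pos
  set A : ℝ := √(Real.pi / 2) * (3 * x + √(x ^ 2 + 8)) / 4 with hA
  set B : ℝ := √(Real.pi / 2) / t with hB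
  have hA0 : 0 ≤ A := by positivity
  have hB0 : 0 ≤ B := by positivity
  have hP1 : (0 : ℝ) ≤ A ^ (n - 1) / √(n : ℝ) := by positivity
  rw [← mul_assoc]
  refine le_trans ?_ (mul_le_mul' h1 h2)
  rw [← ENNReal.ofReal_mul hP1, ← ENNReal.ofReal_one]
  refine ENNReal.ofReal_le_ofReal ?_
  have hn0 : (0 : ℝ) < n := by linarith
  have e1 : A ^ (n - 1) / √(n : ℝ) * (B ^ (n - 1) / √(n : ℝ) * PP t ^ (n + m - 1) * S3 t) =
      (A * B) ^ (n - 1) * PP t ^ (n + m - 1) * S3 t / n := by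
    have h3 : √(n : ℝ) * √(n : ℝ) = n := Real.mul_self_sqrt hn0.le
    have h4 : 0 < √(n : ℝ) := by positivity
    have h5 : A ^ (n - 1) / √(n : ℝ) * (B ^ (n - 1) / √(n : ℝ) * PP t ^ (n + m - 1) * S3 t) =
        (A ^ (n - 1) * B ^ (n - 1)) * PP t ^ (n + m - 1) * S3 t / (√(n : ℝ) * √(n : ℝ)) := by
      generalize √(n : ℝ) = w at h4
      field_simp
    rw [h5, h3, mul_pow]
  rw [e1, le_div_iff₀ hn0, one_mul]
  have h5 : Real.exp (0.24 * (n - 1)) ≤ (A * B) ^ (n - 1) := by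
    have h6 : Real.exp 0.24 ^ (n - 1) ≤ (A * B) ^ (n - 1) :=
      pow_le_pow_left₀ (Real.exp_pos _).le hd _
    refine le_trans (le_of_eq ?_) h6
    rw [← Real.exp_nat_mul, Nat.cast_sub (by omega)]
    congr 1
    push_cast
    ring
  have h6 : Real.exp (0.24 * (n - 1)) * Real.exp (-(0.1004 * n)) * 0.95 ≤
      (A * B) ^ (n - 1) * PP t ^ (n + m - 1) * S3 t := by
    refine mul_le_mul (mul_le_mul h5 hb (Real.exp_pos _).le (by positivity)) hc (by norm_num) ?_
    have h7 : 0 ≤ PP t ^ (n + m - 1) := le_trans (Real.exp_pos _).le hb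
    exact mul_nonneg (by positivity) h7
  refine le_trans ?_ h6
  rw [← Real.exp_add]
  have e2 : 0.24 * ((n : ℝ) - 1) + -(0.1004 * n) = (3 : ℝ) + (0.948 + 0.1396 * (n - 30)) := by
    ring
  rw [e2, Real.exp_add]
  have h7 : (20 : ℝ) ≤ Real.exp 3 := by
    have h8 := Real.exp_one_gt_d9
    have h9 : Real.exp 3 = Real.exp 1 ^ 3 := by
      rw [← Real.exp_nat_mul]
      norm_num
    rw [h9]
    have : (2.7182818283 : ℝ) ^ 3 ≤ Real.exp 1 ^ 3 := pow_le_pow_left₀ (by norm_num) h8.le 3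
    linarith [this, (by norm_num : (20 : ℝ) ≤ 2.7182818283 ^ 3)]
  have h8 : (1.948 : ℝ) + 0.1396 * (n - 30) ≤ Real.exp (0.948 + 0.1396 * (n - 30)) := by
    have := Real.add_one_le_exp (0.948 + 0.1396 * ((n : ℝ) - 30))
    linarith
  have h9 : (20 : ℝ) * (1.948 + 0.1396 * (n - 30)) ≤
      Real.exp 3 * Real.exp (0.948 + 0.1396 * (n - 30)) := by
    refine mul_le_mul h7 h8 ?_ (Real.exp_pos _).le
    linarith
  linarith


end Pool.Agent.VPK.K13
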