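import Pool.Agent.VPK.Defs

set_option autoImplicit false
open MeasureTheory ProbabilityTheory
open scoped ENNReal Matrix

namespace Pool.Agent.VPK.K2

open Pool.Agent.VPK
































theorem k2_phcont : Continuous ph := by
  unfold ph
  fun_prop

theorem k2_ph (y : ℝ) : Real.exp (-y ^ 2 / 2) = √(2 * Real.pi) * ph y := by
  unfold ph
  have : √(2 * Real.pi) ≠ 0 := by positivity
  field_simp

theorem k2_ph_nonneg (y : ℝ) : 0 ≤ ph y := by
  unfold ph
  positivity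

theorem k2_ph_neg (y : ℝ) : ph (-y) = ph y := by
  unfold ph
  rw [neg_sq]

theorem k2_ph_deriv (y : ℝ) : HasDerivAt ph (-y * ph y) y := by
  have h1 : HasDerivAt (fun y : ℝ => -y ^ 2 / 2) (-(((2 : ℕ) : ℝ) * y ^ (2 - 1)) / 2) y :=
    ((hasDerivAt_pow 2 y).neg).div_const 2
  have e : -(((2 : ℕ) : ℝ) * y ^ (2 - 1)) / 2 = -y := by
    norm_num
    ring
  rw [e] at h1
  have h3 : HasDerivAt (fun y : ℝ => Real.exp (-y ^ 2 / 2) / √(2 * Real.pi))
      (Real.exp (-y ^ 2 / 2) * (-y) / √(2 * Real.pi)) y := (h1.exp).div_const (√(2 * Real.pi))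
  have e2 : -y * ph y = Real.exp (-y ^ 2 / 2) * (-y) / √(2 * Real.pi) := by
    unfold ph
    ring
  rw [e2]
  exact h3

/-- total mass on `[-t, t]` -/
theorem k2_int_ph (t : ℝ) : ∫ y in (-t)..t, ph y = PP t := by
  have hc := k2_phcont
  rw [← intervalIntegral.integral_add_adjacent_intervals (hc.intervalIntegrable (-t) 0)
    (hc.intervalIntegrable 0 t)]
  have h2 : ∫ x in (-t)..0, ph x = ∫ x in (0:ℝ)..t, ph x := by
    have h3 := intervalIntegral.integral_comp_neg (f := ph) (a := 0) (b := t)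
    simp only [neg_zero, k2_ph_neg] at h3
    exact h3.symm
  rw [h2]
  unfold PP
  ring

/-- second moment on `[-t, t]` -/
theorem k2_int_ph2 (t : ℝ) : ∫ y in (-t)..t, y ^ 2 * ph y = S3 t := by
  have hc := k2_phcont
  have hc2 : Continuous fun y : ℝ => y ^ 2 * ph y := by fun_prop
  have hd : ∀ y ∈ Set.uIcc (-t) t, HasDerivAt (fun y => -(y * ph y)) (y ^ 2 * ph y - ph y) y := by
    intro y _
    have h1 : HasDerivAt (fun y => -(y * ph y)) (-(1 * ph y + y * (-y * ph y))) y :=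
      ((hasDerivAt_id y).mul (k2_ph_deriv y)).neg
    have e : y ^ 2 * ph y - ph y = -(1 * ph y + y * (-y * ph y)) := by ring
    rw [e]
    exact h1
  have h := intervalIntegral.integral_eq_sub_of_hasDerivAt hd
    ((hc2.sub hc).intervalIntegrable _ _)
  rw [intervalIntegral.integral_sub (hc2.intervalIntegrable _ _) (hc.intervalIntegrable _ _),
    k2_int_ph, k2_ph_neg] at h
  unfold S3
  linarith

theorem k2_E0 (t : ℝ) : ∫ y in (-t)..t, Real.exp (-y ^ 2 / 2) = √(2 * Real.pi) * PP t := by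
  simp only [k2_ph]
  rw [intervalIntegral.integral_const_mul, k2_int_ph]

theorem k2_E2 (t : ℝ) :
    ∫ y in (-t)..t, y ^ 2 * Real.exp (-y ^ 2 / 2) = √(2 * Real.pi) * S3 t := by
  have h : ∀ y : ℝ, y ^ 2 * Real.exp (-y ^ 2 / 2) = √(2 * Real.pi) * (y ^ 2 * ph y) := by
    intro y
    rw [k2_ph]
    ring
  simp only [h]
  rw [intervalIntegral.integral_const_mul, k2_int_ph2]

theorem k2_PP_nonneg {t : ℝ} (ht : 0 ≤ t) : 0 ≤ PP t := by
  rw [← k2_int_ph]
  exact intervalIntegral.integral_nonneg (by linarith) fun y _ => k2_ph_nonneg y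

theorem k2_S3_nonneg {t : ℝ} (ht : 0 ≤ t) : 0 ≤ S3 t := by
  rw [← k2_int_ph2]
  exact intervalIntegral.integral_nonneg (by linarith) fun y _ =>
    mul_nonneg (sq_nonneg y) (k2_ph_nonneg y)

/-- moments without the factor `1/2` -/
noncomputable def k2M (k : ℕ) (a b : ℝ) : ℝ :=
  ∫ z in (-1 : ℝ)..1, z ^ k * Real.exp (-(a + z * b) ^ 2 / 2)

theorem k2_mu (k : ℕ) (a b : ℝ) : mu k a b = (1 / 2) * k2M k a b := rfl

theorem k2_cont (k : ℕ) (a b : ℝ) :
    Continuous fun z : ℝ => z ^ k * Real.exp (-(a + z * b) ^ 2 / 2) := by fun_prop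

theorem k2_neg (k : ℕ) (a b : ℝ) : (-1) ^ k * k2M k (-a) b = k2M k a b := by
  have h := intervalIntegral.integral_comp_neg
    (f := fun z : ℝ => z ^ k * Real.exp (-(a + z * b) ^ 2 / 2)) (a := -1) (b := 1)
  have h1 : ∀ x : ℝ, (-x) ^ k * Real.exp (-(a + -x * b) ^ 2 / 2)
      = (-1) ^ k * (x ^ k * Real.exp (-(-a + x * b) ^ 2 / 2)) := by
    intro x
    have h2 : (a + -x * b) ^ 2 = (-a + x * b) ^ 2 := by ring
    rw [neg_pow, h2]
    ring
  simp only [h1, neg_neg] at h
  rw [intervalIntegral.integral_const_mul] at h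
  exact h

theorem k2_inner (a b c : ℝ) :
    ∫ z in (-1 : ℝ)..1, (c - z) ^ 2 * Real.exp (-(a + z * b) ^ 2 / 2)
      = c ^ 2 * k2M 0 a b - 2 * c * k2M 1 a b + k2M 2 a b := by
  have h : ∀ z : ℝ, (c - z) ^ 2 * Real.exp (-(a + z * b) ^ 2 / 2)
      = c ^ 2 * (z ^ 0 * Real.exp (-(a + z * b) ^ 2 / 2))
        - (2 * c) * (z ^ 1 * Real.exp (-(a + z * b) ^ 2 / 2))
        + z ^ 2 * Real.exp (-(a + z * b) ^ 2 / 2) := by
    intro z
    ring
  have i0 : IntervalIntegrable (fun z : ℝ => c ^ 2 * (z ^ 0 * Real.exp (-(a + z * b) ^ 2 / 2)))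
      volume (-1) 1 := ((k2_cont 0 a b).const_mul _).intervalIntegrable _ _
  have i1 : IntervalIntegrable (fun z : ℝ => (2 * c) * (z ^ 1 * Real.exp (-(a + z * b) ^ 2 / 2)))
      volume (-1) 1 := ((k2_cont 1 a b).const_mul _).intervalIntegrable _ _
  have i2 : IntervalIntegrable (fun z : ℝ => z ^ 2 * Real.exp (-(a + z * b) ^ 2 / 2))
      volume (-1) 1 := (k2_cont 2 a b).intervalIntegrable _ _
  simp only [h]
  rw [intervalIntegral.integral_add (i0.sub i1) i2, intervalIntegral.integral_sub i0 i1,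
    intervalIntegral.integral_const_mul, intervalIntegral.integral_const_mul]
  rfl

theorem k2_outer (a b A B C : ℝ) :
    ∫ z in (-1 : ℝ)..1, Real.exp (-(a + z * b) ^ 2 / 2) * (z ^ 2 * A - 2 * z * B + C)
      = A * k2M 2 a b - 2 * B * k2M 1 a b + C * k2M 0 a b := by
  have h : ∀ z : ℝ, Real.exp (-(a + z * b) ^ 2 / 2) * (z ^ 2 * A - 2 * z * B + C)
      = A * (z ^ 2 * Real.exp (-(a + z * b) ^ 2 / 2))
        - (2 * B) * (z ^ 1 * Real.exp (-(a + z * b) ^ 2 / 2))
        + C * (z ^ 0 * Real.exp (-(a + z * b) ^ 2 / 2)) := by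
    intro z
    ring
  have i0 : IntervalIntegrable (fun z : ℝ => C * (z ^ 0 * Real.exp (-(a + z * b) ^ 2 / 2)))
      volume (-1) 1 := ((k2_cont 0 a b).const_mul _).intervalIntegrable _ _
  have i1 : IntervalIntegrable (fun z : ℝ => (2 * B) * (z ^ 1 * Real.exp (-(a + z * b) ^ 2 / 2)))
      volume (-1) 1 := ((k2_cont 1 a b).const_mul _).intervalIntegrable _ _
  have i2 : IntervalIntegrable (fun z : ℝ => A * (z ^ 2 * Real.exp (-(a + z * b) ^ 2 / 2)))
      volume (-1) 1 := ((k2_cont 2 a b).const_mul _).intervalIntegrable _ _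
  simp only [h]
  rw [intervalIntegral.integral_add (i2.sub i1) i0, intervalIntegral.integral_sub i2 i1,
    intervalIntegral.integral_const_mul, intervalIntegral.integral_const_mul,
    intervalIntegral.integral_const_mul]
  rfl

theorem k2_two (s : ℝ) : 2 ≤ Real.exp s + Real.exp (-s) := by
  have h1 := Real.add_one_le_exp s
  have h2 := Real.add_one_le_exp (-s)
  linarith

/-- pointwise, one variable -/
theorem k2_pt1 (a b z : ℝ) : 2 * (Real.exp (-a ^ 2 / 2) * Real.exp (-(0 + z * b) ^ 2 / 2))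
    ≤ Real.exp (-(a + z * b) ^ 2 / 2) + Real.exp (-(-a + z * b) ^ 2 / 2) := by
  have h1 : Real.exp (-(a + z * b) ^ 2 / 2)
      = (Real.exp (-a ^ 2 / 2) * Real.exp (-(0 + z * b) ^ 2 / 2)) * Real.exp (-(a * b * z)) := by
    rw [← Real.exp_add, ← Real.exp_add]
    congr 1
    ring
  have h2 : Real.exp (-(-a + z * b) ^ 2 / 2)
      = (Real.exp (-a ^ 2 / 2) * Real.exp (-(0 + z * b) ^ 2 / 2)) * Real.exp (a * b * z) := by
    rw [← Real.exp_add, ← Real.exp_add]
    congr 1
    ring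
  rw [h1, h2, ← mul_add, mul_comm 2]
  apply mul_le_mul_of_nonneg_left _ (by positivity)
  have := k2_two (a * b * z)
  linarith

/-- pointwise, two variables -/
theorem k2_pt2 (a b z z' : ℝ) : 2 * (Real.exp (-a ^ 2) * (Real.exp (-(0 + z * b) ^ 2 / 2)
      * Real.exp (-(0 + z' * b) ^ 2 / 2)))
    ≤ Real.exp (-(a + z * b) ^ 2 / 2) * Real.exp (-(a + z' * b) ^ 2 / 2)
      + Real.exp (-(-a + z * b) ^ 2 / 2) * Real.exp (-(-a + z' * b) ^ 2 / 2) := by
  have h1 : Real.exp (-(a + z * b) ^ 2 / 2) * Real.exp (-(a + z' * b) ^ 2 / 2)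
      = (Real.exp (-a ^ 2) * (Real.exp (-(0 + z * b) ^ 2 / 2)
      * Real.exp (-(0 + z' * b) ^ 2 / 2))) * Real.exp (-(a * b * (z + z'))) := by
    rw [← Real.exp_add, ← Real.exp_add, ← Real.exp_add, ← Real.exp_add]
    congr 1
    ring
  have h2 : Real.exp (-(-a + z * b) ^ 2 / 2) * Real.exp (-(-a + z' * b) ^ 2 / 2)
      = (Real.exp (-a ^ 2) * (Real.exp (-(0 + z * b) ^ 2 / 2)
      * Real.exp (-(0 + z' * b) ^ 2 / 2))) * Real.exp (a * b * (z + z')) := by
    rw [← Real.exp_add, ← Real.exp_add, ← Real.exp_add, ← Real.exp_add]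
    congr 1
    ring
  rw [h1, h2, ← mul_add, mul_comm 2]
  apply mul_le_mul_of_nonneg_left _ (by positivity)
  have := k2_two (a * b * (z + z'))
  linarith

theorem k2_M0_ge (a b : ℝ) : Real.exp (-a ^ 2 / 2) * k2M 0 0 b ≤ k2M 0 a b := by
  have hneg := k2_neg 0 a b
  rw [pow_zero, one_mul] at hneg
  have h1 : ∫ z in (-1 : ℝ)..1, 2 * (Real.exp (-a ^ 2 / 2)
        * (z ^ 0 * Real.exp (-(0 + z * b) ^ 2 / 2)))
      ≤ ∫ z in (-1 : ℝ)..1, (z ^ 0 * Real.exp (-(a + z * b) ^ 2 / 2)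
        + z ^ 0 * Real.exp (-(-a + z * b) ^ 2 / 2)) := by
    apply intervalIntegral.integral_mono_on (by norm_num)
    · exact (((k2_cont 0 0 b).const_mul _).const_mul _).intervalIntegrable _ _
    · exact ((k2_cont 0 a b).add (k2_cont 0 (-a) b)).intervalIntegrable _ _
    · intro z _
      have := k2_pt1 a b z
      simp only [pow_zero, one_mul]
      exact this
  rw [intervalIntegral.integral_const_mul, intervalIntegral.integral_const_mul,
    intervalIntegral.integral_add ((k2_cont 0 a b).intervalIntegrable _ _)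
      ((k2_cont 0 (-a) b).intervalIntegrable _ _)] at h1
  have h2 : 2 * (Real.exp (-a ^ 2 / 2) * k2M 0 0 b) ≤ k2M 0 a b + k2M 0 (-a) b := h1
  linarith

theorem k2_V_ge (a b : ℝ) : Real.exp (-a ^ 2) * (k2M 0 0 b * k2M 2 0 b)
    ≤ k2M 0 a b * k2M 2 a b - k2M 1 a b ^ 2 := by
  have hneg0 := k2_neg 0 a b
  have hneg1 := k2_neg 1 a b
  have hneg2 := k2_neg 2 a b
  rw [pow_zero, one_mul] at hneg0
  rw [pow_one] at hneg1
  norm_num at hneg2
  have hz1 : k2M 1 0 b = 0 := by
    have := k2_neg 1 0 b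
    rw [neg_zero, pow_one] at this
    linarith
  have ho1 := k2_outer a b (k2M 0 a b) (k2M 1 a b) (k2M 2 a b)
  have ho2 := k2_outer (-a) b (k2M 0 (-a) b) (k2M 1 (-a) b) (k2M 2 (-a) b)
  have ho3 := k2_outer 0 b (k2M 0 0 b) (k2M 1 0 b) (k2M 2 0 b)
  have c1 : Continuous fun z : ℝ => Real.exp (-(a + z * b) ^ 2 / 2)
      * (z ^ 2 * k2M 0 a b - 2 * z * k2M 1 a b + k2M 2 a b) := by fun_prop
  have c2 : Continuous fun z : ℝ => Real.exp (-(-a + z * b) ^ 2 / 2)
      * (z ^ 2 * k2M 0 (-a) b - 2 * z * k2M 1 (-a) b + k2M 2 (-a) b) := by fun_prop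
  have c3 : Continuous fun z : ℝ => Real.exp (-(0 + z * b) ^ 2 / 2)
      * (z ^ 2 * k2M 0 0 b - 2 * z * k2M 1 0 b + k2M 2 0 b) := by fun_prop
  have h1 : ∫ z in (-1 : ℝ)..1, (2 * Real.exp (-a ^ 2)) * (Real.exp (-(0 + z * b) ^ 2 / 2)
        * (z ^ 2 * k2M 0 0 b - 2 * z * k2M 1 0 b + k2M 2 0 b))
      ≤ ∫ z in (-1 : ℝ)..1, (Real.exp (-(a + z * b) ^ 2 / 2)
          * (z ^ 2 * k2M 0 a b - 2 * z * k2M 1 a b + k2M 2 a b)
        + Real.exp (-(-a + z * b) ^ 2 / 2)
          * (z ^ 2 * k2M 0 (-a) b - 2 * z * k2M 1 (-a) b + k2M 2 (-a) b)) := by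
    apply intervalIntegral.integral_mono_on (by norm_num)
    · exact (c3.const_mul _).intervalIntegrable _ _
    · exact (c1.add c2).intervalIntegrable _ _
    · intro z _
      rw [← k2_inner, ← k2_inner, ← k2_inner]
      rw [← intervalIntegral.integral_const_mul, ← intervalIntegral.integral_const_mul,
        ← intervalIntegral.integral_const_mul, ← intervalIntegral.integral_const_mul]
      have d1 : Continuous fun x : ℝ => Real.exp (-(a + z * b) ^ 2 / 2)
          * ((z - x) ^ 2 * Real.exp (-(a + x * b) ^ 2 / 2)) := by fun_prop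
      have d2 : Continuous fun x : ℝ => Real.exp (-(-a + z * b) ^ 2 / 2)
          * ((z - x) ^ 2 * Real.exp (-(-a + x * b) ^ 2 / 2)) := by fun_prop
      have d3 : Continuous fun x : ℝ => (2 * Real.exp (-a ^ 2))
          * (Real.exp (-(0 + z * b) ^ 2 / 2)
          * ((z - x) ^ 2 * Real.exp (-(0 + x * b) ^ 2 / 2))) := by fun_prop
      rw [← intervalIntegral.integral_add (d1.intervalIntegrable _ _) (d2.intervalIntegrable _ _)]
      apply intervalIntegral.integral_mono_on (by norm_num) (d3.intervalIntegrable _ _)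
        ((d1.add d2).intervalIntegrable _ _)
      intro x _
      have h3 := mul_le_mul_of_nonneg_left (k2_pt2 a b z x) (sq_nonneg (z - x))
      simp only [Pi.add_apply]
      linarith
  rw [intervalIntegral.integral_const_mul, intervalIntegral.integral_add
    (c1.intervalIntegrable _ _) (c2.intervalIntegrable _ _), ho1, ho2, ho3, hz1] at h1
  have e0 : k2M 0 (-a) b = k2M 0 a b := hneg0
  have e1 : k2M 1 (-a) b = - k2M 1 a b := by linarith
  have e2 : k2M 2 (-a) b = k2M 2 a b := hneg2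
  rw [e0, e1, e2] at h1
  nlinarith

theorem k2_M0_zero (b : ℝ) (hb : 0 < b) : k2M 0 0 b = √(2 * Real.pi) * PP b / b := by
  unfold k2M
  have h := intervalIntegral.integral_comp_mul_right (fun y : ℝ => Real.exp (-y ^ 2 / 2))
    (a := -1) (b := 1) hb.ne'
  simp only [pow_zero, one_mul, zero_add]
  rw [h, neg_one_mul, one_mul, k2_E0, smul_eq_mul]
  field_simp

theorem k2_M2_zero (b : ℝ) (hb : 0 < b) : k2M 2 0 b = √(2 * Real.pi) * S3 b / b ^ 3 := by
  unfold k2M
  have h := intervalIntegral.integral_comp_mul_right (fun y : ℝ => y ^ 2 * Real.exp (-y ^ 2 / 2))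
    (a := -1) (b := 1) hb.ne'
  have h1 : ∀ z : ℝ, z ^ 2 * Real.exp (-(0 + z * b) ^ 2 / 2)
      = (b ^ 2)⁻¹ * ((z * b) ^ 2 * Real.exp (-(z * b) ^ 2 / 2)) := by
    intro z
    rw [zero_add]
    field_simp
  simp only [h1]
  rw [intervalIntegral.integral_const_mul, h, neg_one_mul, one_mul, k2_E2, smul_eq_mul]
  field_simp

theorem k2_half : √(2 * Real.pi) = 2 * √(Real.pi / 2) := by
  have h : 2 * Real.pi = 2 ^ 2 * (Real.pi / 2) := by ring
  rw [h, Real.sqrt_mul (by norm_num), Real.sqrt_sq (by norm_num)]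

/-- from bounds of the moments to a bound of `dn` -/
theorem k2_final (n : ℕ) (hn : 2 ≤ n) (a b p q r s : ℝ) (hb : 0 < b) (hp : 0 ≤ p)
    (hq : 0 ≤ q) (hr : 0 ≤ r) (hs : 0 ≤ s)
    (h0 : r * (√(2 * Real.pi) * p / b) ≤ k2M 0 a b)
    (h1 : s * ((√(2 * Real.pi) * p / b) * (√(2 * Real.pi) * q / b ^ 3))
      ≤ k2M 0 a b * k2M 2 a b - k2M 1 a b ^ 2) :
    √(n : ℝ) / √(2 * Real.pi) * ((n : ℝ) - 1) * (r ^ (n - 2) * s) * √(Real.pi / 2) ^ n *
      p ^ (n - 1) * q / b ^ (n + 1) ≤ dn n a b := by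
  obtain ⟨m, rfl⟩ : ∃ m, n = m + 2 := ⟨n - 2, by omega⟩
  have e1 : m + 2 - 2 = m := by omega
  have e2 : m + 2 - 1 = m + 1 := by omega
  have e3 : m + 2 + 1 = m + 3 := by omega
  rw [e1, e2, e3]
  unfold dn
  rw [e1, k2_mu, k2_mu, k2_mu]
  have hK : 0 ≤ √((m + 2 : ℕ) : ℝ) / √(2 * Real.pi) * b * (((m + 2 : ℕ) : ℝ) - 1) := by
    have : (0 : ℝ) ≤ ((m + 2 : ℕ) : ℝ) - 1 := by
      push_cast
      have : (0 : ℝ) ≤ m := Nat.cast_nonneg m
      linarith
    positivity
  set c := √(Real.pi / 2) with hc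
  have hc0 : 0 ≤ c := Real.sqrt_nonneg _
  have h0' : r * (c * p / b) ≤ 1 / 2 * k2M 0 a b := by
    have h2 : r * (c * p / b) = 1 / 2 * (r * (√(2 * Real.pi) * p / b)) := by
      rw [k2_half]
      ring
    rw [h2]
    linarith
  have h1' : s * ((c * p / b) * (c * q / b ^ 3)) ≤ (1 / 2 * k2M 0 a b) * (1 / 2 * k2M 2 a b)
      - (1 / 2 * k2M 1 a b) ^ 2 := by
    have h2 : s * ((c * p / b) * (c * q / b ^ 3))
        = 1 / 4 * (s * ((√(2 * Real.pi) * p / b) * (√(2 * Real.pi) * q / b ^ 3))) := by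
      rw [k2_half]
      ring
    rw [h2]
    linarith
  have hpow : (r * (c * p / b)) ^ m ≤ (1 / 2 * k2M 0 a b) ^ m :=
    pow_le_pow_left₀ (by positivity) h0' m
  have hbase : 0 ≤ s * ((c * p / b) * (c * q / b ^ 3)) := by positivity
  have hprod := mul_le_mul hpow h1' hbase (le_trans (by positivity) hpow)
  have hfin := mul_le_mul_of_nonneg_left hprod hK
  calc √((m + 2 : ℕ) : ℝ) / √(2 * Real.pi) * (((m + 2 : ℕ) : ℝ) - 1) * (r ^ m * s) * c ^ (m + 2) *
      p ^ (m + 1) * q / b ^ (m + 3)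
      = √((m + 2 : ℕ) : ℝ) / √(2 * Real.pi) * b * (((m + 2 : ℕ) : ℝ) - 1) *
        ((r * (c * p / b)) ^ m * (s * ((c * p / b) * (c * q / b ^ 3)))) := by
        rw [mul_pow r, div_pow, mul_pow c]
        have hb' : b ≠ 0 := hb.ne'
        field_simp
        ring
    _ ≤ _ := hfin
    _ = _ := by ring

theorem dn_lower (n : ℕ) (hn : 2 ≤ n) (a b : ℝ) (hb : 0 < b) :
    √(n : ℝ) / √(2 * Real.pi) * ((n : ℝ) - 1) * Real.exp (-(n * a ^ 2) / 2) * √(Real.pi / 2) ^ n *
      PP b ^ (n - 1) * S3 b / b ^ (n + 1) ≤ dn n a b := by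
  have h := k2_final n hn a b (PP b) (S3 b) (Real.exp (-a ^ 2 / 2)) (Real.exp (-a ^ 2)) hb
    (k2_PP_nonneg hb.le) (k2_S3_nonneg hb.le) (Real.exp_pos _).le (Real.exp_pos _).le
    (by rw [← k2_M0_zero b hb]; exact k2_M0_ge a b)
    (by rw [← k2_M0_zero b hb, ← k2_M2_zero b hb]; exact k2_V_ge a b)
  have e : Real.exp (-a ^ 2 / 2) ^ (n - 2) * Real.exp (-a ^ 2) = Real.exp (-(n * a ^ 2) / 2) := by
    rw [← Real.exp_nat_mul, ← Real.exp_add]
    congr 1
    rw [Nat.cast_sub hn]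
    push_cast
    ring
  rw [e] at h
  exact h

theorem dn_lower' (n : ℕ) (hn : 2 ≤ n) (a b t : ℝ) (ht : 0 < t) (hab : |a| ≤ b - t) :
    √(n : ℝ) / √(2 * Real.pi) * ((n : ℝ) - 1) * √(Real.pi / 2) ^ n *
      PP t ^ (n - 1) * S3 t / b ^ (n + 1) ≤ dn n a b := by
  have hab' := abs_le.1 hab
  have hb : 0 < b := by linarith [abs_nonneg a]
  have hu : -1 ≤ (-t - a) / b := by
    rw [le_div_iff₀ hb]
    linarith [hab'.2]
  have hv : (t - a) / b ≤ 1 := by
    rw [div_le_iff₀ hb]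
    linarith [hab'.1]
  have huv : (-t - a) / b ≤ (t - a) / b := by
    apply div_le_div_of_nonneg_right _ hb.le
    linarith
  -- change of variables on the smaller interval
  have hcv : ∀ f : ℝ → ℝ, ∫ z in ((-t - a) / b)..((t - a) / b), f (a + b * z)
      = b⁻¹ * ∫ y in (-t)..t, f y := by
    intro f
    have h := intervalIntegral.integral_comp_add_mul f (a := (-t - a) / b) (b := (t - a) / b)
      hb.ne' a
    rw [h, smul_eq_mul]
    have e1 : a + b * ((-t - a) / b) = -t := by field_simp; ring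
    have e2 : a + b * ((t - a) / b) = t := by field_simp; ring
    rw [e1, e2]
  have hM0 : √(2 * Real.pi) * PP t / b ≤ k2M 0 a b := by
    have h1 : ∫ z in ((-t - a) / b)..((t - a) / b), z ^ 0 * Real.exp (-(a + z * b) ^ 2 / 2)
        ≤ k2M 0 a b := by
      apply intervalIntegral.integral_mono_interval hu huv hv
      · exact Filter.Eventually.of_forall fun z => by positivity
      · exact (k2_cont 0 a b).intervalIntegrable _ _
    have h2 : ∫ z in ((-t - a) / b)..((t - a) / b), z ^ 0 * Real.exp (-(a + z * b) ^ 2 / 2)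
        = √(2 * Real.pi) * PP t / b := by
      have h3 := hcv (fun y => Real.exp (-y ^ 2 / 2))
      rw [k2_E0] at h3
      have h4 : ∀ z : ℝ, z ^ 0 * Real.exp (-(a + z * b) ^ 2 / 2)
          = Real.exp (-(a + b * z) ^ 2 / 2) := by
        intro z
        rw [pow_zero, one_mul, mul_comm z b]
      simp only [h4]
      rw [h3]
      field_simp
    rw [← h2]
    exact h1
  have hM0pos : 0 ≤ k2M 0 a b := le_trans (by have := k2_PP_nonneg ht.le; positivity) hM0
  have hS3 := k2_S3_nonneg ht.le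
  have hPP := k2_PP_nonneg ht.le
  have hsec : ∀ c : ℝ, √(2 * Real.pi) * S3 t / b ^ 3
      ≤ c ^ 2 * k2M 0 a b - 2 * c * k2M 1 a b + k2M 2 a b := by
    intro c
    rw [← k2_inner]
    have hcont : Continuous fun z : ℝ => (c - z) ^ 2 * Real.exp (-(a + z * b) ^ 2 / 2) := by
      fun_prop
    have h1 : ∫ z in ((-t - a) / b)..((t - a) / b), (c - z) ^ 2 * Real.exp (-(a + z * b) ^ 2 / 2)
        ≤ ∫ z in (-1 : ℝ)..1, (c - z) ^ 2 * Real.exp (-(a + z * b) ^ 2 / 2) := by
      apply intervalIntegral.integral_mono_interval hu huv hv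
      · exact Filter.Eventually.of_forall fun z => by positivity
      · exact hcont.intervalIntegrable _ _
    refine le_trans ?_ h1
    have h3 := hcv (fun y => (c - (y - a) / b) ^ 2 * Real.exp (-y ^ 2 / 2))
    have h4 : ∀ z : ℝ, (c - (a + b * z - a) / b) ^ 2 * Real.exp (-(a + b * z) ^ 2 / 2)
        = (c - z) ^ 2 * Real.exp (-(a + z * b) ^ 2 / 2) := by
      intro z
      have e1 : (a + b * z - a) / b = z := by field_simp; ring
      rw [e1, mul_comm b z]
    simp only [h4] at h3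
    rw [h3]
    -- expand the square
    set d := a + b * c with hd
    have h5 : ∀ y : ℝ, (c - (y - a) / b) ^ 2 * Real.exp (-y ^ 2 / 2)
        = (b ^ 2)⁻¹ * (y ^ 2 * Real.exp (-y ^ 2 / 2) - (2 * d) * (y * Real.exp (-y ^ 2 / 2))
          + d ^ 2 * Real.exp (-y ^ 2 / 2)) := by
      intro y
      rw [hd]
      field_simp
      ring
    have hodd : ∫ y in (-t)..t, y * Real.exp (-y ^ 2 / 2) = 0 := by
      have h6 := intervalIntegral.integral_comp_neg (f := fun y : ℝ => y * Real.exp (-y ^ 2 / 2))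
        (a := -t) (b := t)
      simp only [neg_sq, neg_neg, neg_mul, intervalIntegral.integral_neg] at h6
      linarith
    have j1 : IntervalIntegrable (fun y : ℝ => y ^ 2 * Real.exp (-y ^ 2 / 2)) volume (-t) t := by
      apply Continuous.intervalIntegrable; fun_prop
    have j2 : IntervalIntegrable (fun y : ℝ => (2 * d) * (y * Real.exp (-y ^ 2 / 2)))
        volume (-t) t := by
      apply Continuous.intervalIntegrable; fun_prop
    have j3 : IntervalIntegrable (fun y : ℝ => d ^ 2 * Real.exp (-y ^ 2 / 2)) volume (-t) t := by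
      apply Continuous.intervalIntegrable; fun_prop
    simp only [h5]
    rw [intervalIntegral.integral_const_mul, intervalIntegral.integral_add (j1.sub j2) j3,
      intervalIntegral.integral_sub j1 j2, intervalIntegral.integral_const_mul,
      intervalIntegral.integral_const_mul, hodd, k2_E0, k2_E2]
    have h7 : b⁻¹ * ((b ^ 2)⁻¹ * (√(2 * Real.pi) * S3 t - 2 * d * 0
        + d ^ 2 * (√(2 * Real.pi) * PP t)))
        = √(2 * Real.pi) * S3 t / b ^ 3 + d ^ 2 * (√(2 * Real.pi) * PP t) / b ^ 3 := by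
      field_simp
      ring
    rw [h7]
    have : 0 ≤ d ^ 2 * (√(2 * Real.pi) * PP t) / b ^ 3 := by positivity
    linarith
  have hV : (√(2 * Real.pi) * PP t / b) * (√(2 * Real.pi) * S3 t / b ^ 3)
      ≤ k2M 0 a b * k2M 2 a b - k2M 1 a b ^ 2 := by
    rcases eq_or_lt_of_le hM0pos with h0 | h0
    · have h1 : √(2 * Real.pi) * PP t / b = 0 := by
        apply le_antisymm
        · rw [h0]; exact hM0
        · positivity
      rw [h1, zero_mul, ← h0, zero_mul, zero_sub]
      -- `M1 = 0` since otherwise the quadratic form would be negative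
      have h2 : k2M 1 a b = 0 := by
        by_contra hne
        have h3 := hsec ((k2M 2 a b + 1) / (2 * k2M 1 a b))
        rw [← h0, mul_zero] at h3
        have h4 : 2 * ((k2M 2 a b + 1) / (2 * k2M 1 a b)) * k2M 1 a b = k2M 2 a b + 1 := by
          field_simp
        rw [h4] at h3
        have h5 : 0 ≤ √(2 * Real.pi) * S3 t / b ^ 3 := by positivity
        linarith
      rw [h2]
      norm_num
    · have h1 := hsec (k2M 1 a b / k2M 0 a b)
      have h2 : k2M 0 a b * ((k2M 1 a b / k2M 0 a b) ^ 2 * k2M 0 a b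
          - 2 * (k2M 1 a b / k2M 0 a b) * k2M 1 a b + k2M 2 a b)
          = k2M 0 a b * k2M 2 a b - k2M 1 a b ^ 2 := by
        have := h0.ne'
        field_simp
        ring
      rw [← h2]
      exact mul_le_mul hM0 h1 (by positivity) hM0pos
  have h := k2_final n hn a b (PP t) (S3 t) 1 1 hb hPP hS3 zero_le_one zero_le_one
    (by rw [one_mul]; exact hM0) (by rw [one_mul]; exact hV)
  rw [one_pow, one_mul, mul_one] at h
  exact h


end Pool.Agent.VPK.K2
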