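import Pool.Agent.VPK.Defs

set_option autoImplicit false
open MeasureTheory ProbabilityTheory
open scoped ENNReal Matrix

namespace Pool.Agent.VPK.K3

open Pool.Agent.VPK
































theorem beta_pt (n m : ℕ) (hn : 2 ≤ n) (C α C3 α3 : ℝ) (P Q a b : ℝ) (hb : 0 < b)
    (hS : Real.exp α * b * Real.exp (-C * b ^ 2) ≤ P)
    (hS3 : Real.exp α3 * b ^ 3 * Real.exp (-C3 * b ^ 2) ≤ Q) :
    √(n : ℝ) / √(2 * Real.pi) * ((n : ℝ) - 1) * √(Real.pi / 2) ^ n *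
      Real.exp (((n : ℝ) + m - 1) * α + α3) *
      (b ^ (m + 1) * Real.exp (-(((n : ℝ) + m - 1) * C + C3) * b ^ 2)) *
      Real.exp (-(((n : ℝ) + m / 3) / 2) * a ^ 2) ≤
    (P * Real.exp (-(a ^ 2) / 6)) ^ m *
      (√(n : ℝ) / √(2 * Real.pi) * ((n : ℝ) - 1) * Real.exp (-(n * a ^ 2) / 2) *
        √(Real.pi / 2) ^ n * P ^ (n - 1) * Q / b ^ (n + 1)) := by
  obtain ⟨k, rfl⟩ : ∃ k, n = k + 1 := ⟨n - 1, by omega⟩
  have hk : (0 : ℝ) ≤ ((k + 1 : ℕ) : ℝ) - 1 := by push_cast; simp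
  have hP0 : 0 < Real.exp α * b * Real.exp (-C * b ^ 2) := by positivity
  have hQ0 : 0 < Real.exp α3 * b ^ 3 * Real.exp (-C3 * b ^ 2) := by positivity
  have hP : 0 < P := hP0.trans_le hS
  have hQ : 0 < Q := hQ0.trans_le hS3
  have e1 : (P * Real.exp (-(a ^ 2) / 6)) ^ m *
      (√((k + 1 : ℕ) : ℝ) / √(2 * Real.pi) * (((k + 1 : ℕ) : ℝ) - 1) *
        Real.exp (-(((k + 1 : ℕ) : ℝ) * a ^ 2) / 2) *
        √(Real.pi / 2) ^ (k + 1) * P ^ (k + 1 - 1) * Q / b ^ (k + 1 + 1)) =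
      √((k + 1 : ℕ) : ℝ) / √(2 * Real.pi) * (((k + 1 : ℕ) : ℝ) - 1) * √(Real.pi / 2) ^ (k + 1) *
      (Real.exp (-(a ^ 2) / 6) ^ m * Real.exp (-(((k + 1 : ℕ) : ℝ) * a ^ 2) / 2)) *
      (P ^ (m + k) * Q / b ^ (k + 2)) := by
    rw [Nat.add_sub_cancel, pow_add P m k, mul_pow]
    ring
  have e2 : Real.exp (-(a ^ 2) / 6) ^ m * Real.exp (-(((k + 1 : ℕ) : ℝ) * a ^ 2) / 2) =
      Real.exp (-((((k + 1 : ℕ) : ℝ) + m / 3) / 2) * a ^ 2) := by
    rw [← Real.exp_nat_mul, ← Real.exp_add]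
    congr 1
    ring
  have e3 : (Real.exp α * b * Real.exp (-C * b ^ 2)) ^ (m + k) *
      (Real.exp α3 * b ^ 3 * Real.exp (-C3 * b ^ 2)) / b ^ (k + 2) =
      Real.exp ((((k + 1 : ℕ) : ℝ) + m - 1) * α + α3) *
      (b ^ (m + 1) * Real.exp (-((((k + 1 : ℕ) : ℝ) + m - 1) * C + C3) * b ^ 2)) := by
    rw [mul_pow, mul_pow, ← Real.exp_nat_mul, ← Real.exp_nat_mul]
    have f1 : Real.exp ((((k + 1 : ℕ) : ℝ) + m - 1) * α + α3) =
        Real.exp (((m + k : ℕ) : ℝ) * α) * Real.exp α3 := by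
      rw [← Real.exp_add]; congr 1; push_cast; ring
    have f2 : Real.exp (-((((k + 1 : ℕ) : ℝ) + m - 1) * C + C3) * b ^ 2) =
        Real.exp (((m + k : ℕ) : ℝ) * (-C * b ^ 2)) * Real.exp (-C3 * b ^ 2) := by
      rw [← Real.exp_add]; congr 1; push_cast; ring
    rw [f1, f2]
    have f3 : b ^ (m + k) * b ^ 3 = b ^ (m + 1) * b ^ (k + 2) := by
      rw [← pow_add, ← pow_add]; congr 1; ring
    have f4 : b ^ (k + 2) ≠ 0 := by positivity
    rw [div_eq_iff f4]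
    linear_combination (Real.exp (((m + k : ℕ) : ℝ) * α) * Real.exp α3 *
      Real.exp (((m + k : ℕ) : ℝ) * (-C * b ^ 2)) * Real.exp (-C3 * b ^ 2)) * f3
  rw [e1, e2]
  have e4 : (Real.exp α * b * Real.exp (-C * b ^ 2)) ^ (m + k) *
      (Real.exp α3 * b ^ 3 * Real.exp (-C3 * b ^ 2)) / b ^ (k + 2) ≤
      P ^ (m + k) * Q / b ^ (k + 2) := by
    gcongr
  rw [e3] at e4
  have hK : 0 ≤ √((k + 1 : ℕ) : ℝ) / √(2 * Real.pi) * (((k + 1 : ℕ) : ℝ) - 1) *
      √(Real.pi / 2) ^ (k + 1) := by positivity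
  have := mul_le_mul_of_nonneg_left e4 (mul_nonneg hK
    (Real.exp_pos (-((((k + 1 : ℕ) : ℝ) + m / 3) / 2) * a ^ 2)).le)
  refine le_trans (le_of_eq ?_) (this.trans (le_of_eq ?_)) <;> ring

theorem beta_closed
    (GG_lower : ∀ (a b : ℝ), 0 ≤ b → PP b * Real.exp (-(a ^ 2) / 6) ≤ GG a b)
    (dn_lower : ∀ (n : ℕ), 2 ≤ n → ∀ (a b : ℝ), 0 < b →
      √(n : ℝ) / √(2 * Real.pi) * ((n : ℝ) - 1) * Real.exp (-(n * a ^ 2) / 2) * √(Real.pi / 2) ^ n *
      PP b ^ (n - 1) * S3 b / b ^ (n + 1) ≤ dn n a b)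
    (KK_ge : ∀ n : ℕ, 2 ≤ n → ∀ a b : ℝ, 0 < b → ENNReal.ofReal (dn n a b) ≤ KK n a b)
    (n m : ℕ) (hn : 2 ≤ n) (C α C3 α3 : ℝ) (hC : 0 < C) (hC3 : 0 < C3)
    (hS : ∀ x : ℝ, 0 < x → Real.exp α * x * Real.exp (-C * x ^ 2) ≤ PP x)
    (hS3 : ∀ x : ℝ, 0 < x → Real.exp α3 * x ^ 3 * Real.exp (-C3 * x ^ 2) ≤ S3 x) :
    ENNReal.ofReal (Real.exp (Real.log ((n : ℝ) - 1) + Real.log (n / ((n : ℝ) + m / 3)) / 2
      + n / 2 * Real.log (Real.pi / 2) + ((n : ℝ) + m - 1) * α + α3 - Real.log 2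
      + Real.log (Real.Gamma ((m : ℝ) / 2 + 1))
      - ((m : ℝ) / 2 + 1) * Real.log (((n : ℝ) + m - 1) * C + C3))) ≤
    ∫⁻ b in Set.Ioi (0 : ℝ), ∫⁻ a : ℝ, ENNReal.ofReal (GG a b) ^ m * KK n a b := by
  have hn2 : (2 : ℝ) ≤ n := by exact_mod_cast hn
  have hn0 : (0 : ℝ) < n := by linarith
  have hn1 : (0 : ℝ) < (n : ℝ) - 1 := by linarith
  have hm0 : (0 : ℝ) ≤ m := Nat.cast_nonneg m
  set B : ℝ := ((n : ℝ) + m / 3) / 2 with hB
  have hB0 : 0 < B := by positivity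
  set D : ℝ := ((n : ℝ) + m - 1) * C + C3 with hD
  have hD0 : 0 < D := by
    have : 0 ≤ (n : ℝ) + m - 1 := by linarith
    positivity
  set K1 : ℝ := √(n : ℝ) / √(2 * Real.pi) * ((n : ℝ) - 1) * √(Real.pi / 2) ^ n *
      Real.exp (((n : ℝ) + m - 1) * α + α3) with hK1
  have hK10 : 0 ≤ K1 := by positivity
  have hpt : ∀ a b : ℝ, 0 < b → ENNReal.ofReal (K1 * (b ^ (m + 1) * Real.exp (-D * b ^ 2)) *
      Real.exp (-B * a ^ 2)) ≤ ENNReal.ofReal (GG a b) ^ m * KK n a b := by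
    intro a b hb
    have hP : 0 < PP b := lt_of_lt_of_le (by positivity) (hS b hb)
    have h1 : ENNReal.ofReal ((PP b * Real.exp (-(a ^ 2) / 6)) ^ m) ≤
        ENNReal.ofReal (GG a b) ^ m := by
      rw [ENNReal.ofReal_pow (by positivity)]
      exact pow_le_pow_left' (ENNReal.ofReal_le_ofReal (GG_lower a b hb.le)) m
    have h2 := (ENNReal.ofReal_le_ofReal (dn_lower n hn a b hb)).trans (KK_ge n hn a b hb)
    refine le_trans ?_ (mul_le_mul' h1 h2)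
    rw [← ENNReal.ofReal_mul (by positivity)]
    exact ENNReal.ofReal_le_ofReal (beta_pt n m hn C α C3 α3 (PP b) (S3 b) a b hb (hS b hb)
      (hS3 b hb))
  have hgauss : ∀ K : ℝ, 0 ≤ K → ∫⁻ a : ℝ, ENNReal.ofReal (K * Real.exp (-B * a ^ 2)) =
      ENNReal.ofReal (K * √(Real.pi / B)) := by
    intro K hK
    rw [← integral_gaussian B, ← integral_const_mul, ofReal_integral_eq_lintegral_ofReal]
    · exact (integrable_exp_neg_mul_sq hB0).const_mul K
    · exact Filter.Eventually.of_forall fun a => by positivity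
  have hgam : ∫⁻ b in Set.Ioi (0 : ℝ), ENNReal.ofReal ((K1 * √(Real.pi / B)) *
      (b ^ ((m : ℝ) + 1) * Real.exp (-D * b ^ (2 : ℝ)))) = ENNReal.ofReal ((K1 * √(Real.pi / B)) *
      (D ^ (-((m : ℝ) + 1 + 1) / 2) * (1 / 2) * Real.Gamma (((m : ℝ) + 1 + 1) / 2))) := by
    have hq : (-1 : ℝ) < (m : ℝ) + 1 := by linarith
    have h3 := integral_rpow_mul_exp_neg_mul_rpow (p := 2) (q := (m : ℝ) + 1) (b := D)
      (by norm_num) hq hD0
    rw [← h3, ← integral_const_mul, ofReal_integral_eq_lintegral_ofReal]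
    · refine Integrable.const_mul ?_ _
      have := integrableOn_rpow_mul_exp_neg_mul_rpow (p := 2) (s := (m : ℝ) + 1) (b := D)
        hq (by norm_num) hD0
      exact this
    · refine (ae_restrict_iff' measurableSet_Ioi).2 (Filter.Eventually.of_forall fun b hb => ?_)
      have hb0 : (0 : ℝ) < b := hb
      show (0 : ℝ) ≤ _
      positivity
  calc ENNReal.ofReal (Real.exp (Real.log ((n : ℝ) - 1) + Real.log (n / ((n : ℝ) + m / 3)) / 2
      + n / 2 * Real.log (Real.pi / 2) + ((n : ℝ) + m - 1) * α + α3 - Real.log 2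
      + Real.log (Real.Gamma ((m : ℝ) / 2 + 1))
      - ((m : ℝ) / 2 + 1) * Real.log D)) = ENNReal.ofReal ((K1 * √(Real.pi / B)) *
      (D ^ (-((m : ℝ) + 1 + 1) / 2) * (1 / 2) * Real.Gamma (((m : ℝ) + 1 + 1) / 2))) := by
        congr 1
        have hG : 0 < Real.Gamma ((m : ℝ) / 2 + 1) := Real.Gamma_pos_of_pos (by positivity)
        rw [show ((m : ℝ) + 1 + 1) / 2 = (m : ℝ) / 2 + 1 by ring,
          show -((m : ℝ) + 1 + 1) / 2 = -((m : ℝ) / 2 + 1) by ring]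
        rw [show Real.log ((n : ℝ) - 1) + Real.log (n / ((n : ℝ) + m / 3)) / 2
      + n / 2 * Real.log (Real.pi / 2) + ((n : ℝ) + m - 1) * α + α3 - Real.log 2
      + Real.log (Real.Gamma ((m : ℝ) / 2 + 1))
      - ((m : ℝ) / 2 + 1) * Real.log D = Real.log ((n : ℝ) - 1) +
        Real.log (n / ((n : ℝ) + m / 3)) / 2
      + n / 2 * Real.log (Real.pi / 2) + (((n : ℝ) + m - 1) * α + α3) + (- Real.log 2)
      + Real.log (Real.Gamma ((m : ℝ) / 2 + 1))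
      + Real.log D * (-((m : ℝ) / 2 + 1)) by ring]
        rw [Real.exp_add, Real.exp_add, Real.exp_add, Real.exp_add, Real.exp_add, Real.exp_add,
          Real.exp_log hn1, Real.exp_log hG, ← Real.rpow_def_of_pos hD0, Real.exp_neg,
          Real.exp_log (by norm_num : (0 : ℝ) < 2)]
        have g1 : Real.exp (Real.log (n / ((n : ℝ) + m / 3)) / 2) = √(n / ((n : ℝ) + m / 3)) := by
          rw [← Real.log_sqrt (by positivity), Real.exp_log (by positivity)]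
        have g2 : Real.exp ((n : ℝ) / 2 * Real.log (Real.pi / 2)) = √(Real.pi / 2) ^ n := by
          rw [show (n : ℝ) / 2 * Real.log (Real.pi / 2) = n * (Real.log (Real.pi / 2) / 2) by ring,
            ← Real.log_sqrt (by positivity), Real.exp_nat_mul, Real.exp_log (by positivity)]
        have g3 : √(n / ((n : ℝ) + m / 3)) = √(n : ℝ) / √(2 * Real.pi) * √(Real.pi / B) := by
          rw [← Real.sqrt_div hn0.le, ← Real.sqrt_mul (by positivity)]
          congr 1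
          rw [hB]
          field_simp
        rw [g1, g2, g3, hK1]
        ring
    _ = ∫⁻ b in Set.Ioi (0 : ℝ), ENNReal.ofReal ((K1 * √(Real.pi / B)) *
      (b ^ ((m : ℝ) + 1) * Real.exp (-D * b ^ (2 : ℝ)))) := hgam.symm
    _ ≤ _ := by
        refine setLIntegral_mono' measurableSet_Ioi fun b hb => ?_
        have hb0 : (0 : ℝ) < b := hb
        have h4 : b ^ ((m : ℝ) + 1) = b ^ (m + 1) := by
          rw [← Real.rpow_natCast b (m + 1)]; push_cast; rfl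
        have h5 : b ^ (2 : ℝ) = b ^ 2 := by
          rw [← Real.rpow_natCast b 2]; norm_num
        rw [h4, h5]
        have h6 := hgauss (K1 * (b ^ (m + 1) * Real.exp (-D * b ^ 2))) (by positivity)
        rw [show K1 * √(Real.pi / B) * (b ^ (m + 1) * Real.exp (-D * b ^ 2)) =
          K1 * (b ^ (m + 1) * Real.exp (-D * b ^ 2)) * √(Real.pi / B) by ring, ← h6]
        exact lintegral_mono fun a => hpt a b hb0


end Pool.Agent.VPK.K3
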