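import Pool.Agent.VPK.Defs

set_option autoImplicit false
open MeasureTheory ProbabilityTheory
open scoped ENNReal Matrix

namespace Pool.Agent.VPK.K4

open Pool.Agent.VPK
































theorem beta_t_int (n : ℕ) (hn : 2 ≤ n) (t : ℝ) (ht : 0 < t) :
    ∫⁻ b in Set.Ioi t, ENNReal.ofReal ((b - t) / b ^ (n + 1)) =
      ENNReal.ofReal (1 / (t ^ (n - 1) * (n * (n - 1)))) := by
  have hn' : (2 : ℝ) ≤ n := by exact_mod_cast hn
  have i1 : IntegrableOn (fun b : ℝ => b ^ (-(n : ℝ))) (Set.Ioi t) :=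
    integrableOn_Ioi_rpow_of_lt (by linarith) ht
  have i2 : IntegrableOn (fun b : ℝ => b ^ (-(n : ℝ) - 1)) (Set.Ioi t) :=
    integrableOn_Ioi_rpow_of_lt (by linarith) ht
  have e1 := integral_Ioi_rpow_of_lt (a := -(n : ℝ)) (by linarith) ht
  have e2 := integral_Ioi_rpow_of_lt (a := -(n : ℝ) - 1) (by linarith) ht
  have heq : ∀ b ∈ Set.Ioi t, (b - t) / b ^ (n + 1) = b ^ (-(n : ℝ)) - t * b ^ (-(n : ℝ) - 1) := by
    intro b hb
    have hb0 : 0 < b := ht.trans hb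
    rw [Real.rpow_sub_one hb0.ne', Real.rpow_neg hb0.le, Real.rpow_natCast, pow_succ]
    field_simp
  have hint : IntegrableOn (fun b : ℝ => b ^ (-(n : ℝ)) - t * b ^ (-(n : ℝ) - 1)) (Set.Ioi t) :=
    i1.sub (i2.const_mul t)
  have h1 : ∫⁻ b in Set.Ioi t, ENNReal.ofReal ((b - t) / b ^ (n + 1)) =
      ∫⁻ b in Set.Ioi t, ENNReal.ofReal (b ^ (-(n : ℝ)) - t * b ^ (-(n : ℝ) - 1)) := by
    apply setLIntegral_congr_fun measurableSet_Ioi
    intro b hb
    show ENNReal.ofReal ((b - t) / b ^ (n + 1)) = _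
    rw [heq b hb]
  rw [h1, ← ofReal_integral_eq_lintegral_ofReal hint]
  · congr 1
    rw [integral_sub i1 (i2.const_mul t), integral_const_mul, e1, e2]
    have h2 : -(n : ℝ) - 1 + 1 = -(n : ℝ) := by ring
    rw [h2, Real.rpow_add_one ht.ne', Real.rpow_neg ht.le, Real.rpow_natCast]
    obtain ⟨k, rfl⟩ : ∃ k, n = k + 1 := ⟨n - 1, by omega⟩
    rw [Nat.add_sub_cancel, pow_succ]
    have hk : (1 : ℝ) ≤ k := by exact_mod_cast (by omega : 1 ≤ k)
    push_cast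
    have h3 : -((k : ℝ) + 1) + 1 ≠ 0 := by linarith
    have h4 : -((k : ℝ) + 1) ≠ 0 := by linarith
    have h5 : (k : ℝ) + 1 - 1 ≠ 0 := by linarith
    have h6 : (k : ℝ) + 1 ≠ 0 := by linarith
    have h7 : (k : ℝ) ≠ 0 := by linarith
    have h8 : t ^ k ≠ 0 := (pow_pos ht k).ne'
    have h9 : -((k : ℝ) + 1) + 1 = -k := by ring
    have h10 : (k : ℝ) + 1 - 1 = k := by ring
    rw [h9, h10]
    field_simp
    ring
  · refine (ae_restrict_iff' measurableSet_Ioi).2 (Filter.Eventually.of_forall fun b hb => ?_)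
    show 0 ≤ b ^ (-(n : ℝ)) - t * b ^ (-(n : ℝ) - 1)
    rw [← heq b hb]
    have hb0 : 0 < b := ht.trans hb
    have hb' : t < b := hb
    exact div_nonneg (by linarith) (by positivity)

theorem beta_t
    (GG_lower' : ∀ (a b t : ℝ), 0 ≤ t → |a| ≤ b - t → PP t ≤ GG a b)
    (dn_lower' : ∀ (n : ℕ), 2 ≤ n → ∀ (a b t : ℝ), 0 < t → |a| ≤ b - t →
      √(n : ℝ) / √(2 * Real.pi) * ((n : ℝ) - 1) * √(Real.pi / 2) ^ n *
      PP t ^ (n - 1) * S3 t / b ^ (n + 1) ≤ dn n a b)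
    (KK_ge : ∀ n : ℕ, 2 ≤ n → ∀ a b : ℝ, 0 < b → ENNReal.ofReal (dn n a b) ≤ KK n a b)
    (n m : ℕ) (hn : 2 ≤ n) (t : ℝ) (ht : 0 < t) :
    ENNReal.ofReal ((√(Real.pi / 2) / t) ^ (n - 1) / √(n : ℝ) * PP t ^ (n + m - 1) * S3 t) ≤
    ∫⁻ b in Set.Ioi (0 : ℝ), ∫⁻ a : ℝ, ENNReal.ofReal (GG a b) ^ m * KK n a b := by
  have hpi := Real.pi_pos
  have hn' : (2 : ℝ) ≤ n := by exact_mod_cast hn
  have hPP : 0 ≤ PP t := by
    unfold PP
    apply mul_nonneg zero_le_two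
    apply intervalIntegral.integral_nonneg ht.le
    intro y _
    unfold ph
    positivity
  have hq : 0 < √(Real.pi / 2) := Real.sqrt_pos.2 (by positivity)
  have h2q : √(2 * Real.pi) = 2 * √(Real.pi / 2) := by
    have h1 : 2 * Real.pi = 2 ^ 2 * (Real.pi / 2) := by ring
    rw [h1, Real.sqrt_mul (by norm_num), Real.sqrt_sq (by norm_num)]
  have hsn : 0 < √(n : ℝ) := Real.sqrt_pos.2 (by linarith)
  rcases le_or_gt (S3 t) 0 with hS | hS
  · rw [ENNReal.ofReal_of_nonpos]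
    · exact zero_le
    · apply mul_nonpos_of_nonneg_of_nonpos _ hS
      positivity
  obtain ⟨c, hc⟩ : ∃ c, c = √(n : ℝ) / √(2 * Real.pi) * ((n : ℝ) - 1) * √(Real.pi / 2) ^ n := ⟨_, rfl⟩
  have hc0 : 0 < c := by
    rw [hc]
    have : 0 < (n : ℝ) - 1 := by linarith
    positivity
  obtain ⟨D, hD⟩ : ∃ D, D = c * (PP t ^ (n + m - 1) * S3 t) := ⟨_, rfl⟩
  have hD0 : 0 ≤ D := by rw [hD]; positivity
  have hkey : (√(Real.pi / 2) / t) ^ (n - 1) / √(n : ℝ) * PP t ^ (n + m - 1) * S3 t =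
      2 * D * (1 / (t ^ (n - 1) * (n * (n - 1)))) := by
    rw [hD, hc, h2q, div_pow]
    have hnn : (n : ℝ) = √(n : ℝ) * √(n : ℝ) := (Real.mul_self_sqrt (by linarith)).symm
    have hn1 : (n : ℝ) - 1 ≠ 0 := by linarith
    have hqn : √(Real.pi / 2) ^ n = √(Real.pi / 2) ^ (n - 1) * √(Real.pi / 2) := by
      rw [← pow_succ]; congr 1; omega
    have htn : t ^ (n - 1) ≠ 0 := (pow_pos ht _).ne'
    have hn0 : (n : ℝ) ≠ 0 := by linarith
    rw [hqn]
    have h3 : 2 * (√(n : ℝ) / (2 * √(Real.pi / 2)) * ((n : ℝ) - 1) *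
        (√(Real.pi / 2) ^ (n - 1) * √(Real.pi / 2)) * (PP t ^ (n + m - 1) * S3 t)) *
        (1 / (t ^ (n - 1) * (n * (n - 1)))) =
        (√(n : ℝ) / n) * (√(Real.pi / 2) ^ (n - 1) / t ^ (n - 1) * (PP t ^ (n + m - 1) * S3 t)) := by
      field_simp
    have h4 : √(n : ℝ) / n = 1 / √(n : ℝ) := by
      rw [div_eq_div_iff hn0 hsn.ne', one_mul, ← hnn]
    rw [h3, h4]
    ring
  rw [hkey, ENNReal.ofReal_mul (by positivity), ← beta_t_int n hn t ht]
  have hmeas : Measurable fun b : ℝ => ENNReal.ofReal ((b - t) / b ^ (n + 1)) := by fun_prop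
  rw [← lintegral_const_mul _ hmeas]
  refine le_trans ?_ (lintegral_mono_set (Set.Ioi_subset_Ioi ht.le))
  apply setLIntegral_mono' measurableSet_Ioi
  intro b hb
  have hb' : t < b := hb
  have hb0 : 0 < b := ht.trans hb
  have h1 : ENNReal.ofReal (2 * D) * ENNReal.ofReal ((b - t) / b ^ (n + 1)) =
      ENNReal.ofReal (D / b ^ (n + 1)) * volume (Set.Icc (-(b - t)) (b - t)) := by
    rw [Real.volume_Icc, ← ENNReal.ofReal_mul (by positivity), ← ENNReal.ofReal_mul (by positivity)]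
    congr 1
    ring
  rw [h1, ← setLIntegral_const]
  refine le_trans ?_ (setLIntegral_le_lintegral (Set.Icc (-(b - t)) (b - t)) _)
  apply setLIntegral_mono' measurableSet_Icc
  intro a ha
  have ha' : |a| ≤ b - t := abs_le.2 ha
  have h2 : D / b ^ (n + 1) = PP t ^ m * (√(n : ℝ) / √(2 * Real.pi) * ((n : ℝ) - 1) *
      √(Real.pi / 2) ^ n * PP t ^ (n - 1) * S3 t / b ^ (n + 1)) := by
    rw [hD, hc]
    have h3 : n + m - 1 = m + (n - 1) := by omega
    rw [h3, pow_add]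
    ring
  rw [h2, ENNReal.ofReal_mul (by positivity), ENNReal.ofReal_pow hPP]
  apply mul_le_mul'
  · exact pow_le_pow_left' (ENNReal.ofReal_le_ofReal (GG_lower' a b t ht.le ha')) m
  · exact (ENNReal.ofReal_le_ofReal (dn_lower' n hn a b t ht ha')).trans (KK_ge n hn a b hb0)



end Pool.Agent.VPK.K4
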