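import Pool.Agent.VPK.Defs

set_option autoImplicit false
open MeasureTheory ProbabilityTheory
open scoped ENNReal Matrix

namespace Pool.Agent.VPK.K5

open Pool.Agent.VPK
































theorem ph_eq9162 (x : ℝ) : gaussianPDFReal 0 1 x = ph x := by
  unfold gaussianPDFReal ph
  simp only [NNReal.coe_one, mul_one, sub_zero]
  ring

theorem SS_eq9162 (x : ℝ) (hx : 0 ≤ x) : SS x = ENNReal.ofReal (PP x) := by
  unfold SS
  have h : {t : ℝ | |t| < x} = Set.Ioo (-x) x := by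
    ext t
    simp only [Set.mem_ofPred_eq, Set.mem_Ioo, abs_lt]
  have hc : Continuous ph := by
    unfold ph
    fun_prop
  have hev : ∀ t, ph (-t) = ph t := fun t => by unfold ph; rw [neg_sq]
  rw [h, gaussianReal_apply_eq_integral 0 one_ne_zero, ← integral_Ioc_eq_integral_Ioo,
    ← intervalIntegral.integral_of_le (by linarith)]
  simp only [ph_eq9162]
  have h1 : ∫ t in (-x)..x, ph t = (∫ t in (-x)..0, ph t) + ∫ t in (0 : ℝ)..x, ph t :=
    (intervalIntegral.integral_add_adjacent_intervals (hc.intervalIntegrable _ _)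
      (hc.intervalIntegrable _ _)).symm
  have h2 : ∫ t in (-x)..0, ph t = ∫ t in (0 : ℝ)..x, ph t := by
    have h3 := intervalIntegral.integral_comp_neg (f := ph) (a := 0) (b := x)
    simp only [hev, neg_zero] at h3
    exact h3.symm
  rw [h1, h2]
  congr 1
  unfold PP
  ring

theorem J1_closed (n m : ℕ) (hn : 1 ≤ n) (C α : ℝ) (hC : 0 < C)
    (hS : ∀ x : ℝ, 0 < x → Real.exp α * x * Real.exp (-C * x ^ 2) ≤ PP x) :
    ENNReal.ofReal (Real.exp (m * α - (m : ℝ) / 2 * Real.log (n / 2)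
      - ((m : ℝ) + 1) / 2 * Real.log (1 + 2 * C * m / n)
      + Real.log (Real.Gamma (((m : ℝ) + 1) / 2)) - Real.log Real.pi / 2)) ≤ J1 n m := by
  have hn0 : (0:ℝ) < n := by exact_mod_cast hn
  have hκ0 : 0 < 1 + 2 * C * m / n := by positivity
  have SS_lower : ∀ x : ℝ, 0 ≤ x →
      ENNReal.ofReal (Real.exp α * x * Real.exp (-C * x ^ 2)) ≤ SS x := by
    intro x hx
    rw [SS_eq9162 x hx]
    rcases hx.eq_or_lt with h | h
    · rw [← h]; simp
    · exact ENNReal.ofReal_le_ofReal (hS x h)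
  have h1 : ∀ x : ℝ, ENNReal.ofReal ((Real.exp α / √(n : ℝ)) ^ m * |x| ^ m *
      Real.exp (-(m : ℝ) * C * x ^ 2 / n)) ≤ SS (|x| / √(n:ℝ)) ^ m := by
    intro x
    have h := SS_lower (|x| / √(n:ℝ)) (by positivity)
    calc ENNReal.ofReal ((Real.exp α / √(n : ℝ)) ^ m * |x| ^ m *
      Real.exp (-(m : ℝ) * C * x ^ 2 / n))
        = ENNReal.ofReal ((Real.exp α * (|x| / √(n:ℝ)) *
            Real.exp (-C * (|x| / √(n:ℝ)) ^ 2)) ^ m) := by
          congr 1
          rw [mul_pow, mul_pow, ← Real.exp_nat_mul (-C * (|x| / √(n:ℝ)) ^ 2), div_pow, div_pow,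
            div_pow, Real.sq_sqrt hn0.le, sq_abs]
          have e : -(m : ℝ) * C * x ^ 2 / n = (m : ℝ) * (-C * (x ^ 2 / n)) := by
            field_simp
          rw [e]
          ring
      _ = (ENNReal.ofReal (Real.exp α * (|x| / √(n:ℝ)) *
            Real.exp (-C * (|x| / √(n:ℝ)) ^ 2))) ^ m := ENNReal.ofReal_pow (by positivity) _
      _ ≤ _ := pow_le_pow_left' h m
  have h2 : ∫⁻ x, ENNReal.ofReal ((Real.exp α / √(n : ℝ)) ^ m * |x| ^ m *
      Real.exp (-(m : ℝ) * C * x ^ 2 / n)) ∂(gaussianReal 0 1) ≤ J1 n m := by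
    unfold J1
    exact lintegral_mono h1
  refine le_trans (le_of_eq ?_) h2
  have hmeas : Measurable (fun x : ℝ => ENNReal.ofReal ((Real.exp α / √(n : ℝ)) ^ m * |x| ^ m *
      Real.exp (-(m : ℝ) * C * x ^ 2 / n))) := by fun_prop
  rw [gaussianReal_of_var_ne_zero 0 one_ne_zero,
    lintegral_withDensity_eq_lintegral_mul _ (measurable_gaussianPDF 0 1) hmeas]
  obtain ⟨b, hb⟩ : ∃ b, b = (1 + 2 * C * m / n) / 2 := ⟨_, rfl⟩
  have hb0 : 0 < b := by rw [hb]; positivity
  have h3 : ∀ x : ℝ, (gaussianPDF 0 1 * fun x : ℝ => ENNReal.ofReal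
      ((Real.exp α / √(n : ℝ)) ^ m * |x| ^ m * Real.exp (-(m : ℝ) * C * x ^ 2 / n))) x =
      ENNReal.ofReal (((√(2 * Real.pi))⁻¹ * (Real.exp α / √(n : ℝ)) ^ m) *
        (|x| ^ (m : ℝ) * Real.exp (-b * |x| ^ (2 : ℝ)))) := by
    intro x
    simp only [Pi.mul_apply, gaussianPDF]
    rw [← ENNReal.ofReal_mul (gaussianPDFReal_nonneg 0 1 x)]
    congr 1
    rw [gaussianPDFReal]
    simp only [NNReal.coe_one, mul_one, sub_zero, Real.rpow_natCast, Real.rpow_two, sq_abs]
    have e : Real.exp (-b * x ^ 2) = Real.exp (-x ^ 2 / 2) *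
        Real.exp (-(m : ℝ) * C * x ^ 2 / n) := by
      rw [← Real.exp_add]
      congr 1
      rw [hb]
      field_simp
      ring
    rw [e]
    ring
  simp_rw [h3]
  have hint : Integrable (fun x : ℝ => ((√(2 * Real.pi))⁻¹ * (Real.exp α / √(n : ℝ)) ^ m) *
        (|x| ^ (m : ℝ) * Real.exp (-b * |x| ^ (2 : ℝ)))) := by
    apply Integrable.const_mul
    have h := (integrable_rpow_mul_exp_neg_mul_sq hb0 (s := (m : ℝ))
      (by have : (0:ℝ) ≤ m := by positivity
          linarith)).norm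
    refine h.congr (Filter.Eventually.of_forall fun x => ?_)
    simp only [Real.rpow_natCast, Real.rpow_two, sq_abs, norm_mul, norm_pow, Real.norm_eq_abs,
      Real.abs_exp]
  rw [← ofReal_integral_eq_lintegral_ofReal hint (Filter.Eventually.of_forall fun x => by positivity)]
  congr 1
  rw [integral_const_mul]
  have h4 : ∫ x : ℝ, |x| ^ (m : ℝ) * Real.exp (-b * |x| ^ (2 : ℝ)) =
      2 * (b ^ (-((m : ℝ) + 1) / 2) * (1 / 2) * Real.Gamma (((m : ℝ) + 1) / 2)) := by
    rw [integral_comp_abs (f := fun x : ℝ => x ^ (m : ℝ) * Real.exp (-b * x ^ (2 : ℝ)))]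
    rw [integral_rpow_mul_exp_neg_mul_rpow (by norm_num) (by
      have : (0:ℝ) ≤ m := by positivity
      linarith) hb0]
  rw [h4]
  have hΓ : 0 < Real.Gamma (((m : ℝ) + 1) / 2) := Real.Gamma_pos_of_pos (by positivity)
  have e1 : b ^ (-((m : ℝ) + 1) / 2)
      = Real.exp ((Real.log (1 + 2 * C * m / n) - Real.log 2) * (-((m : ℝ) + 1) / 2)) := by
    rw [Real.rpow_def_of_pos hb0, hb, Real.log_div hκ0.ne' (by norm_num)]
  have e2 : (√(2 * Real.pi))⁻¹ = Real.exp (-((Real.log 2 + Real.log Real.pi) / 2)) := by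
    rw [Real.exp_neg, ← Real.log_mul (by norm_num) Real.pi_pos.ne', ← Real.log_sqrt (by positivity),
      Real.exp_log (by positivity)]
  have e3 : (Real.exp α / √(n : ℝ)) ^ m = Real.exp (m * (α - Real.log n / 2)) := by
    rw [Real.exp_nat_mul, Real.exp_sub, ← Real.log_sqrt hn0.le, Real.exp_log (by positivity)]
  have e4 : Real.Gamma (((m : ℝ) + 1) / 2) = Real.exp (Real.log (Real.Gamma (((m : ℝ) + 1) / 2))) :=
    (Real.exp_log hΓ).symm
  have e5 : Real.log ((n : ℝ) / 2) = Real.log n - Real.log 2 :=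
    Real.log_div hn0.ne' (by norm_num)
  rw [e1, e2, e3, e5]
  have e6 : Real.exp (-((Real.log 2 + Real.log Real.pi) / 2)) *
      Real.exp (m * (α - Real.log n / 2)) *
      (2 * (Real.exp ((Real.log (1 + 2 * C * m / n) - Real.log 2) * (-((m : ℝ) + 1) / 2)) *
        (1 / 2) * Real.Gamma (((m : ℝ) + 1) / 2)))
      = Real.exp (-((Real.log 2 + Real.log Real.pi) / 2)) *
      Real.exp (m * (α - Real.log n / 2)) *
      Real.exp ((Real.log (1 + 2 * C * m / n) - Real.log 2) * (-((m : ℝ) + 1) / 2)) *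
      Real.exp (Real.log (Real.Gamma (((m : ℝ) + 1) / 2))) := by
    rw [← e4]; ring
  rw [e6, ← Real.exp_add, ← Real.exp_add, ← Real.exp_add]
  congr 1
  ring


end Pool.Agent.VPK.K5
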