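import Pool.Agent.VPK.Defs

set_option autoImplicit false
open MeasureTheory ProbabilityTheory
open scoped ENNReal Matrix

namespace Pool.Agent.VPK.K6a

open Pool.Agent.VPK
































theorem ph_pos_9163 (y : ℝ) : 0 < ph y := by
  unfold ph
  positivity

theorem ph_cont_9163 : Continuous ph := by
  unfold ph
  fun_prop

theorem ph_neg_9163 (y : ℝ) : ph (-y) = ph y := by
  unfold ph
  rw [neg_sq]

theorem ph_deriv_9163 (y : ℝ) : HasDerivAt ph (-y * ph y) y := by
  unfold ph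
  have h1 : HasDerivAt (fun y : ℝ => -y ^ 2 / 2) (-y) y := by
    have h := ((hasDerivAt_pow 2 y).neg).div_const 2
    exact h.congr_deriv (by norm_num; ring)
  have h2 := (h1.exp).div_const (√(2 * Real.pi))
  exact h2.congr_deriv (by ring)

theorem PP_deriv_9163 (y : ℝ) : HasDerivAt PP (2 * ph y) y := by
  have h := (ph_cont_9163.integral_hasStrictDerivAt 0 y).hasDerivAt.const_mul 2
  exact h

theorem II_deriv_9163 (y : ℝ) : HasDerivAt II (PP y) y := by
  have h1 := (hasDerivAt_id y).mul (PP_deriv_9163 y)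
  have h2 := (ph_deriv_9163 y).const_mul 2
  have h3 := h1.add h2
  exact h3.congr_deriv (by simp only [id_eq]; ring)

theorem PP_odd_9163 (y : ℝ) : PP (-y) = - PP y := by
  unfold PP
  have h1 : ∫ t in (0 : ℝ)..y, ph (-t) = ∫ t in (-y)..(-0 : ℝ), ph t :=
    intervalIntegral.integral_comp_neg _
  have h2 : ∫ t in (0 : ℝ)..y, ph (-t) = ∫ t in (0 : ℝ)..y, ph t := by
    simp_rw [ph_neg_9163]
  rw [h2, neg_zero] at h1
  rw [h1, intervalIntegral.integral_symm]
  ring

theorem PP_tendsto_9163 : Filter.Tendsto PP Filter.atTop (nhds 1) := by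
  have hint : Integrable ph := by
    have h := (integrable_exp_neg_mul_sq (show (0 : ℝ) < 1 / 2 by norm_num)).div_const
      (√(2 * Real.pi))
    refine h.congr (Filter.Eventually.of_forall fun x => ?_)
    show Real.exp (-(1 / 2) * x ^ 2) / √(2 * Real.pi) = ph x
    unfold ph
    congr 2
    ring
  have h1 : ∫ x in Set.Ioi (0 : ℝ), ph x = 1 / 2 := by
    have h2 := integral_gaussian_Ioi (1 / 2)
    have h3 : ∫ x in Set.Ioi (0 : ℝ), ph x =
        (∫ x in Set.Ioi (0 : ℝ), Real.exp (-(1 / 2) * x ^ 2)) / √(2 * Real.pi) := by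
      rw [← integral_div]
      congr 1
      ext x
      unfold ph
      congr 2
      ring
    rw [h3, h2]
    have h4 : Real.pi / (1 / 2) = 2 * Real.pi := by ring
    rw [h4]
    have h5 : √(2 * Real.pi) ≠ 0 := by positivity
    field_simp
  have h6 := intervalIntegral_tendsto_integral_Ioi 0 hint.integrableOn Filter.tendsto_id
  rw [h1] at h6
  have h7 := h6.const_mul 2
  have h8 : (2 : ℝ) * (1 / 2) = 1 := by norm_num
  rw [h8] at h7
  exact h7

theorem PP_strictMono_9163 : StrictMono PP := by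
  apply strictMono_of_deriv_pos
  intro x
  rw [(PP_deriv_9163 x).deriv]
  have := ph_pos_9163 x
  positivity

theorem PP_lt_one_9163 (y : ℝ) : PP y < 1 :=
  lt_of_lt_of_le (PP_strictMono_9163 (lt_add_one y))
    (PP_strictMono_9163.monotone.ge_of_tendsto PP_tendsto_9163 (y + 1))

theorem PP_zero_9163 : PP 0 = 0 := by
  unfold PP
  simp

theorem PP_cont_9163 : Continuous PP :=
  continuous_iff_continuousAt.mpr fun x => (PP_deriv_9163 x).continuousAt


theorem mills_9163 (x : ℝ) (hx : 0 ≤ x) :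
    1 - PP x ≤ 2 * ph x * (4 / (3 * x + √(x ^ 2 + 8))) := by
  have hs : ∀ t : ℝ, 0 < √(t ^ 2 + 8) := fun t => Real.sqrt_pos.mpr (by positivity)
  have hs2 : ∀ t : ℝ, √(t ^ 2 + 8) ^ 2 = t ^ 2 + 8 := fun t => Real.sq_sqrt (by positivity)
  have hq : ∀ t : ℝ, 0 ≤ t → 0 < 3 * t + √(t ^ 2 + 8) := fun t ht => by
    have := hs t; linarith
  have hder : ∀ t : ℝ, 0 ≤ t →
      HasDerivAt (fun t => 2 * ph t * (4 / (3 * t + √(t ^ 2 + 8))) - (1 - PP t))
        (2 * ph t * (1 - 4 * t / (3 * t + √(t ^ 2 + 8))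
          - 4 * (3 + t / √(t ^ 2 + 8)) / (3 * t + √(t ^ 2 + 8)) ^ 2)) t := by
    intro t ht
    have h1 : HasDerivAt (fun t : ℝ => t ^ 2 + 8) (2 * t) t := by
      have := (hasDerivAt_pow 2 t).add_const 8
      exact this.congr_deriv (by norm_num)
    have h2 : HasDerivAt (fun t : ℝ => √(t ^ 2 + 8)) (t / √(t ^ 2 + 8)) t := by
      have := h1.sqrt (by positivity)
      refine this.congr_deriv ?_
      have := (hs t).ne'
      field_simp
    have h3 : HasDerivAt (fun t : ℝ => 3 * t + √(t ^ 2 + 8)) (3 + t / √(t ^ 2 + 8)) t := by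
      have := ((hasDerivAt_id t).const_mul 3).add h2
      exact this.congr_deriv (by ring)
    have h4 : HasDerivAt (fun t : ℝ => 4 / (3 * t + √(t ^ 2 + 8)))
        (-(4 * (3 + t / √(t ^ 2 + 8))) / (3 * t + √(t ^ 2 + 8)) ^ 2) t := by
      have := (hasDerivAt_const t (4 : ℝ)).div h3 (hq t ht).ne'
      exact this.congr_deriv (by ring)
    have h5 := (((ph_deriv_9163 t).const_mul 2).mul h4).sub ((PP_deriv_9163 t).const_sub 1)
    refine h5.congr_deriv ?_
    have := (hq t ht).ne'
    have := (hs t).ne'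
    field_simp
    ring
  have hanti : AntitoneOn (fun t => 2 * ph t * (4 / (3 * t + √(t ^ 2 + 8))) - (1 - PP t))
      (Set.Ici 0) := by
    apply antitoneOn_of_deriv_nonpos (convex_Ici 0)
    · intro t ht
      exact (hder t ht).continuousAt.continuousWithinAt
    · intro t ht
      rw [interior_Ici] at ht
      exact (hder t (le_of_lt ht)).differentiableAt.differentiableWithinAt
    · intro t ht
      rw [interior_Ici] at ht
      have ht0 : 0 ≤ t := le_of_lt ht
      rw [(hder t ht0).deriv]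
      apply mul_nonpos_of_nonneg_of_nonpos
      · have := ph_pos_9163 t; positivity
      · have e1 := hs t
        have e2 := hs2 t
        have e3 := hq t ht0
        set s := √(t ^ 2 + 8) with hsdef
        have e4 : 1 - 4 * t / (3 * t + s) - 4 * (3 + t / s) / (3 * t + s) ^ 2
            = (s * (3 * t + s) ^ 2 - 4 * t * (3 * t + s) * s - 4 * (3 * s + t))
              / (s * (3 * t + s) ^ 2) := by
          field_simp
        rw [e4]
        apply div_nonpos_of_nonpos_of_nonneg _ (by positivity)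
        have e5 : 2 * t ^ 3 + 12 * t ≤ s * (2 * t ^ 2 + 4) := by
          apply le_of_sq_le_sq _ (by positivity)
          rw [mul_pow, e2]
          nlinarith
        nlinarith
  have hlim : Filter.Tendsto (fun t => -(1 - PP t)) Filter.atTop (nhds (-(1 - 1))) :=
    (PP_tendsto_9163.const_sub 1).neg
  have h0 : (-(1 - 1) : ℝ) ≤ 2 * ph x * (4 / (3 * x + √(x ^ 2 + 8))) - (1 - PP x) := by
    refine le_of_tendsto hlim ?_
    filter_upwards [Filter.eventually_ge_atTop x] with t ht
    have h1 := hanti (show x ∈ Set.Ici (0 : ℝ) from hx)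
      (show t ∈ Set.Ici (0 : ℝ) from le_trans hx ht) ht
    have h2 : 0 ≤ 2 * ph t * (4 / (3 * t + √(t ^ 2 + 8))) := by
      have := ph_pos_9163 t
      have := hq t (le_trans hx ht)
      positivity
    have h3 : 2 * ph t * (4 / (3 * t + √(t ^ 2 + 8))) - (1 - PP t)
      ≤ 2 * ph x * (4 / (3 * x + √(x ^ 2 + 8))) - (1 - PP x) := h1
    linarith
  linarith

theorem mills (x : ℝ) (hx : 0 ≤ x) :
    (3 * x + √(x ^ 2 + 8)) / 4 * √(Real.pi / 2) * (1 - PP x) ≤ Real.exp (-(x ^ 2) / 2) := by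
  have h := mills_9163 x hx
  have hq : 0 < 3 * x + √(x ^ 2 + 8) := by
    have : 0 < √(x ^ 2 + 8) := Real.sqrt_pos.mpr (by positivity)
    linarith
  have h1 : (3 * x + √(x ^ 2 + 8)) / 4 * √(Real.pi / 2) * (1 - PP x)
      ≤ (3 * x + √(x ^ 2 + 8)) / 4 * √(Real.pi / 2) * (2 * ph x * (4 / (3 * x + √(x ^ 2 + 8)))) :=
    mul_le_mul_of_nonneg_left h (by positivity)
  refine h1.trans (le_of_eq ?_)
  have h2 : √(2 * Real.pi) = 2 * √(Real.pi / 2) := by
    have : 2 * Real.pi = 2 ^ 2 * (Real.pi / 2) := by ring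
    rw [this, Real.sqrt_mul (by positivity), Real.sqrt_sq (by norm_num)]
  have h3 : √(Real.pi / 2) ≠ 0 := by positivity
  unfold ph
  rw [h2]
  field_simp

theorem PP_props : PP 0 = 0 ∧ Continuous PP ∧ StrictMono PP ∧ (∀ x, PP x < 1) ∧
    Filter.Tendsto PP Filter.atTop (nhds 1) ∧ (∀ x, HasDerivAt PP (2 * ph x) x) :=
  ⟨PP_zero_9163, PP_cont_9163, PP_strictMono_9163, PP_lt_one_9163, PP_tendsto_9163, PP_deriv_9163⟩


end Pool.Agent.VPK.K6a
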