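import Pool.Agent.VPK.Defs

set_option autoImplicit false
open MeasureTheory ProbabilityTheory
open scoped ENNReal Matrix

namespace Pool.Agent.VPK.K6b

open Pool.Agent.VPK
































section aux9164

open Set Filter Topology

private noncomputable def Kc : ℝ := √(Real.pi / 2)

private lemma Kc_pos : 0 < Kc := Real.sqrt_pos.2 (by positivity)

private lemma sqrt_two_pi : √(2 * Real.pi) = 2 * Kc := by
  have h : 2 * Real.pi = 2 ^ 2 * (Real.pi / 2) := by ring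
  rw [h, Real.sqrt_mul (by norm_num), Real.sqrt_sq (by norm_num)]
  rfl

private lemma two_ph (h : ℝ) : 2 * ph h = Real.exp (-h ^ 2 / 2) / Kc := by
  rw [ph, sqrt_two_pi]
  have := Kc_pos
  field_simp

private lemma exp_eq (h : ℝ) : Real.exp (-h ^ 2 / 2) = Kc * (2 * ph h) := by
  rw [two_ph]
  have := Kc_pos
  field_simp

private lemma ph_pos (h : ℝ) : 0 < 2 * ph h := by
  rw [two_ph]
  exact div_pos (Real.exp_pos _) Kc_pos

private lemma ph_cont : Continuous (fun h => 2 * ph h) := by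
  have : (fun h => 2 * ph h) = fun h => Real.exp (-h ^ 2 / 2) / Kc := funext two_ph
  rw [this]
  fun_prop

private lemma gauss_int : Integrable (fun h : ℝ => Real.exp (-h ^ 2 / 2)) := by
  have h := integrable_exp_neg_mul_sq (b := 1 / 2) (by norm_num)
  refine h.congr (Eventually.of_forall fun x => ?_)
  show Real.exp _ = Real.exp _
  congr 1
  ring

private lemma ph_int : Integrable (fun h : ℝ => 2 * ph h) := by
  have : (fun h => 2 * ph h) = fun h => Real.exp (-h ^ 2 / 2) / Kc := funext two_ph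
  rw [this]
  exact gauss_int.div_const _

private structure PPp : Prop where
  z : PP 0 = 0
  c : Continuous PP
  m : StrictMono PP
  l : ∀ x, PP x < 1
  t : Filter.Tendsto PP Filter.atTop (nhds 1)
  d : ∀ x, HasDerivAt PP (2 * ph x) x

private lemma PPp.nn (P : PPp) {h : ℝ} (hh : 0 ≤ h) : 0 ≤ PP h := by
  rw [← P.z]; exact P.m.monotone hh

private lemma w_int (P : PPp) (m N : ℕ) :
    IntegrableOn (fun h => PP h ^ m * (1 - PP h) ^ N * (2 * ph h)) (Ioi 0) := by
  refine Integrable.mono' ph_int.integrableOn ?_ ?_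
  · exact (((P.c.pow m).mul ((continuous_const.sub P.c).pow N)).mul ph_cont).aestronglyMeasurable
  · refine (ae_restrict_iff' measurableSet_Ioi).2 (Eventually.of_forall fun h hh => ?_)
    have h0 : 0 ≤ PP h := P.nn (le_of_lt hh)
    have h1 : 0 ≤ 1 - PP h := by linarith [P.l h]
    have h2 := ph_pos h
    rw [Real.norm_eq_abs, abs_of_nonneg (by positivity)]
    have h3 : PP h ^ m ≤ 1 := pow_le_one₀ h0 (P.l h).le
    have h4 : (1 - PP h) ^ N ≤ 1 := pow_le_one₀ h1 (by linarith)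
    have h5 : PP h ^ m * (1 - PP h) ^ N ≤ 1 := by
      calc PP h ^ m * (1 - PP h) ^ N ≤ 1 * 1 :=
            mul_le_mul h3 h4 (by positivity) (by norm_num)
        _ = 1 := one_mul 1
    calc _ ≤ 1 * (2 * ph h) := mul_le_mul_of_nonneg_right h5 h2.le
      _ = 2 * ph h := one_mul _

private noncomputable def WI (m N : ℕ) : ℝ := ∫ h in Ioi (0:ℝ), PP h ^ m * (1 - PP h) ^ N * (2 * ph h)

private lemma WI_zero (P : PPp) (m : ℕ) : WI m 0 = 1 / (m + 1) := by
  have hd : ∀ h ∈ Ioi (0:ℝ), HasDerivAt (fun h => PP h ^ (m + 1) / ((m : ℝ) + 1))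
      (PP h ^ m * (1 - PP h) ^ 0 * (2 * ph h)) h := by
    intro h _
    have := ((P.d h).pow (m + 1)).div_const ((m : ℝ) + 1)
    refine this.congr_deriv ?_
    have hm : (m : ℝ) + 1 ≠ 0 := by positivity
    push_cast
    simp only [pow_zero, mul_one]
    field_simp
  have ht : Tendsto (fun h => PP h ^ (m + 1) / ((m : ℝ) + 1)) atTop (𝓝 (1 ^ (m + 1) / ((m : ℝ) + 1))) :=
    (P.t.pow (m + 1)).div_const _
  have := integral_Ioi_of_hasDerivAt_of_tendsto (a := 0)
    (((P.c.pow (m + 1)).div_const _).continuousWithinAt) hd (w_int P m 0) ht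
  rw [WI, this]
  simp [P.z]

private lemma WI_succ (P : PPp) (m N : ℕ) :
    ((m : ℝ) + 1) * WI m (N + 1) = ((N : ℝ) + 1) * WI (m + 1) N := by
  have hd : ∀ h ∈ Ioi (0:ℝ), HasDerivAt (fun h => PP h ^ (m + 1) * (1 - PP h) ^ (N + 1))
      (((m : ℝ) + 1) * (PP h ^ m * (1 - PP h) ^ (N + 1) * (2 * ph h)) -
        ((N : ℝ) + 1) * (PP h ^ (m + 1) * (1 - PP h) ^ N * (2 * ph h))) h := by
    intro h _
    have h1 := (P.d h).pow (m + 1)
    have h2 := ((P.d h).const_sub 1).pow (N + 1)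
    have := h1.mul h2
    refine this.congr_deriv ?_
    push_cast
    simp only [Pi.pow_apply, Nat.add_sub_cancel]
    ring
  have ht : Tendsto (fun h => PP h ^ (m + 1) * (1 - PP h) ^ (N + 1)) atTop
      (𝓝 (1 ^ (m + 1) * (1 - 1) ^ (N + 1))) :=
    (P.t.pow (m + 1)).mul ((tendsto_const_nhds.sub P.t).pow (N + 1))
  have i1 := (w_int P m (N + 1)).const_mul ((m : ℝ) + 1)
  have i2 := (w_int P (m + 1) N).const_mul ((N : ℝ) + 1)
  have := integral_Ioi_of_hasDerivAt_of_tendsto (a := 0)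
    (((P.c.pow (m + 1)).mul ((continuous_const.sub P.c).pow (N + 1))).continuousWithinAt) hd
    (i1.sub i2) ht
  rw [integral_sub i1 i2, integral_const_mul, integral_const_mul] at this
  simp [P.z] at this
  rw [WI, WI]
  linarith

private lemma WI_eq (P : PPp) (N : ℕ) : ∀ m, WI m N = (m.factorial * N.factorial : ℝ) / (m + N + 1).factorial := by
  induction N with
  | zero =>
    intro m
    rw [WI_zero P m]
    simp only [Nat.factorial_zero, Nat.cast_one, mul_one, add_zero]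
    rw [Nat.factorial_succ]
    push_cast
    have : (m.factorial : ℝ) ≠ 0 := by positivity
    have : (m : ℝ) + 1 ≠ 0 := by positivity
    field_simp
  | succ N ih =>
    intro m
    have h1 := WI_succ P m N
    rw [ih (m + 1)] at h1
    have h2 : m + 1 + N + 1 = m + (N + 1) + 1 := by ring
    rw [h2] at h1
    have h3 : (m : ℝ) + 1 ≠ 0 := by positivity
    have h4 : ((m + (N + 1) + 1).factorial : ℝ) ≠ 0 := by positivity
    rw [Nat.factorial_succ m] at h1
    rw [Nat.factorial_succ N]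
    push_cast at h1 ⊢
    field_simp at h1 ⊢
    linarith

private noncomputable def HH (h : ℝ) : ℝ := Real.exp (-h ^ 2 / 2) / (Kc * (1 - PP h))

private lemma T_pos (P : PPp) (h : ℝ) : 0 < 1 - PP h := by linarith [P.l h]

private lemma HH_pos (P : PPp) (h : ℝ) : 0 < HH h :=
  div_pos (Real.exp_pos _) (mul_pos Kc_pos (T_pos P h))

private lemma HH_mul (P : PPp) (h : ℝ) : Kc * HH h * (1 - PP h) = Real.exp (-h ^ 2 / 2) := by
  rw [HH]
  have := Kc_pos
  have := T_pos P h
  field_simp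

private lemma exp_der (h : ℝ) : HasDerivAt (fun h : ℝ => Real.exp (-h ^ 2 / 2))
    (-h * Real.exp (-h ^ 2 / 2)) h := by
  have h1 : HasDerivAt (fun h : ℝ => -h ^ 2 / 2) (-h) h := by
    have := ((hasDerivAt_id h).pow 2).neg.div_const 2
    refine this.congr_deriv ?_
    simp
    try ring
  have := h1.exp
  refine this.congr_deriv ?_
  ring

private lemma exp_der' (h : ℝ) : HasDerivAt (fun h : ℝ => Real.exp (h ^ 2 / 2))
    (h * Real.exp (h ^ 2 / 2)) h := by
  have h1 : HasDerivAt (fun h : ℝ => h ^ 2 / 2) h h := by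
    have := ((hasDerivAt_id h).pow 2).div_const 2
    refine this.congr_deriv ?_
    simp
  have := h1.exp
  refine this.congr_deriv ?_
  ring

private lemma HH_der (P : PPp) (h : ℝ) : HasDerivAt HH (HH h * (HH h - h)) h := by
  have h1 := exp_der h
  have h2 := ((P.d h).const_sub 1).const_mul Kc
  have hne : Kc * (1 - PP h) ≠ 0 := (mul_pos Kc_pos (T_pos P h)).ne'
  have h3 := h1.div h2 hne
  have h4 : HH h * (HH h - h) = (-h * Real.exp (-h ^ 2 / 2) * (Kc * (1 - PP h)) -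
      Real.exp (-h ^ 2 / 2) * (Kc * -(2 * ph h))) / (Kc * (1 - PP h)) ^ 2 := by
    have h5 : Kc * -(2 * ph h) = -Real.exp (-h ^ 2 / 2) := by rw [exp_eq]; ring
    rw [h5, HH]
    have hK := Kc_pos.ne'
    have hT := (T_pos P h).ne'
    field_simp
    ring
  rw [h4]
  exact h3

private noncomputable def rh (h : ℝ) : ℝ := HH h * (HH h - h) * Real.exp (h ^ 2 / 2)

private lemma rh_der (P : PPp) (h : ℝ) :
    HasDerivAt rh (Real.exp (h ^ 2 / 2) * HH h * (2 * HH h * (HH h - h) - 1)) h := by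
  have h1 := HH_der P h
  have h2 := h1.sub (hasDerivAt_id h)
  have h3 := (h1.mul h2).mul (exp_der' h)
  refine h3.congr_deriv ?_
  simp only [id, Pi.mul_apply, Pi.sub_apply]
  ring

private lemma HH_ge (P : PPp) (mills : ∀ x : ℝ, 0 ≤ x →
      (3 * x + √(x ^ 2 + 8)) / 4 * √(Real.pi / 2) * (1 - PP x) ≤ Real.exp (-(x ^ 2) / 2))
    (h : ℝ) (hh : 0 ≤ h) : (3 * h + √(h ^ 2 + 8)) / 4 ≤ HH h := by
  rw [HH, le_div_iff₀ (mul_pos Kc_pos (T_pos P h)), ← mul_assoc]
  exact mills h hh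

private lemma alg_ge (h H : ℝ) (hh : 0 ≤ h) (hH : (3 * h + √(h ^ 2 + 8)) / 4 ≤ H) :
    1 ≤ 2 * H * (H - h) ∧ 0 ≤ H - h := by
  have h0 : 0 ≤ h ^ 2 + 8 := by positivity
  have hs := Real.sq_sqrt h0
  have hs0 := Real.sqrt_nonneg (h ^ 2 + 8)
  have hs1 : h ≤ √(h ^ 2 + 8) := by
    apply Real.le_sqrt_of_sq_le
    linarith
  set r := √(h ^ 2 + 8)
  set M := (3 * h + r) / 4 with hM
  have h1 : 0 ≤ M - h := by rw [hM]; linarith
  have h2 : 2 * M * (M - h) = 1 + h * (M - h) := by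
    rw [hM]; nlinarith
  have h3 : 0 ≤ h * (M - h) := mul_nonneg hh h1
  have h4 : 0 ≤ M := by linarith
  constructor
  · have h5 : 2 * M * (M - h) ≤ 2 * H * (H - h) := by
      apply mul_le_mul <;> linarith
    linarith
  · linarith

private lemma rh_mono (P : PPp) (mills : ∀ x : ℝ, 0 ≤ x →
      (3 * x + √(x ^ 2 + 8)) / 4 * √(Real.pi / 2) * (1 - PP x) ≤ Real.exp (-(x ^ 2) / 2)) :
    MonotoneOn rh (Ici 0) := by
  apply monotoneOn_of_deriv_nonneg (convex_Ici 0)
  · exact fun h _ => (rh_der P h).continuousAt.continuousWithinAt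
  · exact fun h _ => (rh_der P h).differentiableAt.differentiableWithinAt
  · intro h hh
    rw [interior_Ici, mem_Ioi] at hh
    rw [(rh_der P h).deriv]
    have h1 := (alg_ge h (HH h) hh.le (HH_ge P mills h hh.le)).1
    have h2 := HH_pos P h
    have h3 := Real.exp_pos (h ^ 2 / 2)
    have h4 : 0 ≤ 2 * HH h * (HH h - h) - 1 := by linarith
    positivity

private lemma psi_der (P : PPp) (s h : ℝ) :
    HasDerivAt (fun h => HH h + Kc * s * (1 - PP h)) ((rh h - s) * Real.exp (-h ^ 2 / 2)) h := by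
  have h1 := (HH_der P h).add (((P.d h).const_sub 1).const_mul (Kc * s))
  refine h1.congr_deriv ?_
  have h2 : Kc * s * -(2 * ph h) = -s * Real.exp (-h ^ 2 / 2) := by
    rw [exp_eq]; ring
  rw [h2, rh]
  have h3 : Real.exp (h ^ 2 / 2) * Real.exp (-h ^ 2 / 2) = 1 := by
    rw [← Real.exp_add, ← Real.exp_zero]
    congr 1
    ring
  symm
  calc (HH h * (HH h - h) * Real.exp (h ^ 2 / 2) - s) * Real.exp (-h ^ 2 / 2)
      = HH h * (HH h - h) * (Real.exp (h ^ 2 / 2) * Real.exp (-h ^ 2 / 2)) -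
        s * Real.exp (-h ^ 2 / 2) := by ring
    _ = _ := by rw [h3]; ring

private lemma support (P : PPp) (mills : ∀ x : ℝ, 0 ≤ x →
      (3 * x + √(x ^ 2 + 8)) / 4 * √(Real.pi / 2) * (1 - PP x) ≤ Real.exp (-(x ^ 2) / 2))
    (x h : ℝ) (hx : 0 ≤ x) (hh : 0 ≤ h) :
    HH x + Kc * rh x * ((1 - PP x) - (1 - PP h)) ≤ HH h := by
  have hmono := rh_mono P mills
  suffices H : HH x + Kc * rh x * (1 - PP x) ≤ HH h + Kc * rh x * (1 - PP h) by
    linarith
  rcases le_total x h with hxh | hxh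
  · have h1 : MonotoneOn (fun h => HH h + Kc * rh x * (1 - PP h)) (Ici x) := by
      apply monotoneOn_of_deriv_nonneg (convex_Ici x)
      · exact fun h _ => (psi_der P (rh x) h).continuousAt.continuousWithinAt
      · exact fun h _ => (psi_der P (rh x) h).differentiableAt.differentiableWithinAt
      · intro y hy
        rw [interior_Ici, mem_Ioi] at hy
        rw [(psi_der P (rh x) y).deriv]
        have h2 := hmono (mem_Ici.2 hx) (mem_Ici.2 (hx.trans hy.le)) hy.le
        exact mul_nonneg (by linarith) (Real.exp_pos _).le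
    exact h1 (mem_Ici.2 le_rfl) (mem_Ici.2 hxh) hxh
  · have h1 : AntitoneOn (fun h => HH h + Kc * rh x * (1 - PP h)) (Icc 0 x) := by
      apply antitoneOn_of_deriv_nonpos (convex_Icc 0 x)
      · exact fun h _ => (psi_der P (rh x) h).continuousAt.continuousWithinAt
      · exact fun h _ => (psi_der P (rh x) h).differentiableAt.differentiableWithinAt
      · intro y hy
        rw [interior_Icc, mem_Ioo] at hy
        rw [(psi_der P (rh x) y).deriv]
        have h2 := hmono (mem_Ici.2 hy.1.le) (mem_Ici.2 hx) hy.2.le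
        exact mul_nonpos_of_nonpos_of_nonneg (by linarith) (Real.exp_pos _).le
    exact h1 ⟨hh, hxh⟩ ⟨hx, le_rfl⟩ hxh

private lemma pow_tangent (a b : ℝ) (ha : 0 < a) (hb : 0 < b) (N : ℕ) :
    b ^ N + N * (b ^ N / b) * (a - b) ≤ a ^ N := by
  have h1 := one_add_mul_le_pow (a := a / b - 1) (by
    have : 0 < a / b := by positivity
    linarith) N
  have h2 : 1 + (a / b - 1) = a / b := by ring
  rw [h2, div_pow, le_div_iff₀ (by positivity)] at h1
  refine le_trans (le_of_eq ?_) h1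
  field_simp

private lemma lower (P : PPp) (mills : ∀ x : ℝ, 0 ≤ x →
      (3 * x + √(x ^ 2 + 8)) / 4 * √(Real.pi / 2) * (1 - PP x) ≤ Real.exp (-(x ^ 2) / 2))
    (N m : ℕ) (x : ℝ) (hx : 0 ≤ x) (hx1 : 1 - PP x = ((N : ℝ) + 1) / ((N : ℝ) + 1 + m + 1)) :
    Kc ^ (N + 1) * HH x ^ N * WI m N ≤
      ∫ h in Ioi (0:ℝ), PP h ^ m * Real.exp (-(((N:ℝ) + 1) * h ^ 2) / 2) := by
  have hex : ∀ h : ℝ, Real.exp (-(((N:ℝ) + 1) * h ^ 2) / 2) =
      (Kc * HH h * (1 - PP h)) ^ N * (Kc * (2 * ph h)) := by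
    intro h
    rw [HH_mul P h, ← exp_eq, ← Real.exp_nat_mul, ← Real.exp_add]
    congr 1
    ring
  set c1 : ℝ := N * (HH x ^ N / HH x) * (Kc * rh x) with hc1
  have hc1' : 0 ≤ (N:ℝ) * (HH x ^ N / HH x) := by
    have := HH_pos P x
    positivity
  have i1 := (w_int P m N).const_mul (Kc ^ (N + 1) * (HH x ^ N + c1 * (1 - PP x)))
  have i2 := (w_int P m (N + 1)).const_mul (Kc ^ (N + 1) * c1)
  have hint : IntegrableOn (fun h => PP h ^ m * Real.exp (-(((N:ℝ) + 1) * h ^ 2) / 2)) (Ioi 0) := by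
    refine Integrable.mono' gauss_int.integrableOn ?_ ?_
    · have := P.c
      exact (by fun_prop : Continuous
        (fun h => PP h ^ m * Real.exp (-(((N:ℝ) + 1) * h ^ 2) / 2))).aestronglyMeasurable
    · refine (ae_restrict_iff' measurableSet_Ioi).2 (Eventually.of_forall fun h hh => ?_)
      have h0 : 0 ≤ PP h := P.nn (le_of_lt hh)
      rw [Real.norm_eq_abs, abs_of_nonneg (by positivity)]
      have h3 : PP h ^ m ≤ 1 := pow_le_one₀ h0 (P.l h).le
      calc PP h ^ m * Real.exp (-(((N:ℝ) + 1) * h ^ 2) / 2)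
          ≤ 1 * Real.exp (-h ^ 2 / 2) := by
            apply mul_le_mul h3 _ (Real.exp_pos _).le (by norm_num)
            apply Real.exp_le_exp.2
            have : 0 ≤ (N:ℝ) * h ^ 2 := by positivity
            linarith
        _ = _ := one_mul _
  have hle : ∫ h in Ioi (0:ℝ), (Kc ^ (N + 1) * (HH x ^ N + c1 * (1 - PP x)) *
        (PP h ^ m * (1 - PP h) ^ N * (2 * ph h)) -
        Kc ^ (N + 1) * c1 * (PP h ^ m * (1 - PP h) ^ (N + 1) * (2 * ph h))) ≤
      ∫ h in Ioi (0:ℝ), PP h ^ m * Real.exp (-(((N:ℝ) + 1) * h ^ 2) / 2) := by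
    apply setIntegral_mono_on (i1.sub i2) hint measurableSet_Ioi
    intro h hh
    have hh' : 0 ≤ h := le_of_lt hh
    rw [hex h]
    have h1 := support P mills x h hx hh'
    have h2 := pow_tangent (HH h) (HH x) (HH_pos P h) (HH_pos P x) N
    have h3 : HH x ^ N + c1 * ((1 - PP x) - (1 - PP h)) ≤ HH h ^ N := by
      refine le_trans ?_ h2
      rw [hc1, mul_assoc]
      have := mul_le_mul_of_nonneg_left (by linarith : Kc * rh x * ((1 - PP x) - (1 - PP h)) ≤ HH h - HH x) hc1'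
      linarith
    have h4 : 0 ≤ Kc ^ (N + 1) * (PP h ^ m * (1 - PP h) ^ N * (2 * ph h)) := by
      have := Kc_pos
      have := P.nn hh'
      have := T_pos P h
      have := ph_pos h
      positivity
    have h5 := mul_le_mul_of_nonneg_left h3 h4
    calc _ = Kc ^ (N + 1) * (PP h ^ m * (1 - PP h) ^ N * (2 * ph h)) *
          (HH x ^ N + c1 * ((1 - PP x) - (1 - PP h))) := by
            simp only [Pi.sub_apply]
            ring
      _ ≤ _ := h5
      _ = _ := by rw [mul_pow, mul_pow]; ring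
  refine le_trans (le_of_eq ?_) hle
  rw [integral_sub i1 i2, integral_const_mul, integral_const_mul]
  change _ = Kc ^ (N + 1) * (HH x ^ N + c1 * (1 - PP x)) * WI m N - Kc ^ (N + 1) * c1 * WI m (N + 1)
  have h6 : WI m (N + 1) = (1 - PP x) * WI m N := by
    rw [WI_eq P, WI_eq P, hx1, Nat.factorial_succ N]
    have h7 : m + (N + 1) + 1 = (m + N + 1) + 1 := by ring
    rw [h7, Nat.factorial_succ (m + N + 1)]
    push_cast
    have : ((m + N + 1).factorial : ℝ) ≠ 0 := by positivity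
    have : (N:ℝ) + 1 + m + 1 ≠ 0 := by positivity
    have : (m:ℝ) + N + 1 + 1 ≠ 0 := by positivity
    field_simp
    ring
  rw [h6]
  ring

end aux9164

theorem J1_jensen
    (mills : ∀ x : ℝ, 0 ≤ x →
      (3 * x + √(x ^ 2 + 8)) / 4 * √(Real.pi / 2) * (1 - PP x) ≤ Real.exp (-(x ^ 2) / 2))
    (PP_props : PP 0 = 0 ∧ Continuous PP ∧ StrictMono PP ∧ (∀ x, PP x < 1) ∧
      Filter.Tendsto PP Filter.atTop (nhds 1) ∧ (∀ x, HasDerivAt PP (2 * ph x) x))
    (J1_eq : ∀ n m : ℕ, 1 ≤ n → J1 n m = ENNReal.ofReal (2 * √(n : ℝ) / √(2 * Real.pi) *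
      ∫ h in Set.Ioi (0:ℝ), PP h ^ m * Real.exp (-(n * h ^ 2) / 2)))
    (n m : ℕ) (hn : 1 ≤ n) (x : ℝ) (hx : 0 ≤ x) (hx1 : 1 - PP x = n / ((n : ℝ) + m + 1)) :
    ENNReal.ofReal ((√(Real.pi / 2) * (3 * x + √(x ^ 2 + 8)) / 4) ^ (n - 1) / √(n : ℝ)) ≤
      ((n + m).choose n : ℝ≥0∞) * J1 n m := by
  obtain ⟨p1, p2, p3, p4, p5, p6⟩ := PP_props
  have P : PPp := ⟨p1, p2, p3, p4, p5, p6⟩
  obtain ⟨N, rfl⟩ : ∃ N, n = N + 1 := ⟨n - 1, by omega⟩
  rw [J1_eq (N + 1) m hn]
  have h1 := lower P mills N m x hx (by rw [hx1]; push_cast; ring)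
  rw [← ENNReal.ofReal_natCast, ← ENNReal.ofReal_mul (by positivity)]
  apply ENNReal.ofReal_le_ofReal
  rw [Nat.add_sub_cancel]
  have hK := Kc_pos
  have hn0 : (0:ℝ) < (N:ℝ) + 1 := by positivity
  have hsq : 0 < √((N:ℝ) + 1) := Real.sqrt_pos.2 hn0
  have h2 : √(Real.pi / 2) * (3 * x + √(x ^ 2 + 8)) / 4 ≤ Kc * HH x := by
    have h3 := mul_le_mul_of_nonneg_left (HH_ge P mills x hx) hK.le
    have h4 : √(Real.pi / 2) * (3 * x + √(x ^ 2 + 8)) / 4 = Kc * ((3 * x + √(x ^ 2 + 8)) / 4) := by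
      rw [mul_div_assoc]; rfl
    rw [h4]; exact h3
  have h3 : (√(Real.pi / 2) * (3 * x + √(x ^ 2 + 8)) / 4) ^ N ≤ (Kc * HH x) ^ N :=
    pow_le_pow_left₀ (by positivity) h2 N
  push_cast
  have h4 : 2 * √((N:ℝ) + 1) / √(2 * Real.pi) = √((N:ℝ) + 1) / Kc := by
    rw [sqrt_two_pi]
    field_simp
  rw [h4]
  have h5 : (((N + 1 + m).choose (N + 1) : ℕ) : ℝ) * WI m N = 1 / ((N:ℝ) + 1) := by
    rw [WI_eq P, Nat.choose_eq_factorial_div_factorial (by omega), Nat.cast_div
      (Nat.factorial_mul_factorial_dvd_factorial (by omega)) (by positivity)]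
    have h6 : N + 1 + m - (N + 1) = m := by omega
    have h7 : N + 1 + m = m + N + 1 := by ring
    rw [h6, h7, Nat.factorial_succ N]
    push_cast
    have : ((m + N + 1).factorial : ℝ) ≠ 0 := by positivity
    have : (m.factorial : ℝ) ≠ 0 := by positivity
    have : (N.factorial : ℝ) ≠ 0 := by positivity
    field_simp
  calc (√(Real.pi / 2) * (3 * x + √(x ^ 2 + 8)) / 4) ^ N / √((N:ℝ) + 1)
      ≤ (Kc * HH x) ^ N / √((N:ℝ) + 1) := by gcongr
    _ = (((N + 1 + m).choose (N + 1) : ℕ) : ℝ) *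
        (√((N:ℝ) + 1) / Kc * (Kc ^ (N + 1) * HH x ^ N * WI m N)) := by
        have h8 : (((N + 1 + m).choose (N + 1) : ℕ) : ℝ) *
          (√((N:ℝ) + 1) / Kc * (Kc ^ (N + 1) * HH x ^ N * WI m N)) =
          √((N:ℝ) + 1) * (Kc ^ (N + 1) / Kc) * HH x ^ N *
          ((((N + 1 + m).choose (N + 1) : ℕ) : ℝ) * WI m N) := by ring
        rw [h8, h5, pow_succ, mul_div_assoc, div_self hK.ne', mul_one, mul_pow]
        have h9 := Real.mul_self_sqrt hn0.le
        field_simp
        rw [sq, h9]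
    _ ≤ _ := by
        apply mul_le_mul_of_nonneg_left _ (by positivity)
        exact mul_le_mul_of_nonneg_left h1 (by positivity)


end Pool.Agent.VPK.K6b
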