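import Pool.Agent.VPK.Defs

set_option autoImplicit false
open MeasureTheory ProbabilityTheory
open scoped ENNReal Matrix

namespace Pool.Agent.VPK.K7

open Pool.Agent.VPK
































theorem factor
    (QQ_ge_GG : ∀ H a b : ℝ, 0 < H → 0 < b → SS H * ENNReal.ofReal (GG a b) ≤ QQ H a b)
    (n m : ℕ) (hn : 1 ≤ n) :
    J1 n m * (∫⁻ b in Set.Ioi (0 : ℝ), ∫⁻ a : ℝ, ENNReal.ofReal (GG a b) ^ m * KK n a b) ≤
    ∫⁻ x, (∫⁻ b in Set.Ioi (0 : ℝ), ∫⁻ a : ℝ, QQ (|x| / √(n : ℝ)) a b ^ m * KK n a b)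
      ∂(gaussianReal 0 1) := by
  have hn' : (0 : ℝ) < √(n : ℝ) := by
    apply Real.sqrt_pos.mpr
    exact_mod_cast hn
  haveI hat : NullSingletonClass (gaussianReal 0 1) := nullSingletonClass_gaussianReal one_ne_zero
  have hae : ∀ᵐ x ∂(gaussianReal 0 1), x ≠ 0 :=
    compl_mem_ae_iff.mpr (measure_singleton (0 : ℝ))
  set B := ∫⁻ b in Set.Ioi (0 : ℝ), ∫⁻ a : ℝ, ENNReal.ofReal (GG a b) ^ m * KK n a b with hB
  calc J1 n m * B ≤ ∫⁻ x, SS (|x| / √(n : ℝ)) ^ m * B ∂(gaussianReal 0 1) :=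
        lintegral_mul_const_le _ _
    _ ≤ _ := by
        refine lintegral_mono_ae ?_
        filter_upwards [hae] with x hx
        have hH : 0 < |x| / √(n : ℝ) := div_pos (abs_pos.mpr hx) hn'
        rw [hB]
        refine (lintegral_const_mul_le _ _).trans ?_
        refine setLIntegral_mono' measurableSet_Ioi ?_
        intro b hb
        refine (lintegral_const_mul_le _ _).trans ?_
        refine lintegral_mono ?_
        intro a
        simp only
        rw [← mul_assoc, ← mul_pow]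
        gcongr
        exact QQ_ge_GG _ a b hH hb


end Pool.Agent.VPK.K7
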