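import Pool.Agent.VPK.Defs

set_option autoImplicit false
open MeasureTheory ProbabilityTheory
open scoped ENNReal Matrix

namespace Pool.Agent.VPK.K8

open Pool.Agent.VPK


































theorem vp9_taylor_deriv (n : ℕ) (u : ℝ) :
    HasDerivAt (fun u : ℝ => ∑ k ∈ Finset.range (n + 1), (-u) ^ k / (k.factorial : ℝ))
      (-∑ k ∈ Finset.range n, (-u) ^ k / (k.factorial : ℝ)) u := by
  induction n with
  | zero =>
    simp only [Finset.range_zero, Finset.sum_empty, neg_zero, zero_add, Finset.range_one,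
      Finset.sum_singleton, pow_zero]
    exact hasDerivAt_const _ _
  | succ n ih =>
    have h1 : (fun u : ℝ => ∑ k ∈ Finset.range (n + 1 + 1), (-u) ^ k / (k.factorial : ℝ)) =
        fun u : ℝ => (∑ k ∈ Finset.range (n + 1), (-u) ^ k / (k.factorial : ℝ)) +
          (-u) ^ (n + 1) / ((n + 1).factorial : ℝ) := by
      funext u
      rw [Finset.sum_range_succ]
    rw [h1, Finset.sum_range_succ, neg_add]
    refine ih.add ?_
    have h2 : HasDerivAt (fun u : ℝ => (-u) ^ (n + 1) / ((n + 1).factorial : ℝ))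
        ((((n + 1 : ℕ) : ℝ) * (-u) ^ n * (-1)) / ((n + 1).factorial : ℝ)) u := by
      have := ((hasDerivAt_neg u).pow (n + 1)).div_const ((n + 1).factorial : ℝ)
      simpa using this
    refine h2.congr_deriv ?_
    rw [Nat.factorial_succ]
    push_cast
    have : ((n : ℝ) + 1) ≠ 0 := by positivity
    have h3 : (n.factorial : ℝ) ≠ 0 := by positivity
    field_simp

theorem vp9_taylor (n : ℕ) : ∀ u : ℝ, 0 ≤ u →
    0 ≤ (-1) ^ n * (Real.exp (-u) - ∑ k ∈ Finset.range n, (-u) ^ k / (k.factorial : ℝ)) := by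
  induction n with
  | zero => intro u _; simp; positivity
  | succ n ih =>
    intro u hu
    let F : ℝ → ℝ := fun u => (-1) ^ (n + 1) * (Real.exp (-u) -
      ∑ k ∈ Finset.range (n + 1), (-u) ^ k / (k.factorial : ℝ))
    have hF : ∀ u : ℝ, HasDerivAt F ((-1) ^ n * (Real.exp (-u) -
        ∑ k ∈ Finset.range n, (-u) ^ k / (k.factorial : ℝ))) u := by
      intro u
      have h1 : HasDerivAt (fun u : ℝ => Real.exp (-u)) (-Real.exp (-u)) u := by
        have := (hasDerivAt_neg u).exp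
        simpa using this
      have h2 := (h1.sub (vp9_taylor_deriv n u)).const_mul ((-1 : ℝ) ^ (n + 1))
      refine h2.congr_deriv ?_
      ring
    have hmono : MonotoneOn F (Set.Ici 0) := by
      refine monotoneOn_of_deriv_nonneg (convex_Ici 0) ?_ ?_ ?_
      · exact fun x _ => (hF x).continuousAt.continuousWithinAt
      · exact fun x _ => (hF x).differentiableAt.differentiableWithinAt
      · intro x hx
        rw [interior_Ici] at hx
        rw [(hF x).deriv]
        exact ih x (le_of_lt hx)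
    have h3 := hmono (Set.mem_Ici.mpr le_rfl) (Set.mem_Ici.mpr hu) hu
    have h4 : F 0 = 0 := by
      simp only [F, neg_zero, Real.exp_zero]
      rw [Finset.sum_range_succ']
      simp
    rw [h4] at h3
    exact h3

theorem mm9_cont (k : ℕ) (y : ℝ) :
    Continuous (fun u : ℝ => u ^ k * Real.exp (-(y * u ^ 2) / 2)) := by fun_prop

theorem mm9_pos (k : ℕ) (y : ℝ) : 0 < mm k y := by
  unfold mm
  apply intervalIntegral.intervalIntegral_pos_of_pos_on
  · exact (mm9_cont k y).intervalIntegrable _ _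
  · intro u hu
    exact mul_pos (pow_pos hu.1 _) (Real.exp_pos _)
  · exact one_pos

theorem mm_tangent (k : ℕ) (y y0 : ℝ) :
    mm k y0 * Real.exp (-(y - y0) / 2 * (mm (k + 2) y0 / mm k y0)) ≤ mm k y := by
  have hA := mm9_pos k y0
  obtain ⟨A, hAd⟩ : ∃ A, A = mm k y0 := ⟨_, rfl⟩
  obtain ⟨B, hBd⟩ : ∃ B, B = mm (k + 2) y0 := ⟨_, rfl⟩
  rw [← hAd] at hA
  rw [← hAd, ← hBd]
  obtain ⟨τ, hτ⟩ : ∃ τ, τ = -(y - y0) / 2 * (B / A) := ⟨_, rfl⟩
  rw [← hτ]
  have hτA : τ * A = -(y - y0) / 2 * B := by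
    rw [hτ]
    field_simp
  have h1 : ∫ u in (0 : ℝ)..1, ((Real.exp τ * (1 - τ)) * (u ^ k * Real.exp (-(y0 * u ^ 2) / 2)) +
      (Real.exp τ * (-(y - y0) / 2)) * (u ^ (k + 2) * Real.exp (-(y0 * u ^ 2) / 2))) ≤ mm k y := by
    unfold mm
    apply intervalIntegral.integral_mono_on zero_le_one
    · exact ((continuous_const.mul (mm9_cont k y0)).add
        (continuous_const.mul (mm9_cont (k + 2) y0))).intervalIntegrable _ _
    · exact (mm9_cont k y).intervalIntegrable _ _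
    · intro u hu
      have h2 : Real.exp (-(y * u ^ 2) / 2) =
          Real.exp (-(y0 * u ^ 2) / 2) * Real.exp (-(y - y0) / 2 * u ^ 2) := by
        rw [← Real.exp_add]
        congr 1
        ring
      have h3 : Real.exp τ * (1 + (-(y - y0) / 2 * u ^ 2 - τ)) ≤
          Real.exp (-(y - y0) / 2 * u ^ 2) := by
        have h4 := Real.add_one_le_exp (-(y - y0) / 2 * u ^ 2 - τ)
        have h5 : Real.exp (-(y - y0) / 2 * u ^ 2) =
            Real.exp τ * Real.exp (-(y - y0) / 2 * u ^ 2 - τ) := by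
          rw [← Real.exp_add]
          congr 1
          ring
        rw [h5]
        apply mul_le_mul_of_nonneg_left _ (Real.exp_pos τ).le
        linarith
      have h6 : 0 ≤ u ^ k * Real.exp (-(y0 * u ^ 2) / 2) :=
        mul_nonneg (pow_nonneg hu.1 _) (Real.exp_pos _).le
      have h7 := mul_le_mul_of_nonneg_left h3 h6
      rw [h2]
      calc Real.exp τ * (1 - τ) * (u ^ k * Real.exp (-(y0 * u ^ 2) / 2)) +
            Real.exp τ * (-(y - y0) / 2) * (u ^ (k + 2) * Real.exp (-(y0 * u ^ 2) / 2)) =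
          u ^ k * Real.exp (-(y0 * u ^ 2) / 2) *
            (Real.exp τ * (1 + (-(y - y0) / 2 * u ^ 2 - τ))) := by ring
        _ ≤ u ^ k * Real.exp (-(y0 * u ^ 2) / 2) * Real.exp (-(y - y0) / 2 * u ^ 2) := h7
        _ = u ^ k * (Real.exp (-(y0 * u ^ 2) / 2) * Real.exp (-(y - y0) / 2 * u ^ 2)) := by ring
  have hi1 : IntervalIntegrable (fun u : ℝ => (Real.exp τ * (1 - τ)) *
      (u ^ k * Real.exp (-(y0 * u ^ 2) / 2))) volume 0 1 :=
    (continuous_const.mul (mm9_cont k y0)).intervalIntegrable _ _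
  have hi2 : IntervalIntegrable (fun u : ℝ => (Real.exp τ * (-(y - y0) / 2)) *
      (u ^ (k + 2) * Real.exp (-(y0 * u ^ 2) / 2))) volume 0 1 :=
    (continuous_const.mul (mm9_cont (k + 2) y0)).intervalIntegrable _ _
  rw [intervalIntegral.integral_add hi1 hi2,
    intervalIntegral.integral_const_mul, intervalIntegral.integral_const_mul] at h1
  have h2 : Real.exp τ * (1 - τ) * (∫ u in (0 : ℝ)..1, u ^ k * Real.exp (-(y0 * u ^ 2) / 2)) +
      Real.exp τ * (-(y - y0) / 2) *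
        (∫ u in (0 : ℝ)..1, u ^ (k + 2) * Real.exp (-(y0 * u ^ 2) / 2)) = A * Real.exp τ := by
    have e1 : (∫ u in (0 : ℝ)..1, u ^ k * Real.exp (-(y0 * u ^ 2) / 2)) = A := by
      rw [hAd]; rfl
    have e2 : (∫ u in (0 : ℝ)..1, u ^ (k + 2) * Real.exp (-(y0 * u ^ 2) / 2)) = B := by
      rw [hBd]; rfl
    rw [e1, e2]
    linear_combination -(Real.exp τ) * hτA
  rw [h2] at h1
  exact h1

theorem c9_aux : 2 / √(2 * Real.pi) = √(2 / Real.pi) := by
  have hpi := Real.pi_pos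
  have h1 : √(4 : ℝ) = 2 := by
    rw [show (4 : ℝ) = 2 ^ 2 by norm_num, Real.sqrt_sq (by norm_num)]
  have h2 : √(2 / Real.pi) = √(4 / (2 * Real.pi)) := by
    congr 1
    field_simp
    norm_num
  rw [h2, Real.sqrt_div (by norm_num), h1]

theorem ph9_cont : Continuous ph := by
  unfold ph
  fun_prop

theorem PP_mm (x : ℝ) (hx : 0 < x) : PP x = √(2 / Real.pi) * x * mm 0 (x ^ 2) := by
  have h1 : ∫ u in (0 : ℝ)..1, ph (x * u) = x⁻¹ * ∫ t in (0 : ℝ)..x, ph t := by
    rw [intervalIntegral.integral_comp_mul_left _ hx.ne', mul_zero, mul_one, smul_eq_mul]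
  have h2 : ∫ t in (0 : ℝ)..x, ph t = x * ∫ u in (0 : ℝ)..1, ph (x * u) := by
    rw [h1, ← mul_assoc, mul_inv_cancel₀ hx.ne', one_mul]
  have h3 : ∀ u : ℝ, ph (x * u) = (1 / √(2 * Real.pi)) * (u ^ 0 * Real.exp (-(x ^ 2 * u ^ 2) / 2)) := by
    intro u
    unfold ph
    rw [pow_zero, one_mul, mul_pow]
    ring
  unfold PP mm
  rw [h2]
  simp only [h3]
  rw [intervalIntegral.integral_const_mul, ← c9_aux]
  ring

theorem ph9_deriv (t : ℝ) : HasDerivAt (fun t => -(t * ph t)) (t ^ 2 * ph t - ph t) t := by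
  have h1 : HasDerivAt ph (-(t * ph t)) t := by
    unfold ph
    have h2 : HasDerivAt (fun y : ℝ => -y ^ 2 / 2) (-t) t := by
      have := ((hasDerivAt_pow 2 t).neg).div_const 2
      refine this.congr_deriv ?_
      simp
      ring
    have h3 := (h2.exp).div_const (√(2 * Real.pi))
    refine h3.congr_deriv ?_
    ring
  have h4 := ((hasDerivAt_id t).mul h1).neg
  refine h4.congr_deriv ?_
  simp only [id]
  ring

theorem S3_mm (x : ℝ) (hx : 0 < x) : S3 x = √(2 / Real.pi) * x ^ 3 * mm 2 (x ^ 2) := by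
  have hc1 : Continuous (fun t : ℝ => t ^ 2 * ph t) := (continuous_pow 2).mul ph9_cont
  have h0 : ∫ t in (0 : ℝ)..x, (t ^ 2 * ph t - ph t) = -(x * ph x) - -(0 * ph 0) :=
    intervalIntegral.integral_eq_sub_of_hasDerivAt (fun t _ => ph9_deriv t)
      ((hc1.sub ph9_cont).intervalIntegrable _ _)
  rw [intervalIntegral.integral_sub (hc1.intervalIntegrable _ _)
    (ph9_cont.intervalIntegrable _ _)] at h0
  have hS : S3 x = 2 * ∫ t in (0 : ℝ)..x, t ^ 2 * ph t := by
    unfold S3 PP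
    linarith
  have h1 : ∫ u in (0 : ℝ)..1, ((x * u) ^ 2 * ph (x * u)) = x⁻¹ * ∫ t in (0 : ℝ)..x, t ^ 2 * ph t := by
    rw [intervalIntegral.integral_comp_mul_left (fun t => t ^ 2 * ph t) hx.ne', mul_zero, mul_one,
      smul_eq_mul]
  have h2 : ∫ t in (0 : ℝ)..x, t ^ 2 * ph t = x * ∫ u in (0 : ℝ)..1, ((x * u) ^ 2 * ph (x * u)) := by
    rw [h1, ← mul_assoc, mul_inv_cancel₀ hx.ne', one_mul]
  have h3 : ∀ u : ℝ, (x * u) ^ 2 * ph (x * u) =
      (x ^ 2 / √(2 * Real.pi)) * (u ^ 2 * Real.exp (-(x ^ 2 * u ^ 2) / 2)) := by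
    intro u
    unfold ph
    rw [mul_pow]
    ring
  rw [hS, h2]
  simp only [h3]
  unfold mm
  rw [intervalIntegral.integral_const_mul, ← c9_aux]
  ring

theorem mm9_poly (k M : ℕ) (y : ℝ) :
    ∫ u in (0 : ℝ)..1, (u ^ k * ∑ j ∈ Finset.range M, (-(y * u ^ 2 / 2)) ^ j / (j.factorial : ℝ)) =
      ∑ j ∈ Finset.range M, (-(y / 2)) ^ j / ((j.factorial : ℝ) * (2 * j + k + 1)) := by
  have h1 : ∀ u : ℝ, u ^ k * ∑ j ∈ Finset.range M, (-(y * u ^ 2 / 2)) ^ j / (j.factorial : ℝ) =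
      ∑ j ∈ Finset.range M, ((-(y / 2)) ^ j / (j.factorial : ℝ)) * u ^ (2 * j + k) := by
    intro u
    rw [Finset.mul_sum]
    apply Finset.sum_congr rfl
    intro j _
    have h2 : -(y * u ^ 2 / 2) = (-(y / 2)) * u ^ 2 := by ring
    rw [h2, mul_pow, ← pow_mul, pow_add]
    ring
  simp only [h1]
  rw [intervalIntegral.integral_finsetSum]
  · apply Finset.sum_congr rfl
    intro j _
    rw [intervalIntegral.integral_const_mul, integral_pow]
    push_cast
    have h3 : (j.factorial : ℝ) ≠ 0 := by positivity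
    have h4 : (2 * (j : ℝ) + k + 1) ≠ 0 := by positivity
    rw [one_pow, zero_pow (by omega)]
    field_simp
    ring
  · intro j _
    exact (continuous_const.mul (continuous_pow _)).intervalIntegrable _ _

theorem mm_series (k N : ℕ) (y : ℝ) (hy : 0 ≤ y) :
    (∑ j ∈ Finset.range (2 * N), (-(y / 2)) ^ j / ((j.factorial : ℝ) * (2 * j + k + 1)) ≤ mm k y) ∧
    mm k y ≤ ∑ j ∈ Finset.range (2 * N + 1), (-(y / 2)) ^ j / ((j.factorial : ℝ) * (2 * j + k + 1)) := by
  have hc : ∀ M, Continuous (fun u : ℝ =>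
      u ^ k * ∑ j ∈ Finset.range M, (-(y * u ^ 2 / 2)) ^ j / (j.factorial : ℝ)) := by
    intro M
    fun_prop
  constructor
  · rw [← mm9_poly]
    unfold mm
    apply intervalIntegral.integral_mono_on zero_le_one
    · exact (hc _).intervalIntegrable _ _
    · exact (mm9_cont k y).intervalIntegrable _ _
    · intro u hu
      have h1 := vp9_taylor (2 * N) (y * u ^ 2 / 2) (by positivity)
      rw [pow_mul, neg_one_sq, one_pow, one_mul] at h1
      have h2 : -(y * u ^ 2) / 2 = -(y * u ^ 2 / 2) := by ring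
      rw [h2]
      exact mul_le_mul_of_nonneg_left (by linarith) (pow_nonneg hu.1 _)
  · rw [← mm9_poly]
    unfold mm
    apply intervalIntegral.integral_mono_on zero_le_one
    · exact (mm9_cont k y).intervalIntegrable _ _
    · exact (hc _).intervalIntegrable _ _
    · intro u hu
      have h1 := vp9_taylor (2 * N + 1) (y * u ^ 2 / 2) (by positivity)
      rw [pow_succ, pow_mul, neg_one_sq, one_pow, one_mul] at h1
      have h2 : -(y * u ^ 2) / 2 = -(y * u ^ 2 / 2) := by ring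
      rw [h2]
      exact mul_le_mul_of_nonneg_left (by linarith) (pow_nonneg hu.1 _)

theorem tan9_aux (k : ℕ) (y0 C α : ℝ) (hC : mm (k + 2) y0 / mm k y0 / 2 ≤ C)
    (hα : α ≤ Real.log (2 / Real.pi) / 2 + Real.log (mm k y0) +
      y0 * (mm (k + 2) y0 / mm k y0) / 2)
    (x : ℝ) : Real.exp α * Real.exp (-C * x ^ 2) ≤ √(2 / Real.pi) * mm k (x ^ 2) := by
  have hpi := Real.pi_pos
  have h1 := mm_tangent k (x ^ 2) y0
  have hpos := mm9_pos k y0
  obtain ⟨r, hr⟩ : ∃ r, r = mm (k + 2) y0 / mm k y0 := ⟨_, rfl⟩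
  rw [← hr] at h1 hC hα
  have hs : √(2 / Real.pi) = Real.exp (Real.log (2 / Real.pi) / 2) := by
    rw [Real.sqrt_eq_rpow, Real.rpow_def_of_pos (by positivity)]
    congr 1
    ring
  have h2 : Real.exp α * Real.exp (-C * x ^ 2) ≤
      √(2 / Real.pi) * (mm k y0 * Real.exp (-(x ^ 2 - y0) / 2 * r)) := by
    have h5 : mm k y0 * Real.exp (-(x ^ 2 - y0) / 2 * r) =
        Real.exp (Real.log (mm k y0) + -(x ^ 2 - y0) / 2 * r) := by
      rw [Real.exp_add, Real.exp_log hpos]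
    rw [hs, h5, ← Real.exp_add, ← Real.exp_add, Real.exp_le_exp]
    have h3 : r / 2 * x ^ 2 ≤ C * x ^ 2 := mul_le_mul_of_nonneg_right hC (sq_nonneg x)
    linarith
  exact h2.trans (mul_le_mul_of_nonneg_left h1 (Real.sqrt_nonneg _))

/-- how the tangent bounds are used -/
theorem tan_PP (y0 C α : ℝ) (hC : mm 2 y0 / mm 0 y0 / 2 ≤ C)
    (hα : α ≤ Real.log (2 / Real.pi) / 2 + Real.log (mm 0 y0) + y0 * (mm 2 y0 / mm 0 y0) / 2)
    (x : ℝ) (hx : 0 < x) : Real.exp α * x * Real.exp (-C * x ^ 2) ≤ PP x := by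
  have h1 := tan9_aux 0 y0 C α hC hα x
  rw [PP_mm x hx]
  have h2 := mul_le_mul_of_nonneg_right h1 hx.le
  calc Real.exp α * x * Real.exp (-C * x ^ 2) = Real.exp α * Real.exp (-C * x ^ 2) * x := by ring
    _ ≤ √(2 / Real.pi) * mm 0 (x ^ 2) * x := h2
    _ = √(2 / Real.pi) * x * mm 0 (x ^ 2) := by ring

theorem tan_S3 (y0 C α : ℝ) (hC : mm 4 y0 / mm 2 y0 / 2 ≤ C)
    (hα : α ≤ Real.log (2 / Real.pi) / 2 + Real.log (mm 2 y0) + y0 * (mm 4 y0 / mm 2 y0) / 2)
    (x : ℝ) (hx : 0 < x) : Real.exp α * x ^ 3 * Real.exp (-C * x ^ 2) ≤ S3 x := by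
  have h1 := tan9_aux 2 y0 C α hC hα x
  rw [S3_mm x hx]
  have h2 := mul_le_mul_of_nonneg_right h1 (pow_nonneg hx.le 3)
  calc Real.exp α * x ^ 3 * Real.exp (-C * x ^ 2) =
        Real.exp α * Real.exp (-C * x ^ 2) * x ^ 3 := by ring
    _ ≤ √(2 / Real.pi) * mm 2 (x ^ 2) * x ^ 3 := h2
    _ = √(2 / Real.pi) * x ^ 3 * mm 2 (x ^ 2) := by ring


end Pool.Agent.VPK.K8
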