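import Pool.Agent.VPK.Defs

set_option autoImplicit false
open MeasureTheory ProbabilityTheory
open scoped ENNReal Matrix

namespace Pool.Agent.VPK.K9A

open Pool.Agent.VPK


































theorem j9167_key (m r y0 α t mlo rlo : ℝ) (hm : mlo ≤ m) (hmlo : 0 < mlo) (hr : rlo ≤ r)
    (hy0 : 0 ≤ y0) (ht : 2 * α - y0 * rlo ≤ t) (hexp : Real.exp t ≤ 2 / 3.141593 * mlo ^ 2) :
    α ≤ Real.log (2 / Real.pi) / 2 + Real.log m + y0 * r / 2 := by
  have hpi : 0 < Real.pi := Real.pi_pos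
  have hpi2 : Real.pi < 3.141593 := Real.pi_lt_d6
  have hm0 : 0 < m := hmlo.trans_le hm
  have h1 : t ≤ Real.log (2 / 3.141593 * mlo ^ 2) := by
    rw [Real.le_log_iff_exp_le (by positivity)]; exact hexp
  have h2 : Real.log (2 / 3.141593 * mlo ^ 2) ≤ Real.log (2 / Real.pi * m ^ 2) := by
    apply Real.log_le_log (by positivity)
    apply mul_le_mul
    · apply div_le_div_of_nonneg_left (by norm_num) hpi hpi2.le
    · exact pow_le_pow_left₀ hmlo.le hm 2
    · positivity
    · positivity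
  have h3 : Real.log (2 / Real.pi * m ^ 2) = Real.log (2 / Real.pi) + 2 * Real.log m := by
    rw [Real.log_mul (by positivity) (by positivity), Real.log_pow]
    norm_num
  have h4 : y0 * rlo ≤ y0 * r := mul_le_mul_of_nonneg_left hr hy0
  linarith

theorem j9167_exp1 : Real.exp (-0.47236) ≤ 2 / 3.141593 * (0.98968026 : ℝ) ^ 2 := by
  have h := Real.exp_bound (x := -0.47236) (by norm_num [abs_le]) (n := 8) (by norm_num)
  rw [abs_le] at h
  have h2 := h.2
  norm_num [Finset.sum_range_succ, Nat.factorial] at h2 ⊢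
  linarith

theorem j9167_exp2 : Real.exp (-0.550426) ≤ 2 / 3.141593 * (0.95179096 : ℝ) ^ 2 := by
  have h := Real.exp_bound (x := -0.550426) (by norm_num [abs_le]) (n := 8) (by norm_num)
  rw [abs_le] at h
  have h2 := h.2
  norm_num [Finset.sum_range_succ, Nat.factorial] at h2 ⊢
  linarith

theorem j9167_exp3 : Real.exp (-2.828762) ≤ 2 / 3.141593 * (0.3046552 : ℝ) ^ 2 := by
  have h := Real.exp_bound (x := -0.7071905) (by norm_num [abs_le]) (n := 9) (by norm_num)
  rw [abs_le] at h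
  have h2 : Real.exp (-0.7071905) ≤ 0.493028 := by
    have h2 := h.2
    norm_num [Finset.sum_range_succ, Nat.factorial] at h2 ⊢
    linarith
  have h3 : Real.exp (-2.828762) = Real.exp (-0.7071905) ^ 4 := by
    rw [← Real.exp_nat_mul]; norm_num
  rw [h3]
  have h4 := pow_le_pow_left₀ (Real.exp_pos (-0.7071905)).le h2 4
  refine h4.trans ?_
  norm_num

theorem cell_tangents_A
    (mm_series : ∀ (k N : ℕ) (y : ℝ), 0 ≤ y →
      (∑ j ∈ Finset.range (2 * N), (-(y / 2)) ^ j / ((j.factorial : ℝ) * (2 * j + k + 1)) ≤ mm k y) ∧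
      mm k y ≤ ∑ j ∈ Finset.range (2 * N + 1), (-(y / 2)) ^ j / ((j.factorial : ℝ) * (2 * j + k + 1)))
    (tan_PP : ∀ (y0 C α : ℝ), mm 2 y0 / mm 0 y0 / 2 ≤ C →
      α ≤ Real.log (2 / Real.pi) / 2 + Real.log (mm 0 y0) + y0 * (mm 2 y0 / mm 0 y0) / 2 →
      ∀ (x : ℝ), 0 < x → Real.exp α * x * Real.exp (-C * x ^ 2) ≤ PP x)
    (tan_S3 : ∀ (y0 C α : ℝ), mm 4 y0 / mm 2 y0 / 2 ≤ C →
      α ≤ Real.log (2 / Real.pi) / 2 + Real.log (mm 2 y0) + y0 * (mm 4 y0 / mm 2 y0) / 2 →
      ∀ (x : ℝ), 0 < x → Real.exp α * x ^ 3 * Real.exp (-C * x ^ 2) ≤ S3 x) :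
    (∀ x : ℝ, 0 < x → Real.exp (-0.22585) * x * Real.exp (-(0.1653) * x ^ 2) ≤ PP x) ∧
    (∀ x : ℝ, 0 < x → Real.exp (-0.2268) * x * Real.exp (-(0.16006) * x ^ 2) ≤ PP x) ∧
    (∀ x : ℝ, 0 < x → Real.exp (-1.32521) * x ^ 3 * Real.exp (-(0.2948) * x ^ 2) ≤ S3 x) := by
  -- first cell
  have a0 := mm_series 0 3 0.0625 (by norm_num)
  have a2 := mm_series 2 3 0.0625 (by norm_num)
  have b0 := mm_series 0 3 0.3025 (by norm_num)
  have b2 := mm_series 2 3 0.3025 (by norm_num)
  have b4 := mm_series 4 3 0.3025 (by norm_num)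
  have a0l : (0.98968026 : ℝ) ≤ mm 0 0.0625 := by
    refine le_trans ?_ a0.1
    norm_num [Finset.sum_range_succ, Nat.factorial]
  have a0u : mm 0 0.0625 ≤ (0.98968028 : ℝ) := by
    refine le_trans a0.2 ?_
    norm_num [Finset.sum_range_succ, Nat.factorial]
  have a2l : (0.32715252 : ℝ) ≤ mm 2 0.0625 := by
    refine le_trans ?_ a2.1
    norm_num [Finset.sum_range_succ, Nat.factorial]
  have a2u : mm 2 0.0625 ≤ (0.32715253 : ℝ) := by
    refine le_trans a2.2 ?_
    norm_num [Finset.sum_range_succ, Nat.factorial]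
  have b0l : (0.95179096 : ℝ) ≤ mm 0 0.3025 := by
    refine le_trans ?_ b0.1
    norm_num [Finset.sum_range_succ, Nat.factorial]
  have b0u : mm 0 0.3025 ≤ (0.95179098 : ℝ) := by
    refine le_trans b0.2 ?_
    norm_num [Finset.sum_range_succ, Nat.factorial]
  have b2l : (0.3046552 : ℝ) ≤ mm 2 0.3025 := by
    refine le_trans ?_ b2.1
    norm_num [Finset.sum_range_succ, Nat.factorial]
  have b2u : mm 2 0.3025 ≤ (0.3046553 : ℝ) := by
    refine le_trans b2.2 ?_
    norm_num [Finset.sum_range_succ, Nat.factorial]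
  have b4l : (0.1796129 : ℝ) ≤ mm 4 0.3025 := by
    refine le_trans ?_ b4.1
    norm_num [Finset.sum_range_succ, Nat.factorial]
  have b4u : mm 4 0.3025 ≤ (0.179613 : ℝ) := by
    refine le_trans b4.2 ?_
    norm_num [Finset.sum_range_succ, Nat.factorial]
  have a0p : 0 < mm 0 0.0625 := by linarith
  have b0p : 0 < mm 0 0.3025 := by linarith
  have b2p : 0 < mm 2 0.3025 := by linarith
  refine ⟨?_, ?_, ?_⟩
  · apply tan_PP 0.0625
    · rw [div_div, div_le_iff₀ (by positivity)]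
      linarith
    · apply j9167_key (mlo := 0.98968026) (rlo := 0.330563) (t := -0.47236) _ _ _ _ a0l
        (by norm_num) ?_ (by norm_num) (by norm_num) j9167_exp1
      rw [le_div_iff₀ a0p]
      linarith
  · apply tan_PP 0.3025
    · rw [div_div, div_le_iff₀ (by positivity)]
      linarith
    · apply j9167_key (mlo := 0.95179096) (rlo := 0.320086) (t := -0.550426) _ _ _ _ b0l
        (by norm_num) ?_ (by norm_num) (by norm_num) j9167_exp2
      rw [le_div_iff₀ b0p]
      linarith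
  · apply tan_S3 0.3025
    · rw [div_div, div_le_iff₀ (by positivity)]
      linarith
    · apply j9167_key (mlo := 0.3046552) (rlo := 0.589561) (t := -2.828762) _ _ _ _ b2l
        (by norm_num) ?_ (by norm_num) (by norm_num) j9167_exp3
      rw [le_div_iff₀ b2p]
      linarith


end Pool.Agent.VPK.K9A
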