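import Pool.Agent.VPK.Defs

set_option autoImplicit false
open MeasureTheory ProbabilityTheory
open scoped ENNReal Matrix

namespace Pool.Agent.VPK.K9B

open Pool.Agent.VPK



































lemma le_log_of_9168 (q x : ℝ) (n : ℕ) (hq : 0 ≤ q) (hx : 0 < x)
    (h : 1 ≤ x * ∑ i ∈ Finset.range n, q ^ i / (i.factorial : ℝ)) : -q ≤ Real.log x := by
  rw [Real.le_log_iff_exp_le hx, Real.exp_neg, inv_le_iff_one_le_mul₀ (Real.exp_pos _)]
  exact h.trans (mul_le_mul_of_nonneg_left (Real.sum_le_exp_of_nonneg hq n) hx.le)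

lemma log_two_div_pi_9168 : -(4515829 / 10000000 : ℝ) ≤ Real.log (2 / Real.pi) := by
  refine le_log_of_9168 _ _ 11 (by norm_num) (by positivity) ?_
  have h1 : (2 : ℝ) / 3.141593 ≤ 2 / Real.pi :=
    div_le_div_of_nonneg_left (by norm_num) Real.pi_pos Real.pi_lt_d6.le
  refine le_trans ?_ (mul_le_mul_of_nonneg_right h1 (by positivity))
  norm_num [Finset.sum_range_succ, Nat.factorial]

/-- the two conditions of the tangent bounds from rational enclosures -/
lemma tangent_conds_9168 (y0 C α M0 M2 L0 U0 L2 U2 q r : ℝ) (hy : 0 ≤ y0)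
    (h0 : L0 ≤ M0) (h0' : M0 ≤ U0) (h2 : L2 ≤ M2) (h2' : M2 ≤ U2)
    (hL0 : 0 < L0) (hL2 : 0 < L2)
    (hC : U2 ≤ 2 * C * L0) (hCp : 0 ≤ C)
    (hq : -q ≤ Real.log L0) (hr : r * U0 ≤ L2) (hrp : 0 ≤ r)
    (hα : α ≤ -(4515829 / 10000000 : ℝ) / 2 + (-q) + y0 * r / 2) :
    M2 / M0 / 2 ≤ C ∧
    α ≤ Real.log (2 / Real.pi) / 2 + Real.log M0 + y0 * (M2 / M0) / 2 := by
  have hM0 : 0 < M0 := hL0.trans_le h0
  constructor
  · rw [div_div, div_le_iff₀ (by positivity)]
    have : 2 * C * L0 ≤ 2 * C * M0 := mul_le_mul_of_nonneg_left h0 (by positivity)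
    linarith
  · have e1 := log_two_div_pi_9168
    have e2 : Real.log L0 ≤ Real.log M0 := Real.log_le_log hL0 h0
    have e3 : r ≤ M2 / M0 := by
      rw [le_div_iff₀ hM0]
      have : r * M0 ≤ r * U0 := mul_le_mul_of_nonneg_left h0' hrp
      linarith
    have e4 : y0 * r ≤ y0 * (M2 / M0) := mul_le_mul_of_nonneg_left e3 hy
    linarith

theorem cell_tangents_B
    (mm_series : ∀ (k N : ℕ) (y : ℝ), 0 ≤ y →
      (∑ j ∈ Finset.range (2 * N), (-(y / 2)) ^ j / ((j.factorial : ℝ) * (2 * j + k + 1)) ≤ mm k y) ∧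
      mm k y ≤ ∑ j ∈ Finset.range (2 * N + 1), (-(y / 2)) ^ j / ((j.factorial : ℝ) * (2 * j + k + 1)))
    (tan_PP : ∀ (y0 C α : ℝ), mm 2 y0 / mm 0 y0 / 2 ≤ C →
      α ≤ Real.log (2 / Real.pi) / 2 + Real.log (mm 0 y0) + y0 * (mm 2 y0 / mm 0 y0) / 2 →
      ∀ (x : ℝ), 0 < x → Real.exp α * x * Real.exp (-C * x ^ 2) ≤ PP x)
    (tan_S3 : ∀ (y0 C α : ℝ), mm 4 y0 / mm 2 y0 / 2 ≤ C →
      α ≤ Real.log (2 / Real.pi) / 2 + Real.log (mm 2 y0) + y0 * (mm 4 y0 / mm 2 y0) / 2 →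
      ∀ (x : ℝ), 0 < x → Real.exp α * x ^ 3 * Real.exp (-C * x ^ 2) ≤ S3 x) :
    (∀ x : ℝ, 0 < x → Real.exp (-0.24349) * x * Real.exp (-(0.13928) * x ^ 2) ≤ PP x) ∧
    (∀ x : ℝ, 0 < x → Real.exp (-0.27315) * x * Real.exp (-(0.12259) * x ^ 2) ≤ PP x) ∧
    (∀ x : ℝ, 0 < x → Real.exp (-1.36972) * x ^ 3 * Real.exp (-(0.26011) * x ^ 2) ≤ S3 x) := by
  refine ⟨?_, ?_, ?_⟩
  · obtain ⟨a1, a2⟩ := mm_series 0 7 (529 / 400 : ℝ) (by norm_num)
    obtain ⟨b1, b2⟩ := mm_series 2 7 (529 / 400 : ℝ) (by norm_num)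
    have A1 : (817221960 / 1000000000 : ℝ) ≤ mm 0 (529 / 400 : ℝ) := by
      refine le_trans ?_ a1
      norm_num [Finset.sum_range_succ, Nat.factorial]
    have A2 : mm 0 (529 / 400 : ℝ) ≤ (817222010 / 1000000000 : ℝ) := by
      refine le_trans a2 ?_
      norm_num [Finset.sum_range_succ, Nat.factorial]
    have B1 : (227611560 / 1000000000 : ℝ) ≤ mm 2 (529 / 400 : ℝ) := by
      refine le_trans ?_ b1
      norm_num [Finset.sum_range_succ, Nat.factorial]
    have B2 : mm 2 (529 / 400 : ℝ) ≤ (227611610 / 1000000000 : ℝ) := by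
      refine le_trans b2 ?_
      norm_num [Finset.sum_range_succ, Nat.factorial]
    have hq : -(201844570 / 1000000000 : ℝ) ≤ Real.log (817221960 / 1000000000 : ℝ) := by
      refine le_log_of_9168 _ _ 14 (by norm_num) (by norm_num) ?_
      norm_num [Finset.sum_range_succ, Nat.factorial]
    obtain ⟨c1, c2⟩ := tangent_conds_9168 (529 / 400 : ℝ) 0.13928 (-0.24349) (mm 0 (529 / 400 : ℝ)) (mm 2 (529 / 400 : ℝ))
      (817221960 / 1000000000) (817222010 / 1000000000) (227611560 / 1000000000) (227611610 / 1000000000) (201844570 / 1000000000) (278518610 / 1000000000) (by norm_num)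
      A1 A2 B1 B2 (by norm_num) (by norm_num) (by norm_num) (by norm_num) hq (by norm_num)
      (by norm_num) (by norm_num)
    exact tan_PP (529 / 400 : ℝ) 0.13928 (-0.24349) c1 c2
  · obtain ⟨a1, a2⟩ := mm_series 0 7 (9 / 4 : ℝ) (by norm_num)
    obtain ⟨b1, b2⟩ := mm_series 2 7 (9 / 4 : ℝ) (by norm_num)
    have A1 : (723902190 / 1000000000 : ℝ) ≤ mm 0 (9 / 4 : ℝ) := by
      refine le_trans ?_ a1
      norm_num [Finset.sum_range_succ, Nat.factorial]
    have A2 : mm 0 (9 / 4 : ℝ) ≤ (723902240 / 1000000000 : ℝ) := by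
      refine le_trans a2 ?_
      norm_num [Finset.sum_range_succ, Nat.factorial]
    have B1 : (177444310 / 1000000000 : ℝ) ≤ mm 2 (9 / 4 : ℝ) := by
      refine le_trans ?_ b1
      norm_num [Finset.sum_range_succ, Nat.factorial]
    have B2 : mm 2 (9 / 4 : ℝ) ≤ (177444360 / 1000000000 : ℝ) := by
      refine le_trans b2 ?_
      norm_num [Finset.sum_range_succ, Nat.factorial]
    have hq : -(323099020 / 1000000000 : ℝ) ≤ Real.log (723902190 / 1000000000 : ℝ) := by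
      refine le_log_of_9168 _ _ 14 (by norm_num) (by norm_num) ?_
      norm_num [Finset.sum_range_succ, Nat.factorial]
    obtain ⟨c1, c2⟩ := tangent_conds_9168 (9 / 4 : ℝ) 0.12259 (-0.27315) (mm 0 (9 / 4 : ℝ)) (mm 2 (9 / 4 : ℝ))
      (723902190 / 1000000000) (723902240 / 1000000000) (177444310 / 1000000000) (177444360 / 1000000000) (323099020 / 1000000000) (245121900 / 1000000000) (by norm_num)
      A1 A2 B1 B2 (by norm_num) (by norm_num) (by norm_num) (by norm_num) hq (by norm_num)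
      (by norm_num) (by norm_num)
    exact tan_PP (9 / 4 : ℝ) 0.12259 (-0.27315) c1 c2
  · obtain ⟨a1, a2⟩ := mm_series 2 7 (9 / 4 : ℝ) (by norm_num)
    obtain ⟨b1, b2⟩ := mm_series 4 7 (9 / 4 : ℝ) (by norm_num)
    have A1 : (177444310 / 1000000000 : ℝ) ≤ mm 2 (9 / 4 : ℝ) := by
      refine le_trans ?_ a1
      norm_num [Finset.sum_range_succ, Nat.factorial]
    have A2 : mm 2 (9 / 4 : ℝ) ≤ (177444360 / 1000000000 : ℝ) := by
      refine le_trans a2 ?_
      norm_num [Finset.sum_range_succ, Nat.factorial]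
    have B1 : (92302430 / 1000000000 : ℝ) ≤ mm 4 (9 / 4 : ℝ) := by
      refine le_trans ?_ b1
      norm_num [Finset.sum_range_succ, Nat.factorial]
    have B2 : mm 4 (9 / 4 : ℝ) ≤ (92302480 / 1000000000 : ℝ) := by
      refine le_trans b2 ?_
      norm_num [Finset.sum_range_succ, Nat.factorial]
    have hq : -(1729098490 / 1000000000 : ℝ) ≤ Real.log (177444310 / 1000000000 : ℝ) := by
      refine le_log_of_9168 _ _ 14 (by norm_num) (by norm_num) ?_
      norm_num [Finset.sum_range_succ, Nat.factorial]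
    obtain ⟨c1, c2⟩ := tangent_conds_9168 (9 / 4 : ℝ) 0.26011 (-1.36972) (mm 2 (9 / 4 : ℝ)) (mm 4 (9 / 4 : ℝ))
      (177444310 / 1000000000) (177444360 / 1000000000) (92302430 / 1000000000) (92302480 / 1000000000) (1729098490 / 1000000000) (520176720 / 1000000000) (by norm_num)
      A1 A2 B1 B2 (by norm_num) (by norm_num) (by norm_num) (by norm_num) hq (by norm_num)
      (by norm_num) (by norm_num)
    exact tan_S3 (9 / 4 : ℝ) 0.26011 (-1.36972) c1 c2


end Pool.Agent.VPK.K9B
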