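import Pool.Agent.VPK.Defs

set_option autoImplicit false
open MeasureTheory ProbabilityTheory
open scoped ENNReal Matrix

namespace Pool.Agent.VPK.K9C

open Pool.Agent.VPK


































theorem cellC_le_log (x d : ℝ) (n : ℕ) (hx : 0 < x) (hd : 0 ≤ d)
    (h : x⁻¹ ≤ ∑ i ∈ Finset.range n, d ^ i / (i.factorial : ℝ)) : -d ≤ Real.log x := by
  rw [Real.le_log_iff_exp_le hx, Real.exp_neg]
  have h1 : x⁻¹ ≤ Real.exp d := h.trans (Real.sum_le_exp_of_nonneg hd n)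
  exact inv_le_of_inv_le₀ hx h1

theorem cellC_log2pi : -(0.451584 : ℝ) ≤ Real.log (2 / Real.pi) := by
  have h1 : (2 : ℝ) / 3.141593 ≤ 2 / Real.pi :=
    div_le_div_of_nonneg_left (by norm_num) Real.pi_pos Real.pi_lt_d6.le
  have h2 : -(0.451584 : ℝ) ≤ Real.log (2 / 3.141593) := by
    apply cellC_le_log _ _ 10 (by norm_num) (by norm_num)
    norm_num [Finset.sum_range_succ, Nat.factorial]
  exact h2.trans (Real.log_le_log (by norm_num) h1)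

theorem cell_tangents_C
    (mm_series : ∀ (k N : ℕ) (y : ℝ), 0 ≤ y →
      (∑ j ∈ Finset.range (2 * N), (-(y / 2)) ^ j / ((j.factorial : ℝ) * (2 * j + k + 1)) ≤ mm k y) ∧
      mm k y ≤ ∑ j ∈ Finset.range (2 * N + 1), (-(y / 2)) ^ j / ((j.factorial : ℝ) * (2 * j + k + 1)))
    (tan_PP : ∀ (y0 C α : ℝ), mm 2 y0 / mm 0 y0 / 2 ≤ C →
      α ≤ Real.log (2 / Real.pi) / 2 + Real.log (mm 0 y0) + y0 * (mm 2 y0 / mm 0 y0) / 2 →
      ∀ (x : ℝ), 0 < x → Real.exp α * x * Real.exp (-C * x ^ 2) ≤ PP x)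
    (tan_S3 : ∀ (y0 C α : ℝ), mm 4 y0 / mm 2 y0 / 2 ≤ C →
      α ≤ Real.log (2 / Real.pi) / 2 + Real.log (mm 2 y0) + y0 * (mm 4 y0 / mm 2 y0) / 2 →
      ∀ (x : ℝ), 0 < x → Real.exp α * x ^ 3 * Real.exp (-C * x ^ 2) ≤ S3 x) :
    (∀ x : ℝ, 0 < x → Real.exp (-0.29225) * x * Real.exp (-(0.1149) * x ^ 2) ≤ PP x) ∧
    (∀ x : ℝ, 0 < x → Real.exp (-0.4212) * x * Real.exp (-(0.08196) * x ^ 2) ≤ PP x) ∧
    (∀ x : ℝ, 0 < x → Real.exp (-1.56965) * x ^ 3 * Real.exp (-(0.20677) * x ^ 2) ≤ S3 x) := by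
  have hl := cellC_log2pi
  -- enclosures
  have a0 := mm_series 0 8 (1.65 ^ 2) (by norm_num)
  have a2 := mm_series 2 8 (1.65 ^ 2) (by norm_num)
  have b0 := mm_series 0 9 (2.3 ^ 2) (by norm_num)
  have b2 := mm_series 2 9 (2.3 ^ 2) (by norm_num)
  have b4 := mm_series 4 9 (2.3 ^ 2) (by norm_num)
  have A0l : (0.68442882 : ℝ) ≤ mm 0 (1.65 ^ 2) := by
    refine le_trans ?_ a0.1
    norm_num [Finset.sum_range_succ, Nat.factorial]
  have A0u : mm 0 (1.65 ^ 2) ≤ (0.68442883 : ℝ) := by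
    refine le_trans a0.2 ?_
    norm_num [Finset.sum_range_succ, Nat.factorial]
  have A2l : (0.15724101 : ℝ) ≤ mm 2 (1.65 ^ 2) := by
    refine le_trans ?_ a2.1
    norm_num [Finset.sum_range_succ, Nat.factorial]
  have A2u : mm 2 (1.65 ^ 2) ≤ (0.15724102 : ℝ) := by
    refine le_trans a2.2 ?_
    norm_num [Finset.sum_range_succ, Nat.factorial]
  have B0l : (0.53323164 : ℝ) ≤ mm 0 (2.3 ^ 2) := by
    refine le_trans ?_ b0.1
    norm_num [Finset.sum_range_succ, Nat.factorial]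
  have B0u : mm 0 (2.3 ^ 2) ≤ (0.53323165 : ℝ) := by
    refine le_trans b0.2 ?_
    norm_num [Finset.sum_range_succ, Nat.factorial]
  have B2l : (0.08737737 : ℝ) ≤ mm 2 (2.3 ^ 2) := by
    refine le_trans ?_ b2.1
    norm_num [Finset.sum_range_succ, Nat.factorial]
  have B2u : mm 2 (2.3 ^ 2) ≤ (0.08737738 : ℝ) := by
    refine le_trans b2.2 ?_
    norm_num [Finset.sum_range_succ, Nat.factorial]
  have B4l : (0.03612982 : ℝ) ≤ mm 4 (2.3 ^ 2) := by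
    refine le_trans ?_ b4.1
    norm_num [Finset.sum_range_succ, Nat.factorial]
  have B4u : mm 4 (2.3 ^ 2) ≤ (0.03612983 : ℝ) := by
    refine le_trans b4.2 ?_
    norm_num [Finset.sum_range_succ, Nat.factorial]
  clear a0 a2 b0 b2 b4
  -- logarithms
  have LA : -(0.379172 : ℝ) ≤ Real.log (mm 0 (1.65 ^ 2)) := by
    refine le_trans ?_ (Real.log_le_log (by norm_num) A0l)
    apply cellC_le_log _ _ 10 (by norm_num) (by norm_num)
    norm_num [Finset.sum_range_succ, Nat.factorial]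
  have LB : -(0.628801 : ℝ) ≤ Real.log (mm 0 (2.3 ^ 2)) := by
    refine le_trans ?_ (Real.log_le_log (by norm_num) B0l)
    apply cellC_le_log _ _ 12 (by norm_num) (by norm_num)
    norm_num [Finset.sum_range_succ, Nat.factorial]
  have LC : -(2.437521 : ℝ) ≤ Real.log (mm 2 (2.3 ^ 2)) := by
    refine le_trans ?_ (Real.log_le_log (by norm_num) B2l)
    apply cellC_le_log _ _ 18 (by norm_num) (by norm_num)
    norm_num [Finset.sum_range_succ, Nat.factorial]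
  have RA : mm 2 (1.65 ^ 2) / mm 0 (1.65 ^ 2) ≤ 0.15724102 / 0.68442882 :=
    div_le_div₀ (by norm_num) A2u (by norm_num) A0l
  have RA' : (0.15724101 : ℝ) / 0.68442883 ≤ mm 2 (1.65 ^ 2) / mm 0 (1.65 ^ 2) :=
    div_le_div₀ (by linarith) A2l (by linarith) A0u
  have RB : mm 2 (2.3 ^ 2) / mm 0 (2.3 ^ 2) ≤ 0.08737738 / 0.53323164 :=
    div_le_div₀ (by norm_num) B2u (by norm_num) B0l
  have RB' : (0.08737737 : ℝ) / 0.53323165 ≤ mm 2 (2.3 ^ 2) / mm 0 (2.3 ^ 2) :=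
    div_le_div₀ (by linarith) B2l (by linarith) B0u
  have RC : mm 4 (2.3 ^ 2) / mm 2 (2.3 ^ 2) ≤ 0.03612983 / 0.08737737 :=
    div_le_div₀ (by norm_num) B4u (by norm_num) B2l
  have RC' : (0.03612982 : ℝ) / 0.08737738 ≤ mm 4 (2.3 ^ 2) / mm 2 (2.3 ^ 2) :=
    div_le_div₀ (by linarith) B4l (by linarith) B2u
  refine ⟨tan_PP (1.65 ^ 2) 0.1149 (-0.29225) ?_ ?_, tan_PP (2.3 ^ 2) 0.08196 (-0.4212) ?_ ?_,
    tan_S3 (2.3 ^ 2) 0.20677 (-1.56965) ?_ ?_⟩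
  · have h1 : (0.15724102 : ℝ) / 0.68442882 / 2 ≤ 0.1149 := by norm_num
    linarith
  · have h1 : (-0.29225 : ℝ) ≤ -(0.451584 : ℝ) / 2 + -(0.379172 : ℝ) +
        1.65 ^ 2 * (0.15724101 / 0.68442883) / 2 := by norm_num
    have h2 : (1.65 : ℝ) ^ 2 * (0.15724101 / 0.68442883) ≤
        1.65 ^ 2 * (mm 2 (1.65 ^ 2) / mm 0 (1.65 ^ 2)) :=
      mul_le_mul_of_nonneg_left RA' (by norm_num)
    linarith
  · have h1 : (0.08737738 : ℝ) / 0.53323164 / 2 ≤ 0.08196 := by norm_num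
    linarith
  · have h1 : (-0.4212 : ℝ) ≤ -(0.451584 : ℝ) / 2 + -(0.628801 : ℝ) +
        2.3 ^ 2 * (0.08737737 / 0.53323165) / 2 := by norm_num
    have h2 : (2.3 : ℝ) ^ 2 * (0.08737737 / 0.53323165) ≤
        2.3 ^ 2 * (mm 2 (2.3 ^ 2) / mm 0 (2.3 ^ 2)) :=
      mul_le_mul_of_nonneg_left RB' (by norm_num)
    linarith
  · have h1 : (0.03612983 : ℝ) / 0.08737737 / 2 ≤ 0.20677 := by norm_num
    linarith
  · have h1 : (-1.56965 : ℝ) ≤ -(0.451584 : ℝ) / 2 + -(2.437521 : ℝ) +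
        2.3 ^ 2 * (0.03612982 / 0.08737738) / 2 := by norm_num
    have h2 : (2.3 : ℝ) ^ 2 * (0.03612982 / 0.08737738) ≤
        2.3 ^ 2 * (mm 4 (2.3 ^ 2) / mm 2 (2.3 ^ 2)) :=
      mul_le_mul_of_nonneg_left RC' (by norm_num)
    linarith


end Pool.Agent.VPK.K9C
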