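import Pool.Agent.VPK.Defs

set_option autoImplicit false
open MeasureTheory ProbabilityTheory
open scoped ENNReal Matrix

namespace Pool.Agent.VPK.K9D

open Pool.Agent.VPK


































theorem tangent_aux (M0 M2 y0 a0 b0 a2 b2 C α T x : ℝ) (n : ℕ) (ha0 : 0 < a0) (h0 : a0 ≤ M0)
    (h0' : M0 ≤ b0) (h2 : a2 ≤ M2) (h2' : M2 ≤ b2) (hy : 0 ≤ y0) (ha2 : 0 ≤ a2)
    (hC : b2 ≤ 2 * C * a0) (hT : 2 * T * b0 ≤ y0 * a2) (hx : 0 ≤ x)
    (hexp : 3.141593 ≤ 2 * a0 ^ 2 * ∑ k ∈ Finset.range n, x ^ k / (k.factorial : ℝ))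
    (hα : α ≤ -x / 2 + T) :
    M2 / M0 / 2 ≤ C ∧ α ≤ Real.log (2 / Real.pi) / 2 + Real.log M0 + y0 * (M2 / M0) / 2 := by
  have hM0 : 0 < M0 := ha0.trans_le h0
  have hb0 : 0 < b0 := hM0.trans_le h0'
  have hb2 : 0 ≤ b2 := (ha2.trans h2).trans h2'
  constructor
  · have h1 : M2 / M0 ≤ b2 / a0 := div_le_div₀ hb2 h2' ha0 h0
    have h3 : b2 / a0 ≤ 2 * C := (div_le_iff₀ ha0).mpr hC
    linarith
  · have h1 : a2 / b0 ≤ M2 / M0 := div_le_div₀ (ha2.trans h2) h2 hM0 h0'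
    have h3 : T ≤ y0 * (a2 / b0) / 2 := by
      have : y0 * (a2 / b0) / 2 = y0 * a2 / (2 * b0) := by field_simp
      rw [this, le_div_iff₀ (by positivity)]
      linarith
    have h4 : y0 * (a2 / b0) ≤ y0 * (M2 / M0) := mul_le_mul_of_nonneg_left h1 hy
    have h5 : -x ≤ Real.log (2 / Real.pi * M0 ^ 2) := by
      rw [Real.le_log_iff_exp_le (by positivity)]
      rw [Real.exp_neg]
      have h6 := Real.sum_le_exp_of_nonneg hx n
      have h7 : Real.pi ≤ 2 * M0 ^ 2 * Real.exp x := by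
        have h8 := Real.pi_lt_d6
        have h9 : 2 * a0 ^ 2 * ∑ k ∈ Finset.range n, x ^ k / (k.factorial : ℝ)
            ≤ 2 * M0 ^ 2 * Real.exp x := by
          refine mul_le_mul ?_ h6 ?_ (by positivity)
          · have := pow_le_pow_left₀ ha0.le h0 2
            linarith
          · exact Finset.sum_nonneg fun i _ => by positivity
        linarith
      rw [inv_le_iff_one_le_mul₀ (Real.exp_pos x)]
      rw [div_mul_eq_mul_div, div_mul_eq_mul_div, le_div_iff₀ Real.pi_pos, one_mul]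
      exact h7
    rw [Real.log_mul (by positivity) (by positivity), Real.log_pow] at h5
    push_cast at h5
    linarith

theorem cell_tangents_D
    (mm_series : ∀ (k N : ℕ) (y : ℝ), 0 ≤ y →
      (∑ j ∈ Finset.range (2 * N), (-(y / 2)) ^ j / ((j.factorial : ℝ) * (2 * j + k + 1)) ≤ mm k y) ∧
      mm k y ≤ ∑ j ∈ Finset.range (2 * N + 1), (-(y / 2)) ^ j / ((j.factorial : ℝ) * (2 * j + k + 1)))
    (tan_PP : ∀ (y0 C α : ℝ), mm 2 y0 / mm 0 y0 / 2 ≤ C →
      α ≤ Real.log (2 / Real.pi) / 2 + Real.log (mm 0 y0) + y0 * (mm 2 y0 / mm 0 y0) / 2 →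
      ∀ (x : ℝ), 0 < x → Real.exp α * x * Real.exp (-C * x ^ 2) ≤ PP x)
    (tan_S3 : ∀ (y0 C α : ℝ), mm 4 y0 / mm 2 y0 / 2 ≤ C →
      α ≤ Real.log (2 / Real.pi) / 2 + Real.log (mm 2 y0) + y0 * (mm 4 y0 / mm 2 y0) / 2 →
      ∀ (x : ℝ), 0 < x → Real.exp α * x ^ 3 * Real.exp (-C * x ^ 2) ≤ S3 x) :
    (∀ x : ℝ, 0 < x → Real.exp (-0.3633) * x * Real.exp (-(0.0942) * x ^ 2) ≤ PP x) ∧
    (∀ x : ℝ, 0 < x → Real.exp (-0.55704) * x * Real.exp (-(0.06096) * x ^ 2) ≤ PP x) ∧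
    (∀ x : ℝ, 0 < x → Real.exp (-1.82238) * x ^ 3 * Real.exp (-(0.16804) * x ^ 2) ≤ S3 x) := by
  refine ⟨?_, ?_, ?_⟩
  · have h0 := mm_series 0 8 (2.05 ^ 2) (by norm_num)
    have h2 := mm_series 2 8 (2.05 ^ 2) (by norm_num)
    obtain ⟨h, h'⟩ := tangent_aux (mm 0 (2.05 ^ 2)) (mm 2 (2.05 ^ 2)) (2.05 ^ 2) 0.58669503
      0.58669504 0.11050364 0.11050366 0.0942 (-0.3633) 0.395769 1.518138 16 (by norm_num)
      (le_trans (by norm_num [Finset.sum_range_succ, Nat.factorial]) h0.1)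
      (le_trans h0.2 (by norm_num [Finset.sum_range_succ, Nat.factorial]))
      (le_trans (by norm_num [Finset.sum_range_succ, Nat.factorial]) h2.1)
      (le_trans h2.2 (by norm_num [Finset.sum_range_succ, Nat.factorial]))
      (by norm_num) (by norm_num) (by norm_num) (by norm_num) (by norm_num)
      (by norm_num [Finset.sum_range_succ, Nat.factorial]) (by norm_num)
    exact tan_PP _ _ _ h h'
  · have h0 := mm_series 0 10 (2.8 ^ 2) (by norm_num)
    have h2 := mm_series 2 10 (2.8 ^ 2) (by norm_num)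
    obtain ⟨h, h'⟩ := tangent_aux (mm 0 (2.8 ^ 2)) (mm 2 (2.8 ^ 2)) (2.8 ^ 2) 0.44532477
      0.44532478 0.05427087 0.05427088 0.06096 (-0.55704) 0.477722 2.069524 16 (by norm_num)
      (le_trans (by norm_num [Finset.sum_range_succ, Nat.factorial]) h0.1)
      (le_trans h0.2 (by norm_num [Finset.sum_range_succ, Nat.factorial]))
      (le_trans (by norm_num [Finset.sum_range_succ, Nat.factorial]) h2.1)
      (le_trans h2.2 (by norm_num [Finset.sum_range_succ, Nat.factorial]))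
      (by norm_num) (by norm_num) (by norm_num) (by norm_num) (by norm_num)
      (by norm_num [Finset.sum_range_succ, Nat.factorial]) (by norm_num)
    exact tan_PP _ _ _ h h'
  · have h0 := mm_series 2 10 (2.8 ^ 2) (by norm_num)
    have h2 := mm_series 4 10 (2.8 ^ 2) (by norm_num)
    obtain ⟨h, h'⟩ := tangent_aux (mm 2 (2.8 ^ 2)) (mm 4 (2.8 ^ 2)) (2.8 ^ 2) 0.05427087
      0.05427088 0.01823615 0.01823617 0.16804 (-1.82238) 1.317201 6.279162 24 (by norm_num)
      (le_trans (by norm_num [Finset.sum_range_succ, Nat.factorial]) h0.1)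
      (le_trans h0.2 (by norm_num [Finset.sum_range_succ, Nat.factorial]))
      (le_trans (by norm_num [Finset.sum_range_succ, Nat.factorial]) h2.1)
      (le_trans h2.2 (by norm_num [Finset.sum_range_succ, Nat.factorial]))
      (by norm_num) (by norm_num) (by norm_num) (by norm_num) (by norm_num)
      (by norm_num [Finset.sum_range_succ, Nat.factorial]) (by norm_num)
    exact tan_S3 _ _ _ h h'


end Pool.Agent.VPK.K9D
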