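import Pool.Agent.VPK.Defs

set_option autoImplicit false
open MeasureTheory ProbabilityTheory
open scoped ENNReal Matrix

namespace Pool.Agent.VPK.K9Z

open Pool.Agent.VPK


































theorem mm_at_zero (k : ℕ) : mm k 0 = 1 / (k + 1) := by
  unfold mm
  have h : ∀ u : ℝ, u ^ k * Real.exp (-(0 * u ^ 2) / 2) = u ^ k := by
    intro u; simp
  simp only [h, integral_pow]
  simp

theorem cell_tangents_Z
    (tan_PP : ∀ (y0 C α : ℝ), mm 2 y0 / mm 0 y0 / 2 ≤ C →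
      α ≤ Real.log (2 / Real.pi) / 2 + Real.log (mm 0 y0) + y0 * (mm 2 y0 / mm 0 y0) / 2 →
      ∀ (x : ℝ), 0 < x → Real.exp α * x * Real.exp (-C * x ^ 2) ≤ PP x)
    (tan_S3 : ∀ (y0 C α : ℝ), mm 4 y0 / mm 2 y0 / 2 ≤ C →
      α ≤ Real.log (2 / Real.pi) / 2 + Real.log (mm 2 y0) + y0 * (mm 4 y0 / mm 2 y0) / 2 →
      ∀ (x : ℝ), 0 < x → Real.exp α * x ^ 3 * Real.exp (-C * x ^ 2) ≤ S3 x) :
    (∀ x : ℝ, 0 < x → Real.exp (-Real.log (Real.pi / 2) / 2) * x * Real.exp (-(1 / 6) * x ^ 2) ≤ PP x) ∧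
    (∀ x : ℝ, 0 < x → Real.exp (-Real.log (Real.pi / 2) / 2 - Real.log 3) * x ^ 3 *
      Real.exp (-(3 / 10) * x ^ 2) ≤ S3 x) := by
  have h0 : mm 0 0 = 1 := by rw [mm_at_zero]; norm_num
  have h2 : mm 2 0 = 1 / 3 := by rw [mm_at_zero]; norm_num
  have h4 : mm 4 0 = 1 / 5 := by rw [mm_at_zero]; norm_num
  have hlog : Real.log (2 / Real.pi) = - Real.log (Real.pi / 2) := by
    rw [← Real.log_inv, inv_div]
  constructor
  · apply tan_PP 0
    · rw [h0, h2]; norm_num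
    · rw [h0, h2, hlog, Real.log_one]
      apply le_of_eq; ring
  · apply tan_S3 0
    · rw [h2, h4]; norm_num
    · rw [h2, h4, hlog, show (1 / 3 : ℝ) = (3 : ℝ)⁻¹ by norm_num, Real.log_inv]
      apply le_of_eq; ring


end Pool.Agent.VPK.K9Z
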