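import Pool.Agent.VPK.Defs

set_option autoImplicit false
open MeasureTheory ProbabilityTheory
open scoped ENNReal Matrix

namespace Pool.Agent.VPK.L65

open Pool.Agent.VPK






























theorem ph_eq (x : ℝ) : gaussianPDFReal 0 1 x = ph x := by
  unfold gaussianPDFReal ph
  simp only [NNReal.coe_one, mul_one, sub_zero]
  exact (div_eq_inv_mul _ _).symm

theorem ph_cont : Continuous ph := by
  unfold ph
  fun_prop

theorem ph_nonneg (x : ℝ) : 0 ≤ ph x := by unfold ph; positivity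

theorem ph_even (x : ℝ) : ph (-x) = ph x := by unfold ph; rw [neg_sq]

theorem ph_anti {x y : ℝ} (h : |x| ≤ |y|) : ph y ≤ ph x := by
  unfold ph
  apply div_le_div_of_nonneg_right _ (by positivity)
  apply Real.exp_le_exp.2
  have := sq_le_sq.2 h
  linarith

noncomputable def F0 (y : ℝ) : ℝ := ∫ t in (0:ℝ)..y, ph t

theorem F0_sub (u v : ℝ) : ∫ t in u..v, ph t = F0 v - F0 u := by
  unfold F0
  rw [intervalIntegral.integral_interval_sub_left (ph_cont.intervalIntegrable _ _)
    (ph_cont.intervalIntegrable _ _)]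

theorem F0_neg (y : ℝ) : F0 (-y) = - F0 y := by
  unfold F0
  have h := intervalIntegral.integral_comp_neg (f := ph) (a := 0) (b := y)
  simp only [ph_even, neg_zero] at h
  rw [h, intervalIntegral.integral_symm]

theorem PP_F0 (y : ℝ) : PP y = 2 * F0 y := rfl

theorem gauss_Icc (u v : ℝ) (h : u ≤ v) :
    gaussianReal 0 1 (Set.Icc u v) = ENNReal.ofReal (F0 v - F0 u) := by
  rw [gaussianReal_apply_eq_integral 0 one_ne_zero, ← F0_sub, intervalIntegral.integral_of_le h,
    integral_Icc_eq_integral_Ioc]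
  simp only [ph_eq]

theorem om_eq (a b : ℝ) (hb : 0 ≤ b) : om a b = ENNReal.ofReal ((PP (a + b) - PP (a - b)) / 2) := by
  unfold om
  have h : {t : ℝ | |t - a| ≤ b} = Set.Icc (a - b) (a + b) := by
    ext t
    simp only [Set.mem_ofPred_eq, Set.mem_Icc, abs_le]
    constructor
    · rintro ⟨h1, h2⟩; constructor <;> linarith
    · rintro ⟨h1, h2⟩; constructor <;> linarith
  rw [h, gauss_Icc _ _ (by linarith), PP_F0, PP_F0]
  congr 1
  ring

theorem SS_eq (x : ℝ) (hx : 0 ≤ x) : SS x = ENNReal.ofReal (PP x) := by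
  unfold SS
  have h : {t : ℝ | |t| < x} = Set.Ioo (-x) x := by
    ext t
    simp only [Set.mem_ofPred_eq, Set.mem_Ioo, abs_lt]
  rw [h, gaussianReal_apply_eq_integral 0 one_ne_zero, ← integral_Ioc_eq_integral_Ioo,
    ← intervalIntegral.integral_of_le (by linarith)]
  simp only [ph_eq]
  rw [F0_sub, F0_neg, PP_F0]
  congr 1
  ring

/-- real version of `om` -/
noncomputable def gb (b c : ℝ) : ℝ := F0 (c + b) - F0 (c - b)

theorem F0_deriv (y : ℝ) : HasDerivAt F0 (ph y) y := (ph_cont.integral_hasStrictDerivAt 0 y).hasDerivAt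

theorem gb_deriv (b c : ℝ) : HasDerivAt (gb b) (ph (c + b) - ph (c - b)) c := by
  unfold gb
  exact ((F0_deriv (c + b)).comp_add_const c b).sub ((F0_deriv (c - b)).comp_sub_const c b)

theorem gb_cont (b : ℝ) : Continuous (gb b) :=
  continuous_iff_continuousAt.2 fun c => (gb_deriv b c).continuousAt

theorem gb_anti {b : ℝ} (hb : 0 ≤ b) : AntitoneOn (gb b) (Set.Ici 0) := by
  apply antitoneOn_of_deriv_nonpos (convex_Ici 0) (gb_cont b).continuousOn
  · intro x _
    exact (gb_deriv b x).differentiableAt.differentiableWithinAt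
  · intro x hx
    rw [interior_Ici] at hx
    have hx' : 0 < x := hx
    rw [(gb_deriv b x).deriv]
    have : |x - b| ≤ |x + b| := by
      rw [abs_of_nonneg (by linarith : 0 ≤ x + b), abs_le]
      constructor <;> linarith
    have := ph_anti this
    linarith

theorem gb_even (b c : ℝ) : gb b (-c) = gb b c := by
  unfold gb
  have h1 : -c + b = -(c - b) := by ring
  have h2 : -c - b = -(c + b) := by ring
  rw [h1, h2, F0_neg, F0_neg]
  ring

theorem gb_abs (b c : ℝ) : gb b |c| = gb b c := by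
  rcases abs_choice c with h | h
  · rw [h]
  · rw [h, gb_even]

theorem gb_mono {b : ℝ} (hb : 0 ≤ b) {c c' : ℝ} (h : |c| ≤ |c'|) : gb b c' ≤ gb b c := by
  rw [← gb_abs b c, ← gb_abs b c']
  exact gb_anti hb (abs_nonneg c) (abs_nonneg c') h

theorem gb_nonneg {b : ℝ} (hb : 0 ≤ b) (c : ℝ) : 0 ≤ gb b c := by
  unfold gb
  rw [← F0_sub]
  exact intervalIntegral.integral_nonneg (by linarith) fun x _ => ph_nonneg x

theorem gb_PP (b c : ℝ) : (PP (c + b) - PP (c - b)) / 2 = gb b c := by
  rw [PP_F0, PP_F0, gb]; ring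

theorem om_gb {b : ℝ} (hb : 0 ≤ b) (c : ℝ) : om c b = ENNReal.ofReal (gb b c) := by
  rw [om_eq c b hb, gb_PP]

theorem om_mono_abs (c c' b : ℝ) (h : |c| ≤ |c'|) : om c' b ≤ om c b := by
  rcases lt_or_ge b 0 with hb | hb
  · have : om c' b = 0 := by
      unfold om
      have : {t : ℝ | |t - c'| ≤ b} = ∅ := by
        ext t
        simp only [Set.mem_ofPred_eq, Set.mem_empty_iff_false, iff_false, not_le]
        exact lt_of_lt_of_le hb (abs_nonneg _)
      rw [this, measure_empty]
    rw [this]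
    exact zero_le
  · rw [om_gb hb, om_gb hb]
    exact ENNReal.ofReal_le_ofReal (gb_mono hb h)

theorem cheb {f p : ℝ → ℝ} {H : ℝ} (hH : 0 < H) (hf : Continuous f) (hp : Continuous p)
    (hfa : AntitoneOn f (Set.Icc 0 H)) (hpa : AntitoneOn p (Set.Icc 0 H)) :
    (∫ x in (0:ℝ)..H, p x) * (∫ x in (0:ℝ)..H, f x) ≤ H * ∫ x in (0:ℝ)..H, p x * f x := by
  obtain ⟨m, hm⟩ : ∃ m, m = (∫ x in (0:ℝ)..H, f x) / H := ⟨_, rfl⟩
  have hfi := hf.intervalIntegrable (μ := volume) 0 H
  have hpi := hp.intervalIntegrable (μ := volume) 0 H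
  have hm' : ∫ x in (0:ℝ)..H, f x = m * H := by rw [hm]; field_simp
  have h1 : m ≤ f 0 := by
    have := intervalIntegral.integral_mono_on hH.le hfi
      (continuous_const.intervalIntegrable (μ := volume) 0 H)
      (fun x hx => hfa (Set.left_mem_Icc.2 hH.le) hx hx.1 : ∀ x ∈ Set.Icc 0 H, f x ≤ f 0)
    rw [hm', intervalIntegral.integral_const, smul_eq_mul] at this
    nlinarith
  have h2 : f H ≤ m := by
    have := intervalIntegral.integral_mono_on hH.le
      (continuous_const.intervalIntegrable (μ := volume) 0 H) hfi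
      (fun x hx => hfa hx (Set.right_mem_Icc.2 hH.le) hx.2 : ∀ x ∈ Set.Icc 0 H, f H ≤ f x)
    rw [hm', intervalIntegral.integral_const, smul_eq_mul] at this
    nlinarith
  obtain ⟨x0, hx0, hfx0⟩ := intermediate_value_Icc' hH.le hf.continuousOn ⟨h2, h1⟩
  have h3 : 0 ≤ ∫ x in (0:ℝ)..H, (f x - m) * (p x - p x0) := by
    apply intervalIntegral.integral_nonneg hH.le
    intro x hx
    rcases le_total x x0 with h | h
    · have e1 := hfa hx hx0 h
      have e2 := hpa hx hx0 h
      rw [hfx0] at e1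
      exact mul_nonneg (by linarith) (by linarith)
    · have e1 := hfa hx0 hx h
      have e2 := hpa hx0 hx h
      rw [hfx0] at e1
      exact mul_nonneg_of_nonpos_of_nonpos (by linarith) (by linarith)
  have h4 : ∫ x in (0:ℝ)..H, (f x - m) * (p x - p x0) =
      (∫ x in (0:ℝ)..H, p x * f x) - p x0 * (m * H) - (m * (∫ x in (0:ℝ)..H, p x) - m * p x0 * H) := by
    have e : ∀ x, (f x - m) * (p x - p x0) = (p x * f x - p x0 * f x) - (m * p x - m * p x0) := by
      intro x; ring
    simp only [e]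
    have i1 : IntervalIntegrable (fun x => p x * f x) volume 0 H :=
      (hp.mul hf).intervalIntegrable _ _
    have i2 : IntervalIntegrable (fun x => p x0 * f x) volume 0 H :=
      (continuous_const.mul hf).intervalIntegrable _ _
    have i3 : IntervalIntegrable (fun x => m * p x) volume 0 H :=
      (continuous_const.mul hp).intervalIntegrable _ _
    have i4 : IntervalIntegrable (fun _ : ℝ => m * p x0) volume 0 H :=
      continuous_const.intervalIntegrable _ _
    have i5 : IntervalIntegrable (fun x => p x * f x - p x0 * f x) volume 0 H := i1.sub i2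
    have i6 : IntervalIntegrable (fun x => m * p x - m * p x0) volume 0 H := i3.sub i4
    rw [intervalIntegral.integral_sub i5 i6,
      intervalIntegral.integral_sub i1 i2,
      intervalIntegral.integral_sub i3 i4,
      intervalIntegral.integral_const_mul, intervalIntegral.integral_const_mul,
      intervalIntegral.integral_const, hm', smul_eq_mul]
    ring
  rw [h4] at h3
  rw [hm']
  nlinarith

theorem QQ_real (H a b : ℝ) (hH : 0 < H) (hb : 0 < b) :
    QQ H a b = ENNReal.ofReal (2 * ∫ x in (0:ℝ)..H, ph x * gb b (a * x / H)) := by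
  have hc : Continuous (fun x : ℝ => gb b (a * x / H)) := by
    apply (gb_cont b).comp
    fun_prop
  have hS : {x : ℝ | |x| < H} = Set.Ioo (-H) H := by
    ext t
    simp only [Set.mem_ofPred_eq, Set.mem_Ioo, abs_lt]
  unfold QQ
  rw [hS, gaussianReal_of_var_ne_zero 0 one_ne_zero]
  have hom : ∀ x : ℝ, om (a * x / H) b = ENNReal.ofReal (gb b (a * x / H)) := fun x =>
    om_gb hb.le _
  simp only [hom]
  rw [setLIntegral_withDensity_eq_setLIntegral_mul _ (measurable_gaussianPDF 0 1)
    (hc.measurable.ennreal_ofReal) measurableSet_Ioo]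
  have h1 : ∀ x, (gaussianPDF 0 1 * fun x => ENNReal.ofReal (gb b (a * x / H))) x =
      ENNReal.ofReal (ph x * gb b (a * x / H)) := by
    intro x
    rw [Pi.mul_apply, gaussianPDF, ph_eq, ENNReal.ofReal_mul (ph_nonneg x)]
  simp only [h1]
  have hcf : Continuous (fun x : ℝ => ph x * gb b (a * x / H)) := ph_cont.mul hc
  rw [← ofReal_integral_eq_lintegral_ofReal]
  · congr 1
    rw [← integral_Ioc_eq_integral_Ioo, ← intervalIntegral.integral_of_le (by linarith),
      ← intervalIntegral.integral_add_adjacent_intervals (hcf.intervalIntegrable (-H) 0)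
        (hcf.intervalIntegrable 0 H)]
    have h2 := intervalIntegral.integral_comp_neg (f := fun x : ℝ => ph x * gb b (a * x / H))
      (a := 0) (b := H)
    have h3 : ∀ x : ℝ, ph (-x) * gb b (a * -x / H) = ph x * gb b (a * x / H) := by
      intro x
      rw [ph_even, show a * -x / H = -(a * x / H) by ring, gb_even]
    simp only [h3, neg_zero] at h2
    rw [← h2]
    ring
  · exact (hcf.integrableOn_Icc (a := -H) (b := H)).mono_set Set.Ioo_subset_Icc_self
  · exact Filter.Eventually.of_forall fun x => mul_nonneg (ph_nonneg x) (gb_nonneg hb.le _)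

/-- Chebyshev -/
theorem QQ_ge_GG (H a b : ℝ) (hH : 0 < H) (hb : 0 < b) :
    SS H * ENNReal.ofReal (GG a b) ≤ QQ H a b := by
  have hc : Continuous (fun x : ℝ => gb b (a * x / H)) := by
    apply (gb_cont b).comp
    fun_prop
  have hPP : 0 ≤ PP H := by
    rw [PP_F0]
    have : 0 ≤ F0 H := intervalIntegral.integral_nonneg hH.le fun x _ => ph_nonneg x
    linarith
  rw [QQ_real H a b hH hb, SS_eq H hH.le, ← ENNReal.ofReal_mul hPP]
  apply ENNReal.ofReal_le_ofReal
  have hG : ∫ x in (0:ℝ)..H, gb b (a * x / H) = H * GG a b := by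
    have h1 := intervalIntegral.integral_comp_mul_left (f := fun x : ℝ => gb b (a * x / H))
      (a := 0) (b := 1) hH.ne'
    have h2 : GG a b = ∫ s in (0:ℝ)..1, gb b (a * (H * s) / H) := by
      unfold GG
      apply intervalIntegral.integral_congr
      intro s _
      dsimp only
      rw [gb_PP]
      congr 1
      field_simp
    rw [h2, h1]
    simp only [mul_zero, mul_one, smul_eq_mul]
    field_simp
  have hch := cheb (f := fun x : ℝ => gb b (a * x / H)) (p := ph) hH hc ph_cont ?_ ?_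
  · rw [hG] at hch
    have e : PP H = 2 * ∫ x in (0:ℝ)..H, ph x := rfl
    rw [e]
    have h3 : H * ((∫ x in (0:ℝ)..H, ph x) * GG a b) ≤
        H * ∫ x in (0:ℝ)..H, ph x * gb b (a * x / H) := by linarith
    have h4 := le_of_mul_le_mul_left h3 hH
    linarith
  · intro x hx y hy hxy
    apply gb_mono hb.le
    rw [abs_div, abs_div, abs_mul, abs_mul, abs_of_nonneg hx.1, abs_of_nonneg hy.1]
    have := abs_nonneg a
    gcongr
  · intro x hx y hy hxy
    apply ph_anti
    rw [abs_of_nonneg hx.1, abs_of_nonneg hy.1]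
    exact hxy

theorem sidak_total (H a b : ℝ) (hH : 0 < H) (hb : 0 < b) :
    ∫⁻ x, om (a * x / H) b ∂(gaussianReal 0 1) = SS (b * H / √(H ^ 2 + a ^ 2)) := by
  haveI : NullSingletonClass (gaussianReal 0 1) := nullSingletonClass_gaussianReal one_ne_zero
  have hms : MeasurableSet {s : ℝ | |s| ≤ b} := measurableSet_le (by fun_prop) (by fun_prop)
  have h1 : ((gaussianReal 0 1).map (fun x => (-a / H) * x)) ∗ (gaussianReal 0 1) =
      gaussianReal 0 (NNReal.mk ((-a / H) ^ 2) (sq_nonneg _) + 1) := by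
    rw [gaussianReal_map_const_mul, gaussianReal_conv_gaussianReal]
    simp
  have h2 : (((gaussianReal 0 1).map (fun x => (-a / H) * x)) ∗ (gaussianReal 0 1)) {s : ℝ | |s| ≤ b}
      = ∫⁻ x, om (a * x / H) b ∂(gaussianReal 0 1) := by
    rw [← lintegral_indicator_one hms, Measure.lintegral_conv (measurable_one.indicator hms)]
    have h3 : ∀ x : ℝ, ∫⁻ y, {s : ℝ | |s| ≤ b}.indicator (1 : ℝ → ℝ≥0∞) (x + y) ∂(gaussianReal 0 1) =
        om (-x) b := by
      intro x
      unfold om
      rw [← lintegral_indicator_one (measurableSet_le (by fun_prop) (by fun_prop))]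
      congr 1
      ext y
      simp only [Set.indicator, Set.mem_ofPred_eq, Pi.one_apply]
      rw [show x + y = y - -x by ring]
    simp only [h3]
    rw [lintegral_map]
    · congr 1
      ext x
      congr 1
      ring
    · have : (fun x : ℝ => om (-x) b) = fun x => ENNReal.ofReal (gb b (-x)) := by
        ext x; exact om_gb hb.le _
      rw [this]
      exact (((gb_cont b).comp continuous_neg).measurable).ennreal_ofReal
    · fun_prop
  rw [← h2, h1]
  -- scaling
  obtain ⟨σ, hσ⟩ : ∃ σ, σ = √(1 + (a / H) ^ 2) := ⟨_, rfl⟩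
  have hσ0 : 0 < σ := by rw [hσ]; positivity
  have hσ2 : σ ^ 2 = 1 + (a / H) ^ 2 := by rw [hσ, Real.sq_sqrt (by positivity)]
  have h4 : gaussianReal 0 (NNReal.mk ((-a / H) ^ 2) (sq_nonneg _) + 1) =
      (gaussianReal 0 1).map (fun x => σ * x) := by
    rw [gaussianReal_map_const_mul]
    congr 1
    · simp
    · rw [← NNReal.coe_inj]
      simp only [NNReal.coe_add, NNReal.coe_mk, NNReal.coe_one, NNReal.coe_mul, mul_one]
      rw [hσ2]
      ring
  rw [h4, Measure.map_apply (by fun_prop) hms]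
  have h5 : (fun x => σ * x) ⁻¹' {s : ℝ | |s| ≤ b} = Set.Icc (-(b / σ)) (b / σ) := by
    ext x
    simp only [Set.mem_preimage, Set.mem_ofPred_eq, Set.mem_Icc]
    rw [abs_mul, abs_of_pos hσ0, ← abs_le, le_div_iff₀ hσ0, mul_comm]
  have h6 : b * H / √(H ^ 2 + a ^ 2) = b / σ := by
    have h7 : √(H ^ 2 + a ^ 2) = H * σ := by
      rw [hσ]
      rw [show H ^ 2 + a ^ 2 = H ^ 2 * (1 + (a / H) ^ 2) by field_simp, Real.sqrt_mul (by positivity),
        Real.sqrt_sq hH.le]
    rw [h7]
    field_simp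
  rw [h5, h6]
  unfold SS
  have h8 : {t : ℝ | |t| < b / σ} = Set.Ioo (-(b / σ)) (b / σ) := by
    ext t
    simp only [Set.mem_ofPred_eq, Set.mem_Ioo, abs_lt]
  rw [h8]
  exact (measure_congr Ioo_ae_eq_Icc).symm

/-- Sidak -/
theorem QQ_ge_sidak (H a b : ℝ) (hH : 0 < H) (hb : 0 < b) :
    SS H * SS (b * H / √(H ^ 2 + a ^ 2)) ≤ QQ H a b := by
  rw [← sidak_total H a b hH hb]
  have hms : MeasurableSet {x : ℝ | |x| < H} := measurableSet_lt (by fun_prop) (by fun_prop)
  unfold QQ SS
  rw [← lintegral_add_compl (fun x => om (a * x / H) b) hms, mul_add]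
  have hin : om a b * gaussianReal 0 1 {x : ℝ | |x| < H} ≤
      ∫⁻ x in {x : ℝ | |x| < H}, om (a * x / H) b ∂(gaussianReal 0 1) := by
    rw [← setLIntegral_const]
    apply setLIntegral_mono' hms
    intro x hx
    apply om_mono_abs
    have hx' : |x| < H := hx
    rw [abs_div, abs_mul, abs_of_pos hH, div_le_iff₀ hH]
    have := abs_nonneg a
    nlinarith
  have hout : ∫⁻ x in {x : ℝ | |x| < H}ᶜ, om (a * x / H) b ∂(gaussianReal 0 1) ≤
      om a b * gaussianReal 0 1 {x : ℝ | |x| < H}ᶜ := by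
    rw [← setLIntegral_const]
    apply setLIntegral_mono' hms.compl
    intro x hx
    apply om_mono_abs
    have hx' : H ≤ |x| := not_lt.1 hx
    rw [abs_div, abs_mul, abs_of_pos hH, le_div_iff₀ hH]
    have := abs_nonneg a
    nlinarith
  have htot : gaussianReal 0 1 {x : ℝ | |x| < H} + gaussianReal 0 1 {x : ℝ | |x| < H}ᶜ = 1 := by
    rw [measure_add_measure_compl hms, measure_univ]
  calc gaussianReal 0 1 {x : ℝ | |x| < H} *
        (∫⁻ x in {x : ℝ | |x| < H}, om (a * x / H) b ∂(gaussianReal 0 1)) +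
      gaussianReal 0 1 {x : ℝ | |x| < H} *
        (∫⁻ x in {x : ℝ | |x| < H}ᶜ, om (a * x / H) b ∂(gaussianReal 0 1))
      ≤ gaussianReal 0 1 {x : ℝ | |x| < H} *
        (∫⁻ x in {x : ℝ | |x| < H}, om (a * x / H) b ∂(gaussianReal 0 1)) +
      gaussianReal 0 1 {x : ℝ | |x| < H} * (om a b * gaussianReal 0 1 {x : ℝ | |x| < H}ᶜ) := by
        gcongr
    _ = gaussianReal 0 1 {x : ℝ | |x| < H} *
        (∫⁻ x in {x : ℝ | |x| < H}, om (a * x / H) b ∂(gaussianReal 0 1)) +
      (om a b * gaussianReal 0 1 {x : ℝ | |x| < H}) * gaussianReal 0 1 {x : ℝ | |x| < H}ᶜ := by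
        ring
    _ ≤ gaussianReal 0 1 {x : ℝ | |x| < H} *
        (∫⁻ x in {x : ℝ | |x| < H}, om (a * x / H) b ∂(gaussianReal 0 1)) +
      (∫⁻ x in {x : ℝ | |x| < H}, om (a * x / H) b ∂(gaussianReal 0 1)) *
        gaussianReal 0 1 {x : ℝ | |x| < H}ᶜ := by
        gcongr
    _ = (∫⁻ x in {x : ℝ | |x| < H}, om (a * x / H) b ∂(gaussianReal 0 1)) *
        (gaussianReal 0 1 {x : ℝ | |x| < H} + gaussianReal 0 1 {x : ℝ | |x| < H}ᶜ) := by
        ring
    _ = _ := by rw [htot, mul_one]


end Pool.Agent.VPK.L65
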