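import Pool.Agent.VPK.Defs

set_option autoImplicit false
open MeasureTheory ProbabilityTheory
open scoped ENNReal Matrix

namespace Pool.Agent.VPK.L71

open Pool.Agent.VPK






























/-- the Gaussian weight -/
noncomputable def ee (a b t : ℝ) : ℝ := Real.exp (-(a + t * b) ^ 2 / 2)

lemma ee_cont (a b : ℝ) : Continuous (ee a b) := by
  unfold ee; fun_prop

/-- moment -/
noncomputable def MM (a b : ℝ) (k : ℕ) : ℝ := ∫ t in Set.Icc (-1 : ℝ) 1, t ^ k * ee a b t

lemma MM_eq (a b : ℝ) (k : ℕ) : MM a b k = 2 * mu k a b := by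
  unfold MM mu ee
  rw [intervalIntegral.integral_of_le (by norm_num), integral_Icc_eq_integral_Ioc]
  ring

lemma cube_eq (n : ℕ) : (volume : Measure (Fin n → ℝ)).restrict
    (Set.Icc (fun _ : Fin n => (-1 : ℝ)) (fun _ => 1)) =
    Measure.pi (fun _ : Fin n => (volume : Measure ℝ).restrict (Set.Icc (-1 : ℝ) 1)) := by
  rw [← Set.pi_univ_Icc, volume_pi, Measure.restrict_pi_pi]

lemma prod_int (n : ℕ) (g : Fin n → ℝ → ℝ) :
    ∫ z in Set.Icc (fun _ : Fin n => (-1 : ℝ)) (fun _ => 1), ∏ k, g k (z k) =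
      ∏ k, ∫ t in Set.Icc (-1 : ℝ) 1, g k t := by
  rw [cube_eq]
  exact integral_fintype_prod_eq_prod (fun k => g k)

lemma zz_int (n : ℕ) (a b : ℝ) (i j : Fin n) :
    ∫ z in Set.Icc (fun _ : Fin n => (-1 : ℝ)) (fun _ => 1), z i * z j * ∏ k, ee a b (z k) =
      ∏ k, MM a b ((if k = i then 1 else 0) + (if k = j then 1 else 0)) := by
  have h := prod_int n (fun k t => t ^ ((if k = i then 1 else 0) + (if k = j then 1 else 0)) * ee a b t)
  rw [show (∏ k, MM a b ((if k = i then 1 else 0) + (if k = j then 1 else 0))) =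
    ∏ k, ∫ t in Set.Icc (-1 : ℝ) 1,
      t ^ ((if k = i then 1 else 0) + (if k = j then 1 else 0)) * ee a b t from rfl, ← h]
  congr 1
  funext z
  simp only [pow_add, Finset.prod_mul_distrib, pow_ite, pow_one, pow_zero,
    Finset.prod_ite_eq', Finset.mem_univ, if_true]

lemma prod_diag (n : ℕ) (M : ℕ → ℝ) (i : Fin n) :
    ∏ k : Fin n, M ((if k = i then 1 else 0) + (if k = i then 1 else 0)) = M 2 * M 0 ^ (n - 1) := by
  rw [← Finset.mul_prod_erase Finset.univ _ (Finset.mem_univ i)]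
  congr 1
  · simp
  · rw [Finset.prod_congr rfl (g := fun _ => M 0)]
    · rw [Finset.prod_const, Finset.card_erase_of_mem (Finset.mem_univ i)]
      simp
    · intro k hk
      rw [Finset.mem_erase] at hk
      simp [hk.1]

lemma prod_off (n : ℕ) (M : ℕ → ℝ) (i j : Fin n) (hij : i ≠ j) :
    ∏ k : Fin n, M ((if k = i then 1 else 0) + (if k = j then 1 else 0)) =
      M 1 ^ 2 * M 0 ^ (n - 2) := by
  rw [← Finset.mul_prod_erase Finset.univ _ (Finset.mem_univ i),
    ← Finset.mul_prod_erase (Finset.univ.erase i) _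
      (Finset.mem_erase.mpr ⟨hij.symm, Finset.mem_univ j⟩)]
  rw [Finset.prod_congr rfl (g := fun _ => M 0)]
  · rw [Finset.prod_const, Finset.card_erase_of_mem
      (Finset.mem_erase.mpr ⟨hij.symm, Finset.mem_univ j⟩),
      Finset.card_erase_of_mem (Finset.mem_univ i)]
    simp only [if_true, if_neg hij, if_neg hij.symm, Finset.card_univ, Fintype.card_fin]
    rw [show n - 1 - 1 = n - 2 by omega]
    ring
  · intro k hk
    rw [Finset.mem_erase, Finset.mem_erase] at hk
    simp [hk.1, hk.2.1]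

lemma s2_eq {n : ℕ} (hn : 2 ≤ n) (z : Fin n → ℝ) :
    s2 z = ∑ i, z i * z i - (1 / (n : ℝ)) * ∑ i, ∑ j, z i * z j := by
  have hn0 : (n : ℝ) ≠ 0 := by
    have : (0 : ℝ) < n := by exact_mod_cast (by omega : 0 < n)
    exact this.ne'
  have h1 : ∑ i, ∑ j, z i * z j = (∑ i, z i) ^ 2 := by
    rw [sq, Finset.sum_mul_sum]
  rw [h1]
  unfold s2
  have h2 : ∀ i, (z i - zb z) ^ 2 = z i * z i - 2 * zb z * z i + zb z ^ 2 := by
    intro i; ring
  simp only [h2]
  rw [Finset.sum_add_distrib, Finset.sum_sub_distrib, ← Finset.mul_sum]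
  simp only [Finset.sum_const, Finset.card_univ, Fintype.card_fin, nsmul_eq_mul]
  unfold zb
  field_simp
  ring

lemma int_zz (n : ℕ) (a b : ℝ) (i j : Fin n) :
    IntegrableOn (fun z : Fin n → ℝ => z i * z j * ∏ k, ee a b (z k))
      (Set.Icc (fun _ : Fin n => (-1 : ℝ)) (fun _ => 1)) := by
  apply ContinuousOn.integrableOn_compact isCompact_Icc
  apply Continuous.continuousOn
  have := ee_cont a b
  apply Continuous.mul (by fun_prop)
  apply continuous_finset_prod
  intro k _
  exact this.comp (continuous_apply k)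

lemma s2_int (n : ℕ) (hn : 2 ≤ n) (a b : ℝ) :
    ∫ z in Set.Icc (fun _ : Fin n => (-1 : ℝ)) (fun _ => 1), s2 z * ∏ k, ee a b (z k) =
      2 ^ n * ((n - 1) * mu 0 a b ^ (n - 2) * (mu 0 a b * mu 2 a b - mu 1 a b ^ 2)) := by
  have hn0 : (n : ℝ) ≠ 0 := by
    have : (0 : ℝ) < n := by exact_mod_cast (by omega : 0 < n)
    exact this.ne'
  have h1 : ∀ z : Fin n → ℝ, s2 z * ∏ k, ee a b (z k) =
      ∑ i, z i * z i * ∏ k, ee a b (z k) -
        (1 / (n : ℝ)) * ∑ i, ∑ j, z i * z j * ∏ k, ee a b (z k) := by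
    intro z
    rw [s2_eq hn z, sub_mul, Finset.sum_mul, mul_assoc, Finset.sum_mul]
    simp only [Finset.sum_mul]
  simp only [h1]
  rw [integral_sub, integral_finset_sum, integral_const_mul, integral_finset_sum]
  · simp only [zz_int]
    have h2 : ∀ i : Fin n, ∫ z in Set.Icc (fun _ : Fin n => (-1 : ℝ)) (fun _ => 1),
        ∑ j, z i * z j * ∏ k, ee a b (z k) =
        ∑ j, ∏ k, MM a b ((if k = i then 1 else 0) + (if k = j then 1 else 0)) := by
      intro i
      rw [integral_finset_sum]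
      · exact Finset.sum_congr rfl fun j _ => zz_int n a b i j
      · intro j _
        exact int_zz n a b i j
    simp only [h2]
    have h3 : ∀ i : Fin n, ∑ j, ∏ k, MM a b ((if k = i then 1 else 0) + (if k = j then 1 else 0)) =
        MM a b 2 * MM a b 0 ^ (n - 1) + (n - 1 : ℝ) * (MM a b 1 ^ 2 * MM a b 0 ^ (n - 2)) := by
      intro i
      rw [← Finset.add_sum_erase Finset.univ _ (Finset.mem_univ i), prod_diag]
      congr 1
      rw [Finset.sum_congr rfl (g := fun _ => MM a b 1 ^ 2 * MM a b 0 ^ (n - 2))]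
      · rw [Finset.sum_const, Finset.card_erase_of_mem (Finset.mem_univ i)]
        simp only [Finset.card_univ, Fintype.card_fin, nsmul_eq_mul]
        rw [Nat.cast_sub (by omega)]
        simp
      · intro j hj
        rw [Finset.mem_erase] at hj
        exact prod_off n (MM a b) i j hj.1.symm
    simp only [h3, prod_diag, Finset.sum_const, Finset.card_univ, Fintype.card_fin, nsmul_eq_mul]
    simp only [MM_eq]
    obtain ⟨m, rfl⟩ : ∃ m, n = m + 2 := ⟨n - 2, by omega⟩
    simp only [show m + 2 - 1 = m + 1 by omega, show m + 2 - 2 = m by omega]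
    field_simp
    ring
  · intro i _
    apply integrable_finset_sum
    intro j _
    exact int_zz n a b i j
  · intro i _
    exact int_zz n a b i i
  · apply integrable_finset_sum
    intro i _
    exact int_zz n a b i i
  · apply Integrable.const_mul
    apply integrable_finset_sum
    intro i _
    apply integrable_finset_sum
    intro j _
    exact int_zz n a b i j

lemma exp_prod (n : ℕ) (a b : ℝ) (z : Fin n → ℝ) :
    Real.exp (-(∑ i, (a + z i * b) ^ 2) / 2) = ∏ k, ee a b (z k) := by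
  unfold ee
  rw [← Real.exp_sum]
  congr 1
  rw [← Finset.sum_div, Finset.sum_neg_distrib]

lemma s2_cont (n : ℕ) : Continuous (fun z : Fin n → ℝ => s2 z) := by
  unfold s2 zb
  fun_prop

theorem KK_ge (n : ℕ) (hn : 2 ≤ n) (a b : ℝ) (hb : 0 < b) :
    ENNReal.ofReal (dn n a b) ≤ KK n a b := by
  apply le_of_eq
  unfold KK
  have hcont : Continuous (fun z : Fin n → ℝ => √(n : ℝ) / √(2 * Real.pi) * s2 z * b *
      Real.exp (-(∑ i, (a + z i * b) ^ 2) / 2)) := by
    have := s2_cont n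
    fun_prop
  rw [← ofReal_integral_eq_lintegral_ofReal]
  · have h1 : ∀ z : Fin n → ℝ, √(n : ℝ) / √(2 * Real.pi) * s2 z * b *
      Real.exp (-(∑ i, (a + z i * b) ^ 2) / 2) =
      (√(n : ℝ) / √(2 * Real.pi) * b) * (s2 z * ∏ k, ee a b (z k)) := by
      intro z
      rw [exp_prod]; ring
    simp only [h1]
    rw [integral_const_mul, s2_int n hn a b]
    have h2 : (2⁻¹ : ℝ≥0∞) ^ n = ENNReal.ofReal ((2⁻¹ : ℝ) ^ n) := by
      rw [ENNReal.ofReal_pow (by norm_num), ENNReal.ofReal_inv_of_pos (by norm_num)]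
      norm_num
    rw [h2, ← ENNReal.ofReal_mul (by positivity)]
    congr 1
    unfold dn
    have h3 : (2⁻¹ : ℝ) ^ n * 2 ^ n = 1 := by
      rw [← mul_pow]; norm_num
    have h4 : (2⁻¹ : ℝ) ^ n * (√(n : ℝ) / √(2 * Real.pi) * b *
        (2 ^ n * ((n - 1) * mu 0 a b ^ (n - 2) * (mu 0 a b * mu 2 a b - mu 1 a b ^ 2)))) =
        ((2⁻¹ : ℝ) ^ n * 2 ^ n) * (√(n : ℝ) / √(2 * Real.pi) * b *
        (((n - 1) * mu 0 a b ^ (n - 2) * (mu 0 a b * mu 2 a b - mu 1 a b ^ 2)))) := by ring
    rw [h4, h3]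
    ring
  · exact ContinuousOn.integrableOn_compact isCompact_Icc hcont.continuousOn
  · refine Filter.Eventually.of_forall ?_
    intro z
    have : 0 ≤ s2 z := Finset.sum_nonneg fun i _ => sq_nonneg _
    show (0 : ℝ) ≤ √(n : ℝ) / √(2 * Real.pi) * s2 z * b *
      Real.exp (-(∑ i, (a + z i * b) ^ 2) / 2)
    positivity


end Pool.Agent.VPK.L71
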