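import Pool.Agent.VPK.Defs

set_option autoImplicit false
open MeasureTheory ProbabilityTheory
open scoped ENNReal Matrix

namespace Pool.Agent.VPK.L73

open Pool.Agent.VPK






























theorem ph_cont7673 : Continuous ph := by
  unfold ph; fun_prop

theorem ph_pos7673 (y : ℝ) : 0 < ph y := by
  unfold ph; positivity

theorem ph_neg7673 (y : ℝ) : ph (-y) = ph y := by
  unfold ph; rw [neg_sq]

theorem ph_abs7673 (y : ℝ) : ph |y| = ph y := by
  unfold ph; rw [sq_abs]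

theorem pdf_eq7673 (x : ℝ) : gaussianPDFReal 0 1 x = ph x := by
  unfold gaussianPDFReal ph
  simp
  ring

theorem PP_deriv7673 (y : ℝ) : HasDerivAt PP (2 * ph y) y := by
  have h := (intervalIntegral.integral_hasDerivAt_right
    (ph_cont7673.intervalIntegrable 0 y)
    (ph_cont7673.stronglyMeasurableAtFilter _ _) ph_cont7673.continuousAt)
  exact h.const_mul 2

theorem PP_cont7673 : Continuous PP :=
  continuous_iff_continuousAt.2 (fun y => (PP_deriv7673 y).continuousAt)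

theorem PP_nonneg7673 {y : ℝ} (hy : 0 ≤ y) : 0 ≤ PP y := by
  unfold PP
  have := intervalIntegral.integral_nonneg (μ := volume) hy (fun x _ => (ph_pos7673 x).le)
  linarith

theorem PP_concave7673 : ConcaveOn ℝ (Set.Ici 0) PP := by
  refine AntitoneOn.concaveOn_of_deriv (convex_Ici 0) PP_cont7673.continuousOn
    (fun y _ => (PP_deriv7673 y).differentiableAt.differentiableWithinAt) ?_
  have hd : deriv PP = fun y => 2 * ph y := funext (fun y => (PP_deriv7673 y).deriv)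
  rw [hd, interior_Ici]
  intro a ha b hb hab
  simp only [Set.mem_Ioi] at ha hb
  have h1 : ph b ≤ ph a := by
    unfold ph
    gcongr
  show 2 * ph b ≤ 2 * ph a
  linarith

theorem SS_eq7673 {y : ℝ} (hy : 0 ≤ y) : SS y = ENNReal.ofReal (PP y) := by
  unfold SS
  have hset : {t : ℝ | |t| < y} = Set.Ioo (-y) y := by
    ext t; simp [abs_lt]
  rw [hset, gaussianReal_apply_eq_integral 0 one_ne_zero]
  congr 1
  have h1 : ∫ x in Set.Ioo (-y) y, gaussianPDFReal 0 1 x = ∫ x in (-y)..y, ph x := by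
    rw [intervalIntegral.integral_of_le (by linarith), ← integral_Ioc_eq_integral_Ioo]
    simp only [pdf_eq7673]
  rw [h1, ← intervalIntegral.integral_add_adjacent_intervals
    (ph_cont7673.intervalIntegrable (-y) 0) (ph_cont7673.intervalIntegrable 0 y)]
  have h2 : ∫ x in (-y)..0, ph x = ∫ x in (0:ℝ)..y, ph x := by
    have h3 := intervalIntegral.integral_comp_neg (f := ph) (a := 0) (b := y)
    simp only [neg_zero, ph_neg7673] at h3
    exact h3.symm
  rw [h2]
  unfold PP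
  ring

theorem PP_le_one7673 {y : ℝ} (hy : 0 ≤ y) : PP y ≤ 1 := by
  have h1 : SS y ≤ 1 := by unfold SS; exact prob_le_one
  rw [SS_eq7673 hy] at h1
  exact ENNReal.ofReal_le_one.1 h1

theorem PP_mul7673 {h0 h1 x : ℝ} (h00 : 0 ≤ h0) (h0x : h0 ≤ x) (hx1 : x ≤ h1) :
    PP h0 * PP h1 ≤ PP x * PP (h0 + h1 - x) := by
  rcases eq_or_lt_of_le (h0x.trans hx1) with h | h
  · subst h
    have : x = h0 := le_antisymm hx1 h0x
    subst this
    simp
  · obtain ⟨l, hl0, hl1, hlx⟩ : ∃ l : ℝ, 0 ≤ l ∧ l ≤ 1 ∧ x = (1 - l) * h0 + l * h1 := by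
      refine ⟨(x - h0) / (h1 - h0), div_nonneg (by linarith) (by linarith), ?_, ?_⟩
      · rw [div_le_one (by linarith)]; linarith
      · have : h1 - h0 ≠ 0 := by linarith
        field_simp
        ring
    have hc := PP_concave7673.2 (show h0 ∈ Set.Ici (0:ℝ) from h00)
      (show h1 ∈ Set.Ici (0:ℝ) from h00.trans h.le)
    have c1 := hc (a := 1 - l) (b := l) (by linarith) hl0 (by ring)
    have c2 := hc (a := l) (b := 1 - l) hl0 (by linarith) (by ring)
    simp only [smul_eq_mul] at c1 c2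
    rw [← hlx] at c1
    have e2 : l * h0 + (1 - l) * h1 = h0 + h1 - x := by rw [hlx]; ring
    rw [e2] at c2
    have hA := PP_nonneg7673 h00
    have hB := PP_nonneg7673 (h00.trans h.le)
    generalize PP h0 = A at *
    generalize PP h1 = B at *
    have h1l : 0 ≤ 1 - l := by linarith
    calc A * B ≤ ((1 - l) * A + l * B) * (l * A + (1 - l) * B) := by
          nlinarith [mul_nonneg (mul_nonneg hl0 h1l) (sq_nonneg (A - B))]
      _ ≤ PP x * PP (h0 + h1 - x) := by
          apply mul_le_mul c1 c2 (by positivity)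
          exact PP_nonneg7673 (h00.trans h0x)

/-- the integrand -/
noncomputable def FF7673 (n m : ℕ) (h : ℝ) : ℝ := Real.exp (-(n * h ^ 2) / 2) * PP h ^ m

theorem FF_cont7673 (n m : ℕ) : Continuous (FF7673 n m) := by
  unfold FF7673
  have := PP_cont7673
  fun_prop

theorem FF_nonneg7673 (n m : ℕ) {h : ℝ} (hh : 0 ≤ h) : 0 ≤ FF7673 n m h := by
  unfold FF7673
  have := PP_nonneg7673 hh
  positivity

theorem cell7673 (n m : ℕ) (h0 h1 q v : ℝ) (h00 : 0 ≤ h0) (h01 : h0 ≤ h1)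
    (hq : 0 ≤ q) (hq2 : q ^ 2 ≤ PP h0 * PP h1) (hv : 0 ≤ v)
    (hv2 : v ≤ Real.exp (-(h0 ^ 2 + h1 ^ 2) / 4)) :
    (h1 - h0) * (v ^ n * q ^ m) ≤ ∫ h in h0..h1, FF7673 n m h := by
  have hsym : ∫ h in h0..h1, FF7673 n m (h0 + h1 - h) = ∫ h in h0..h1, FF7673 n m h := by
    rw [intervalIntegral.integral_comp_sub_left (fun h => FF7673 n m h) (h0 + h1)]
    congr 1 <;> ring
  have hpt : ∀ h ∈ Set.Icc h0 h1, 2 * (v ^ n * q ^ m) ≤
      FF7673 n m h + FF7673 n m (h0 + h1 - h) := by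
    intro h hh
    have a1 : 0 ≤ FF7673 n m h := FF_nonneg7673 n m (h00.trans hh.1)
    have a2 : 0 ≤ FF7673 n m (h0 + h1 - h) := FF_nonneg7673 n m (by linarith [hh.2])
    have a3 : (v ^ n * q ^ m) ^ 2 ≤ FF7673 n m h * FF7673 n m (h0 + h1 - h) := by
      have b1 : (v ^ n) ^ 2 ≤ Real.exp (-(n * h ^ 2) / 2) *
          Real.exp (-(n * (h0 + h1 - h) ^ 2) / 2) := by
        calc (v ^ n) ^ 2 = (v ^ 2) ^ n := by ring
          _ ≤ ((Real.exp (-(h0 ^ 2 + h1 ^ 2) / 4)) ^ 2) ^ n := by gcongr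
          _ = Real.exp (-(n * (h0 ^ 2 + h1 ^ 2)) / 2) := by
              rw [← Real.exp_nat_mul, ← Real.exp_nat_mul]; congr 1; push_cast; ring
          _ ≤ _ := by
              rw [← Real.exp_add, Real.exp_le_exp]
              have : h ^ 2 + (h0 + h1 - h) ^ 2 ≤ h0 ^ 2 + h1 ^ 2 := by
                nlinarith [mul_nonneg (sub_nonneg.2 hh.1) (sub_nonneg.2 hh.2)]
              have h5 : (n : ℝ) * (h ^ 2 + (h0 + h1 - h) ^ 2) ≤ n * (h0 ^ 2 + h1 ^ 2) :=
                mul_le_mul_of_nonneg_left this (Nat.cast_nonneg n)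
              linarith
      have b2 : (q ^ m) ^ 2 ≤ PP h ^ m * PP (h0 + h1 - h) ^ m := by
        calc (q ^ m) ^ 2 = (q ^ 2) ^ m := by ring
          _ ≤ (PP h * PP (h0 + h1 - h)) ^ m := by
              refine pow_le_pow_left₀ (by positivity) (hq2.trans ?_) m
              exact PP_mul7673 h00 hh.1 hh.2
          _ = _ := by rw [mul_pow]
      unfold FF7673
      calc (v ^ n * q ^ m) ^ 2 = (v ^ n) ^ 2 * (q ^ m) ^ 2 := by ring
        _ ≤ (Real.exp (-(n * h ^ 2) / 2) * Real.exp (-(n * (h0 + h1 - h) ^ 2) / 2)) *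
            (PP h ^ m * PP (h0 + h1 - h) ^ m) := by
            apply mul_le_mul b1 b2 (by positivity) (by positivity)
        _ = _ := by ring
    have a4 : 0 ≤ v ^ n * q ^ m := by positivity
    generalize v ^ n * q ^ m = Z at *
    generalize FF7673 n m h = X at *
    generalize FF7673 n m (h0 + h1 - h) = Y at *
    by_contra hcon
    push Not at hcon
    nlinarith [sq_nonneg (X - Y)]
  have hint1 : IntervalIntegrable (FF7673 n m) volume h0 h1 :=
    (FF_cont7673 n m).intervalIntegrable _ _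
  have hint2 : IntervalIntegrable (fun h => FF7673 n m (h0 + h1 - h)) volume h0 h1 :=
    ((FF_cont7673 n m).comp (by fun_prop)).intervalIntegrable _ _
  have hmono := intervalIntegral.integral_mono_on h01
    (intervalIntegrable_const (c := 2 * (v ^ n * q ^ m))) (hint1.add hint2) hpt
  rw [intervalIntegral.integral_const] at hmono
  have hadd := intervalIntegral.integral_add hint1 hint2
  rw [hsym] at hadd
  simp only [smul_eq_mul] at hmono
  have e : ∫ x in h0..h1, (FF7673 n m x + FF7673 n m (h0 + h1 - x)) =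
      (∫ x in h0..h1, FF7673 n m x) + ∫ x in h0..h1, FF7673 n m x := hadd
  rw [e] at hmono
  linarith

theorem FF_int7673 (n m : ℕ) (hn : 1 ≤ n) : IntegrableOn (FF7673 n m) (Set.Ioi 0) := by
  have hn' : (0 : ℝ) < n := by exact_mod_cast hn
  have h1 : Integrable (fun h : ℝ => Real.exp (-(n / 2 : ℝ) * h ^ 2)) :=
    integrable_exp_neg_mul_sq (by positivity)
  refine h1.integrableOn.mono' (FF_cont7673 n m).aestronglyMeasurable ?_
  refine (ae_restrict_mem measurableSet_Ioi).mono (fun h hh => ?_)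
  simp only [Set.mem_Ioi] at hh
  rw [Real.norm_of_nonneg (FF_nonneg7673 n m hh.le)]
  unfold FF7673
  have h2 : PP h ^ m ≤ 1 := pow_le_one₀ (PP_nonneg7673 hh.le) (PP_le_one7673 hh.le)
  have h3 : -(n * h ^ 2) / 2 = -(n / 2 : ℝ) * h ^ 2 := by ring
  rw [h3]
  exact mul_le_of_le_one_right (Real.exp_pos _).le h2

theorem J1_eq7673 (n m : ℕ) (hn : 1 ≤ n) :
    J1 n m = ENNReal.ofReal (2 * √(n : ℝ) / √(2 * Real.pi) *
      ∫ h in Set.Ioi (0:ℝ), FF7673 n m h) := by
  have hn' : (0 : ℝ) < n := by exact_mod_cast hn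
  have hs : 0 < √(n : ℝ) := Real.sqrt_pos.2 hn'
  unfold J1
  have h1 : ∀ x : ℝ, SS (|x| / √(n : ℝ)) ^ m = ENNReal.ofReal (PP (|x| / √(n : ℝ)) ^ m) := by
    intro x
    rw [SS_eq7673 (by positivity), ENNReal.ofReal_pow (PP_nonneg7673 (by positivity))]
  simp only [h1]
  have hcont : Continuous (fun x : ℝ => PP (|x| / √(n : ℝ)) ^ m) := by
    have := PP_cont7673
    fun_prop
  have hint : Integrable (fun x : ℝ => PP (|x| / √(n : ℝ)) ^ m) (gaussianReal 0 1) := by
    refine Integrable.of_bound hcont.aestronglyMeasurable 1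
      (Filter.Eventually.of_forall (fun x => ?_))
    have h0 : 0 ≤ |x| / √(n : ℝ) := by positivity
    rw [Real.norm_of_nonneg (pow_nonneg (PP_nonneg7673 h0) m)]
    exact pow_le_one₀ (PP_nonneg7673 h0) (PP_le_one7673 h0)
  rw [← ofReal_integral_eq_lintegral_ofReal hint
    (Filter.Eventually.of_forall (fun x => pow_nonneg (PP_nonneg7673 (by positivity)) m))]
  congr 1
  rw [integral_gaussianReal_eq_integral_smul one_ne_zero]
  have h2 : ∀ x : ℝ, gaussianPDFReal 0 1 x • PP (|x| / √(n : ℝ)) ^ m =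
      (fun y : ℝ => ph y * PP (y / √(n : ℝ)) ^ m) |x| := by
    intro x
    simp only [pdf_eq7673, smul_eq_mul, ph_abs7673]
  simp only [h2]
  rw [integral_comp_abs (f := fun y : ℝ => ph y * PP (y / √(n : ℝ)) ^ m)]
  have h3 := integral_comp_mul_left_Ioi (fun y : ℝ => ph y * PP (y / √(n : ℝ)) ^ m) 0 hs
  rw [mul_zero, smul_eq_mul] at h3
  have h4 : ∫ y in Set.Ioi (0:ℝ), ph y * PP (y / √(n : ℝ)) ^ m =
      √(n : ℝ) * ∫ x in Set.Ioi (0:ℝ), ph (√(n : ℝ) * x) * PP (√(n : ℝ) * x / √(n : ℝ)) ^ m := by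
    rw [h3]; field_simp
  rw [h4]
  have h5 : ∀ x : ℝ, ph (√(n : ℝ) * x) * PP (√(n : ℝ) * x / √(n : ℝ)) ^ m =
      (1 / √(2 * Real.pi)) * FF7673 n m x := by
    intro x
    unfold ph FF7673
    rw [mul_div_cancel_left₀ _ hs.ne', mul_pow, Real.sq_sqrt hn'.le]
    ring
  simp only [h5]
  rw [integral_const_mul]
  ring

theorem J1_quad (n m L : ℕ) (hn : 1 ≤ n) (hm : 1 ≤ m) (Δ : ℝ) (hΔ : 0 < Δ) (q v : ℕ → ℝ)
    (hq : ∀ l < L, 0 ≤ q l ∧ q l ^ 2 ≤ PP (l * Δ) * PP ((l + 1) * Δ))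
    (hv : ∀ l < L, 0 ≤ v l ∧ v l ≤ Real.exp (-((l * Δ) ^ 2 + ((l + 1) * Δ) ^ 2) / 4)) :
    ENNReal.ofReal (2 * √(n : ℝ) / √(2 * Real.pi) * Δ *
      ∑ l ∈ Finset.range L, v l ^ n * q l ^ m) ≤ J1 n m := by
  rw [J1_eq7673 n m hn]
  apply ENNReal.ofReal_le_ofReal
  rw [mul_assoc]
  refine mul_le_mul_of_nonneg_left ?_ (by positivity)
  have h1 : ∫ h in (0:ℝ)..(L * Δ), FF7673 n m h ≤ ∫ h in Set.Ioi (0:ℝ), FF7673 n m h := by
    rw [intervalIntegral.integral_of_le (by positivity)]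
    refine setIntegral_mono_set (FF_int7673 n m hn) ?_ ?_
    · exact (ae_restrict_mem measurableSet_Ioi).mono
        (fun h hh => FF_nonneg7673 n m (le_of_lt hh))
    · exact (Set.Ioc_subset_Ioi_self).eventuallyLE
  refine le_trans ?_ h1
  have h2 : ∑ l ∈ Finset.range L, ∫ h in ((l : ℝ) * Δ)..(((l + 1 : ℕ) : ℝ) * Δ), FF7673 n m h =
      ∫ h in (((0 : ℕ) : ℝ) * Δ)..((L : ℝ) * Δ), FF7673 n m h :=
    intervalIntegral.sum_integral_adjacent_intervals (a := fun l : ℕ => (l : ℝ) * Δ)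
      (fun l _ => (FF_cont7673 n m).intervalIntegrable _ _)
  rw [Nat.cast_zero, zero_mul] at h2
  rw [← h2, Finset.mul_sum]
  refine Finset.sum_le_sum (fun l hl => ?_)
  have hl' := Finset.mem_range.1 hl
  have h3 := cell7673 n m (l * Δ) ((l + 1) * Δ) (q l) (v l) (by positivity) (by nlinarith)
    (hq l hl').1 (hq l hl').2 (hv l hl').1 (hv l hl').2
  have h4 : ((l : ℝ) + 1) * Δ - l * Δ = Δ := by ring
  rw [h4] at h3
  push_cast
  exact h3



end Pool.Agent.VPK.L73
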