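import Pool.Agent.VPK.L65
import Pool.Agent.VPK.L71
import Pool.Agent.VPK.L73
import Pool.Agent.VPK.K1
import Pool.Agent.VPK.K2
import Pool.Agent.VPK.K3
import Pool.Agent.VPK.K4
import Pool.Agent.VPK.K5
import Pool.Agent.VPK.K6a
import Pool.Agent.VPK.K6b
import Pool.Agent.VPK.K7
import Pool.Agent.VPK.K8
import Pool.Agent.VPK.K9A
import Pool.Agent.VPK.K9B
import Pool.Agent.VPK.K9C
import Pool.Agent.VPK.K9D
import Pool.Agent.VPK.K9Z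
import Pool.Agent.VPK.K10a
import Pool.Agent.VPK.K10b
import Pool.Agent.VPK.K10z
import Pool.Agent.VPK.K11A
import Pool.Agent.VPK.K11B
import Pool.Agent.VPK.K11C
import Pool.Agent.VPK.K11D
import Pool.Agent.VPK.K12
import Pool.Agent.VPK.K13
import Pool.Agent.VP.JC5

set_option autoImplicit false
open MeasureTheory ProbabilityTheory
open scoped ENNReal Matrix

namespace Pool.Agent.VPK

theorem J1_eq' (n m : ℕ) (hn : 1 ≤ n) : J1 n m = ENNReal.ofReal (2 * √(n : ℝ) / √(2 * Real.pi) *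
      ∫ h in Set.Ioi (0:ℝ), PP h ^ m * Real.exp (-(n * h ^ 2) / 2)) := by
  rw [L73.J1_eq7673 n m hn]
  congr 2
  apply integral_congr_ae
  filter_upwards with h
  unfold L73.FF7673
  ring

theorem Phi_ge (C1 α1 C α C3 α3 : ℝ) (hC1 : 0 < C1) (hC : 0 < C) (hC3 : C ≤ C3) (n m : ℕ) (hn : 2 ≤ n)
    (hm : 1 ≤ m) :
    n * fr C1 α1 C α (m / n) + gr C1 C α C3 α3 (m / n) + er C C3 n (m / n) ≤
      Phi C1 α1 C α C3 α3 n m :=
  K10a.Phi_ge Pool.Agent.VP.C5.c5_fact C1 α1 C α C3 α3 hC1 hC hC3 n m hn hm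

theorem large_case (n m : ℕ) (hn : 30 ≤ n) (hm : 30 * n ≤ m) :
    1 ≤ ((n + m).choose n : ℝ≥0∞) * (J1 n m *
      ∫⁻ b in Set.Ioi (0 : ℝ), ∫⁻ a : ℝ, ENNReal.ofReal (GG a b) ^ m * KK n a b) :=
  K13.large_case K6a.mills K6a.PP_props
    (fun n m hn x hx h => K6b.J1_jensen K6a.mills K6a.PP_props J1_eq' n m hn x hx h)
    (fun n m hn t ht => K4.beta_t K1.GG_lower' K2.dn_lower' L71.KK_ge n m hn t ht) n m hn hm

theorem closed_case
    (C1 α1 C α C3 α3 : ℝ) (hC1 : 0 < C1) (hC : 0 < C) (hC3 : 0 < C3)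
    (hS : (∀ x : ℝ, 0 < x → Real.exp α1 * x * Real.exp (-C1 * x ^ 2) ≤ PP x) ∧
      (∀ x : ℝ, 0 < x → Real.exp α * x * Real.exp (-C * x ^ 2) ≤ PP x) ∧
      (∀ x : ℝ, 0 < x → Real.exp α3 * x ^ 3 * Real.exp (-C3 * x ^ 2) ≤ S3 x))
    (n m : ℕ) (hn : 2 ≤ n) (hPhi : 0 ≤ Phi C1 α1 C α C3 α3 n m) :
    1 ≤ ((n + m).choose n : ℝ≥0∞) * (J1 n m *
      ∫⁻ b in Set.Ioi (0 : ℝ), ∫⁻ a : ℝ, ENNReal.ofReal (GG a b) ^ m * KK n a b) :=
  K12.closed_case (fun n m hn C α hC h => K5.J1_closed n m hn C α hC h)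
    (fun n m hn C α C3 α3 hC hC3 h1 h2 =>
      K3.beta_closed K1.GG_lower K2.dn_lower L71.KK_ge n m hn C α C3 α3 hC hC3 h1 h2)
    C1 α1 C α C3 α3 hC1 hC hC3 hS.1 hS.2.1 hS.2.2 n m hn hPhi

theorem cell_gen (C1 α1 C α C3 α3 l1 l2 mu' : ℝ) (hC1 : 0 < C1) (hC1' : C1 ≤ 1 / 6) (hC : 0 < C) (hC3 : C ≤ C3)
    (hl1 : 0 < l1) (hl : l1 ≤ l2) (hmu : 0 ≤ mu')
    (hnum : (∀ l ∈ Set.Icc l1 l2, l * (1 - 8 * C1 - 4 * C1 ^ 2) ≤ 4 * C1 + 8 * C1 ^ 2 * l ^ 2) ∧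
      0 ≤ fr C1 α1 C α l1 ∧ 0 ≤ fr C1 α1 C α l2 ∧
      0 ≤ 30 * fr C1 α1 C α l1 + (gr C1 C α C3 α3 mu' + dgr C1 C C3 mu' * (l1 - mu')) + er C C3 30 l1 ∧
      0 ≤ 30 * fr C1 α1 C α l2 + (gr C1 C α C3 α3 mu' + dgr C1 C C3 mu' * (l2 - mu')) + er C C3 30 l1)
    (hS : (∀ x : ℝ, 0 < x → Real.exp α1 * x * Real.exp (-C1 * x ^ 2) ≤ PP x) ∧
      (∀ x : ℝ, 0 < x → Real.exp α * x * Real.exp (-C * x ^ 2) ≤ PP x) ∧
      (∀ x : ℝ, 0 < x → Real.exp α3 * x ^ 3 * Real.exp (-C3 * x ^ 2) ≤ S3 x))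
    (n m : ℕ) (hn : 30 ≤ n) (hm1 : l1 * n ≤ m) (hm2 : (m : ℝ) ≤ l2 * n) :
    1 ≤ ((n + m).choose n : ℝ≥0∞) * (J1 n m *
      ∫⁻ b in Set.Ioi (0 : ℝ), ∫⁻ a : ℝ, ENNReal.ofReal (GG a b) ^ m * KK n a b) := by
  have hn0 : (0 : ℝ) < n := by
    have : 0 < n := by omega
    exact_mod_cast this
  have hn30 : (30 : ℝ) ≤ n := by exact_mod_cast hn
  refine closed_case C1 α1 C α C3 α3 hC1 hC (by linarith) hS n m (by omega) ?_
  exact K10b.cell C1 α1 C α C3 α3 l1 l2 mu' 30 hC1 hC1' hC hC3 hl1 hl hmu (by norm_num)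
    (fun n m hn hm => Phi_ge C1 α1 C α C3 α3 hC1 hC hC3 n m hn hm)
    hnum.1 hnum.2.1 hnum.2.2.1 hnum.2.2.2.1 hnum.2.2.2.2 n m hn30
    (by rw [le_div_iff₀ hn0]; exact hm1) (by rw [div_le_iff₀ hn0]; exact hm2)

theorem P5_prod (n m : ℕ) (hn : 30 ≤ n) (hm : 1 ≤ m) :
    1 ≤ ((n + m).choose n : ℝ≥0∞) * (J1 n m *
      ∫⁻ b in Set.Ioi (0 : ℝ), ∫⁻ a : ℝ, ENNReal.ofReal (GG a b) ^ m * KK n a b) := by
  rcases le_or_gt (30 * n) m with h30 | h30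
  · exact large_case n m hn h30
  have tA := K9A.cell_tangents_A K8.mm_series K8.tan_PP K8.tan_S3
  have tB := K9B.cell_tangents_B K8.mm_series K8.tan_PP K8.tan_S3
  have tC := K9C.cell_tangents_C K8.mm_series K8.tan_PP K8.tan_S3
  have tD := K9D.cell_tangents_D K8.mm_series K8.tan_PP K8.tan_S3
  have tZ := K9Z.cell_tangents_Z K8.tan_PP K8.tan_S3
  have nA := K11A.cell_num_A
  have nB := K11B.cell_num_B
  have nC := K11C.cell_num_C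
  have nD := K11D.cell_num_D
  have h30' : (m : ℝ) ≤ 30 * n := by exact_mod_cast h30.le
  rcases le_or_gt (12 * n) m with h12 | h12
  · have h12' : (12 : ℝ) * n ≤ m := by exact_mod_cast h12
    exact cell_gen _ _ _ _ _ _ 12 30 27 (by norm_num) (by norm_num) (by norm_num) (by norm_num) (by norm_num)
      (by norm_num) (by norm_num) nD tD n m hn h12' h30'
  have h12' : (m : ℝ) ≤ 12 * n := by exact_mod_cast h12.le
  rcases le_or_gt (3 * n) m with h3 | h3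
  · have h3' : (3 : ℝ) * n ≤ m := by exact_mod_cast h3
    exact cell_gen _ _ _ _ _ _ 3 12 7.2 (by norm_num) (by norm_num) (by norm_num) (by norm_num) (by norm_num)
      (by norm_num) (by norm_num) nC tC n m hn h3' h12'
  have h3' : (m : ℝ) ≤ 3 * n := by exact_mod_cast h3.le
  rcases le_or_gt n (2 * m) with h2 | h2
  · have h2' : (n : ℝ) ≤ 2 * m := by exact_mod_cast h2
    exact cell_gen _ _ _ _ _ _ (1 / 2) 3 1.275 (by norm_num) (by norm_num) (by norm_num) (by norm_num) (by norm_num)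
      (by norm_num) (by norm_num) nB tB n m hn (by linarith) h3'
  have h2' : 2 * (m : ℝ) ≤ n := by exact_mod_cast h2.le
  rcases le_or_gt n (36 * m) with h1 | h1
  · have h1' : (n : ℝ) ≤ 36 * m := by exact_mod_cast h1
    exact cell_gen _ _ _ _ _ _ (1 / 36) (1 / 2) (1 / 36) (by norm_num) (by norm_num) (by norm_num) (by norm_num)
      (by norm_num) (by norm_num) (by norm_num) nA tA n m hn (by linarith) (by linarith)
  · have hPhi := K10z.cell_zero Pool.Agent.VP.C5.c5_c0 (fun C1 α1 C α C3 α3 h1 h2 h3 n m hn hm =>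
      Phi_ge C1 α1 C α C3 α3 h1 h2 h3 n m hn hm) n m hm h1.le
    exact closed_case _ _ _ _ _ _ (by norm_num) (by norm_num) (by norm_num) ⟨tZ.1, tZ.1, tZ.2⟩ n m
      (by omega) hPhi

theorem P5_scalar (n m : ℕ) (hn : 30 ≤ n) (hm : 1 ≤ m) :
    1 ≤ ((n + m).choose n : ℝ≥0∞) *
      ∫⁻ x, (∫⁻ b in Set.Ioi (0 : ℝ), ∫⁻ a : ℝ, QQ (|x| / √(n : ℝ)) a b ^ m * KK n a b)
        ∂(gaussianReal 0 1) := by
  refine (P5_prod n m hn hm).trans ?_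
  gcongr
  exact K7.factor (fun H a b hH hb => L65.QQ_ge_GG H a b hH hb) n m (by omega)

end Pool.Agent.VPK
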